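import Pool.Agent.P.MP_46a8f8_ag.Base

/-!
Assembly, first part: the invariant and the comparison argument.
-/

namespace Pool.Agent.P.MP_46a8f8_ag

open TensorProduct Function IsLocalRing

universe u

namespace Asm1P

theorem exists_adj {R M : Type u} [CommRing R] [AddCommGroup M] [Module R M] [Module.Free R M]
    [Module.Finite R M] (φ : M →ₗ[R] M) :
    ∃ ψ : M →ₗ[R] M, (∀ x, φ (ψ x) = LinearMap.det φ • x) ∧ ∀ x, ψ (φ x) = LinearMap.det φ • x := by
  classical
  let b := Module.Free.chooseBasis R M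
  refine ⟨Matrix.toLin b b (LinearMap.toMatrix b b φ).adjugate, fun x => ?_, fun x => ?_⟩
  · have h := congrArg (Matrix.toLin b b) (Matrix.mul_adjugate (LinearMap.toMatrix b b φ))
    rw [Matrix.toLin_mul b b b, Matrix.toLin_toMatrix, LinearMap.det_toMatrix, map_smul,
      Matrix.toLin_one] at h
    exact LinearMap.congr_fun h x
  · have h := congrArg (Matrix.toLin b b) (Matrix.adjugate_mul (LinearMap.toMatrix b b φ))
    rw [Matrix.toLin_mul b b b, Matrix.toLin_toMatrix, LinearMap.det_toMatrix, map_smul,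
      Matrix.toLin_one] at h
    exact LinearMap.congr_fun h x

theorem tower {R A : Type u} [CommRing R] [Ring A] [Algebra R A] (M : Type u) [AddCommGroup M]
    [Module A M] : letI := Module.compHom M (algebraMap R A); IsScalarTower R A M :=
  letI := Module.compHom M (algebraMap R A)
  ⟨fun r a m => by rw [Algebra.smul_def, mul_smul]; rfl⟩

variable {R A Ω : Type u} [CommRing R] [Ring A] [Algebra R A] [Field Ω] [Algebra R Ω]
  {n : ℕ} {Φ : A →ₐ[R] Matrix (Fin n) (Fin n) Ω}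

theorem kill_span [Module.Free R A] [Module.Finite R A] (a : A)
    (m : A ⧸ Submodule.span A {a}) :
    algebraMap R A (LinearMap.det (LinearMap.mulRight R a)) • m = 0 := by
  obtain ⟨ψ, h1, -⟩ := exists_adj (LinearMap.mulRight R a)
  obtain ⟨x, rfl⟩ := Submodule.mkQ_surjective _ m
  rw [← map_smul, Submodule.mkQ_apply, Submodule.Quotient.mk_eq_zero, algebraMap_smul, ← h1]
  exact Submodule.mem_span_singleton.2 ⟨ψ x, rfl⟩

theorem det_ne_zero (hD : S_DetR.{u}) (hS : Setup R A Ω n Φ) (a : A) (ha : (Φ a).det ≠ 0) :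
    LinearMap.det (LinearMap.mulRight R a) ≠ 0 := fun h => by
  have := hD R A Ω n Φ hS a
  rw [h, map_zero] at this
  exact pow_ne_zero n ha this.symm

theorem good_span [IsDomain R] (hD : S_DetR.{u}) (hS : Setup R A Ω n Φ) (a : A)
    (ha : (Φ a).det ≠ 0) : Good R (LinearMap.toSpanSingleton A A a) := by
  have := hS.free
  have := hS.finite
  have h0 := det_ne_zero hD hS a ha
  obtain ⟨ψ, -, h2⟩ := exists_adj (LinearMap.mulRight R a)
  refine ⟨(injective_iff_map_eq_zero _).2 fun x hx => ?_, inferInstance, _, h0, ?_⟩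
  · have h3 := h2 x
    have : LinearMap.mulRight R a x = 0 := hx
    rw [this, map_zero] at h3
    exact (smul_eq_zero.1 h3.symm).resolve_left h0
  · rw [← LinearMap.span_singleton_eq_range]
    exact kill_span a

theorem nu_ne_zero (hS : Setup R A Ω n Φ) {F : Type u} [AddCommGroup F] [Module A F]
    [Module.Finite A F] (φ : F →ₗ[A] F) (h : Good R φ) : nu Φ φ ≠ 0 := by
  obtain ⟨h1, -, r, hr, h2⟩ := h
  let ρ : F →ₗ[A] F :=
    { toFun := fun x => algebraMap R A r • x
      map_add' := smul_add _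
      map_smul' := fun c x => by
        rw [RingHom.id_apply, smul_smul, smul_smul, Algebra.commutes] }
  have h3 : ∀ x, ρ x ∈ LinearMap.range φ := fun x => by
    have := h2 (Submodule.Quotient.mk x)
    rwa [← Submodule.Quotient.mk_smul, Submodule.Quotient.mk_eq_zero] at this
  let φ' : F →ₗ[A] F :=
    (LinearEquiv.ofInjective φ h1).symm.toLinearMap ∘ₗ ρ.codRestrict _ h3
  have h4 : φ ∘ₗ φ' = ρ := by
    refine LinearMap.ext fun x => ?_
    exact LinearEquiv.ofInjective_symm_apply φ (h := h1) (ρ.codRestrict _ h3 x)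
  have h5 := nu_ne_zero_of_smul Φ ρ r ((map_ne_zero_iff _ hS.inj).2 hr) fun _ => rfl
  rw [← h4, nu_comp] at h5
  exact left_ne_zero_of_mul h5

open Classical in
/-- the class of the reduced norm -/
noncomputable def theta (Φ : A →ₐ[R] Matrix (Fin n) (Fin n) Ω) (F : Type u) [AddCommGroup F]
    [Module A F] (φ : F →ₗ[A] F) : Ωˣ ⧸ nrdU Φ :=
  if h : nu Φ φ = 0 then 1 else QuotientGroup.mk (Units.mk0 _ h)

theorem theta_eq {F : Type u} [AddCommGroup F] [Module A F] (φ : F →ₗ[A] F) (x : Ωˣ)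
    (h : nu Φ φ = x) : theta Φ F φ = QuotientGroup.mk x := by
  have h0 : nu Φ φ ≠ 0 := h ▸ x.ne_zero
  rw [theta, dif_neg h0]
  congr 1
  exact Units.ext h

theorem isTheta [IsLocalRing R] [IsNoetherianRing R] (hN : S_N2.{u}) (hS : Setup R A Ω n Φ) :
    IsTheta R (theta Φ) where
  comp F _ _ _ _ φ φ' h h' := by
    have h1 := nu_ne_zero hS φ h
    have h2 := nu_ne_zero hS φ' h'
    rw [theta_eq φ (Units.mk0 _ h1) rfl, theta_eq φ' (Units.mk0 _ h2) rfl,
      theta_eq (φ ∘ₗ φ') (Units.mk0 _ h1 * Units.mk0 _ h2) (nu_comp Φ φ φ'), QuotientGroup.mk_mul]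
  bij F _ _ _ _ φ h := by
    obtain ⟨y, hy⟩ := hN R A Ω n Φ hS F φ h
    rw [theta_eq φ (Units.map ((Matrix.detMonoidHom).comp
      (Φ : A →* Matrix (Fin n) (Fin n) Ω)) y) hy, QuotientGroup.eq_one_iff]
    exact ⟨y, rfl⟩
  prod F F' _ _ _ _ _ _ _ _ φ φ' h h' := by
    have h1 := nu_ne_zero hS φ h
    have h2 := nu_ne_zero hS φ' h'
    rw [theta_eq φ (Units.mk0 _ h1) rfl, theta_eq φ' (Units.mk0 _ h2) rfl,
      theta_eq (φ.prodMap φ') (Units.mk0 _ h1 * Units.mk0 _ h2) (nu_prodMap Φ φ φ'),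
      QuotientGroup.mk_mul]

theorem equiv_bot {M : Type u} [AddCommGroup M] [Module R M] [Module.Free R M]
    [Module.Finite R M] [Nontrivial R] :
    Nonempty (M ≃ₗ[R] (Fin (Module.finrank R M) → R ⧸ (⊥ : Ideal R))) :=
  ⟨(Module.finBasis R M).equivFun.trans (LinearEquiv.piCongrRight fun _ =>
    (Submodule.quotEquivOfEqBot (⊥ : Ideal R) rfl).symm)⟩

theorem h2 [IsDomain R] [IsLocalRing R] [IsNoetherianRing R] [Module.Free R A]
    [Module.Finite R A] (hF : S_LemF.{u}) (hA : Az R A) (F : Type u) [AddCommGroup F]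
    [Module A F] [Module.Free A F] [Module.Finite A F] (K : Submodule A F)
    (hK : Module.Projective A K) (hT : Tors R A (F ⧸ K)) : Nonempty (K ≃ₗ[A] F) := by
  have := isNoetherianRing_alg R A
  let := Module.compHom F (algebraMap R A)
  have := tower (R := R) (A := A) F
  have : Module.Finite R F := Module.Finite.trans A F
  have : Module.Free R F := Module.Free.trans (S := A)
  have : Module.Finite R K := Module.Finite.trans A K
  have : Module.Projective R K := by
    obtain ⟨k, p, hp⟩ := Module.Finite.exists_fin' A K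
    obtain ⟨s, hs⟩ := Module.projective_lifting_property p LinearMap.id hp
    exact Module.Projective.of_split (s.restrictScalars R) (p.restrictScalars R)
      (LinearMap.ext fun x => LinearMap.congr_fun hs x)
  have : Module.Free R K := Module.free_of_flat_of_isLocalRing
  have e : Module.finrank R K = Module.finrank R F := by
    obtain ⟨-, r, hr, h⟩ := hT
    refine le_antisymm (LinearMap.finrank_le_finrank_of_injective
      (f := K.subtype.restrictScalars R) K.injective_subtype) ?_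
    have h3 : ∀ x : F, r • x ∈ K := fun x => by
      have := h (Submodule.Quotient.mk x)
      rwa [← Submodule.Quotient.mk_smul, Submodule.Quotient.mk_eq_zero] at this
    let g : F →ₗ[R] K :=
      { toFun := fun x => ⟨r • x, h3 x⟩
        map_add' := fun x y => Subtype.ext (smul_add r x y)
        map_smul' := fun c x => Subtype.ext (smul_comm r c x) }
    refine LinearMap.finrank_le_finrank_of_injective (f := g) fun x y hxy => ?_
    exact smul_right_injective F hr (congrArg Subtype.val hxy)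
  exact hF R A K F ⊥ (Module.finrank R F) hA (e ▸ equiv_bot) equiv_bot

end Asm1P

open Asm1P

variable {R A Ω : Type u} [CommRing R] [Ring A] [Algebra R A] [Field Ω] [Algebra R Ω]
  {n : ℕ} {Φ : A →ₐ[R] Matrix (Fin n) (Fin n) Ω}

theorem exists_dim (O : Type u) [CommRing O] [IsRegularLocalRing O] :
    ∃ d : ℕ, ringKrullDim O = d :=
  ⟨_, ((isRegularLocalRing_iff O).1 inferInstance).symm⟩

/-- the additive invariant given by the reduced norm -/
theorem exists_chi [IsRegularLocalRing R] (hDom : S_RegDom.{u}) (hD : S_DetR.{u}) (hN : S_N2.{u})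
    (hF : S_LemF.{u}) (hC : S_Chi1.{u}) (hR : S_Res.{u}) (hP : S_PdA.{u}) (hP' : S_PdReg.{u})
    (hS : Setup R A Ω n Φ) :
    ∃ χ : Inv A (Ωˣ ⧸ nrdU Φ), IsAdd R χ ∧ ∀ (a : A) (x : Ωˣ), (Φ a).det = x →
      χ (A ⧸ Submodule.span A {a}) = QuotientGroup.mk x := by
  have := hDom R
  have := hS.free
  have := hS.finite
  have := isNoetherianRing_alg R A
  obtain ⟨χ₁, h1, h1'⟩ := hC R A _ (theta Φ) (isTheta hN hS) (h2 hF hS.az)
  have tf : ∀ (r : R) (a : A), r ≠ 0 → algebraMap R A r * a = 0 → a = 0 := fun r a hr h => by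
    rw [← Algebra.smul_def] at h
    exact (smul_eq_zero.1 h).resolve_left hr
  have step : ∀ r : ℕ, ∃ χ : Inv A (Ωˣ ⧸ nrdU Φ), IsAddPD R χ (r + 1) ∧
      ∀ (M : Type u) [AddCommGroup M] [Module A M], Tors R A M → PD A M 1 → χ M = χ₁ M := by
    intro r
    induction r with
    | zero => exact ⟨χ₁, h1, fun _ _ _ _ _ => rfl⟩
    | succ r ih =>
      obtain ⟨χ, h, h'⟩ := ih
      obtain ⟨χ', k, k'⟩ := hR R A _ tf χ (r + 1) (by omega) h
      exact ⟨χ', k, fun M _ _ hM hM' => (k' M hM (hM'.mono (by omega))).trans (h' M hM hM')⟩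
  obtain ⟨d, hd⟩ := exists_dim R
  obtain ⟨χ, h, h'⟩ := step d
  have pd : ∀ (M : Type u) [AddCommGroup M] [Module A M], Module.Finite A M → PD A M (d + 1) := by
    intro M _ _ hM
    let := Module.compHom M (algebraMap R A)
    have := tower (R := R) (A := A) M
    have : Module.Finite R M := Module.Finite.trans A M
    exact (hP R A hS.az d M (hP' d R hd M)).mono (Nat.le_succ d)
  refine ⟨χ, fun M₁ M₂ M₃ _ _ _ _ _ _ f g hf hfg hg hT => h M₁ M₂ M₃ f g hf hfg hg hT
    (pd _ (hT.of_injective f hf).1) (pd _ hT.1) (pd _ (hT.of_surjective g hg).1),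
    fun a x hx => ?_⟩
  have hg := good_span hD hS a (hx ▸ x.ne_zero)
  rw [LinearMap.span_singleton_eq_range, h' _ hg.2, h1' A _ hg,
    theta_eq _ x ((nu_toSpanSingleton Φ a).trans hx)]
  exact PD.right (LinearMap.toSpanSingleton A A a) (Submodule.mkQ _) hg.1
    (LinearMap.exact_map_mkQ_range _) (Submodule.mkQ_surjective _) (PD.of_projective 0)
    (PD.of_projective 1)

/-- the comparison argument -/
theorem main_cmp [IsRegularLocalRing R] (hDom : S_RegDom.{u}) (hD : S_DetR.{u}) (hN : S_N2.{u})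
    (hF : S_LemF.{u}) (hC : S_Chi1.{u}) (hR : S_Res.{u}) (hP : S_PdA.{u}) (hP' : S_PdReg.{u})
    (hL : S_Len.{u}) (hM : S_Cmp.{u}) (hS : Setup R A Ω n Φ) (v : Rˣ) (a : A) (f : R)
    (hf : f ≠ 0) (h : (Φ a).det = algebraMap R Ω (v * f ^ n))
    (hV : ∀ (Γ : Type u) [CommGroup Γ] (ψ : Inv A Γ), IsAdd R ψ → ∀ 𝔭 : Ideal R, 𝔭.IsPrime →
      f ∈ 𝔭 → 2 ≤ 𝔭.height → Van ψ 𝔭) :
    ∃ y : Aˣ, (Φ y).det = algebraMap R Ω v := by
  classical
  have := hDom R
  have := hS.free
  have := hS.finite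
  obtain ⟨χ, h1, h2⟩ := exists_chi hDom hD hN hF hC hR hP hP' hS
  have hf' : algebraMap R Ω f ≠ 0 := (map_ne_zero_iff _ hS.inj).2 hf
  let x : Ωˣ := Units.mk0 _ hf'
  let w : Ωˣ := Units.map (algebraMap R Ω : R →* Ω) v
  have e1 : (Φ a).det = (w * x ^ n : Ωˣ) := by simp [h, w, x]
  have e2 : (Φ (algebraMap R A f)).det = (x ^ n : Ωˣ) := by
    rw [AlgHom.commutes, Algebra.algebraMap_eq_smul_one, ← algebraMap_smul Ω f, Matrix.det_smul]
    simp [x]
  have hdet : LinearMap.det (LinearMap.mulRight R a) = v ^ n * f ^ Module.finrank R A := by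
    apply hS.inj
    rw [hD R A Ω n Φ hS a, h, hS.rank, ← map_pow, mul_pow, ← pow_mul, pow_two]
  have hass : Associated (LinearMap.det (LinearMap.mulRight R a)) (f ^ Module.finrank R A) := by
    rw [hdet, mul_comm]
    exact (associated_mul_unit_left _ _ (v.isUnit.pow n))
  choose ℓ₀ hℓ₀ using fun (𝔭 : Ideal R) (h𝔭 : 𝔭.IsPrime) (h : 𝔭.height = 1) => hL R A 𝔭 h
  let ℓ : Ideal R → ∀ (M : Type u) [AddCommGroup M] [Module A M], ℕ := fun 𝔭 =>
    if h : 𝔭.IsPrime ∧ 𝔭.height = 1 then ℓ₀ 𝔭 h.1 h.2 else fun _ => 0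
  have hℓ : ∀ 𝔭 (h1 : 𝔭.IsPrime) (h2 : 𝔭.height = 1), ℓ 𝔭 = ℓ₀ 𝔭 h1 h2 := fun 𝔭 h1 h2 =>
    dif_pos ⟨h1, h2⟩
  have key := hM R A _ χ f hS.az h1 hf (hV _ χ h1) ℓ
    (fun 𝔭 p1 p2 => by rw [hℓ 𝔭 p1 p2]; exact ⟨(hℓ₀ 𝔭 p1 p2).1, (hℓ₀ 𝔭 p1 p2).2.1⟩)
    (Module.finrank R A + 1) (A ⧸ Submodule.span A {a})
    (A ⧸ Submodule.span A {algebraMap R A f}) inferInstance inferInstance
    (fun m => by
      obtain ⟨c, hc⟩ := hass
      rw [pow_succ', ← hc, mul_comm _ (c : R), ← mul_assoc, map_mul, mul_smul, kill_span,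
        smul_zero])
    (fun m => by
      obtain ⟨y, rfl⟩ := Submodule.mkQ_surjective _ m
      rw [← map_smul, Submodule.mkQ_apply, Submodule.Quotient.mk_eq_zero, pow_succ, map_mul,
        smul_eq_mul, mul_assoc, Algebra.commutes f, ← mul_assoc]
      exact Submodule.mem_span_singleton.2 ⟨_, rfl⟩)
    (fun 𝔭 p1 p2 => by rw [hℓ 𝔭 p1 p2]; exact (hℓ₀ 𝔭 p1 p2).2.2 a f hf hass)
  rw [h2 a _ e1, h2 _ _ e2, QuotientGroup.eq] at key
  obtain ⟨y, hy⟩ := (nrdU Φ).inv_mem key
  rw [mul_inv_rev, inv_inv, mul_comm, mul_inv_cancel_right] at hy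
  exact ⟨y, congrArg Units.val hy⟩

end Pool.Agent.P.MP_46a8f8_ag
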