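import Pool.Agent.P.MP_46a8f8_ag.Asm1

/-!
Assembly, second part.
-/

namespace Pool.Agent.P.MP_46a8f8_ag

open TensorProduct Function IsLocalRing Polynomial

universe u

/-- all packages -/
structure Pk : Prop where
  azOf : S_AzOf.{u}
  bc : S_BC.{u}
  sp : S_Sp.{u}
  dom : S_RegDom.{u}
  detR : S_DetR.{u}
  n2 : S_N2.{u}
  lemF : S_LemF.{u}
  chi1 : S_Chi1.{u}
  res : S_Res.{u}
  pdA : S_PdA.{u}
  pdReg : S_PdReg.{u}
  len : S_Len.{u}
  cmp : S_Cmp.{u}
  regAt : S_RegAt.{u}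
  closed : S_Closed.{u}
  curve : S_Curve.{u}
  struct : S_Struct.{u}
  regB : S_RegB.{u}
  qv : S_QV.{u}

theorem Pk.regAt_self (H : Pk.{u}) (O : Type u) [CommRing O] [IsRegularLocalRing O] (d : ℕ)
    (hd : ringKrullDim O = d) : RegAt O (maximalIdeal O) d := by
  have : IsLocalization.AtPrime O (maximalIdeal O) :=
    IsLocalization.of_le_isUnit fun x hx =>
      (IsUnit.mem_submonoid_iff x).2 (by simpa using hx)
  exact (H.regAt O O (maximalIdeal O) d).2 ⟨inferInstance, hd⟩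

variable {R A Ω : Type u} [CommRing R] [Ring A] [Algebra R A] [Field Ω] [Algebra R Ω]
  {n : ℕ} {Φ : A →ₐ[R] Matrix (Fin n) (Fin n) Ω}

/-- dimension at most three, infinite residue field -/
theorem Pk.d3 (H : Pk.{u}) [IsRegularLocalRing R] [Infinite (ResidueField R)]
    (hd : ringKrullDim R ≤ 3) (hS : Setup R A Ω n Φ) : GSN Φ := by
  intro v a f hf h
  have := H.dom R
  have := hS.free
  have := hS.finite
  refine main_cmp H.dom H.detR H.n2 H.lemF H.chi1 H.res H.pdA H.pdReg H.len H.cmp hS v a f hf h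
    fun Γ _ ψ hψ 𝔭 h𝔭 _ h2 => ?_
  have hm : (maximalIdeal R).height ≤ 3 := by
    rw [← maximalIdeal_height_eq_ringKrullDim] at hd
    exact WithBot.coe_le_coe.1 hd
  have h2' : (2 : ℕ∞) ≤ (maximalIdeal R).height :=
    h2.trans (Ideal.height_mono (le_maximalIdeal h𝔭.ne_top))
  have hc : Van ψ (maximalIdeal R) := H.closed R A Γ ψ (by
    rw [← maximalIdeal_height_eq_ringKrullDim]
    exact WithBot.coe_le_coe.2 h2') hS.az hψ
  by_cases h𝔪 : 𝔭 = maximalIdeal R
  · exact h𝔪 ▸ hc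
  have hlt : 𝔭 < maximalIdeal R := lt_of_le_of_ne (le_maximalIdeal h𝔭.ne_top) h𝔪
  have h3 : (maximalIdeal R).height = 3 := by
    refine le_antisymm hm ?_
    calc (3 : ℕ∞) = 2 + 1 := by norm_num
      _ ≤ 𝔭.height + 1 := by gcongr
      _ ≤ _ := Ideal.height_add_one_le_of_lt_of_isPrime hlt
  refine H.curve R A Γ ψ 𝔭 (H.regAt_self R 3 ?_) hS.az hψ hc h𝔭 ?_ h𝔪 fun 𝔮 h𝔮 hpq => ?_
  · rw [← maximalIdeal_height_eq_ringKrullDim, h3]
    rfl
  · rintro rfl
    rw [Ideal.height_bot] at h2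
    exact absurd h2 (by norm_num)
  · by_contra hne
    have hlt' : 𝔮 < maximalIdeal R := lt_of_le_of_ne (le_maximalIdeal h𝔮.ne_top) hne
    have : (4 : ℕ∞) ≤ 3 :=
      calc (4 : ℕ∞) = 2 + 1 + 1 := by norm_num
        _ ≤ 𝔭.height + 1 + 1 := by gcongr
        _ ≤ 𝔮.height + 1 := by
          gcongr
          exact Ideal.height_add_one_le_of_lt_of_isPrime hpq
        _ ≤ (maximalIdeal R).height := Ideal.height_add_one_le_of_lt_of_isPrime hlt'
        _ = 3 := h3
    exact absurd this (by norm_num)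

theorem exists_smul_eq_one_tmul (S : Submonoid R) (O : Type u) [CommRing O] [Algebra R O]
    [IsLocalization S O] (y : O ⊗[R] A) :
    ∃ (s : S) (a : A), algebraMap R O s • y = (1 : O) ⊗ₜ[R] a := by
  induction y using TensorProduct.induction_on with
  | zero => exact ⟨1, 0, by simp⟩
  | tmul o a =>
    obtain ⟨⟨r, s⟩, h⟩ := IsLocalization.surj S o
    refine ⟨s, r • a, ?_⟩
    rw [TensorProduct.smul_tmul', smul_eq_mul, mul_comm, h, ← TensorProduct.smul_tmul,
      Algebra.algebraMap_eq_smul_one]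
  | add y z hy hz =>
    obtain ⟨s, a, h⟩ := hy
    obtain ⟨t, b, h'⟩ := hz
    refine ⟨s * t, (t : R) • a + (s : R) • b, ?_⟩
    rw [smul_add, Submonoid.coe_mul, map_mul, mul_smul _ _ z, h', mul_comm, mul_smul, h,
      TensorProduct.tmul_add, TensorProduct.tmul_smul, TensorProduct.tmul_smul, algebraMap_smul,
      algebraMap_smul]

/-- the smooth case when the special fibre has positive dimension -/
theorem Pk.smooth₀ (H : Pk.{u}) (B : Type u) [CommRing B] [IsRegularLocalRing B]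
    (hB : ringKrullDim B ≤ 3) [IsLocalRing R] [Algebra B R] [IsLocalHom (algebraMap B R)]
    [Algebra.FormallySmooth B R] [Algebra.EssFiniteType B R]
    (hne : (maximalIdeal B).map (algebraMap B R) ≠ maximalIdeal R) (hS : Setup R A Ω n Φ) :
    GSN Φ := by
  intro v a f hf h
  have := Algebra.EssFiniteType.isNoetherianRing B R
  obtain ⟨e, he⟩ := exists_dim B
  obtain ⟨m, φ, hφ⟩ := H.struct B R
  obtain ⟨hR, h𝔓, hreg⟩ := H.regB B R m e φ hφ (H.regAt_self B e he)
  have := H.dom R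
  have := hS.free
  have := hS.finite
  set 𝔓 := (maximalIdeal B).map (algebraMap B R) with h𝔓def
  let O := Localization.AtPrime 𝔓
  obtain ⟨hO, hO'⟩ := (H.regAt R O 𝔓 e).1 hreg
  have hu : ∀ s : 𝔓.primeCompl, IsUnit (algebraMap R Ω s) := fun s =>
    ((map_ne_zero_iff _ hS.inj).2 fun h0 : (s : R) = 0 => s.2 (h0 ▸ 𝔓.zero_mem)).isUnit
  let : Algebra O Ω := (IsLocalization.lift (M := 𝔓.primeCompl) hu).toAlgebra
  have hc : ∀ r : R, algebraMap O Ω (algebraMap R O r) = algebraMap R Ω r := fun r =>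
    IsLocalization.lift_eq hu r
  have hi : Injective (algebraMap O Ω) := by
    refine (IsLocalization.lift_injective_iff hu).2 fun x y => ⟨fun hxy => ?_, fun hxy => ?_⟩
    · rw [← hc, ← hc, hxy]
    · rw [hS.inj hxy]
  have hi' : Injective (algebraMap R O) := fun x y hxy => hS.inj (by rw [← hc, ← hc, hxy])
  obtain ⟨Φ', hS', hΦ'⟩ := H.bc R A Ω O Ω n Φ hS hc hi
  have hΦ'' : ∀ a : A, Φ' ((1 : O) ⊗ₜ[R] a) = Φ a := fun a => (hΦ' a).trans (by ext; rfl)
  have : Infinite (R ⧸ 𝔓) := by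
    by_contra hfin
    have := not_infinite_iff_finite.1 hfin
    exact hne (eq_maximalIdeal (Ideal.Quotient.maximal_of_isField 𝔓
      (Finite.isField_of_domain (R ⧸ 𝔓))))
  have : Infinite (ResidueField O) :=
    Infinite.of_injective _ (IsFractionRing.injective (R ⧸ 𝔓) 𝔓.ResidueField)
  obtain ⟨y, hy⟩ := H.d3 (R := O) (by rw [hO', ← he]; exact hB) hS'
    (Units.map (algebraMap R O : R →* O) v) ((1 : O) ⊗ₜ[R] a) (algebraMap R O f)
    ((map_ne_zero_iff _ hi').2 hf) (by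
      rw [hΦ'', h, ← hc, map_mul, map_pow]
      rfl)
  obtain ⟨s, a', h'⟩ := exists_smul_eq_one_tmul 𝔓.primeCompl O (y : O ⊗[R] A)
  have hs0 : (s : R) ≠ 0 := fun h0 => s.2 (h0 ▸ 𝔓.zero_mem)
  refine main_cmp H.dom H.detR H.n2 H.lemF H.chi1 H.res H.pdA H.pdReg H.len H.cmp hS v a' s hs0
    ?_ fun Γ _ ψ hψ 𝔭 h𝔭 hs h2 => H.qv B R A Γ ψ m φ 𝔭 hφ h𝔓 hS.az hψ h𝔭 h2 fun hle =>
      s.2 (hle hs)
  rw [← hΦ'', ← h', map_smul, ← algebraMap_smul Ω, Matrix.det_smul, hy, hc, Fintype.card_fin,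
    map_mul, map_pow, mul_comm]
  congr 1
  exact hc v

/-- the smooth case -/
theorem Pk.smooth (H : Pk.{u}) (B : Type u) [CommRing B] [IsRegularLocalRing B]
    (hB : ringKrullDim B ≤ 3) [IsLocalRing R] [Algebra B R] [IsLocalHom (algebraMap B R)]
    [Algebra.FormallySmooth B R] [Algebra.EssFiniteType B R] (hS : Setup R A Ω n Φ) :
    GSN Φ := by
  let 𝔮 := (maximalIdeal R).comap (evalRingHom (0 : R))
  let Rq := Localization.AtPrime 𝔮
  obtain ⟨Ω', _, _, Φ', hS', h⟩ := H.sp R Rq A Ω n Φ hS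
  have hm : ∀ r ∈ maximalIdeal R, algebraMap R Rq r ∈ maximalIdeal Rq := fun r hr => by
    rw [IsScalarTower.algebraMap_apply R R[X] Rq, IsLocalization.AtPrime.to_map_mem_maximal_iff
      Rq 𝔮]
    simpa [𝔮] using hr
  have : IsLocalHom (algebraMap R Rq) := ((local_hom_TFAE (algebraMap R Rq)).out 3 0).1 hm
  have : IsLocalHom (algebraMap B Rq) := by
    rw [IsScalarTower.algebraMap_eq B R Rq]
    infer_instance
  have : Algebra.FormallySmooth R Rq := Algebra.FormallySmooth.comp R R[X] Rq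
  have : Algebra.FormallySmooth B Rq := Algebra.FormallySmooth.comp B R Rq
  have : Algebra.EssFiniteType R Rq := Algebra.EssFiniteType.comp R R[X] Rq
  have : Algebra.EssFiniteType B Rq := Algebra.EssFiniteType.comp B R Rq
  refine h (H.smooth₀ B hB (fun he => ?_) hS')
  have h1 : algebraMap R[X] Rq X ∈ maximalIdeal Rq := by
    rw [IsLocalization.AtPrime.to_map_mem_maximal_iff Rq 𝔮]
    simp [𝔮]
  have h2 : (maximalIdeal B).map (algebraMap B Rq) ≤
      ((maximalIdeal R).map (C : R →+* R[X])).map (algebraMap R[X] Rq) := by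
    rw [Ideal.map_le_iff_le_comap]
    intro b hb
    rw [Ideal.mem_comap, IsScalarTower.algebraMap_apply B R Rq,
      IsScalarTower.algebraMap_apply R R[X] Rq]
    exact Ideal.mem_map_of_mem _ (Ideal.mem_map_of_mem _ (map_nonunit _ b hb))
  rw [← he] at h1
  obtain ⟨g, hg, hgX⟩ := (IsLocalization.algebraMap_mem_map_algebraMap_iff 𝔮.primeCompl Rq _ _).1
    (h2 h1)
  have h3 := Ideal.mem_map_C_iff.1 hgX 1
  rw [coeff_mul_X, coeff_zero_eq_eval_zero] at h3
  exact hg h3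

end Pool.Agent.P.MP_46a8f8_ag
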