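import Mathlib

/-!
The group of elements of reduced norm one of an Azumaya algebra, and its torsors.
-/

namespace Pool.Agent.P.MP_46a8f8_ag

open TensorProduct

universe u

/-- The map `S ⊗ A → S' ⊗ A` induced by a map of commutative `R`-algebras. -/
noncomputable def mp {R : Type u} (A : Type u) [CommRing R] [Ring A] [Algebra R A]
    {S S' : Type u} [CommRing S] [Algebra R S] [CommRing S'] [Algebra R S'] (f : S →ₐ[R] S') :
    S ⊗[R] A →ₐ[R] S' ⊗[R] A :=
  Algebra.TensorProduct.map f (AlgHom.id R A)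

/-- The group `SL₁(A)(S)`: the units of `S ⊗ A` which have determinant one in every splitting
over every `S`-algebra. -/
def SL1 (R A : Type u) [CommRing R] [Ring A] [Algebra R A] (S : Type u) [CommRing S]
    [Algebra R S] : Subgroup (S ⊗[R] A)ˣ where
  carrier := {g | ∀ (S' : Type u) [CommRing S'] [Algebra R S'] (f : S →ₐ[R] S') (n : ℕ)
    (Φ : S' ⊗[R] A ≃ₐ[S'] Matrix (Fin n) (Fin n) S'), (Φ (mp A f (g : S ⊗[R] A))).det = 1}
  one_mem' := fun S' _ _ f n Φ => by simp
  mul_mem' := fun {a b} ha hb S' _ _ f n Φ => by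
    rw [Units.val_mul, map_mul, map_mul, Matrix.det_mul, ha S' f n Φ, hb S' f n Φ, mul_one]
  inv_mem' := fun {a} ha S' _ _ f n Φ => by
    have h : (Φ (mp A f (a : S ⊗[R] A))).det * (Φ (mp A f ((a⁻¹ : (S ⊗[R] A)ˣ) : S ⊗[R] A))).det
        = 1 := by
      rw [← Matrix.det_mul, ← map_mul, ← map_mul, Units.mul_inv, map_one, map_one, Matrix.det_one]
    rwa [ha S' f n Φ, one_mul] at h

/-- An `SL₁(A)`-torsor structure on `Spec O`: `O` is faithfully flat over `R`, and for every
commutative `R`-algebra `S` the group `SL₁(A)(S)` acts simply transitively on the set of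
`S`-points of `Spec O`, naturally in `S`. -/
structure Torsor (R A : Type u) [CommRing R] [Ring A] [Algebra R A] (O : Type u) [CommRing O]
    [Algebra R O] : Type (u + 1) where
  /-- `Spec O → Spec R` is a faithfully flat cover -/
  ff : Module.FaithfullyFlat R O
  /-- the action on `S`-points -/
  act : ∀ (S : Type u) [CommRing S] [Algebra R S], SL1 R A S → (O →ₐ[R] S) → (O →ₐ[R] S)
  one_act : ∀ (S : Type u) [CommRing S] [Algebra R S] (p : O →ₐ[R] S), act S 1 p = p
  mul_act : ∀ (S : Type u) [CommRing S] [Algebra R S] (g h : SL1 R A S) (p : O →ₐ[R] S),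
    act S (g * h) p = act S g (act S h p)
  natural : ∀ (S S' : Type u) [CommRing S] [Algebra R S] [CommRing S'] [Algebra R S']
    (f : S →ₐ[R] S') (g : SL1 R A S) (g' : SL1 R A S') (p : O →ₐ[R] S),
    mp A f ((g : (S ⊗[R] A)ˣ) : S ⊗[R] A) = ((g' : (S' ⊗[R] A)ˣ) : S' ⊗[R] A) →
      f.comp (act S g p) = act S' g' (f.comp p)
  simply_transitive : ∀ (S : Type u) [CommRing S] [Algebra R S] (p q : O →ₐ[R] S),
    ∃! g : SL1 R A S, act S g p = q

end Pool.Agent.P.MP_46a8f8_ag
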