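import Pool.Agent.P.MP_46a8f8_ag.Base
import Pool.Agent.P.MP_46a8f8_ag.Tor

/-!
Statements of the packages, second series.
-/

namespace Pool.Agent.P.MP_46a8f8_ag

open TensorProduct Polynomial IsLocalRing Function

universe u

def S_AzBC : Prop :=
  ∀ (R A R' : Type u) [CommRing R] [Ring A] [Algebra R A] [CommRing R'] [Algebra R R'],
    Az R A → Az R' (R' ⊗[R] A)

def S_Wed : Prop :=
  ∀ (K A : Type u) [Field K] [IsAlgClosed K] [Ring A] [Algebra K A] [Module.Finite K A],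
    Az K A → ∃ n : ℕ, Nonempty (A ≃ₐ[K] Matrix (Fin n) (Fin n) K)

def S_UD : Prop :=
  ∀ (S B : Type u) [CommRing S] [Ring B] [Algebra S B] (n m : ℕ)
    (Φ : B ≃ₐ[S] Matrix (Fin n) (Fin n) S) (Φ' : B ≃ₐ[S] Matrix (Fin m) (Fin m) S) (x : B),
    (Φ x).det = (Φ' x).det

def S_Split : Prop :=
  ∀ (R A : Type u) [CommRing R] [IsLocalRing R] [IsNoetherianRing R] [Ring A] [Algebra R A]
    [Module.Free R A] [Module.Finite R A], Az R A →
    ∃ (O : Type u) (_ : CommRing O) (_ : Algebra R O) (n : ℕ), Module.FaithfullyFlat R O ∧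
      Nonempty (O ⊗[R] A ≃ₐ[O] Matrix (Fin n) (Fin n) O)

def S_Nrd : Prop :=
  ∀ (R A O : Type u) [CommRing R] [Ring A] [Algebra R A] [Module.Free R A] [Module.Finite R A]
    [CommRing O] [Algebra R O] [Module.FaithfullyFlat R O] (n : ℕ),
    Nonempty (O ⊗[R] A ≃ₐ[O] Matrix (Fin n) (Fin n) O) →
    ∃ N : ∀ (S : Type u) [CommRing S] [Algebra R S], S ⊗[R] A →* S,
      (∀ (S S' : Type u) [CommRing S] [Algebra R S] [CommRing S'] [Algebra R S']
        (f : S →ₐ[R] S') (x : S ⊗[R] A), f (N S x) = N S' (mp A f x)) ∧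
      (∀ (S : Type u) [CommRing S] [Algebra R S] (m : ℕ)
        (Φ : S ⊗[R] A ≃ₐ[S] Matrix (Fin m) (Fin m) S) (x : S ⊗[R] A), N S x = (Φ x).det) ∧
      ∀ (S : Type u) [CommRing S] [Algebra R S] (g : (S ⊗[R] A)ˣ),
        g ∈ SL1 R A S ↔ N S g = 1

def S_H90 : Prop :=
  ∀ (R A O : Type u) [CommRing R] [IsLocalRing R] [IsNoetherianRing R] [Ring A] [Algebra R A]
    [Module.Free R A] [Module.Finite R A] [CommRing O] [Algebra R O] [Module.FaithfullyFlat R O]
    (c : ∀ (S : Type u) [CommRing S] [Algebra R S], (O →ₐ[R] S) → (O →ₐ[R] S) → S ⊗[R] A),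
    Az R A →
    (∀ (S S' : Type u) [CommRing S] [Algebra R S] [CommRing S'] [Algebra R S'] (f : S →ₐ[R] S')
      (p q : O →ₐ[R] S), mp A f (c S p q) = c S' (f.comp p) (f.comp q)) →
    (∀ (S : Type u) [CommRing S] [Algebra R S] (p : O →ₐ[R] S), c S p p = 1) →
    (∀ (S : Type u) [CommRing S] [Algebra R S] (p q r : O →ₐ[R] S),
      c S q r * c S p q = c S p r) →
    ∃ z : (O ⊗[R] A)ˣ, ∀ (S : Type u) [CommRing S] [Algebra R S] (p q : O →ₐ[R] S),
      mp A q z * c S p q = mp A p z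

end Pool.Agent.P.MP_46a8f8_ag
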