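import Pool.Agent.P.MP_46a8f8_ag.Asm2
import Pool.Agent.P.MP_46a8f8_ag.St2

/-!
Assembly, third part: torsors.
-/

namespace Pool.Agent.P.MP_46a8f8_ag

open TensorProduct Function IsLocalRing

universe u

variable {R A : Type u} [CommRing R] [Ring A] [Algebra R A]

theorem mp_mp {S S' S'' : Type u} [CommRing S] [Algebra R S] [CommRing S'] [Algebra R S']
    [CommRing S''] [Algebra R S''] (f : S →ₐ[R] S') (g : S' →ₐ[R] S'') (x : S ⊗[R] A) :
    mp A g (mp A f x) = mp A (g.comp f) x := by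
  induction x using TensorProduct.induction_on with
  | zero => simp
  | tmul s a => simp [mp]
  | add x y hx hy => rw [map_add, map_add, map_add, hx, hy]

theorem mp_one_tmul {S S' : Type u} [CommRing S] [Algebra R S] [CommRing S'] [Algebra R S']
    (f : S →ₐ[R] S') (a : A) : mp A f ((1 : S) ⊗ₜ[R] a) = (1 : S') ⊗ₜ[R] a := by
  simp [mp]

theorem mp_smul {S S' : Type u} [CommRing S] [Algebra R S] [CommRing S'] [Algebra R S']
    (f : S →ₐ[R] S') (s : S) (x : S ⊗[R] A) : mp A f (s • x) = f s • mp A f x := by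
  induction x using TensorProduct.induction_on with
  | zero => simp
  | tmul s a => simp [mp, TensorProduct.smul_tmul']
  | add x y hx hy => rw [smul_add, map_add, map_add, smul_add, hx, hy]

/-- base change of elements of reduced norm one -/
noncomputable def SL1.map {S S' : Type u} [CommRing S] [Algebra R S] [CommRing S'] [Algebra R S']
    (f : S →ₐ[R] S') (g : SL1 R A S) : SL1 R A S' :=
  ⟨Units.map (mp A f : S ⊗[R] A →* S' ⊗[R] A) g.1, fun S'' _ _ f' n Φ => by
    have := g.2 S'' (f'.comp f) n Φ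
    rw [← mp_mp] at this
    exact this⟩

theorem setup_of_equiv {Ω : Type u} [Field Ω] [Algebra R Ω] [Module.Free R A] [Module.Finite R A]
    (hi : Injective (algebraMap R Ω)) (hA : Az R A) {n : ℕ}
    (Ψ : Ω ⊗[R] A ≃ₐ[Ω] Matrix (Fin n) (Fin n) Ω) :
    Setup R A Ω n ((Ψ.toAlgHom.restrictScalars R).comp Algebra.TensorProduct.includeRight) := by
  have : Nontrivial R := (algebraMap R Ω).domain_nontrivial
  refine ⟨hi, inferInstance, inferInstance, ?_, ?_, hA⟩
  · have := Ψ.toLinearEquiv.finrank_eq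
    rw [Module.finrank_baseChange, Module.finrank_matrix] at this
    simpa [pow_two] using this
  · rw [eq_top_iff]
    rintro X -
    obtain ⟨x, rfl⟩ := Ψ.surjective X
    induction x using TensorProduct.induction_on with
    | zero => simp
    | tmul c a =>
      have : c ⊗ₜ[R] a = c • ((1 : Ω) ⊗ₜ[R] a) := by simp [TensorProduct.smul_tmul']
      rw [this, map_smul]
      exact Submodule.smul_mem _ _ (Submodule.subset_span ⟨a, rfl⟩)
    | add x y hx hy => rw [map_add]; exact Submodule.add_mem _ hx hy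

theorem mem_range_of_eq {O : Type u} [CommRing O] [Algebra R O] [Module.FaithfullyFlat R O]
    (w : O) (h : w ⊗ₜ[R] (1 : O) = (1 : O) ⊗ₜ[R] w) : ∃ r, algebraMap R O r = w :=
  (Algebra.IsEffective.of_faithfullyFlat R O w).1 (by
    rw [Algebra.TensorProduct.includeLeftSubRight_apply, h, sub_self])

/-- from the norm statement to torsors -/
theorem torsor_of_gsn [IsDomain R] [IsLocalRing R] [IsNoetherianRing R] [Module.Free R A]
    [Module.Finite R A] (hBC : S_AzBC.{u}) (hW : S_Wed.{u}) (hSp : S_Split.{u})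
    (hN : S_Nrd.{u}) (hH : S_H90.{u}) (hA : Az R A)
    (hG : ∀ (Ω : Type u) [Field Ω] [Algebra R Ω] (n : ℕ)
      (Φ : A →ₐ[R] Matrix (Fin n) (Fin n) Ω), Setup R A Ω n Φ → GSN Φ)
    (K : Type u) [Field K] [Algebra R K] [IsFractionRing R K] (O : Type u) [CommRing O]
    [Algebra R O] (T : Torsor R A O) (hK : Nonempty (O →ₐ[R] K)) : Nonempty (O →ₐ[R] R) := by
  have := T.ff
  obtain ⟨p₀⟩ := hK
  obtain ⟨O₁, _, _, n₁, _, hO₁⟩ := hSp R A hA
  obtain ⟨N, hN1, hN2, hN3⟩ := hN R A O₁ n₁ hO₁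
  choose c hc hc' using T.simply_transitive
  dsimp only at hc hc'
  obtain ⟨z, hz⟩ := hH R A O (fun S _ _ p q => ((c S p q : (S ⊗[R] A)ˣ) : S ⊗[R] A)) hA
    (fun S S' _ _ _ _ f p q => by
      have := hc' S' (f.comp p) (f.comp q) (SL1.map f (c S p q))
        (by rw [← T.natural S S' f (c S p q) _ p rfl, hc])
      rw [← this]
      rfl)
    (fun S _ _ p => by rw [← hc' S p p 1 (T.one_act S p)]; rfl)
    (fun S _ _ p q r => by
      rw [← hc' S p r (c S q r * c S p q) (by rw [T.mul_act, hc, hc])]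
      rfl)
  let i₁ : O →ₐ[R] O ⊗[R] O := Algebra.TensorProduct.includeLeft
  let i₂ : O →ₐ[R] O ⊗[R] O := Algebra.TensorProduct.includeRight
  obtain ⟨r, hr⟩ := mem_range_of_eq (R := R) (N O z) (by
    have := congrArg (N (O ⊗[R] O)) (hz (O ⊗[R] O) i₁ i₂)
    rw [map_mul, (hN3 _ _).1 (c _ i₁ i₂).2, mul_one, ← hN1, ← hN1] at this
    exact this.symm)
  have hru : IsUnit r := by
    refine isUnit_of_map_unit (algebraMap R O) r ?_
    rw [hr]
    exact (Units.isUnit z).map (N O)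
  obtain ⟨v, rfl⟩ := hru
  let Ω := AlgebraicClosure K
  have hi : Injective (algebraMap R Ω) := by
    rw [IsScalarTower.algebraMap_eq R K Ω]
    exact (algebraMap K Ω).injective.comp (IsFractionRing.injective R K)
  obtain ⟨n, ⟨Ψ⟩⟩ := hW Ω (Ω ⊗[R] A) (hBC R A Ω hA)
  have hS := setup_of_equiv hi hA Ψ
  obtain ⟨s, a, hsa⟩ := exists_smul_eq_one_tmul (nonZeroDivisors R) K (mp A p₀ (z : O ⊗[R] A))
  let ι : K →ₐ[R] Ω := IsScalarTower.toAlgHom R K Ω
  obtain ⟨y, hy⟩ := hG Ω n _ hS v a s (nonZeroDivisors.coe_ne_zero s) (by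
    change (Ψ ((1 : Ω) ⊗ₜ[R] a)).det = _
    rw [← mp_one_tmul ι, ← hsa, mp_smul, map_smul, Matrix.det_smul, ← hN2, ← hN1, ← hN1, ← hr,
      AlgHom.commutes, AlgHom.commutes, AlgHom.commutes, Fintype.card_fin, map_mul, map_pow,
      mul_comm])
  have hy' : N R ((1 : R) ⊗ₜ[R] (y : A)) = v := by
    apply hi
    have := hN1 R Ω (Algebra.ofId R Ω) ((1 : R) ⊗ₜ[R] (y : A))
    rw [mp_one_tmul, hN2 Ω n Ψ] at this
    exact this.trans hy
  let yO : (O ⊗[R] A)ˣ := Units.map
    ((Algebra.TensorProduct.includeRight : A →ₐ[R] O ⊗[R] A) : A →* O ⊗[R] A) y⁻¹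
  have hyO : N O yO * N O z = 1 := by
    have := hN1 R O (Algebra.ofId R O) ((1 : R) ⊗ₜ[R] (y : A))
    rw [mp_one_tmul, hy'] at this
    rw [← hr]
    change N O ((1 : O) ⊗ₜ[R] ((y⁻¹ : Aˣ) : A)) * Algebra.ofId R O v = 1
    rw [this, ← map_mul, Algebra.TensorProduct.tmul_mul_tmul, one_mul, Units.inv_mul,
      ← Algebra.TensorProduct.one_def, map_one]
  let z' : SL1 R A O := ⟨yO * z, (hN3 _ _).2 (by rw [Units.val_mul, map_mul, hyO])⟩
  let t := T.act O z' (AlgHom.id R O)
  have key : i₁.comp t = i₂.comp t := by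
    rw [T.natural O _ i₁ z' (SL1.map i₁ z') _ rfl, T.natural O _ i₂ z' (SL1.map i₂ z') _ rfl,
      AlgHom.comp_id, AlgHom.comp_id]
    suffices h : SL1.map i₁ z' = SL1.map i₂ z' * c _ i₁ i₂ by rw [h, T.mul_act, hc]
    refine Subtype.ext (Units.ext ?_)
    change mp A i₁ ((1 : O) ⊗ₜ[R] ((y⁻¹ : Aˣ) : A) * z) =
      mp A i₂ ((1 : O) ⊗ₜ[R] ((y⁻¹ : Aˣ) : A) * z) * _
    rw [map_mul, map_mul, mp_one_tmul, mp_one_tmul, mul_assoc]
    congr 1
    exact (hz _ i₁ i₂).symm
  have hinj : Injective (algebraMap R O) := FaithfulSMul.algebraMap_injective R O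
  choose t' ht' using fun o => mem_range_of_eq (R := R) (t o) (AlgHom.congr_fun key o)
  exact ⟨{
    toFun := t'
    map_one' := hinj (by rw [ht', map_one, map_one])
    map_mul' := fun a b => hinj (by rw [map_mul, ht', ht', ht', map_mul])
    map_zero' := hinj (by rw [ht', map_zero, map_zero])
    map_add' := fun a b => hinj (by rw [map_add, ht', ht', ht', map_add])
    commutes' := fun r => hinj (by rw [ht', AlgHom.commutes]; rfl) }⟩

end Pool.Agent.P.MP_46a8f8_ag
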