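import Pool.Agent.P.MP_46a8f8_ag.Base

/-!
The separability idempotent of an Azumaya algebra over a local ring, and the determinant of a
right multiplication.
-/

namespace Pool.Agent.P.MP_46a8f8_ag

open TensorProduct IsLocalRing Function

universe u

namespace AzOfP

section

variable (R A : Type u) [CommRing R] [Ring A] [Algebra R A]

/-- two sided multiplication -/
noncomputable def mu : A ⊗[R] A →ₗ[R] Module.End R A :=
  (AlgHom.mulLeftRight R A).toLinearMap ∘ₗ
    (TensorProduct.congr (LinearEquiv.refl R A) (MulOpposite.opLinearEquiv R)).toLinearMap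

theorem mu_tmul (a b x : A) : mu R A (a ⊗ₜ[R] b) x = a * x * b := by
  simp [mu]

theorem mu_sum {ι : Type} [Fintype ι] (a b : ι → A) (x : A) :
    mu R A (∑ i, a i ⊗ₜ[R] b i) x = ∑ i, a i * x * b i := by
  simp only [map_sum, LinearMap.sum_apply, mu_tmul]

theorem mu_bij [h : IsAzumaya R A] : Bijective (mu R A) :=
  h.bij.comp (TensorProduct.congr (LinearEquiv.refl R A) (MulOpposite.opLinearEquiv R)).bijective

theorem mu_surj [IsAzumaya R A] (E : Module.End R A) :
    ∃ (k : ℕ) (a b : Fin k → A), ∀ x, ∑ i, a i * x * b i = E x := by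
  obtain ⟨e, rfl⟩ := (mu_bij R A).2 E
  obtain ⟨k, a, b, rfl⟩ := exists_sum_tmul_eq e
  exact ⟨k, a, b, fun x => (mu_sum R A a b x).symm⟩

theorem exists_tau [IsLocalRing R] [IsAzumaya R A] [Module.Free R A] :
    ∃ τ : A →ₗ[R] R, τ 1 = 1 := by
  let e := Module.Free.chooseBasis R A
  have : Nontrivial A := (FaithfulSMul.algebraMap_injective R A).nontrivial
  by_cases h : ∃ s, IsUnit (e.repr 1 s)
  · obtain ⟨s, v, hv⟩ := h
    exact ⟨(v⁻¹ : Rˣ) • e.coord s, by simp [← hv, Units.smul_def]⟩
  · exfalso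
    have h1 : (1 : A) ∈ maximalIdeal R • (⊤ : Submodule R A) := by
      rw [← e.sum_repr 1]
      exact Submodule.sum_mem _ fun s _ => Submodule.smul_mem_smul
        ((mem_maximalIdeal _).2 fun hs => h ⟨s, hs⟩) Submodule.mem_top
    have h2 : (⊤ : Submodule R A) ≤ maximalIdeal R • ⊤ := by
      intro x _
      rw [← one_mul x]
      refine Submodule.smul_induction_on (p := fun y => y * x ∈ maximalIdeal R • ⊤) h1
        (fun r hr y _ => ?_) fun y z hy hz => ?_
      · rw [smul_mul_assoc]
        exact Submodule.smul_mem_smul hr Submodule.mem_top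
      · rw [add_mul]
        exact Submodule.add_mem _ hy hz
    have h3 := Submodule.eq_bot_of_le_smul_of_le_jacobson_bot (maximalIdeal R) ⊤
      Module.Finite.fg_top h2 (maximalIdeal_le_jacobson _)
    exact one_ne_zero ((Submodule.eq_bot_iff _).1 h3 1 Submodule.mem_top)

end

/-- right multiplication on matrices -/
theorem det_mulRight {Ω : Type u} [Field Ω] {n : ℕ} (M : Matrix (Fin n) (Fin n) Ω) :
    LinearMap.det (LinearMap.mulRight Ω M) = M.det ^ n := by
  have h := LinearMap.det_pi (ι := Fin n) fun _ => Matrix.toLin' M.transpose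
  rw [LinearMap.det_toLin', Matrix.det_transpose, Finset.prod_const, Finset.card_univ,
    Fintype.card_fin] at h
  rw [← h]
  congr 1
  ext X i j
  change (X * M) i j = M.transpose.mulVec (X i) j
  rw [Matrix.mulVec_transpose]
  rfl

end AzOfP

open AzOfP in
theorem azOf : S_AzOf.{u} := by
  intro R A _ _ _ _ _
  have : Module.Free R A := Module.free_of_flat_of_isLocalRing
  obtain ⟨τ, hτ⟩ := exists_tau R A
  obtain ⟨k, a, b, hab⟩ := mu_surj R A (LinearMap.toSpanSingleton R A 1 ∘ₗ τ)
  replace hab : ∀ x, ∑ i, a i * x * b i = τ x • (1 : A) := hab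
  refine ⟨k, a, b, by simpa [hτ] using hab 1, fun c => (mu_bij R A).1 ?_, ?_⟩
  · ext x
    rw [mu_sum, mu_sum]
    have e1 : ∑ i, c * a i * x * b i = c * ∑ i, a i * x * b i := by
      simp only [Finset.mul_sum, mul_assoc]
    have e2 : ∑ i, a i * x * (b i * c) = (∑ i, a i * x * b i) * c := by
      simp only [Finset.sum_mul, mul_assoc]
    rw [e1, e2, hab, mul_smul_comm, smul_mul_assoc, mul_one, one_mul]
  · let e := Module.finBasis R A
    choose l z w hzw using fun s => mu_surj R A (LinearMap.toSpanSingleton R A 1 ∘ₗ e.coord s)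
    replace hzw : ∀ s x, ∑ i, z s i * x * w s i = e.repr x s • (1 : A) := hzw
    let q := (Fintype.equivFin (Σ s, Fin (l s))).symm
    refine ⟨_, fun j => e (q j).1, fun j => z (q j).1 (q j).2, fun j => w (q j).1 (q j).2, ?_⟩
    rw [q.sum_comp fun p => ∑ i, (e p.1 * a i * z p.1 p.2) ⊗ₜ[R] (w p.1 p.2 * b i)]
    apply (mu_bij R A).1
    ext x
    rw [map_sum, LinearMap.sum_apply, mu_tmul, one_mul, mul_one, Fintype.sum_sigma]
    conv_rhs => rw [← e.sum_repr x]
    refine Finset.sum_congr rfl fun s _ => ?_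
    have e1 : ∀ j, mu R A (∑ i, (e s * a i * z s j) ⊗ₜ[R] (w s j * b i)) x =
        τ (z s j * x * w s j) • e s := fun j => by
      rw [mu_sum, ← mul_one (e s), ← mul_smul_comm, ← hab, Finset.mul_sum]
      simp only [mul_assoc, mul_one]
    simp only [e1]
    rw [← Finset.sum_smul, ← map_sum, hzw, map_smul, hτ, smul_eq_mul, mul_one]

open AzOfP in
theorem detR : S_DetR.{u} := by
  intro R A Ω _ _ _ _ _ n Φ h a
  have := h.free
  have := h.finite
  have : Nontrivial R := (algebraMap R Ω).domain_nontrivial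
  let Ψ : Ω ⊗[R] A →ₗ[Ω] Matrix (Fin n) (Fin n) Ω := Φ.toLinearMap.liftBaseChange Ω
  have hΨ : ∀ (c : Ω) (x : A), Ψ (c ⊗ₜ[R] x) = c • Φ x := fun c x => rfl
  have hs : Surjective Ψ := by
    rw [← LinearMap.range_eq_top, eq_top_iff, ← h.span, Submodule.span_le]
    rintro _ ⟨x, rfl⟩
    exact ⟨1 ⊗ₜ[R] x, by rw [hΨ, one_smul]⟩
  have hr : Module.finrank Ω (Ω ⊗[R] A) = Module.finrank Ω (Matrix (Fin n) (Fin n) Ω) := by
    rw [Module.finrank_baseChange, h.rank, Module.finrank_matrix, Module.finrank_self,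
      Fintype.card_fin, mul_one, sq]
  let E := LinearEquiv.ofBijective Ψ
    ⟨(LinearMap.injective_iff_surjective_of_finrank_eq_finrank hr).2 hs, hs⟩
  rw [← LinearMap.det_baseChange, ← det_mulRight, ← LinearMap.det_conj _ E]
  congr 1
  refine LinearMap.ext fun X => ?_
  obtain ⟨y, rfl⟩ := E.surjective X
  simp only [LinearMap.comp_apply, LinearEquiv.coe_coe, LinearEquiv.symm_apply_apply]
  change Ψ _ = Ψ y * Φ a
  induction y using TensorProduct.induction_on with
  | zero => simp
  | tmul c x => simp [hΨ]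
  | add y z hy hz => simp only [map_add, hy, hz, add_mul]

end Pool.Agent.P.MP_46a8f8_ag
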