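import Pool.Agent.P.MP_46a8f8_ag.Base

/-!
Base change of the splitting and specialisation of the variable.
-/

namespace Pool.Agent.P.MP_46a8f8_ag

open TensorProduct Polynomial IsLocalRing Function

universe u

namespace BCP

theorem exists_lift {R A Ω R' O : Type u} [CommRing R] [Ring A] [Algebra R A] [CommRing Ω]
    [Algebra R Ω] [CommRing R'] [Algebra R R'] [CommRing O] [Algebra R' O] [Algebra Ω O] {n : ℕ}
    (Φ : A →ₐ[R] Matrix (Fin n) (Fin n) Ω)
    (h : ∀ r : R, algebraMap R' O (algebraMap R R' r) = algebraMap Ω O (algebraMap R Ω r)) :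
    ∃ Φ' : R' ⊗[R] A →ₐ[R'] Matrix (Fin n) (Fin n) O,
      ∀ a : A, Φ' ((1 : R') ⊗ₜ[R] a) = (Φ a).map (algebraMap Ω O) := by
  let _ : Algebra R O := ((algebraMap R' O).comp (algebraMap R R')).toAlgebra
  have : IsScalarTower R R' O := IsScalarTower.of_algebraMap_eq fun r => rfl
  have : IsScalarTower R Ω O := IsScalarTower.of_algebraMap_eq fun r => h r
  refine ⟨Algebra.TensorProduct.lift (Algebra.ofId R' _)
    ((IsScalarTower.toAlgHom R Ω O).mapMatrix.comp Φ)
    (fun x y => Algebra.commute_algebraMap_left x _), fun a => ?_⟩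
  rw [Algebra.TensorProduct.lift_tmul, map_one, one_mul]
  rfl

theorem az_bc {R A : Type u} (R' : Type u) [CommRing R] [Ring A] [Algebra R A] [CommRing R']
    [Algebra R R'] (h : Az R A) : Az R' (R' ⊗[R] A) := by
  obtain ⟨k, a, b, h1, hc, l, x, z, w, h2⟩ := h
  let T : A ⊗[R] A →ₗ[R] (R' ⊗[R] A) ⊗[R'] (R' ⊗[R] A) :=
    (AlgebraTensorModule.distribBaseChange R R' A A).toLinearMap.restrictScalars R ∘ₗ
      TensorProduct.mk R R' (A ⊗[R] A) 1
  have hT : ∀ p q : A, T (p ⊗ₜ[R] q) = ((1 : R') ⊗ₜ[R] p) ⊗ₜ[R'] ((1 : R') ⊗ₜ[R] q) :=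
    fun p q => AlgebraTensorModule.distribBaseChange_tmul ..
  refine ⟨k, fun i => 1 ⊗ₜ[R] a i, fun i => 1 ⊗ₜ[R] b i, ?_, fun c => ?_, l,
    fun j => 1 ⊗ₜ[R] x j, fun j => 1 ⊗ₜ[R] z j, fun j => 1 ⊗ₜ[R] w j, ?_⟩
  · simp only [Algebra.TensorProduct.tmul_mul_tmul, one_mul]
    rw [← TensorProduct.tmul_sum, h1, Algebra.TensorProduct.one_def]
  · induction c using TensorProduct.induction_on with
    | zero => simp
    | add c c' hc1 hc2 =>
      simp only [add_mul, mul_add, TensorProduct.add_tmul, TensorProduct.tmul_add,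
        Finset.sum_add_distrib, hc1, hc2]
    | tmul r c =>
      have e := congrArg T (hc c)
      simp only [map_sum, hT] at e
      have e1 : ∀ p : A, r ⊗ₜ[R] p = r • ((1 : R') ⊗ₜ[R] p) := fun p => by
        rw [TensorProduct.smul_tmul', smul_eq_mul, mul_one]
      simp only [Algebra.TensorProduct.tmul_mul_tmul, one_mul, mul_one]
      simp only [e1, ← TensorProduct.smul_tmul', TensorProduct.tmul_smul, ← Finset.smul_sum, e]
  · have e := congrArg T h2
    simp only [map_sum, hT] at e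
    simp only [Algebra.TensorProduct.tmul_mul_tmul, one_mul]
    rw [e, Algebra.TensorProduct.one_def]

theorem span_bc {A A' Ω Ω' : Type u} [Field Ω] [Field Ω'] [Algebra Ω Ω'] {n : ℕ}
    (Φ : A → Matrix (Fin n) (Fin n) Ω) (Φ' : A' → Matrix (Fin n) (Fin n) Ω') (j : A → A')
    (h : ∀ a, Φ' (j a) = (Φ a).map (algebraMap Ω Ω'))
    (hs : Submodule.span Ω (Set.range Φ) = ⊤) : Submodule.span Ω' (Set.range Φ') = ⊤ := by
  have key : ∀ M : Matrix (Fin n) (Fin n) Ω,
      M.map (algebraMap Ω Ω') ∈ Submodule.span Ω' (Set.range Φ') := by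
    intro M
    have hM : M ∈ Submodule.span Ω (Set.range Φ) := hs ▸ Submodule.mem_top
    induction hM using Submodule.span_induction with
    | mem M hM =>
      obtain ⟨a, rfl⟩ := hM
      exact Submodule.subset_span ⟨j a, h a⟩
    | zero =>
      rw [Matrix.map_zero _ (map_zero _)]
      exact Submodule.zero_mem _
    | add M N _ _ hM hN =>
      rw [Matrix.map_add _ (map_add _)]
      exact Submodule.add_mem _ hM hN
    | smul c M _ hM =>
      have : (c • M).map (algebraMap Ω Ω') = algebraMap Ω Ω' c • M.map (algebraMap Ω Ω') := by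
        ext i j
        simp
      rw [this]
      exact Submodule.smul_mem _ _ hM
  rw [eq_top_iff]
  intro M _
  rw [Matrix.matrix_eq_sum_single M]
  refine Submodule.sum_mem _ fun i _ => Submodule.sum_mem _ fun k _ => ?_
  have : Matrix.single i k (M i k) =
      M i k • (Matrix.single i k (1 : Ω)).map (algebraMap Ω Ω') := by
    rw [Matrix.map_single, map_one, Matrix.smul_single, smul_eq_mul, mul_one]
  rw [this]
  exact Submodule.smul_mem _ _ (key _)

end BCP

theorem bc : S_BC.{u} := by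
  intro R A Ω R' Ω' _ _ _ _ _ _ _ _ _ _ n Φ hS hc hinj
  obtain ⟨Φ', hΦ'⟩ := BCP.exists_lift Φ hc
  have := hS.free
  have := hS.finite
  have : Nontrivial R := (algebraMap R Ω).domain_nontrivial
  have : Nontrivial R' := (algebraMap R' Ω').domain_nontrivial
  refine ⟨Φ', ⟨hinj, inferInstance, inferInstance, ?_, ?_, BCP.az_bc R' hS.az⟩, hΦ'⟩
  · rw [Module.finrank_baseChange, hS.rank]
  · exact BCP.span_bc Φ Φ' (fun a => (1 : R') ⊗ₜ[R] a) hΦ' hS.span

namespace BCP

theorem spAux {R Rq A Ω O Ω' : Type u} [CommRing R] [CommRing Rq] [Algebra R Rq] [Ring A]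
    [Algebra R A] [Field Ω] [Algebra R Ω] [CommRing O] [Field Ω'] [Algebra Rq O] [Algebra Ω O]
    [Algebra O Ω'] [Algebra Rq Ω'] [Algebra Ω Ω'] [IsScalarTower Rq O Ω'] [IsScalarTower Ω O Ω']
    {n : ℕ} (Φ : A →ₐ[R] Matrix (Fin n) (Fin n) Ω)
    (hc : ∀ r : R, algebraMap Rq O (algebraMap R Rq r) = algebraMap Ω O (algebraMap R Ω r))
    (ev : Rq →ₐ[R] R) (evO : O →+* Ω)
    (h1 : ∀ r, evO (algebraMap Rq O r) = algebraMap R Ω (ev r))
    (h2 : ∀ w, evO (algebraMap Ω O w) = w) (hinj : Injective (algebraMap O Ω'))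
    (Φ' : Rq ⊗[R] A →ₐ[Rq] Matrix (Fin n) (Fin n) Ω')
    (hΦ' : ∀ a : A, Φ' ((1 : Rq) ⊗ₜ[R] a) = (Φ a).map (algebraMap Ω Ω'))
    (hG : GSN Φ') : GSN Φ := by
  obtain ⟨ΦO, hO⟩ := exists_lift (R' := Rq) (O := O) Φ hc
  have e1 : ∀ (r : Rq) (p : A), r ⊗ₜ[R] p = r • ((1 : Rq) ⊗ₜ[R] p) := fun r p => by
    rw [TensorProduct.smul_tmul', smul_eq_mul, mul_one]
  have hmap : ∀ z, Φ' z = (ΦO z).map (algebraMap O Ω') := by
    intro z
    induction z using TensorProduct.induction_on with
    | zero => rw [map_zero, map_zero, Matrix.map_zero _ (map_zero _)]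
    | add z z' hz hz' => rw [map_add, map_add, Matrix.map_add _ (map_add _), hz, hz']
    | tmul r a =>
      rw [e1, map_smul, map_smul, hΦ', hO]
      ext i j
      simp only [Matrix.smul_apply, Matrix.map_apply]
      rw [Algebra.smul_def, Algebra.smul_def, map_mul, ← IsScalarTower.algebraMap_apply,
        ← IsScalarTower.algebraMap_apply]
  let E : Rq ⊗[R] A →ₐ[R] A := Algebra.TensorProduct.lift ((Algebra.ofId R A).comp ev)
    (AlgHom.id R A) (fun x y => Algebra.commute_algebraMap_left _ y)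
  have hE : ∀ (r : Rq) (a : A), E (r ⊗ₜ[R] a) = ev r • a := fun r a => by
    rw [Algebra.smul_def]
    exact Algebra.TensorProduct.lift_tmul ..
  have hev : ∀ z, (ΦO z).map evO = Φ (E z) := by
    intro z
    induction z using TensorProduct.induction_on with
    | zero => rw [map_zero, map_zero, map_zero, Matrix.map_zero _ (map_zero _)]
    | add z z' hz hz' => rw [map_add, map_add, map_add, Matrix.map_add _ (map_add _), hz, hz']
    | tmul r a =>
      rw [hE, e1, map_smul, map_smul, hO]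
      ext i j
      simp only [Matrix.smul_apply, Matrix.map_apply]
      rw [Algebra.smul_def, Algebra.smul_def, map_mul, h1, h2]
  have hcomp : ∀ r : R, algebraMap Rq Ω' (algebraMap R Rq r) =
      algebraMap Ω Ω' (algebraMap R Ω r) := fun r => by
    rw [IsScalarTower.algebraMap_apply Rq O Ω', hc, ← IsScalarTower.algebraMap_apply]
  intro v a f hf ha
  have hf' : algebraMap R Rq f ≠ 0 := fun h => hf (by
    have := ev.commutes f
    rw [h, map_zero] at this
    exact this.symm)
  obtain ⟨y, hy⟩ := hG (Units.map (algebraMap R Rq : R →* Rq) v) ((1 : Rq) ⊗ₜ[R] a)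
    (algebraMap R Rq f) hf' (by
      rw [hΦ', ← RingHom.mapMatrix_apply, ← RingHom.map_det, ha, ← hcomp, map_mul, map_pow]
      rfl)
  refine ⟨Units.map (E : Rq ⊗[R] A →* A) y, ?_⟩
  have hy2 : (ΦO y).det = algebraMap Rq O (algebraMap R Rq v) := by
    apply hinj
    rw [RingHom.map_det, RingHom.mapMatrix_apply, ← hmap, hy, ← IsScalarTower.algebraMap_apply]
    rfl
  have := congrArg evO hy2
  rw [RingHom.map_det, RingHom.mapMatrix_apply, hev, h1, ev.commutes] at this
  exact this

theorem isUnit_ev {R : Type u} [CommRing R] [IsLocalRing R]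
    (y : ((maximalIdeal R).comap (evalRingHom (0 : R))).primeCompl) :
    IsUnit (evalRingHom (0 : R) y) := by
  have h : evalRingHom (0 : R) y ∉ maximalIdeal R := y.2
  exact notMem_maximalIdeal.1 h

theorem spAux2 {R Rq Ω O : Type u} [CommRing R] [IsLocalRing R] [CommRing Rq] [Algebra R Rq]
    [Algebra R[X] Rq] [IsScalarTower R R[X] Rq]
    [IsLocalization.AtPrime Rq ((maximalIdeal R).comap (evalRingHom (0 : R)))]
    [Field Ω] [Algebra R Ω] [CommRing O] [Algebra (Polynomial Ω) O]
    [IsLocalization.AtPrime O ((maximalIdeal Ω).comap (evalRingHom (0 : Ω)))]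
    (hinj : Injective (algebraMap R Ω)) :
    ∃ (ι : Rq →+* O) (ev : Rq →ₐ[R] R) (evO : O →+* Ω), Injective ι ∧
      (∀ r : R, ι (algebraMap R Rq r) = algebraMap (Polynomial Ω) O (C (algebraMap R Ω r))) ∧
      (∀ r, evO (ι r) = algebraMap R Ω (ev r)) ∧
      ∀ w, evO (algebraMap (Polynomial Ω) O (C w)) = w := by
  let g : R[X] →+* O := (algebraMap (Polynomial Ω) O).comp (mapRingHom (algebraMap R Ω))
  have hg : ∀ y : ((maximalIdeal R).comap (evalRingHom (0 : R))).primeCompl, IsUnit (g y) := by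
    intro y
    have h : mapRingHom (algebraMap R Ω) y ∈
        ((maximalIdeal Ω).comap (evalRingHom (0 : Ω))).primeCompl := by
      change evalRingHom (0 : Ω) (mapRingHom (algebraMap R Ω) y) ∉ maximalIdeal Ω
      rw [notMem_maximalIdeal, coe_evalRingHom, coe_mapRingHom, eval_zero_map]
      exact (isUnit_ev y).map _
    exact IsLocalization.map_units O ⟨_, h⟩
  let ι : Rq →+* O := IsLocalization.lift hg
  let ev₀ : Rq →+* R := IsLocalization.lift (S := Rq) (isUnit_ev (R := R))
  let evO : O →+* Ω := IsLocalization.lift (S := O) (isUnit_ev (R := Ω))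
  have hι : ∀ p, ι (algebraMap R[X] Rq p) = g p := IsLocalization.lift_eq hg
  have hev : ∀ p, ev₀ (algebraMap R[X] Rq p) = evalRingHom (0 : R) p :=
    IsLocalization.lift_eq (S := Rq) (isUnit_ev (R := R))
  have hevO : ∀ p, evO (algebraMap (Polynomial Ω) O p) = evalRingHom (0 : Ω) p :=
    IsLocalization.lift_eq (S := O) (isUnit_ev (R := Ω))
  let ev : Rq →ₐ[R] R :=
    { ev₀ with
      commutes' := fun r => by
        change ev₀ (algebraMap R Rq r) = r
        rw [IsScalarTower.algebraMap_apply R R[X] Rq, hev, Polynomial.algebraMap_eq,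
          coe_evalRingHom, eval_C] }
  have hgi : Injective g :=
    (IsLocalization.injective O
      ((maximalIdeal Ω).comap (evalRingHom (0 : Ω))).primeCompl_le_nonZeroDivisors).comp
      (Polynomial.map_injective _ hinj)
  refine ⟨ι, ev, evO, ?_, fun r => ?_, fun r => ?_, fun w => ?_⟩
  · refine (IsLocalization.lift_injective_iff hg).2 fun x y => ⟨fun h => ?_, fun h => ?_⟩
    · rw [← hι, ← hι, h]
    · rw [hgi h]
  · rw [IsScalarTower.algebraMap_apply R R[X] Rq, hι, Polynomial.algebraMap_eq]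
    change algebraMap (Polynomial Ω) O (Polynomial.map (algebraMap R Ω) (C r)) = _
    rw [map_C]
  · have : evO.comp ι = (algebraMap R Ω).comp ev₀ := by
      refine IsLocalization.ringHom_ext
        ((maximalIdeal R).comap (evalRingHom (0 : R))).primeCompl (RingHom.ext fun p => ?_)
      simp only [RingHom.comp_apply]
      rw [hι, hev]
      change evO (algebraMap (Polynomial Ω) O (Polynomial.map (algebraMap R Ω) p)) = _
      rw [hevO, coe_evalRingHom, coe_evalRingHom, eval_zero_map]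
    exact RingHom.congr_fun this r
  · rw [hevO, coe_evalRingHom, eval_C]

theorem exists_field (O : Type u) [CommRing O] [IsDomain O] :
    ∃ (K : Type u) (_ : Field K) (_ : Algebra O K), Injective (algebraMap O K) :=
  ⟨FractionRing O, inferInstance, inferInstance, IsFractionRing.injective O _⟩

theorem exists_loc (Ω : Type u) [Field Ω] :
    ∃ (O : Type u) (_ : CommRing O) (_ : IsDomain O) (_ : Algebra (Polynomial Ω) O),
      IsLocalization.AtPrime O ((maximalIdeal Ω).comap (evalRingHom (0 : Ω))) :=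
  ⟨Localization.AtPrime ((maximalIdeal Ω).comap (evalRingHom (0 : Ω))), inferInstance,
    inferInstance, inferInstance, inferInstance⟩

end BCP

theorem sp (hBC : S_BC.{u}) : S_Sp.{u} := by
  intro R Rq A Ω _ _ _ _ _ _ _ _ _ _ _ n Φ hS
  obtain ⟨O, _, _, _, _⟩ := BCP.exists_loc Ω
  obtain ⟨Ω', _, _, hinj⟩ := BCP.exists_field O
  obtain ⟨ι, ev, evO, hι, h1, h2, h3⟩ := BCP.spAux2 (Rq := Rq) (O := O) hS.inj
  let _ : Algebra Rq O := ι.toAlgebra
  let _ : Algebra Ω O := ((algebraMap (Polynomial Ω) O).comp C).toAlgebra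
  let _ : Algebra Rq Ω' := ((algebraMap O Ω').comp ι).toAlgebra
  let _ : Algebra Ω Ω' := ((algebraMap O Ω').comp (algebraMap Ω O)).toAlgebra
  have : IsScalarTower Rq O Ω' := IsScalarTower.of_algebraMap_eq fun r => rfl
  have : IsScalarTower Ω O Ω' := IsScalarTower.of_algebraMap_eq fun r => rfl
  have hc : ∀ r : R, algebraMap Rq O (algebraMap R Rq r) = algebraMap Ω O (algebraMap R Ω r) :=
    h1
  obtain ⟨Φ', hS', hΦ'⟩ := hBC R A Ω Rq Ω' n Φ hS (fun r => by
    rw [IsScalarTower.algebraMap_apply Rq O Ω', hc, ← IsScalarTower.algebraMap_apply])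
    (hinj.comp hι)
  exact ⟨Ω', inferInstance, inferInstance, Φ', hS',
    BCP.spAux Φ hc ev evO h2 h3 hinj Φ' hΦ'⟩

end Pool.Agent.P.MP_46a8f8_ag
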