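import Pool.Agent.P.MP_46a8f8_ag.St

/-!
Basic lemmas: torsion modules, additive invariants, projective dimension, averaging.
-/

namespace Pool.Agent.P.MP_46a8f8_ag

open TensorProduct Function

universe u

section tors

variable {R A : Type u} [CommRing R] [Ring A] [Algebra R A]
  {M M' M'' : Type u} [AddCommGroup M] [Module A M] [AddCommGroup M'] [Module A M']
  [AddCommGroup M''] [Module A M'']

theorem Tors.of_surjective (h : Tors R A M) (g : M →ₗ[A] M') (hg : Surjective g) :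
    Tors R A M' := by
  obtain ⟨h1, r, hr, h2⟩ := h
  refine ⟨Module.Finite.of_surjective g hg, r, hr, fun m => ?_⟩
  obtain ⟨m, rfl⟩ := hg m
  rw [← map_smul, h2, map_zero]

theorem Tors.of_injective [IsNoetherianRing A] (h : Tors R A M) (f : M' →ₗ[A] M)
    (hf : Injective f) : Tors R A M' := by
  obtain ⟨h1, r, hr, h2⟩ := h
  refine ⟨Module.Finite.of_injective f hf, r, hr, fun m => hf ?_⟩
  rw [map_smul, h2, map_zero]

theorem Tors.equiv (h : Tors R A M) (e : M ≃ₗ[A] M') : Tors R A M' :=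
  h.of_surjective e.toLinearMap e.surjective

theorem Tors.quot (h : Tors R A M) (N : Submodule A M) : Tors R A (M ⧸ N) :=
  h.of_surjective N.mkQ N.mkQ_surjective

theorem Tors.sub [IsNoetherianRing A] (h : Tors R A M) (N : Submodule A M) : Tors R A N :=
  h.of_injective N.subtype N.injective_subtype

theorem Tors.subsingleton [Nontrivial R] [Subsingleton M] : Tors R A M :=
  ⟨Module.Finite.of_surjective (0 : A →ₗ[A] M) fun _ => ⟨0, Subsingleton.elim _ _⟩, 1,
    one_ne_zero, fun _ => Subsingleton.elim _ _⟩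

theorem Tors.ext [IsDomain R] (f : M' →ₗ[A] M) (g : M →ₗ[A] M'') (hfg : Exact f g)
    (hg : Surjective g) (h' : Tors R A M') (h'' : Tors R A M'') : Tors R A M := by
  obtain ⟨h1, r, hr, h2⟩ := h'
  obtain ⟨h3, s, hs, h4⟩ := h''
  refine ⟨Module.Finite.of_exact hfg hg, r * s, mul_ne_zero hr hs, fun m => ?_⟩
  obtain ⟨m', hm'⟩ := (hfg (algebraMap R A s • m)).1 (by rw [map_smul, h4])
  rw [map_mul, mul_smul, ← hm', ← map_smul, h2, map_zero]

theorem Tors.prod [IsDomain R] (h : Tors R A M) (h' : Tors R A M') : Tors R A (M × M') :=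
  Tors.ext (LinearMap.inl A M M') (LinearMap.snd A M M') Function.Exact.inl_snd
    LinearMap.snd_surjective h h'

theorem Tors.pi (h : Tors R A M) (k : ℕ) : Tors R A (Fin k → M) := by
  obtain ⟨h1, r, hr, h2⟩ := h
  exact ⟨inferInstance, r, hr, fun m => funext fun i => h2 (m i)⟩

theorem Kill.tors {I : Ideal R} (h : Kill A I M) (hI : I ≠ ⊥) (hM : Module.Finite A M) :
    Tors R A M := by
  obtain ⟨r, hr, hr0⟩ := Submodule.exists_mem_ne_zero_of_ne_bot hI
  exact ⟨hM, r, hr0, h r hr⟩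

theorem isNoetherianRing_alg (R A : Type u) [CommRing R] [Ring A] [Algebra R A]
    [IsNoetherianRing R] [Module.Finite R A] : IsNoetherianRing A :=
  IsNoetherianRing.of_finite R A

end tors

section add

variable {R A Γ : Type u} [CommRing R] [Ring A] [Algebra R A] [CommGroup Γ] {ψ : Inv A Γ}
  {M M' M'' : Type u} [AddCommGroup M] [Module A M] [AddCommGroup M'] [Module A M']
  [AddCommGroup M''] [Module A M'']

theorem IsAdd.subsingleton [Nontrivial R] (h : IsAdd R ψ) (M : Type u) [AddCommGroup M]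
    [Module A M] [Subsingleton M] : ψ M = 1 := by
  have := h M M M 0 0 (fun _ _ _ => Subsingleton.elim _ _)
    (fun y => ⟨fun _ => ⟨0, Subsingleton.elim _ _⟩, fun _ => rfl⟩)
    (fun _ => ⟨0, Subsingleton.elim _ _⟩) Tors.subsingleton
  exact (mul_eq_left.1 this.symm)

theorem IsAdd.equiv [Nontrivial R] (h : IsAdd R ψ) (e : M ≃ₗ[A] M') (hM : Tors R A M) :
    ψ M = ψ M' := by
  have := h M M' PUnit.{u + 1} e.toLinearMap 0 e.injective
    (fun y => ⟨fun _ => e.surjective y, fun _ => rfl⟩) (fun _ => ⟨0, Subsingleton.elim _ _⟩)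
    (hM.equiv e)
  rw [this, h.subsingleton PUnit.{u + 1}, mul_one]

theorem IsAdd.sub_quot (h : IsAdd R ψ) (hM : Tors R A M) (N : Submodule A M) :
    ψ M = ψ N * ψ (M ⧸ N) :=
  h N M (M ⧸ N) N.subtype N.mkQ N.injective_subtype (LinearMap.exact_subtype_mkQ N)
    N.mkQ_surjective hM

theorem IsAdd.ker (h : IsAdd R ψ) (hM : Tors R A M) (g : M →ₗ[A] M') (hg : Surjective g) :
    ψ M = ψ (LinearMap.ker g) * ψ M' :=
  h _ M M' (LinearMap.ker g).subtype g (LinearMap.ker g).injective_subtype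
    (LinearMap.exact_subtype_ker_map g) hg hM

/-- the cokernel of an injective map between modules with the same invariant -/
theorem IsAdd.coker (h : IsAdd R ψ) (f : M' →ₗ[A] M) (g : M →ₗ[A] M'') (hf : Injective f)
    (hfg : Exact f g) (hg : Surjective g) (hM : Tors R A M) (e : ψ M' = ψ M) : ψ M'' = 1 := by
  have := h M' M M'' f g hf hfg hg hM
  rw [e] at this
  exact (mul_eq_left.1 this.symm)

theorem IsAdd.prod [IsDomain R] (h : IsAdd R ψ) (hM : Tors R A M) (hM' : Tors R A M') :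
    ψ (M × M') = ψ M * ψ M' :=
  h M (M × M') M' (LinearMap.inl A M M') (LinearMap.snd A M M') LinearMap.inl_injective
    Function.Exact.inl_snd LinearMap.snd_surjective (hM.prod hM')

/-- devissage along a product of ideals -/
theorem IsAdd.devissage_list [Nontrivial R] [IsNoetherianRing A] (h : IsAdd R ψ)
    (L : List (Ideal R)) (hL : ∀ I ∈ L, Van ψ I) :
    ∀ (M : Type u) [AddCommGroup M] [Module A M], Tors R A M → Kill A L.prod M → ψ M = 1 := by
  induction L with
  | nil =>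
    intro M _ _ _ hK
    have : Subsingleton M := ⟨fun a b => by
      have ha := hK 1 (by simp) a
      have hb := hK 1 (by simp) b
      rw [map_one, one_smul] at ha hb
      rw [ha, hb]⟩
    exact h.subsingleton M
  | cons I L ih =>
    intro M _ _ hM hK
    let N : Submodule A M :=
      { carrier := {m | ∀ r ∈ L.prod, algebraMap R A r • m = 0}
        add_mem' := fun {a b} ha hb r hr => by rw [smul_add, ha r hr, hb r hr, add_zero]
        zero_mem' := fun r _ => smul_zero _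
        smul_mem' := fun c m hm r hr => by
          rw [smul_smul, Algebra.commutes, mul_smul, hm r hr, smul_zero] }
    rw [h.sub_quot hM N, ih (fun J hJ => hL J (List.mem_cons_of_mem _ hJ)) N (hM.sub N)
      (fun r hr m => Subtype.ext (m.2 r hr)), one_mul]
    refine hL I List.mem_cons_self _ (hM.quot N).1 fun r hr m => ?_
    obtain ⟨m, rfl⟩ := N.mkQ_surjective m
    rw [← map_smul, Submodule.mkQ_apply, Submodule.Quotient.mk_eq_zero]
    intro s hs
    rw [smul_smul, ← map_mul]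
    exact hK _ (by rw [List.prod_cons, mul_comm s]; exact Ideal.mul_mem_mul hr hs) m

/-- devissage: it suffices to treat the primes above the annihilator -/
theorem IsAdd.devissage [Nontrivial R] [IsNoetherianRing R] [IsNoetherianRing A] (h : IsAdd R ψ)
    (I : Ideal R) (hI : ∀ 𝔭 : Ideal R, 𝔭.IsPrime → I ≤ 𝔭 → Van ψ 𝔭) (hM : Tors R A M)
    (hK : Kill A I M) : ψ M = 1 := by
  classical
  obtain ⟨k, hk⟩ := I.exists_radical_pow_le_of_fg I.radical.fg_of_isNoetherianRing
  have hfin := I.finite_minimalPrimes_of_isNoetherianRing R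
  let L₀ := hfin.toFinset.toList
  have h0 : L₀.prod ≤ I.radical := by
    rw [← Ideal.sInf_minimalPrimes]
    refine le_sInf fun 𝔭 h𝔭 => ?_
    have hm : 𝔭 ∈ L₀ := by simpa [L₀] using h𝔭
    exact Ideal.le_of_dvd (List.dvd_prod hm)
  refine h.devissage_list (List.replicate k L₀).flatten (fun J hJ => ?_) M hM fun r hr => hK r ?_
  · obtain ⟨l, hl, hJl⟩ := List.mem_flatten.1 hJ
    rw [List.eq_of_mem_replicate hl] at hJl
    have hm : J ∈ I.minimalPrimes := by simpa [L₀] using hJl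
    exact hI J hm.1.1 hm.1.2
  · rw [List.prod_flatten, List.map_replicate, List.prod_replicate] at hr
    exact hk (Ideal.pow_right_mono h0 k hr)

end add

section pd

open CategoryTheory

variable {A : Type u} [Ring A] {M M' M'' : Type u} [AddCommGroup M] [Module A M]
  [AddCommGroup M'] [Module A M'] [AddCommGroup M''] [Module A M''] {r : ℕ}

theorem shortExact_of (f : M' →ₗ[A] M) (g : M →ₗ[A] M'') (hf : Injective f) (hfg : Exact f g)
    (hg : Surjective g) :
    (ShortComplex.mk (ModuleCat.ofHom f) (ModuleCat.ofHom g) (by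
      ext x
      exact hfg.apply_apply_eq_zero x)).ShortExact where
  exact := (ShortComplex.ShortExact.moduleCat_exact_iff_function_exact _).2 hfg
  mono_f := (ModuleCat.mono_iff_injective _).2 hf
  epi_g := (ModuleCat.epi_iff_surjective _).2 hg

theorem PD.mono (h : PD A M r) {s : ℕ} (hrs : r ≤ s) : PD A M s := by
  have : HasProjectiveDimensionLT (ModuleCat.of A M) (r + 1) := h
  exact hasProjectiveDimensionLT_of_ge _ (r + 1) (s + 1) (by omega)

theorem pd_zero_iff : PD A M 0 ↔ Module.Projective A M := by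
  rw [PD, ← projective_iff_hasProjectiveDimensionLE_zero]
  exact (IsProjective.iff_projective M).symm

theorem PD.of_projective [h : Module.Projective A M] (r : ℕ) : PD A M r :=
  (pd_zero_iff.2 h).mono (Nat.zero_le r)

theorem PD.equiv (h : PD A M r) (e : M ≃ₗ[A] M') : PD A M' r := by
  have : HasProjectiveDimensionLT (ModuleCat.of A M) (r + 1) := h
  exact hasProjectiveDimensionLT_of_iso e.toModuleIso (r + 1)

theorem PD.left (f : M' →ₗ[A] M) (g : M →ₗ[A] M'') (hf : Injective f) (hfg : Exact f g)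
    (hg : Surjective g) (h₂ : PD A M r) (h₃ : PD A M'' (r + 1)) : PD A M' r :=
  (shortExact_of f g hf hfg hg).hasProjectiveDimensionLT_X₁ (r + 1) h₂ h₃

theorem PD.mid (f : M' →ₗ[A] M) (g : M →ₗ[A] M'') (hf : Injective f) (hfg : Exact f g)
    (hg : Surjective g) (h₁ : PD A M' r) (h₃ : PD A M'' r) : PD A M r :=
  (shortExact_of f g hf hfg hg).hasProjectiveDimensionLT_X₂ (r + 1) h₁ h₃

theorem PD.right (f : M' →ₗ[A] M) (g : M →ₗ[A] M'') (hf : Injective f) (hfg : Exact f g)
    (hg : Surjective g) (h₁ : PD A M' r) (h₂ : PD A M (r + 1)) : PD A M'' (r + 1) :=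
  (shortExact_of f g hf hfg hg).hasProjectiveDimensionLT_X₃ (r + 1) h₁ h₂

end pd

section az

variable {R A : Type u} [CommRing R] [Ring A] [Algebra R A]
  {V W : Type u} [AddCommGroup V] [Module A V] [Module R V] [IsScalarTower R A V]
  [AddCommGroup W] [Module A W] [Module R W] [IsScalarTower R A W]

/-- the bilinear evaluation used for averaging -/
noncomputable def avB (f : V →ₗ[R] W) (v : V) : A ⊗[R] A →ₗ[R] W :=
  TensorProduct.lift (LinearMap.mk₂ R (fun a b : A => a • f (b • v))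
    (fun a a' b => add_smul _ _ _) (fun c a b => smul_assoc _ _ _)
    (fun a b b' => by rw [add_smul, map_add, smul_add])
    (fun c a b => by rw [smul_assoc, map_smul, smul_comm]))

theorem avB_tmul (f : V →ₗ[R] W) (v : V) (a b : A) : avB f v (a ⊗ₜ[R] b) = a • f (b • v) := rfl

/-- averaging of a linear map -/
noncomputable def avg {k : ℕ} (a b : Fin k → A)
    (hc : ∀ c : A, ∑ i, (c * a i) ⊗ₜ[R] b i = ∑ i, a i ⊗ₜ[R] (b i * c)) (f : V →ₗ[R] W) :
    V →ₗ[A] W where
  toFun v := ∑ i, a i • f (b i • v)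
  map_add' v w := by simp [Finset.sum_add_distrib]
  map_smul' c v := by
    have := congrArg (avB f v) (hc c)
    simp only [map_sum, avB_tmul, mul_smul] at this
    rw [← this, RingHom.id_apply, Finset.smul_sum]

theorem avg_apply {k : ℕ} (a b : Fin k → A)
    (hc : ∀ c : A, ∑ i, (c * a i) ⊗ₜ[R] b i = ∑ i, a i ⊗ₜ[R] (b i * c)) (f : V →ₗ[R] W) (v : V) :
    avg a b hc f v = ∑ i, a i • f (b i • v) := rfl

/-- a lifting problem solvable over `R` is solvable over `A` -/
theorem Az.lift (h : Az R A) {W' : Type u} [AddCommGroup W'] [Module A W'] (p : W →ₗ[A] W')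
    (g : V →ₗ[A] W') (f : V →ₗ[R] W) (hf : ∀ v, p (f v) = g v) :
    ∃ f' : V →ₗ[A] W, ∀ v, p (f' v) = g v := by
  obtain ⟨k, a, b, h1, hc, -⟩ := h
  refine ⟨avg a b hc f, fun v => ?_⟩
  simp only [avg_apply, map_sum, map_smul, hf, smul_smul]
  rw [← Finset.sum_smul, h1, one_smul]

/-- an extension problem solvable over `R` is solvable over `A` -/
theorem Az.extend (h : Az R A) {V' : Type u} [AddCommGroup V'] [Module A V'] (i : V' →ₗ[A] V)
    (g : V' →ₗ[A] W) (f : V →ₗ[R] W) (hf : ∀ v, f (i v) = g v) :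
    ∃ f' : V →ₗ[A] W, ∀ v, f' (i v) = g v := by
  obtain ⟨k, a, b, h1, hc, -⟩ := h
  refine ⟨avg a b hc f, fun v => ?_⟩
  have e : ∀ j, a j • f (b j • i v) = (a j * b j) • g v := fun j => by
    rw [← map_smul i, hf, map_smul, smul_smul]
  rw [avg_apply, Finset.sum_congr rfl fun j _ => e j, ← Finset.sum_smul, h1, one_smul]

/-- a nonzero `R`-linear map gives a nonzero `A`-linear map -/
theorem Az.exists_ne_zero (h : Az R A) (f : V →ₗ[R] W) (hf : f ≠ 0) :
    ∃ f' : V →ₗ[A] W, f' ≠ 0 := by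
  obtain ⟨k, a, b, -, hc, l, x, z, w, h2⟩ := h
  by_contra hcon
  push Not at hcon
  refine hf (LinearMap.ext fun v => ?_)
  have e := congrArg (avB f v) h2
  simp only [map_sum, avB_tmul, one_smul] at e
  rw [← e, LinearMap.zero_apply]
  refine Finset.sum_eq_zero fun j _ => ?_
  let F : V →ₗ[R] W := (DistribSMul.toLinearMap R W (z j)) ∘ₗ f ∘ₗ
    (DistribSMul.toLinearMap R V (w j))
  have := LinearMap.congr_fun (hcon (avg a b hc F)) v
  rw [avg_apply, LinearMap.zero_apply] at this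
  have e2 : ∑ i, (x j * a i * z j) • f ((w j * b i) • v) = x j • ∑ i, a i • F (b i • v) := by
    rw [Finset.smul_sum]
    refine Finset.sum_congr rfl fun i _ => ?_
    simp [F, mul_smul]
  rw [e2, this, smul_zero]

end az

/-- a finite algebra over a local ring has finitely many maximal ideals -/
theorem finite_maximalSpectrum (R T : Type u) [CommRing R] [IsLocalRing R] [CommRing T]
    [Algebra R T] [Module.Finite R T] : Finite (MaximalSpectrum T) := by
  have h := Algebra.QuasiFinite.finite_primesOver (R := R) (S := T) (IsLocalRing.maximalIdeal R)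
  have := h.to_subtype
  refine Finite.of_injective (fun 𝔫 : MaximalSpectrum T =>
    (⟨𝔫.asIdeal, 𝔫.isMaximal.isPrime, ⟨?_⟩⟩ : (IsLocalRing.maximalIdeal R).primesOver T))
    fun a b hab => MaximalSpectrum.ext (congrArg Subtype.val hab)
  have := 𝔫.isMaximal
  exact (IsLocalRing.eq_maximalIdeal (Ideal.isMaximal_comap_of_isIntegral_of_isMaximal _)).symm

/-- an element of an ideal which is one modulo the maximal ideals not containing the ideal -/
theorem exists_mem_sub_one_mem {T : Type u} [CommRing T] [Finite (MaximalSpectrum T)]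
    (q : Ideal T) : ∃ j ∈ q, ∀ 𝔫 : Ideal T, 𝔫.IsMaximal → ¬ q ≤ 𝔫 → j - 1 ∈ 𝔫 := by
  classical
  have := Fintype.ofFinite (MaximalSpectrum T)
  let s : Finset (MaximalSpectrum T) := Finset.univ.filter fun 𝔫 => ¬ q ≤ 𝔫.asIdeal
  have h : q ⊔ ⨅ 𝔫 ∈ s, 𝔫.asIdeal = ⊤ := by
    refine Ideal.sup_iInf_eq_top fun 𝔫 h𝔫 => ?_
    have h1 : ¬ q ≤ 𝔫.asIdeal := (Finset.mem_filter.1 h𝔫).2
    by_contra h2
    exact h1 (le_sup_left.trans (𝔫.isMaximal.eq_of_le h2 le_sup_right).ge)
  obtain ⟨j, hj, z, hz, e⟩ := Submodule.mem_sup.1 ((Ideal.eq_top_iff_one _).1 h)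
  refine ⟨j, hj, fun 𝔫 h𝔫 hq => ?_⟩
  have hz' : z ∈ 𝔫 := by
    have := (Submodule.mem_iInf _).1 hz ⟨𝔫, h𝔫⟩
    exact (Submodule.mem_iInf _).1 this (Finset.mem_filter.2 ⟨Finset.mem_univ _, hq⟩)
  have : j - 1 = -z := by rw [← e]; ring
  rw [this]
  exact 𝔫.neg_mem hz'

/-- a locally principal ideal of a semilocal ring with a regular generator -/
theorem prin {T N : Type u} [CommRing T] [IsNoetherianRing T] [Finite (MaximalSpectrum T)]
    [AddCommGroup N] [Module T N] (q : Ideal T) (g δ δ₁ : T) (hg : g ∈ q)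
    (hq : q ≤ Ideal.span {g} ⊔ q ^ 2) (hδ : δ * δ₁ - 1 ∈ q)
    (hN : ∀ y : N, g • y = 0 → ∃ k : ℕ, δ ^ k • y = 0) :
    ∃ g₀ : T, q = Ideal.span {g₀} ∧ IsSMulRegular N g₀ := by
  obtain ⟨j, hj, hj1⟩ := exists_mem_sub_one_mem (q ^ 2)
  have hq2 : q ^ 2 ≤ q := Ideal.pow_le_self two_ne_zero
  let g₀ := g + j * (1 - g)
  have hg₀ : g₀ ∈ q := q.add_mem hg (q.mul_mem_right _ (hq2 hj))
  have h1 : q ≤ Ideal.span {g₀} ⊔ q • q := by
    rw [smul_eq_mul, ← pow_two]
    refine hq.trans (sup_le ?_ le_sup_right)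
    rw [Ideal.span_singleton_le_iff_mem]
    have : g = g₀ - j * (1 - g) := by simp [g₀]
    rw [this]
    exact Submodule.sub_mem _ (Submodule.mem_sup_left (Ideal.mem_span_singleton_self _))
      (Submodule.mem_sup_right (Ideal.mul_mem_right _ _ hj))
  obtain ⟨r, hr1, hr2⟩ := Submodule.exists_sub_one_mem_and_smul_le_of_fg_of_le_sup
    (I := q) (N := Ideal.span {g₀}) (N' := q) (P := q) q.fg_of_isNoetherianRing le_rfl h1
  have h2 : Ideal.span {g₀} ⊔ Ideal.span {r} = ⊤ := by
    by_contra h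
    obtain ⟨𝔫, h𝔫, hle⟩ := Ideal.exists_le_maximal _ h
    have a1 : g₀ ∈ 𝔫 := hle (Submodule.mem_sup_left (Ideal.mem_span_singleton_self _))
    have a2 : r ∈ 𝔫 := hle (Submodule.mem_sup_right (Ideal.mem_span_singleton_self _))
    by_cases hc : q ≤ 𝔫
    · have : (1 : T) = r - (r - 1) := by ring
      exact h𝔫.ne_top ((Ideal.eq_top_iff_one _).2 (this ▸ 𝔫.sub_mem a2 (hc hr1)))
    · have a3 := hj1 𝔫 h𝔫 fun h' => hc (h𝔫.isPrime.le_of_pow_le h')
      have : (1 : T) = g₀ - (j - 1) * (1 - g) := by simp only [g₀]; ring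
      exact h𝔫.ne_top ((Ideal.eq_top_iff_one _).2
        (this ▸ 𝔫.sub_mem a1 (𝔫.mul_mem_right _ a3)))
  have h3 : q = Ideal.span {g₀} := by
    refine le_antisymm (fun e he => ?_) ((Ideal.span_singleton_le_iff_mem _).2 hg₀)
    obtain ⟨a, ha, b, hb, hab⟩ := Submodule.mem_sup.1 ((Ideal.eq_top_iff_one _).1 h2)
    obtain ⟨b, rfl⟩ := Ideal.mem_span_singleton'.1 hb
    have : e = a * e + b * (r • e) := by
      rw [smul_eq_mul, ← mul_assoc, ← add_mul, hab, one_mul]
    rw [this]
    exact Submodule.add_mem _ (Ideal.mul_mem_right _ _ ha)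
      (Ideal.mul_mem_left _ _ (hr2 (Submodule.smul_mem_pointwise_smul e r q he)))
  refine ⟨g₀, h3, (isSMulRegular_iff_right_eq_zero_of_smul).2 fun y hy => ?_⟩
  have hk : ∀ c ∈ q, c • y = 0 := fun c hc => by
    rw [h3] at hc
    obtain ⟨c, rfl⟩ := Ideal.mem_span_singleton'.1 hc
    rw [mul_smul, hy, smul_zero]
  obtain ⟨k, hk'⟩ := hN y (hk g hg)
  have h4 : (δ * δ₁) ^ k - 1 ∈ q := by
    have := sub_dvd_pow_sub_pow (δ * δ₁) 1 k
    rw [one_pow] at this
    exact Ideal.mem_of_dvd q this hδ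
  have := hk _ h4
  rw [sub_smul, one_smul, mul_pow, mul_comm, mul_smul, hk', smul_zero, zero_sub,
    neg_eq_zero] at this
  exact this

section nu

variable {R A Ω : Type u} [CommRing R] [Ring A] [Algebra R A] [Field Ω] [Algebra R Ω]
  {n : ℕ} (Φ : A →ₐ[R] Matrix (Fin n) (Fin n) Ω)
  {F F' : Type u} [AddCommGroup F] [Module A F] [AddCommGroup F'] [Module A F']

theorem nu_comp (φ φ' : F →ₗ[A] F) : nu Φ (φ ∘ₗ φ') = nu Φ φ * nu Φ φ' := by
  rw [nu, nu, nu, mul_comm, ← LinearMap.det_comp]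
  rfl

theorem nu_id : nu Φ (LinearMap.id : F →ₗ[A] F) = 1 := by
  rw [nu, ← LinearMap.det_id (A := Ω) (M := F →ₗ[A] Col Φ)]
  rfl

theorem nu_conj (φ : F →ₗ[A] F) (e : F ≃ₗ[A] F') :
    nu Φ (e.toLinearMap ∘ₗ φ ∘ₗ e.symm.toLinearMap) = nu Φ φ := by
  let E : (F →ₗ[A] Col Φ) ≃ₗ[Ω] (F' →ₗ[A] Col Φ) :=
    LinearEquiv.ofLinearMap (LinearMap.lcomp Ω (Col Φ) e.symm.toLinearMap)
      (LinearMap.lcomp Ω (Col Φ) e.toLinearMap) (by ext; simp) (by ext; simp)
  rw [nu, nu, ← LinearMap.det_conj (LinearMap.lcomp Ω (Col Φ) φ) E]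
  rfl

instance finite_hom_col [Module.Finite A F] : Module.Finite Ω (F →ₗ[A] Col Φ) := by
  obtain ⟨k, p, hp⟩ := Module.Finite.exists_fin' A F
  let L : (F →ₗ[A] Col Φ) →ₗ[Ω] (Fin k → Col Φ) :=
    LinearMap.pi fun i =>
      { toFun := fun ξ => ξ (p (Pi.single i 1))
        map_add' := fun _ _ => rfl
        map_smul' := fun _ _ => rfl }
  refine Module.Finite.of_injective L ((injective_iff_map_eq_zero _).2 fun ξ hξ => ?_)
  have h0 : ξ ∘ₗ p = 0 := by
    refine LinearMap.pi_ext' fun i => LinearMap.ext_ring ?_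
    exact congrFun hξ i
  refine LinearMap.ext fun x => ?_
  obtain ⟨x, rfl⟩ := hp x
  exact LinearMap.congr_fun h0 x

theorem nu_prodMap [Module.Finite A F] [Module.Finite A F'] (φ : F →ₗ[A] F) (φ' : F' →ₗ[A] F') :
    nu Φ (φ.prodMap φ') = nu Φ φ * nu Φ φ' := by
  let E : ((F →ₗ[A] Col Φ) × (F' →ₗ[A] Col Φ)) ≃ₗ[Ω] (F × F' →ₗ[A] Col Φ) :=
    LinearMap.coprodEquiv Ω
  rw [nu, nu, nu, ← LinearMap.det_prodMap, ← LinearMap.det_conj _ E]
  congr 1
  refine LinearMap.ext fun ξ => ?_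
  refine LinearMap.ext fun x => ?_
  have : x = (x.1, 0) + (0, x.2) := by simp
  simp [E, LinearMap.coprodEquiv, ← map_add]

theorem nu_toSpanSingleton (a : A) : nu Φ (LinearMap.toSpanSingleton A A a) = (Φ a).det := by
  let E : (A →ₗ[A] Col Φ) ≃ₗ[Ω] Col Φ := LinearMap.ringLmapEquivSelf A Ω (Col Φ)
  rw [nu, ← LinearMap.det_conj _ E, ← LinearMap.det_toLin' (Φ a)]
  congr 1
  refine LinearMap.ext fun w => ?_
  change (E.symm w) (LinearMap.toSpanSingleton A A a 1) = (Φ a).mulVec (Col.vec Φ w)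
  simp [E]
  rfl

theorem Col.algebraMap_smul (r : R) (w : Col Φ) :
    algebraMap R A r • w = algebraMap R Ω r • w := by
  change (Φ (algebraMap R A r)).mulVec (Col.vec Φ w) = algebraMap R Ω r • Col.vec Φ w
  rw [AlgHom.commutes, Algebra.algebraMap_eq_smul_one, Matrix.smul_mulVec, Matrix.one_mulVec,
    _root_.algebraMap_smul]

theorem nu_ne_zero_of_smul [Module.Finite A F] (φ : F →ₗ[A] F) (r : R)
    (hr : algebraMap R Ω r ≠ 0) (h : ∀ x, φ x = algebraMap R A r • x) : nu Φ φ ≠ 0 := by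
  have : LinearMap.lcomp Ω (Col Φ) φ = algebraMap R Ω r • LinearMap.id := by
    refine LinearMap.ext fun ξ => LinearMap.ext fun x => ?_
    simp [h, Col.algebraMap_smul]
  rw [nu, this, LinearMap.det_smul, LinearMap.det_id, mul_one]
  exact pow_ne_zero _ hr

theorem nu_unipotent [Module.Finite A F] (N : F →ₗ[A] F) (hN : N ∘ₗ N = 0) :
    nu Φ (LinearMap.id + N) = 1 := by
  let N' := LinearMap.lcomp Ω (Col Φ) N
  have h1 : LinearMap.lcomp Ω (Col Φ) (LinearMap.id + N) = 1 + N' := by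
    refine LinearMap.ext fun ξ => LinearMap.ext fun x => ?_
    simp [N']
  have h2 : IsNilpotent N' := ⟨2, by
    refine LinearMap.ext fun ξ => LinearMap.ext fun x => ?_
    have := LinearMap.congr_fun hN x
    simp only [LinearMap.comp_apply, LinearMap.zero_apply] at this
    simp [N', pow_two, this]⟩
  have h3 := LinearMap.eval_charpoly (-N') 1
  rw [IsNilpotent.charpoly_eq_X_pow_finrank h2.neg] at h3
  rw [nu, h1]
  simpa using h3.symm

end nu

end Pool.Agent.P.MP_46a8f8_ag
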