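import Pool.Agent.P.MP_46a8f8_ag.Base

/-!
The invariant of torsion modules of projective dimension at most one (Schanuel's argument).
-/

namespace Pool.Agent.P.MP_46a8f8_ag

open Function

universe u

namespace Chi1P

variable {R A Γ : Type u} [CommRing R] [Ring A] [Algebra R A] [CommGroup Γ]
  {θ : ∀ (F : Type u) [AddCommGroup F] [Module A F], (F →ₗ[A] F) → Γ}
  {F F' M : Type u} [AddCommGroup F] [Module A F] [AddCommGroup F'] [Module A F']
  [AddCommGroup M] [Module A M]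

/-- `φ` and `p` form a presentation of `M` -/
def Pres (φ : F →ₗ[A] F) (p : F →ₗ[A] M) : Prop :=
  Injective φ ∧ Surjective p ∧ LinearMap.range φ = LinearMap.ker p

theorem Pres.good {φ : F →ₗ[A] F} {p : F →ₗ[A] M} (h : Pres φ p) (hM : Tors R A M) :
    Good R φ :=
  ⟨h.1, hM.equiv ((Submodule.quotEquivOfEq _ _ h.2.2).trans
    (p.quotKerEquivOfSurjective h.2.1)).symm⟩

theorem good_bij [Nontrivial R] {φ : F →ₗ[A] F} (h : Bijective φ) : Good R φ := by
  have : Subsingleton (F ⧸ LinearMap.range φ) :=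
    Submodule.Quotient.subsingleton_iff.2 (LinearMap.range_eq_top.2 h.2)
  exact ⟨h.1, Tors.subsingleton⟩

theorem same [Nontrivial R] [Module.Free A F] [Module.Finite A F] (hθ : IsTheta R θ)
    {φ φ' : F →ₗ[A] F} (h : Injective φ) (h' : Good R φ')
    (e : LinearMap.range φ = LinearMap.range φ') : θ F φ = θ F φ' := by
  let γ : F ≃ₗ[A] F := ((LinearEquiv.ofInjective φ h).trans (LinearEquiv.ofEq _ _ e)).trans
    (LinearEquiv.ofInjective φ' h'.1).symm
  have h1 : φ = φ' ∘ₗ γ.toLinearMap := by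
    refine LinearMap.ext fun x => ?_
    have := (LinearEquiv.ofInjective φ' h'.1).apply_symm_apply
      (LinearEquiv.ofEq _ _ e (LinearEquiv.ofInjective φ h x))
    exact (congrArg Subtype.val this).symm
  rw [h1, hθ.comp F _ _ h' (good_bij γ.bijective), hθ.bij F _ γ.bijective, mul_one]

theorem twist [Nontrivial R] [Module.Free A F] [Module.Finite A F] (hθ : IsTheta R θ)
    {φ φ' β : F →ₗ[A] F} {p : F →ₗ[A] M} (hβ : Bijective β) (h : Pres φ (p ∘ₗ β))
    (h' : Pres φ' p) (hM : Tors R A M) : θ F φ = θ F φ' := by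
  have e : LinearMap.range (β ∘ₗ φ) = LinearMap.range φ' := by
    rw [LinearMap.range_comp, h.2.2, h'.2.2, LinearMap.ker_comp,
      Submodule.map_comap_eq_of_surjective hβ.2]
  rw [← same hθ (φ := β ∘ₗ φ) (hβ.1.comp h.1) (h'.good hM) e,
    hθ.comp F _ _ (good_bij hβ) (h.good hM), hθ.bij F _ hβ, one_mul]

theorem key [Nontrivial R] [Module.Free A F] [Module.Finite A F] [Module.Free A F']
    [Module.Finite A F'] (hθ : IsTheta R θ) {φ : F →ₗ[A] F} {φ' : F' →ₗ[A] F'}
    {p : F →ₗ[A] M} {p' : F' →ₗ[A] M} (h : Pres φ p) (h' : Pres φ' p') (hM : Tors R A M) :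
    θ F φ = θ F' φ' := by
  obtain ⟨k, hk⟩ := Module.projective_lifting_property p' p h'.2.1
  obtain ⟨k', hk'⟩ := Module.projective_lifting_property p p' h.2.1
  have a1 : ∀ x, p' (k x) = p x := fun x => LinearMap.congr_fun hk x
  have a2 : ∀ y, p (k' y) = p' y := fun y => LinearMap.congr_fun hk' y
  let l : F × F' →ₗ[A] F := LinearMap.fst A F F' - k' ∘ₗ LinearMap.snd A F F'
  let β : F × F' →ₗ[A] F × F' := l.prod (LinearMap.snd A F F' + k ∘ₗ l)
  have hb : ∀ z, β z = (z.1 - k' z.2, z.2 + k (z.1 - k' z.2)) := fun _ => rfl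
  have hβ : Bijective β := by
    refine ⟨(injective_iff_map_eq_zero _).2 fun z hz => ?_, fun z => ?_⟩
    · rw [hb, Prod.mk_eq_zero] at hz
      obtain ⟨h1, h2⟩ := hz
      rw [h1, map_zero, add_zero] at h2
      rw [h2, map_zero, sub_zero] at h1
      exact Prod.ext h1 h2
    · refine ⟨(z.1 + k' (z.2 - k z.1), z.2 - k z.1), ?_⟩
      rw [hb]
      simp only [add_sub_cancel_right, sub_add_cancel]
  have e : (p' ∘ₗ LinearMap.snd A F F') ∘ₗ β = p ∘ₗ LinearMap.fst A F F' := by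
    refine LinearMap.ext fun z => ?_
    change p' (β z).2 = p z.1
    rw [hb, map_add, a1, map_sub, a2]
    abel
  have p1 : Pres (φ.prodMap (LinearMap.id : F' →ₗ[A] F'))
      ((p' ∘ₗ LinearMap.snd A F F') ∘ₗ β) := by
    rw [e]
    refine ⟨h.1.prodMap injective_id, h.2.1.comp LinearMap.fst_surjective, ?_⟩
    rw [LinearMap.range_prodMap, h.2.2, LinearMap.range_id]
    ext z
    simp
  have p2 : Pres ((LinearMap.id : F →ₗ[A] F).prodMap φ') (p' ∘ₗ LinearMap.snd A F F') := by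
    refine ⟨injective_id.prodMap h'.1, h'.2.1.comp LinearMap.snd_surjective, ?_⟩
    rw [LinearMap.range_prodMap, h'.2.2, LinearMap.range_id]
    ext z
    simp
  have := twist hθ hβ p1 p2 hM
  rwa [hθ.prod F F' _ LinearMap.id (h.good hM) (good_bij bijective_id),
    hθ.prod F F' LinearMap.id _ (good_bij bijective_id) (h'.good hM),
    hθ.bij F' LinearMap.id bijective_id, hθ.bij F LinearMap.id bijective_id, mul_one,
    one_mul] at this

/-- presentations by finite free modules -/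
def IsP (A M : Type u) [Ring A] [AddCommGroup M] [Module A M]
    (t : Σ F : ModuleCat.{u} A, (F →ₗ[A] F) × (F →ₗ[A] M)) : Prop :=
  Module.Free A t.1 ∧ Module.Finite A t.1 ∧ Pres t.2.1 t.2.2

open Classical in
/-- the invariant -/
noncomputable def chi (θ : ∀ (F : Type u) [AddCommGroup F] [Module A F], (F →ₗ[A] F) → Γ) :
    Inv A Γ := fun M _ _ =>
  if h : ∃ t, IsP A M t then θ h.choose.1 h.choose.2.1 else 1

theorem chi_eq [Nontrivial R] [Module.Free A F] [Module.Finite A F] (hθ : IsTheta R θ)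
    {φ : F →ₗ[A] F} {p : F →ₗ[A] M} (h : Pres φ p) (hM : Tors R A M) : chi θ M = θ F φ := by
  have hex : ∃ t, IsP A M t := ⟨⟨ModuleCat.of A F, φ, p⟩, inferInstance, inferInstance, h⟩
  obtain ⟨h1, h2, h3⟩ := hex.choose_spec
  rw [chi, dif_pos hex]
  exact key hθ h3 h hM

theorem proj_ker [Module.Free A F] {p : F →ₗ[A] M} (hp : Surjective p) (h : PD A M 1) :
    Module.Projective A (LinearMap.ker p) :=
  pd_zero_iff.1 (PD.left (LinearMap.ker p).subtype p (LinearMap.ker p).injective_subtype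
    (LinearMap.exact_subtype_ker_map p) hp (PD.of_projective 0) h)

theorem pres_ker {p : F →ₗ[A] M} (hp : Surjective p) (e : LinearMap.ker p ≃ₗ[A] F) :
    Pres ((LinearMap.ker p).subtype ∘ₗ e.symm.toLinearMap) p :=
  ⟨(LinearMap.ker p).injective_subtype.comp e.symm.injective, hp, by
    rw [LinearMap.range_comp, LinearEquiv.range, Submodule.map_top, Submodule.range_subtype]⟩

end Chi1P

open Chi1P in
theorem chi1 : S_Chi1.{u} := by
  intro R A Γ _ _ _ _ _ _ _ θ hθ hK
  have := isNoetherianRing_alg R A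
  refine ⟨chi θ, ?_, fun F _ _ _ _ φ hφ =>
    chi_eq hθ ⟨hφ.1, Submodule.mkQ_surjective _, (Submodule.ker_mkQ _).symm⟩ hφ.2⟩
  intro M₁ M₂ M₃ _ _ _ _ _ _ f g hf hfg hg t2 _ d2 d3
  have t1 := t2.of_injective f hf
  have t3 := t2.of_surjective g hg
  have := t2.1
  obtain ⟨N, π, hπ⟩ := Module.Finite.exists_fin' A M₂
  have hπ3 : Surjective (g ∘ₗ π) := hg.comp hπ
  obtain ⟨e2⟩ := hK _ (LinearMap.ker π) (proj_ker hπ d2)
    (t2.equiv (π.quotKerEquivOfSurjective hπ).symm)
  obtain ⟨e3⟩ := hK _ (LinearMap.ker (g ∘ₗ π)) (proj_ker hπ3 d3)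
    (t3.equiv ((g ∘ₗ π).quotKerEquivOfSurjective hπ3).symm)
  have q2 := pres_ker hπ e2
  have q3 := pres_ker hπ3 e3
  have hle : LinearMap.ker π ≤ LinearMap.ker (g ∘ₗ π) := LinearMap.ker_le_ker_comp π g
  set φ3 := (LinearMap.ker (g ∘ₗ π)).subtype ∘ₗ e3.symm.toLinearMap with hφ3
  let φ1 : (Fin N → A) →ₗ[A] (Fin N → A) :=
    e3.toLinearMap ∘ₗ Submodule.inclusion hle ∘ₗ e2.symm.toLinearMap
  have h31 : ∀ x, φ3 (φ1 x) = (e2.symm x : Fin N → A) := fun x => by
    simp [hφ3, φ1]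
  have hr : ∀ x, (π ∘ₗ φ3) x ∈ LinearMap.range f := fun x => (hfg _).1 (e3.symm x).2
  let p1 : (Fin N → A) →ₗ[A] M₁ :=
    (LinearEquiv.ofInjective f hf).symm.toLinearMap ∘ₗ LinearMap.codRestrict _ (π ∘ₗ φ3) hr
  have hp1 : ∀ x, f (p1 x) = π (φ3 x) := fun x =>
    congrArg Subtype.val ((LinearEquiv.ofInjective f hf).apply_symm_apply
      (LinearMap.codRestrict _ (π ∘ₗ φ3) hr x))
  have q1 : Pres φ1 p1 := by
    refine ⟨e3.injective.comp ((Submodule.inclusion_injective hle).comp e2.symm.injective),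
      fun m => ?_, ?_⟩
    · obtain ⟨y, hy⟩ := hπ (f m)
      have hy3 : y ∈ LinearMap.ker (g ∘ₗ π) := by
        rw [LinearMap.mem_ker, LinearMap.comp_apply, hy]
        exact hfg.apply_apply_eq_zero m
      refine ⟨e3 ⟨y, hy3⟩, hf ?_⟩
      rw [hp1, ← hy]
      simp [hφ3]
    · ext x
      rw [LinearMap.mem_ker, ← map_eq_zero_iff f hf, hp1]
      constructor
      · rintro ⟨y, rfl⟩
        rw [h31]
        exact (e2.symm y).2
      · intro hx
        refine ⟨e2 ⟨φ3 x, hx⟩, q3.1 ?_⟩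
        rw [h31, e2.symm_apply_apply]
  have e : (LinearMap.ker π).subtype ∘ₗ e2.symm.toLinearMap = φ3 ∘ₗ φ1 :=
    LinearMap.ext fun x => (h31 x).symm
  rw [chi_eq hθ q1 t1, chi_eq hθ q2 t2, chi_eq hθ q3 t3, e,
    hθ.comp _ _ _ (q3.good t3) (q1.good t1), mul_comm]

end Pool.Agent.P.MP_46a8f8_ag
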