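import Pool.Agent.P.MP_46a8f8_ag.Base

/-!
Vanishing of additive invariants at the closed point.
-/

namespace Pool.Agent.P.MP_46a8f8_ag

open Function IsLocalRing

universe u

namespace ClosedP

/-- a lattice in a free module over a principal quotient -/
theorem lattice {R D L : Type u} [CommRing R] [CommRing D] [IsDomain D] [IsPrincipalIdealRing D]
    [Algebra R D] [AddCommGroup L] [Module R L] (hs : Surjective (algebraMap R D)) {r : ℕ}
    (i : L →ₗ[R] (Fin r → D)) (hi : Injective i) (c : R) (hc : algebraMap R D c ≠ 0)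
    (h : ∀ v, c • v ∈ LinearMap.range i) : Nonempty (L ≃ₗ[R] (Fin r → D)) := by
  let N : Submodule D (Fin r → D) :=
    { carrier := LinearMap.range i
      add_mem' := fun ha hb => Submodule.add_mem _ ha hb
      zero_mem' := Submodule.zero_mem _
      smul_mem' := fun d x hx => by
        obtain ⟨s, rfl⟩ := hs d
        rw [algebraMap_smul]
        exact Submodule.smul_mem _ s hx }
  let j : L →ₗ[R] N :=
    { toFun := fun x => ⟨i x, x, rfl⟩
      map_add' := fun x y => Subtype.ext (map_add i x y)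
      map_smul' := fun s x => Subtype.ext (map_smul i s x) }
  have hj : Bijective j := ⟨fun x y e => hi (congrArg Subtype.val e), fun ⟨_, x, e⟩ =>
    ⟨x, Subtype.ext e⟩⟩
  let k : (Fin r → D) →ₗ[D] N := LinearMap.codRestrict N (algebraMap R D c • LinearMap.id)
    fun v => by
      rw [LinearMap.smul_apply, LinearMap.id_apply, algebraMap_smul]
      exact h v
  have hk : Injective k := fun x y e => smul_right_injective _ hc (congrArg Subtype.val e)
  have hr : Module.finrank D N = Module.finrank D (Fin r → D) :=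
    le_antisymm (Submodule.finrank_le N) (LinearMap.finrank_le_finrank_of_injective hk)
  exact ⟨(LinearEquiv.ofBijective j hj).trans
    ((LinearEquiv.ofFinrankEq N (Fin r → D) hr).restrictScalars R)⟩

variable {R A F : Type u} [CommRing R] [Ring A] [Algebra R A] [AddCommGroup F] [Module A F]
  [Module R F] [IsScalarTower R A F]

/-- the multiples of an ideal of the base ring -/
def mul (A F : Type u) [Ring A] [Algebra R A] [AddCommGroup F] [Module A F] [Module R F]
    [IsScalarTower R A F] (J : Ideal R) : Submodule A F where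
  carrier := (J • ⊤ : Submodule R F)
  add_mem' ha hb := Submodule.add_mem _ ha hb
  zero_mem' := Submodule.zero_mem _
  smul_mem' a x hx := by
    refine Submodule.smul_induction_on hx (fun s hs y _ => ?_) fun y z hy hz => ?_
    · rw [smul_comm]
      exact Submodule.smul_mem_smul hs Submodule.mem_top
    · rw [smul_add]
      exact Submodule.add_mem _ hy hz

theorem mem_mul {J : Ideal R} {x : F} : x ∈ mul A F J ↔ x ∈ (J • ⊤ : Submodule R F) := Iff.rfl

theorem quot_equiv [Module.Free R F] [Module.Finite R F] [Nontrivial R] (J : Ideal R) :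
    Nonempty ((F ⧸ mul A F J) ≃ₗ[R] (Fin (Module.finrank R F) → R ⧸ J)) := by
  let b := Module.finBasis R F
  let g : F →ₗ[R] (Fin (Module.finrank R F) → R ⧸ J) :=
    LinearMap.pi fun i => J.mkQ ∘ₗ b.coord i
  have hg : Surjective g := fun v => by
    choose w hw using fun i => J.mkQ_surjective (v i)
    refine ⟨b.equivFun.symm w, funext fun i => ?_⟩
    rw [← hw]
    exact congrArg J.mkQ (congrFun (b.equivFun.apply_symm_apply w) i)
  have hk : (mul A F J).restrictScalars R = LinearMap.ker g := by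
    ext x
    change x ∈ (J • ⊤ : Submodule R F) ↔ g x = 0
    constructor
    · intro hx
      refine Submodule.smul_induction_on hx (fun s hs y _ => funext fun i => ?_)
        fun y z hy hz => by rw [map_add, hy, hz, add_zero]
      change J.mkQ (b.coord i (s • y)) = 0
      rw [map_smul, Submodule.mkQ_apply, Submodule.Quotient.mk_eq_zero]
      exact J.mul_mem_right _ hs
    · intro hx
      rw [← b.sum_repr x]
      refine Submodule.sum_mem _ fun i _ => Submodule.smul_mem_smul ?_ Submodule.mem_top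
      exact (Submodule.Quotient.mk_eq_zero J).1 (congrFun hx i)
  exact ⟨(Submodule.Quotient.restrictScalarsEquiv R (mul A F J)).symm.trans
    ((Submodule.quotEquivOfEq _ _ hk).trans (g.quotKerEquivOfSurjective hg))⟩

theorem kill_quot (J : Ideal R) : Kill A J (F ⧸ mul A F J) := fun s hs m => by
  obtain ⟨x, rfl⟩ := Submodule.Quotient.mk_surjective _ m
  rw [← Submodule.Quotient.mk_smul, Submodule.Quotient.mk_eq_zero, algebraMap_smul, mem_mul]
  exact Submodule.smul_mem_smul hs Submodule.mem_top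

theorem mul_le_ker {M : Type u} [AddCommGroup M] [Module A M] {J : Ideal R} (hK : Kill A J M)
    (p : F →ₗ[A] M) : mul A F J ≤ LinearMap.ker p := fun x hx => by
  refine Submodule.smul_induction_on (p := fun x => p x = 0) (mem_mul.1 hx)
    (fun s hs y _ => ?_) fun y z hy hz => by rw [map_add, hy, hz, add_zero]
  rw [← algebraMap_smul A, map_smul]
  exact hK s hs _

theorem ker_equiv {M : Type u} [AddCommGroup M] [Module A M] {J : Ideal R} [J.IsPrime]
    [IsPrincipalIdealRing (R ⧸ J)] {r : ℕ} (e : F ≃ₗ[R] (Fin r → R ⧸ J)) (q : F →ₗ[A] M) (c : R)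
    (hcJ : c ∉ J) (hc : ∀ m : M, algebraMap R A c • m = 0) :
    Nonempty (LinearMap.ker q ≃ₗ[R] (Fin r → R ⧸ J)) :=
  lattice (D := R ⧸ J) Ideal.Quotient.mk_surjective
    (e.toLinearMap ∘ₗ (LinearMap.ker q).subtype.restrictScalars R)
    (e.injective.comp (LinearMap.ker q).injective_subtype) c
    (fun h => hcJ (Ideal.Quotient.eq_zero_iff_mem.1 h)) fun v => by
      refine ⟨⟨c • e.symm v, ?_⟩, ?_⟩
      · rw [LinearMap.mem_ker, ← algebraMap_smul A, map_smul]
        exact hc _
      · change e (c • e.symm v) = _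
        rw [map_smul, e.apply_symm_apply]

theorem core (h3 : S_LemF.{u}) [IsLocalRing R] [IsNoetherianRing R] {Γ : Type u} [CommGroup Γ]
    {ψ : Inv A Γ} (hA : Az R A) (hψ : IsAdd R ψ) {M : Type u} [AddCommGroup M] [Module A M]
    {J : Ideal R} [J.IsPrime] [IsPrincipalIdealRing (R ⧸ J)] {r : ℕ}
    (e : F ≃ₗ[R] (Fin r → R ⧸ J)) (q : F →ₗ[A] M) (hq : Surjective q) (hT : Tors R A F) (c : R)
    (hcJ : c ∉ J) (hc : ∀ m : M, algebraMap R A c • m = 0) : ψ M = 1 := by
  obtain ⟨e'⟩ := h3 R A (LinearMap.ker q) F J r hA (ker_equiv e q c hcJ hc) ⟨e⟩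
  exact hψ.coker _ q (LinearMap.ker q).injective_subtype (LinearMap.exact_subtype_ker_map q) hq hT
    (hψ.equiv e' (hT.equiv e'.symm))

theorem core' (h3 : S_LemF.{u}) [IsLocalRing R] [IsNoetherianRing R] [Module.Free R F]
    [Module.Finite R F] [Module.Finite A F] {Γ : Type u} [CommGroup Γ]
    {ψ : Inv A Γ} (hA : Az R A) (hψ : IsAdd R ψ) {M : Type u} [AddCommGroup M] [Module A M]
    {J : Ideal R} [J.IsPrime] [IsPrincipalIdealRing (R ⧸ J)] (hJ : J ≠ ⊥) (hK : Kill A J M)
    (p : F →ₗ[A] M) (hp : Surjective p) (c : R)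
    (hcJ : c ∉ J) (hc : ∀ m : M, algebraMap R A c • m = 0) : ψ M = 1 := by
  obtain ⟨e⟩ := quot_equiv (A := A) (F := F) J
  refine core h3 hA hψ e ((mul A F J).liftQ p (mul_le_ker hK p)) (fun m => ?_)
    ((kill_quot J).tors hJ inferInstance) c hcJ hc
  obtain ⟨x, rfl⟩ := hp m
  exact ⟨Submodule.Quotient.mk x, rfl⟩

end ClosedP

theorem closed (_h1 : S_RegDom.{u}) (h2 : S_RegDVR.{u}) (h3 : S_LemF.{u}) : S_Closed.{u} := by
  intro R A Γ _ _ _ _ _ _ _ ψ hd hA hψ M _ _ hM hK
  obtain ⟨J, hJ, hJ0, hJm, hP⟩ := h2 R hd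
  have hle : J ≤ maximalIdeal R := le_maximalIdeal hJ.ne_top
  obtain ⟨c, hc, hcJ⟩ := SetLike.exists_of_lt (lt_of_le_of_ne hle hJm)
  obtain ⟨N, p, hp⟩ := Module.Finite.exists_fin' A M
  exact ClosedP.core' h3 hA hψ hJ0 (fun s hs => hK s (hle hs)) p hp c hcJ (hK c hc)

end Pool.Agent.P.MP_46a8f8_ag
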