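import Pool.Agent.P.MP_46a8f8_ag.Base

/-!
Equal lengths at the height one primes give equal invariants.
-/

namespace Pool.Agent.P.MP_46a8f8_ag

open Function

universe u

namespace CmpP

/-- a power of an element of a minimal prime lies in the ideal after localisation -/
theorem exists_mul_pow_mem {R : Type u} [CommRing R] {I p : Ideal R} (hp : p ∈ I.minimalPrimes)
    {x : R} (hx : x ∈ p) : ∃ s, s ∉ p ∧ ∃ k : ℕ, s * x ^ k ∈ I := by
  obtain ⟨⟨hp₁, hp₂⟩, hp₃⟩ := hp
  have : p.map (algebraMap R (Localization.AtPrime p)) ≤ (I.map (algebraMap _ _)).radical := by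
    rw [Ideal.radical_eq_sInf, le_sInf_iff]
    rintro q ⟨hq', hq⟩
    obtain ⟨h₁, h₂⟩ := ((IsLocalization.AtPrime.orderIsoOfPrime _ p) ⟨q, hq⟩).2
    rw [Ideal.map_le_iff_le_comap] at hq' ⊢
    exact hp₃ ⟨h₁, hq'⟩ h₂
  obtain ⟨n, hn⟩ := this (Ideal.mem_map_of_mem _ hx)
  rw [IsLocalization.mem_map_algebraMap_iff (M := p.primeCompl)] at hn
  obtain ⟨⟨a, b⟩, hn⟩ := hn
  rw [← map_pow, ← map_mul, IsLocalization.eq_iff_exists p.primeCompl] at hn
  obtain ⟨t, ht⟩ := hn
  refine ⟨t * b, (t * b).2, n, ?_⟩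
  simp only at ht
  have : t.1 * b.1 * x ^ n = t.1 * a := by
    rw [← ht]; ring
  rw [this]
  exact I.mul_mem_left _ a.2

/-- an element whose annihilator is the given minimal prime -/
theorem exists_ann {R M : Type u} [CommRing R] [IsNoetherianRing R] [AddCommGroup M] [Module R M]
    {f : R} {N : ℕ} {p : Ideal R} (hp : p ∈ (Ideal.span {f}).minimalPrimes)
    (hf : ∀ m : M, f ^ N • m = 0) (h : ∃ m : M, ∀ s, s ∉ p → s • m ≠ 0) :
    ∃ m : M, ∀ r, r • m = 0 ↔ r ∈ p := by
  classical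
  have hpp : p.IsPrime := hp.1.1
  let S : Set (Ideal R) := {J | ∃ m : M, (∀ s, s ∉ p → s • m ≠ 0) ∧ J = Ideal.torsionOf R M m}
  have hS : S.Nonempty := by
    obtain ⟨m, hm⟩ := h
    exact ⟨_, m, hm, rfl⟩
  obtain ⟨J, ⟨m, hm, rfl⟩, hmax⟩ := set_has_maximal_iff_noetherian.2
    (inferInstance : IsNoetherian R R) S hS
  refine ⟨m, fun r => ⟨fun hr => by_contra fun h' => hm r h' hr, fun hr => ?_⟩⟩
  have hex : ∃ k : ℕ, ∃ s, s ∉ p ∧ (s * r ^ k) • m = 0 := by
    obtain ⟨s, hs, k, hk⟩ := exists_mul_pow_mem hp hr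
    obtain ⟨c, hc⟩ := Ideal.mem_span_singleton'.1 hk
    refine ⟨k * N, s ^ N, fun h' => hs (hpp.mem_of_pow_mem _ h'), ?_⟩
    rw [pow_mul, ← mul_pow, ← hc, mul_pow, mul_smul, hf, smul_zero]
  obtain ⟨s, hs, hk⟩ := Nat.find_spec hex
  have h0 : Nat.find hex ≠ 0 := by
    intro h0
    rw [h0, pow_zero, mul_one] at hk
    exact hm s hs hk
  obtain ⟨j, hj⟩ := Nat.exists_eq_succ_of_ne_zero h0
  have hm' : ∀ t, t ∉ p → t • ((s * r ^ j) • m) ≠ 0 := by
    intro t ht h'
    refine Nat.find_min hex (m := j) (by omega) ⟨t * s, ?_, ?_⟩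
    · exact fun h'' => (hpp.mem_or_mem h'').elim ht hs
    · rw [mul_assoc, mul_smul, h']
  have hle : Ideal.torsionOf R M m ≤ Ideal.torsionOf R M ((s * r ^ j) • m) := by
    intro c hc
    rw [Ideal.mem_torsionOf_iff] at hc ⊢
    rw [smul_comm, hc, smul_zero]
  have heq : Ideal.torsionOf R M m = Ideal.torsionOf R M ((s * r ^ j) • m) := by
    by_contra hne
    exact hmax _ ⟨_, hm', rfl⟩ (lt_of_le_of_ne hle hne)
  have : r ∈ Ideal.torsionOf R M ((s * r ^ j) • m) := by
    rw [Ideal.mem_torsionOf_iff, smul_smul, ← hk, hj]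
    congr 1
    rw [pow_succ]; ring
  rw [← heq] at this
  exact (Ideal.mem_torsionOf_iff _ _).1 this

/-- one element outside a prime works for a finitely generated module -/
theorem exists_smul_mem {R V : Type u} [CommRing R] [AddCommGroup V] [Module R V]
    [Module.Finite R V] (p : Ideal R) (hp : p.IsPrime) (U : Submodule R V)
    (h : ∀ x : V, ∃ s, s ∉ p ∧ s • x ∈ U) : ∃ s, s ∉ p ∧ ∀ x : V, s • x ∈ U := by
  classical
  obtain ⟨T, hT⟩ := Module.Finite.fg_top (R := R) (M := V)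
  choose s hs hs' using h
  refine ⟨∏ x ∈ T, s x, ?_, fun x => ?_⟩
  · intro h'
    obtain ⟨x, -, hx⟩ := (Ideal.IsPrime.prod_mem_iff (hp := hp)).1 h'
    exact hs x hx
  · have hx : x ∈ Submodule.span R (T : Set V) := by rw [hT]; trivial
    induction hx using Submodule.span_induction with
    | mem y hy =>
      rw [← Finset.prod_erase_mul T s hy, mul_smul]
      exact U.smul_mem _ (hs' y)
    | zero => rw [smul_zero]; exact U.zero_mem
    | add y z _ _ hy hz => rw [smul_add]; exact U.add_mem hy hz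
    | smul c y _ hy => rw [smul_comm]; exact U.smul_mem _ hy

/-- a nonzero linear map out of a module killed by a prime -/
theorem exists_map {R V W : Type u} [CommRing R] [IsNoetherianRing R] [AddCommGroup V]
    [Module R V] [Module.Finite R V] [AddCommGroup W] [Module R W] (p : Ideal R) (hp : p.IsPrime)
    (hV : ∀ r ∈ p, ∀ v : V, r • v = 0) (h : ∃ v : V, ∀ s, s ∉ p → s • v ≠ 0)
    (w : W) (hw : ∀ r, r • w = 0 ↔ r ∈ p) : ∃ φ : V →ₗ[R] W, φ ≠ 0 := by
  let S : Set (Submodule R V) := {U | ∃ v : V, ∀ s, s ∉ p → s • v ∉ U}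
  have hS : S.Nonempty := by
    obtain ⟨v, hv⟩ := h
    exact ⟨⊥, v, fun s hs h' => hv s hs ((Submodule.mem_bot R).1 h')⟩
  obtain ⟨U, ⟨v, hv⟩, hmax⟩ := set_has_maximal_iff_noetherian.2
    (inferInstance : IsNoetherian R V) S hS
  have h1 : (1 : R) ∉ p := (Ideal.ne_top_iff_one p).1 hp.ne_top
  have hlt : U < U ⊔ R ∙ v := by
    refine lt_of_le_of_ne le_sup_left fun h' => hv 1 h1 ?_
    rw [one_smul, h']
    exact Submodule.mem_sup_right (Submodule.mem_span_singleton_self v)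
  have h2 : ∀ x : V, ∃ s, s ∉ p ∧ s • x ∈ U ⊔ R ∙ v := by
    intro x
    by_contra hcon
    push Not at hcon
    exact hmax _ ⟨x, hcon⟩ hlt
  obtain ⟨s, hs, hs'⟩ := exists_smul_mem p hp _ h2
  let vb : V ⧸ U := U.mkQ v
  have h3 : ∀ x : V, (s • U.mkQ) x ∈ R ∙ vb := by
    intro x
    obtain ⟨a, ha, b, hb, hab⟩ := Submodule.mem_sup.1 (hs' x)
    obtain ⟨c, rfl⟩ := Submodule.mem_span_singleton.1 hb
    rw [LinearMap.smul_apply, ← map_smul, ← hab, map_add, map_smul,
      show U.mkQ a = 0 from (Submodule.Quotient.mk_eq_zero U).2 ha, zero_add]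
    exact Submodule.smul_mem _ _ (Submodule.mem_span_singleton_self vb)
  have h4 : Ideal.torsionOf R (V ⧸ U) vb ≤ LinearMap.ker (LinearMap.toSpanSingleton R W w) := by
    intro c hc
    rw [Ideal.mem_torsionOf_iff, ← map_smul] at hc
    rw [LinearMap.mem_ker, LinearMap.toSpanSingleton_apply, hw]
    by_contra hcp
    exact hv c hcp ((Submodule.Quotient.mk_eq_zero U).1 hc)
  let e := Ideal.quotTorsionOfEquivSpanSingleton R (V ⧸ U) vb
  refine ⟨(Submodule.liftQ _ (LinearMap.toSpanSingleton R W w) h4) ∘ₗ e.symm.toLinearMap ∘ₗ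
    LinearMap.codRestrict (R ∙ vb) (s • U.mkQ) h3, fun h0 => hs ?_⟩
  have h5 := LinearMap.congr_fun h0 v
  have h6 : e.symm (LinearMap.codRestrict (R ∙ vb) (s • U.mkQ) h3 v) =
      Submodule.Quotient.mk s := by
    rw [LinearEquiv.symm_apply_eq]
    apply Subtype.ext
    rw [Ideal.quotTorsionOfEquivSpanSingleton_apply_mk]
    rfl
  rw [LinearMap.comp_apply, LinearMap.comp_apply, LinearEquiv.coe_coe, h6, Submodule.liftQ_apply,
    LinearMap.toSpanSingleton_apply, LinearMap.zero_apply] at h5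
  exact (hw s).1 h5

section alg

variable {R A : Type u} [CommRing R] [IsNoetherianRing R] [Ring A] [Algebra R A]
  [Module.Finite R A]

omit [Module.Finite R A] in
theorem exists_annA {M : Type u} [AddCommGroup M] [Module A M]
    {f : R} {N : ℕ} {p : Ideal R} (hp : p ∈ (Ideal.span {f}).minimalPrimes)
    (hf : ∀ m : M, algebraMap R A (f ^ N) • m = 0)
    (h : ∃ m : M, ∀ s, s ∉ p → algebraMap R A s • m ≠ 0) :
    ∃ m : M, ∀ r, algebraMap R A r • m = 0 ↔ r ∈ p := by
  letI := Module.compHom M (algebraMap R A)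
  exact exists_ann (R := R) (M := M) hp hf h

omit [IsNoetherianRing R] in
theorem exists_killA {M : Type u} [AddCommGroup M] [Module A M] [Module.Finite A M]
    (p : Ideal R) (hp : p.IsPrime) (h : ∀ m : M, ∃ s, s ∉ p ∧ algebraMap R A s • m = 0) :
    ∃ s, s ∉ p ∧ ∀ m : M, algebraMap R A s • m = 0 := by
  letI := Module.compHom M (algebraMap R A)
  haveI : IsScalarTower R A M := ⟨fun r a m => by rw [Algebra.smul_def, mul_smul]; rfl⟩
  haveI : Module.Finite R M := Module.Finite.trans A M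
  obtain ⟨s, hs, hs'⟩ := exists_smul_mem (R := R) (V := M) p hp ⊥ fun m => by
    obtain ⟨s, hs, hm⟩ := h m
    exact ⟨s, hs, (Submodule.mem_bot R).2 hm⟩
  exact ⟨s, hs, fun m => (Submodule.mem_bot R).1 (hs' m)⟩

theorem exists_mapA (hA : Az R A) {V W : Type u} [AddCommGroup V] [Module A V]
    [Module.Finite A V] [AddCommGroup W] [Module A W] (p : Ideal R) (hp : p.IsPrime)
    (hV : Kill A p V) (h : ∃ v : V, ∀ s, s ∉ p → algebraMap R A s • v ≠ 0)
    (w : W) (hw : ∀ r, algebraMap R A r • w = 0 ↔ r ∈ p) : ∃ g : V →ₗ[A] W, g ≠ 0 := by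
  letI := Module.compHom V (algebraMap R A)
  haveI : IsScalarTower R A V := ⟨fun r a m => by rw [Algebra.smul_def, mul_smul]; rfl⟩
  haveI : Module.Finite R V := Module.Finite.trans A V
  letI := Module.compHom W (algebraMap R A)
  haveI : IsScalarTower R A W := ⟨fun r a m => by rw [Algebra.smul_def, mul_smul]; rfl⟩
  obtain ⟨φ, hφ⟩ := exists_map (R := R) (V := V) (W := W) p hp hV h w hw
  exact hA.exists_ne_zero φ hφ

/-- the elements killed by an ideal -/
def killed (A : Type u) [Ring A] [Algebra R A] (M : Type u) [AddCommGroup M] [Module A M]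
    (p : Ideal R) : Submodule A M where
  carrier := {m | ∀ r ∈ p, algebraMap R A r • m = 0}
  add_mem' := fun {a b} ha hb r hr => by rw [smul_add, ha r hr, hb r hr, add_zero]
  zero_mem' := fun r _ => smul_zero _
  smul_mem' := fun c m hm r hr => by
    rw [smul_smul, Algebra.commutes, mul_smul, hm r hr, smul_zero]

/-- the elements killed by some element outside a prime -/
def torsAt (A : Type u) [Ring A] [Algebra R A] (M : Type u) [AddCommGroup M] [Module A M]
    (p : Ideal R) (hp : p.IsPrime) : Submodule A M where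
  carrier := {m | ∃ s, s ∉ p ∧ algebraMap R A s • m = 0}
  add_mem' := by
    rintro a b ⟨s, hs, ha⟩ ⟨t, ht, hb⟩
    refine ⟨s * t, fun h => (hp.mem_or_mem h).elim hs ht, ?_⟩
    rw [smul_add, map_mul, mul_smul _ _ b, hb, smul_zero, add_zero, ← map_mul, mul_comm, map_mul,
      mul_smul, ha, smul_zero]
  zero_mem' := ⟨1, (Ideal.ne_top_iff_one p).1 hp.ne_top, smul_zero _⟩
  smul_mem' := by
    rintro c m ⟨s, hs, hm⟩
    exact ⟨s, hs, by rw [smul_smul, Algebra.commutes, mul_smul, hm, smul_zero]⟩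

/-- a common subquotient which is not torsion at the prime -/
theorem exists_common (hA : Az R A) {M M' : Type u} [AddCommGroup M] [Module A M]
    [Module.Finite A M] [AddCommGroup M'] [Module A M']
    {f : R} {N : ℕ} {p : Ideal R} (hp : p ∈ (Ideal.span {f}).minimalPrimes)
    (hf : ∀ m : M, algebraMap R A (f ^ N) • m = 0)
    (hf' : ∀ m : M', algebraMap R A (f ^ N) • m = 0)
    (h : ∃ m : M, ∀ s, s ∉ p → algebraMap R A s • m ≠ 0)
    (h' : ∃ m : M', ∀ s, s ∉ p → algebraMap R A s • m ≠ 0) :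
    ∃ (I : Type u) (_ : AddCommGroup I) (_ : Module A I) (V : Submodule A M) (g : V →ₗ[A] I)
      (V' : Submodule A M') (g' : V' →ₗ[A] I), Surjective g ∧ Surjective g' ∧
      ∃ x : I, ∀ s, s ∉ p → algebraMap R A s • x ≠ 0 := by
  have hpp : p.IsPrime := hp.1.1
  haveI := isNoetherianRing_alg R A
  obtain ⟨m, hm⟩ := exists_annA hp hf h
  obtain ⟨m', hm'⟩ := exists_annA hp hf' h'
  let V := killed A M p
  let T := torsAt A M' p hpp
  have hw : ∀ r, algebraMap R A r • T.mkQ m' = 0 ↔ r ∈ p := by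
    intro r
    rw [← map_smul, Submodule.mkQ_apply, Submodule.Quotient.mk_eq_zero]
    constructor
    · rintro ⟨s, hs, h1⟩
      rw [smul_smul, ← map_mul, hm'] at h1
      exact (hpp.mem_or_mem h1).resolve_left hs
    · intro hr
      rw [(hm' r).2 hr]
      exact T.zero_mem
  obtain ⟨g, hg⟩ := exists_mapA hA (V := V) (W := M' ⧸ T) p hpp
    (fun r hr v => Subtype.ext (v.2 r hr))
    ⟨⟨m, fun r hr => (hm r).2 hr⟩, fun s hs h1 => hs ((hm s).1 (congrArg Subtype.val h1))⟩
    (T.mkQ m') hw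
  refine ⟨LinearMap.range g, inferInstance, inferInstance, V, g.rangeRestrict,
    (LinearMap.range g).comap T.mkQ,
    LinearMap.codRestrict _ (T.mkQ ∘ₗ ((LinearMap.range g).comap T.mkQ).subtype) fun x => x.2,
    g.surjective_rangeRestrict, ?_, ?_⟩
  · rintro ⟨y, hy⟩
    obtain ⟨z, rfl⟩ := T.mkQ_surjective y
    exact ⟨⟨z, hy⟩, rfl⟩
  · obtain ⟨v, hv⟩ : ∃ v, g v ≠ 0 := by
      by_contra hcon
      push Not at hcon
      exact hg (LinearMap.ext hcon)
    refine ⟨⟨g v, v, rfl⟩, fun s hs h1 => hv ?_⟩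
    have h2 : algebraMap R A s • g v = 0 := congrArg Subtype.val h1
    obtain ⟨z, hz⟩ := T.mkQ_surjective (g v)
    rw [← hz] at h2 ⊢
    rw [← map_smul, Submodule.mkQ_apply, Submodule.Quotient.mk_eq_zero] at h2
    obtain ⟨t, ht, h3⟩ := h2
    rw [Submodule.mkQ_apply, Submodule.Quotient.mk_eq_zero]
    refine ⟨t * s, fun h4 => (hpp.mem_or_mem h4).elim ht hs, ?_⟩
    rw [map_mul, mul_smul, h3]

/-- removing a subquotient -/
theorem remove [IsDomain R] {Γ : Type u} [CommGroup Γ] {ψ : Inv A Γ} (hψ : IsAdd R ψ)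
    {M I : Type u} [AddCommGroup M] [Module A M] [AddCommGroup I] [Module A I]
    (hM : Tors R A M) (V : Submodule A M) (g : V →ₗ[A] I) (hg : Surjective g) :
    ψ M = ψ I * ψ ((M ⧸ V) × LinearMap.ker g) := by
  haveI := isNoetherianRing_alg R A
  rw [hψ.sub_quot hM V, hψ.ker (hM.sub V) g hg,
    hψ.prod (hM.quot V) ((hM.sub V).sub (LinearMap.ker g))]
  ac_rfl

theorem remove_len [IsDomain R] (l : ∀ (M : Type u) [AddCommGroup M] [Module A M], ℕ)
    (hl : ∀ (M₁ M₂ M₃ : Type u) [AddCommGroup M₁] [Module A M₁] [AddCommGroup M₂] [Module A M₂]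
      [AddCommGroup M₃] [Module A M₃] (f : M₁ →ₗ[A] M₂) (g : M₂ →ₗ[A] M₃),
      Injective f → Exact f g → Surjective g → Tors R A M₂ → l M₂ = l M₁ + l M₃)
    {M I : Type u} [AddCommGroup M] [Module A M] [AddCommGroup I] [Module A I]
    (hM : Tors R A M) (V : Submodule A M) (g : V →ₗ[A] I) (hg : Surjective g) :
    l M = l I + l ((M ⧸ V) × LinearMap.ker g) := by
  haveI := isNoetherianRing_alg R A
  have h1 := hl V M (M ⧸ V) V.subtype V.mkQ V.injective_subtype (LinearMap.exact_subtype_mkQ V)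
    V.mkQ_surjective hM
  have h2 := hl _ V I (LinearMap.ker g).subtype g (LinearMap.ker g).injective_subtype
    (LinearMap.exact_subtype_ker_map g) hg (hM.sub V)
  have h3 := hl (M ⧸ V) ((M ⧸ V) × LinearMap.ker g) (LinearMap.ker g) (LinearMap.inl A _ _)
    (LinearMap.snd A _ _) LinearMap.inl_injective Function.Exact.inl_snd
    LinearMap.snd_surjective ((hM.quot V).prod ((hM.sub V).sub (LinearMap.ker g)))
  omega

omit [IsNoetherianRing R] [Module.Finite R A] in
theorem remove_kill {M I : Type u} [AddCommGroup M] [Module A M] [AddCommGroup I] [Module A I]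
    (c : R) (hc : ∀ m : M, algebraMap R A c • m = 0) (V : Submodule A M) (g : V →ₗ[A] I) :
    ∀ m : (M ⧸ V) × LinearMap.ker g, algebraMap R A c • m = 0 := by
  rintro ⟨x, y⟩
  obtain ⟨x, rfl⟩ := V.mkQ_surjective x
  refine Prod.ext ?_ (Subtype.ext (Subtype.ext (hc _)))
  change algebraMap R A c • V.mkQ x = 0
  rw [← map_smul, hc, map_zero]

/-- the case of length zero -/
theorem zero_case [IsDomain R] {Γ : Type u} [CommGroup Γ] {ψ : Inv A Γ} (hψ : IsAdd R ψ) {f : R}
    (hf : f ≠ 0) (hV : ∀ 𝔭 : Ideal R, 𝔭.IsPrime → f ∈ 𝔭 → 2 ≤ 𝔭.height → Van ψ 𝔭)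
    (h1 : ∀ p ∈ (Ideal.span {f}).minimalPrimes, p.height = 1)
    {N : ℕ} {M : Type u} [AddCommGroup M] [Module A M] [Module.Finite A M]
    (hM : ∀ m : M, algebraMap R A (f ^ N) • m = 0)
    (h : ∀ p ∈ (Ideal.span {f}).minimalPrimes, ∀ m : M, ∃ s, s ∉ p ∧ algebraMap R A s • m = 0) :
    ψ M = 1 := by
  haveI := isNoetherianRing_alg R A
  let I : Ideal R :=
    { carrier := {r | ∀ m : M, algebraMap R A r • m = 0}
      add_mem' := fun {a b} ha hb m => by rw [map_add, add_smul, ha, hb, add_zero]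
      zero_mem' := fun m => by rw [map_zero, zero_smul]
      smul_mem' := fun c r hr m => by rw [smul_eq_mul, map_mul, mul_smul, hr, smul_zero] }
  refine hψ.devissage I (fun q hq hIq => ?_) ⟨inferInstance, f ^ N, pow_ne_zero _ hf, hM⟩
    fun r hr => hr
  have hfq : f ∈ q := hq.mem_of_pow_mem N (hIq hM)
  obtain ⟨p, hp, hpq⟩ := Ideal.exists_minimalPrimes_le (I := Ideal.span {f}) (J := q)
    ((Ideal.span_singleton_le_iff_mem _).2 hfq)
  have hpp : p.IsPrime := hp.1.1
  obtain ⟨s, hs, hs'⟩ := exists_killA p hpp (h p hp)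
  have hlt : p < q := lt_of_le_of_ne hpq fun e => hs (e ▸ hIq hs')
  have := Ideal.height_add_one_le_of_lt_of_isPrime hlt
  rw [h1 p hp] at this
  exact hV q hq hfq this

end alg

theorem height_eq_one {R : Type u} [CommRing R] [IsDomain R] [IsNoetherianRing R] {f : R}
    (hf : f ≠ 0) (p : Ideal R) (hp : p ∈ (Ideal.span {f}).minimalPrimes) : p.height = 1 := by
  have hpp : p.IsPrime := hp.1.1
  refine le_antisymm (Ideal.height_le_one_of_isPrincipal_of_mem_minimalPrimes _ p hp) ?_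
  have hlt : (⊥ : Ideal R) < p := bot_lt_iff_ne_bot.2 fun e => hf (by
    have : f ∈ p := hp.1.2 (Ideal.mem_span_singleton_self f)
    rwa [e, Ideal.mem_bot] at this)
  exact le_add_self.trans (Ideal.height_add_one_le_of_lt_of_isPrime hlt)

end CmpP

open CmpP in
theorem cmp : S_Cmp.{u} := by
  intro R A Γ _ _ _ _ _ _ _ ψ f hA hψ hf hV ℓ hℓ N
  classical
  haveI := isNoetherianRing_alg R A
  have hfin := (Ideal.span {f}).finite_minimalPrimes_of_isNoetherianRing R
  have h1 := height_eq_one hf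
  have hmem : ∀ p, p ∈ hfin.toFinset ↔ p ∈ (Ideal.span {f}).minimalPrimes := fun p =>
    hfin.mem_toFinset
  suffices H : ∀ (n : ℕ) (M M' : Type u) [AddCommGroup M] [Module A M] [AddCommGroup M']
      [Module A M'], Module.Finite A M → Module.Finite A M' →
      (∀ m : M, algebraMap R A (f ^ N) • m = 0) → (∀ m : M', algebraMap R A (f ^ N) • m = 0) →
      (∀ 𝔭 : Ideal R, 𝔭.IsPrime → 𝔭.height = 1 → ℓ 𝔭 M = ℓ 𝔭 M') →
      ∑ p ∈ hfin.toFinset, ℓ p M = n → ψ M = ψ M' by
    intro M M' _ _ _ _ a b c d e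
    exact H _ M M' a b c d e rfl
  intro n
  induction n using Nat.strong_induction_on with
  | _ n ih =>
    intro M M' _ _ _ _ hM hM' hK hK' hE hn
    have hT : Tors R A M := ⟨hM, f ^ N, pow_ne_zero _ hf, hK⟩
    have hT' : Tors R A M' := ⟨hM', f ^ N, pow_ne_zero _ hf, hK'⟩
    by_cases h0 : ∀ p ∈ (Ideal.span {f}).minimalPrimes, ℓ p M = 0
    · rw [zero_case hψ hf hV h1 hK fun p hp => ((hℓ p hp.1.1 (h1 p hp)).2 M hT).1 (h0 p hp),
        zero_case hψ hf hV h1 hK' fun p hp => ((hℓ p hp.1.1 (h1 p hp)).2 M' hT').1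
          ((hE p hp.1.1 (h1 p hp)).symm.trans (h0 p hp))]
    · push Not at h0
      obtain ⟨p, hp, hp0⟩ := h0
      have hp0' : ℓ p M' ≠ 0 := (hE p hp.1.1 (h1 p hp)) ▸ hp0
      have a1 := mt ((hℓ p hp.1.1 (h1 p hp)).2 M hT).2 hp0
      have a2 := mt ((hℓ p hp.1.1 (h1 p hp)).2 M' hT').2 hp0'
      push Not at a1 a2
      obtain ⟨I, _, _, V, g, V', g', hg, hg', x, hx⟩ := exists_common hA hp hK hK' a1 a2
      have hTI : Tors R A I := (hT.sub V).of_surjective g hg
      have hI : ℓ p I ≠ 0 := fun e => by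
        obtain ⟨s, hs, hs'⟩ := ((hℓ p hp.1.1 (h1 p hp)).2 I hTI).1 e x
        exact hx s hs hs'
      have e1 := fun q (hq : q.IsPrime) (hq1 : q.height = 1) =>
        remove_len (ℓ q) (hℓ q hq hq1).1 hT V g hg
      have e2 := fun q (hq : q.IsPrime) (hq1 : q.height = 1) =>
        remove_len (ℓ q) (hℓ q hq hq1).1 hT' V' g' hg'
      rw [remove hψ hT V g hg, remove hψ hT' V' g' hg']
      congr 1
      refine ih _ ?_ _ _ ((hT.quot V).prod ((hT.sub V).sub (LinearMap.ker g))).1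
        ((hT'.quot V').prod ((hT'.sub V').sub (LinearMap.ker g'))).1
        (remove_kill _ hK V g) (remove_kill _ hK' V' g') (fun q hq hq1 => ?_) rfl
      · rw [← hn]
        refine Finset.sum_lt_sum (fun q hq => ?_) ⟨p, (hmem p).2 hp, ?_⟩
        · have hq' := (hmem q).1 hq
          have := e1 q hq'.1.1 (h1 q hq')
          omega
        · have := e1 p hp.1.1 (h1 p hp)
          omega
      · have b1 := e1 q hq hq1
        have b2 := e2 q hq hq1
        have b3 := hE q hq hq1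
        omega

end Pool.Agent.P.MP_46a8f8_ag
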