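import Pool.Agent.P.MP_46a8f8_ag.St

namespace Pool.Agent.P.MP_46a8f8_ag

open TensorProduct Function

universe u

namespace CoreA

section

variable {T E : Type u} [CommRing T] [AddCommGroup E] [Module T E] {k : ℕ}

/-- action of a matrix on tuples -/
def act (E : Type u) [AddCommGroup E] [Module T E] (X : Matrix (Fin k) (Fin k) T) :
    Module.End T (Fin k → E) where
  toFun y i := ∑ j, X i j • y j
  map_add' p q := by
    funext i
    simp [Finset.sum_add_distrib]
  map_smul' a p := by
    funext i
    simp [Finset.smul_sum, smul_comm a]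

theorem act_apply (X : Matrix (Fin k) (Fin k) T) (y : Fin k → E) (i : Fin k) :
    act E X y i = ∑ j, X i j • y j := rfl

/-- the action as a ring homomorphism -/
def actHom (T E : Type u) [CommRing T] [AddCommGroup E] [Module T E] (k : ℕ) :
    Matrix (Fin k) (Fin k) T →+* Module.End T (Fin k → E) where
  toFun := act E
  map_one' := by
    refine LinearMap.ext fun y => funext fun i => ?_
    simp [act_apply, Matrix.one_apply]
  map_mul' X Y := by
    refine LinearMap.ext fun y => funext fun i => ?_
    simp only [act_apply, Module.End.mul_apply, Matrix.mul_apply, Finset.sum_smul,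
      Finset.smul_sum, mul_smul]
    exact Finset.sum_comm
  map_zero' := by
    refine LinearMap.ext fun y => funext fun i => ?_
    simp [act_apply]
  map_add' X Y := by
    refine LinearMap.ext fun y => funext fun i => ?_
    simp [act_apply, add_smul, Finset.sum_add_distrib]

end

variable {R A T E : Type u} [CommRing R] [Ring A] [Algebra R A] [CommRing T] [Algebra R T]
  [AddCommGroup E] [Module T E] {k : ℕ}

/-- endomorphisms of the algebra act on tuples -/
noncomputable def Psi (T E : Type u) [CommRing T] [Algebra R T] [AddCommGroup E] [Module T E]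
    (e : Module.Basis (Fin k) R A) : Module.End R A →+* Module.End T (Fin k → E) :=
  (actHom T E k).comp (((algebraMap R T).mapMatrix).comp
    (LinearMap.toMatrixAlgEquiv e).toRingEquiv.toRingHom)

theorem Psi_apply (e : Module.Basis (Fin k) R A) (f : Module.End R A) (y : Fin k → E)
    (i : Fin k) : Psi T E e f y i = ∑ j, algebraMap R T (e.repr (f (e j)) i) • y j := by
  change act E _ y i = _
  rw [act_apply]
  refine Finset.sum_congr rfl fun j _ => ?_
  congr 1
  simp [LinearMap.toMatrixAlgEquiv_apply]

theorem Psi_comm (e : Module.Basis (Fin k) R A) (f : Module.End R A) (β : E →ₗ[T] E) :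
    Commute (Psi T E e f) (β.compLeft (Fin k)) := by
  refine LinearMap.ext fun y => funext fun i => ?_
  simp [Psi_apply, map_sum]

theorem sum_basis (e : Module.Basis (Fin k) R A) (x : A) :
    ∑ i, e i * algebraMap R A (e.repr x i) = x := by
  conv_rhs => rw [← e.sum_repr x]
  refine Finset.sum_congr rfl fun i _ => ?_
  rw [← Algebra.commutes, Algebra.smul_def]

variable {D M : Type u} [CommRing D] [Algebra T D] [AddCommGroup M] [Module A M] [Module D M]
  [SMulCommClass A D M]

/-- the map to the module -/
noncomputable def mu (e : Module.Basis (Fin k) R A) (π : E →ₛₗ[algebraMap T D] M) :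
    (Fin k → E) →ₛₗ[algebraMap T D] M where
  toFun y := ∑ j, e j • π (y j)
  map_add' p q := by simp [Finset.sum_add_distrib]
  map_smul' t p := by
    simp only [Pi.smul_apply, map_smulₛₗ, Finset.smul_sum]
    exact Finset.sum_congr rfl fun j _ => smul_comm _ _ _

omit [Algebra R T] in
theorem mu_apply (e : Module.Basis (Fin k) R A) (π : E →ₛₗ[algebraMap T D] M) (y : Fin k → E) :
    mu e π y = ∑ j, e j • π (y j) := rfl

omit [SMulCommClass A D M] in
theorem pi_Psi (e : Module.Basis (Fin k) R A) (π : E →ₛₗ[algebraMap T D] M)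
    (h : ∀ (r : R) (m : M), algebraMap R A r • m = algebraMap T D (algebraMap R T r) • m)
    (f : Module.End R A) (y : Fin k → E) (i : Fin k) :
    π (Psi T E e f y i) = ∑ j, algebraMap R A (e.repr (f (e j)) i) • π (y j) := by
  rw [Psi_apply, map_sum]
  refine Finset.sum_congr rfl fun j _ => ?_
  rw [map_smulₛₗ, h]

theorem mu_Psi (e : Module.Basis (Fin k) R A) (π : E →ₛₗ[algebraMap T D] M)
    (h : ∀ (r : R) (m : M), algebraMap R A r • m = algebraMap T D (algebraMap R T r) • m)
    (f : Module.End R A) (y : Fin k → E) :
    mu e π (Psi T E e f y) = ∑ j, f (e j) • π (y j) := by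
  rw [mu_apply]
  simp only [pi_Psi e π h, Finset.smul_sum, smul_smul]
  rw [Finset.sum_comm]
  refine Finset.sum_congr rfl fun j _ => ?_
  rw [← Finset.sum_smul, sum_basis]

end CoreA

open CoreA in
theorem coreA : S_CoreA.{u} := by
  intro R A T D M E _ _ _ _ _ _ _ _ _ _ _ _ _ _ _ π hAz h hsurj hker hlift
  classical
  obtain ⟨n, a, b, h1, hc, -⟩ := hAz
  obtain ⟨k, ⟨e⟩⟩ : ∃ k : ℕ, Nonempty (Module.Basis (Fin k) R A) :=
    ⟨_, ⟨(Module.Free.chooseBasis R A).reindex (Fintype.equivFin _)⟩⟩
  choose β hβ using fun l : Fin n => hlift (DistribSMul.toLinearMap D M (b l))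
  have hβ' : ∀ l x, π (β l x) = b l • π x := fun l x => hβ l x
  let ρ : A →+* Module.End T (Fin k → E) := (Psi T E e).comp (Algebra.lmul R A).toRingHom
  have hρ : ∀ c, ρ c = Psi T E e (LinearMap.mulLeft R c) := fun c => rfl
  let ε : Module.End T (Fin k → E) :=
    ∑ l, Psi T E e (LinearMap.mulRight R (a l)) * (β l).compLeft (Fin k)
  refine ⟨k, ρ, ε, mu e π, fun r y => ?_, fun c => ?_, fun m => ?_, fun c y => ?_, fun y => ?_,
    fun y hy => ?_⟩
  · funext i
    rw [hρ, Psi_apply, Finset.sum_eq_single i]
    · simp [← Algebra.smul_def]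
    · intro j _ hj
      simp [← Algebra.smul_def, Finsupp.single_eq_of_ne hj.symm]
    · simp
  · refine Commute.sum_right _ _ _ fun l _ => Commute.mul_right ?_ ?_
    · rw [hρ]
      exact (LinearMap.commute_mulLeft_right c (a l)).map (Psi T E e)
    · rw [hρ]
      exact Psi_comm _ _ _
  · obtain ⟨x, rfl⟩ := hsurj m
    refine ⟨fun j => algebraMap R T (e.repr 1 j) • x, ?_⟩
    rw [mu_apply]
    simp only [map_smulₛₗ, ← h, smul_smul]
    rw [← Finset.sum_smul, sum_basis, one_smul]
  · rw [hρ, mu_Psi e π h, mu_apply, Finset.smul_sum]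
    simp [mul_smul]
  · simp only [ε, LinearMap.sum_apply, map_sum, Module.End.mul_apply, mu_Psi e π h]
    rw [Finset.sum_comm, mu_apply]
    refine Finset.sum_congr rfl fun j _ => ?_
    simp only [LinearMap.mulRight_apply, LinearMap.compLeft_apply, comp_apply, hβ', smul_smul]
    rw [← Finset.sum_smul]
    simp only [mul_assoc]
    rw [← Finset.mul_sum, h1, mul_one]
  · have hco : ∀ i, ε y i ∈ RingHom.ker (algebraMap T D) • (⊤ : Submodule T E) := by
      intro i
      rw [← hker]
      have key : ∀ j, ∑ l, algebraMap R A (e.repr (e j * a l) i) * b l =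
          ∑ l, algebraMap R A (e.repr (a l) i) * b l * e j := by
        intro j
        have := congrArg (TensorProduct.lift ((LinearMap.lsmul R A).comp (e.coord i))) (hc (e j))
        simpa [map_sum, Algebra.smul_def, mul_assoc] using this
      simp only [ε, LinearMap.sum_apply, Finset.sum_apply, map_sum, Module.End.mul_apply,
        pi_Psi e π h]
      rw [Finset.sum_comm]
      simp only [LinearMap.mulRight_apply, LinearMap.compLeft_apply, comp_apply, hβ', smul_smul]
      simp only [← Finset.sum_smul, key]
      simp only [Finset.sum_smul, mul_smul]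
      rw [Finset.sum_comm]
      simp only [← Finset.smul_sum]
      rw [mu_apply] at hy
      simp [hy]
    rw [← Finset.univ_sum_single (ε y)]
    refine Submodule.sum_mem _ fun i _ => ?_
    exact Submodule.smul_top_le_comap_smul_top _ (LinearMap.single T (fun _ => E) i) (hco i)

end Pool.Agent.P.MP_46a8f8_ag
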