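import Pool.Agent.P.MP_46a8f8_ag.Base

/-!
Lifting an idempotent after a finite base change.
-/

namespace Pool.Agent.P.MP_46a8f8_ag

open TensorProduct Polynomial Function

universe u

namespace CoreBP

section gen

variable {T D M Y : Type u} [CommRing T] [CommRing D] {σ : T →+* D} [AddCommGroup M]
  [Module D M] [AddCommGroup Y] [Module T Y]

theorem map_mem_smul_top {Y' : Type u} [AddCommGroup Y'] [Module T Y'] (q : Ideal T)
    (φ : Y →ₗ[T] Y') {y : Y} (hy : y ∈ q • (⊤ : Submodule T Y)) :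
    φ y ∈ q • (⊤ : Submodule T Y') := by
  refine Submodule.smul_induction_on hy (fun r hr z _ => ?_) fun a b ha hb => ?_
  · rw [map_smul]
    exact Submodule.smul_mem_smul hr Submodule.mem_top
  · rw [map_add]
    exact Submodule.add_mem _ ha hb

theorem apply_eq_zero_of_mem (μ : Y →ₛₗ[σ] M) {y : Y}
    (hy : y ∈ RingHom.ker σ • (⊤ : Submodule T Y)) : μ y = 0 := by
  refine Submodule.smul_induction_on hy (fun r hr z _ => ?_) fun a b ha hb => ?_
  · rw [map_smulₛₗ, (RingHom.mem_ker).1 hr, zero_smul]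
  · rw [map_add, ha, hb, add_zero]

theorem apply_pow (μ : Y →ₛₗ[σ] M) (ε : Module.End T Y) (hε : ∀ y, μ (ε y) = μ y) (n : ℕ) :
    ∀ y, μ ((ε ^ n) y) = μ y := by
  induction n with
  | zero => intro y; rfl
  | succ n ih => intro y; rw [pow_succ, Module.End.mul_apply, ih, hε]

theorem apply_aeval (μ : Y →ₛₗ[σ] M) (ε : Module.End T Y) (hε : ∀ y, μ (ε y) = μ y) (p : T[X])
    (y : Y) : μ (aeval ε p y) = σ (p.eval 1) • μ y := by
  induction p using Polynomial.induction_on' with
  | add p q hp hq => rw [map_add, LinearMap.add_apply, map_add, hp, hq, eval_add, map_add, add_smul]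
  | monomial n a =>
    rw [aeval_monomial, Module.End.mul_apply, Module.algebraMap_end_apply, map_smulₛₗ,
      apply_pow μ ε hε, eval_monomial, one_pow, mul_one]

theorem aeval_mem_of_map_eq_zero (ε : Module.End T Y) (p : T[X]) (hp : p.map σ = 0) (y : Y) :
    aeval ε p y ∈ RingHom.ker σ • (⊤ : Submodule T Y) := by
  rw [aeval_eq_sum_range, LinearMap.sum_apply]
  refine Submodule.sum_mem _ fun i _ => ?_
  rw [LinearMap.smul_apply]
  refine Submodule.smul_mem_smul ?_ Submodule.mem_top
  rw [RingHom.mem_ker, ← coeff_map, hp, coeff_zero]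

/-- the polynomial killing the almost idempotent -/
theorem exists_poly [Module.Finite T Y] (μ : Y →ₛₗ[σ] M) (ε : Module.End T Y)
    (hε : ∀ y, μ (ε y) = μ y)
    (hk : ∀ y, μ y = 0 → ε y ∈ RingHom.ker σ • (⊤ : Submodule T Y)) :
    ∃ (N₀ : ℕ) (H : T[X]), 1 ≤ N₀ ∧ H.Monic ∧ H.map σ = X ^ N₀ * (X - 1) ^ N₀ ∧
      aeval ε H = 0 := by
  have hr : LinearMap.range (ε ^ 2 - ε) ≤ RingHom.ker σ • (⊤ : Submodule T Y) := by
    rintro _ ⟨y, rfl⟩
    have := hk (ε y - y) (by rw [map_sub, hε, sub_self])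
    rwa [map_sub, ← Module.End.mul_apply, ← pow_two, ← LinearMap.sub_apply] at this
  obtain ⟨h, hm, -, hc, h0⟩ :=
    LinearMap.exists_monic_and_natDegree_eq_and_coeff_mem_pow_and_aeval_eq_zero T _ _ hr
  have hmap : h.map σ = X ^ h.natDegree := by
    ext k
    rw [coeff_map, coeff_X_pow]
    split_ifs with hk'
    · rw [hk', hm.coeff_natDegree, map_one]
    · rcases lt_or_gt_of_ne hk' with hlt | hgt
      · exact (RingHom.mem_ker).1 (Ideal.pow_le_self (by omega) (hc k))
      · rw [coeff_eq_zero_of_natDegree_lt hgt, map_zero]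
  have hq : (X ^ 2 - X : T[X]).Monic := by
    have : (X ^ 2 - X : T[X]) = X * (X - C 1) := by rw [C_1]; ring
    rw [this]
    exact monic_X.mul (monic_X_sub_C 1)
  refine ⟨h.natDegree + 1, (X * h).comp (X ^ 2 - X), by omega, ?_, ?_, ?_⟩
  · cases subsingleton_or_nontrivial T with
    | inl _ => exact monic_of_subsingleton _
    | inr _ =>
      refine (monic_X.mul hm).comp hq ?_
      have : (X ^ 2 - X : T[X]).natDegree = 2 := by
        rw [natDegree_sub_eq_left_of_natDegree_lt] <;> simp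
      omega
  · rw [Polynomial.map_comp, Polynomial.map_mul, hmap, map_X, ← pow_succ', Polynomial.map_sub,
      Polynomial.map_pow, map_X, pow_comp, X_comp, ← mul_pow]
    congr 1
    ring
  · rw [aeval_comp, map_sub, map_pow, aeval_X, map_mul, h0, mul_zero]

end gen

section sub

variable {R A T D M Y : Type u} [CommRing R] [Ring A] [Algebra R A] [CommRing T] [Algebra R T]
  [CommRing D] {σ : T →+* D} [AddCommGroup M] [Module A M] [Module D M] [AddCommGroup Y]
  [Module T Y]

theorem commute_aeval (φ ε : Module.End T Y) (hc : Commute φ ε) (p : T[X]) :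
    Commute φ (aeval ε p) := by
  induction p using Polynomial.induction_on' with
  | add p q hp hq => rw [map_add]; exact hp.add_right hq
  | monomial n a =>
    rw [aeval_monomial]
    exact (Algebra.commute_algebraMap_right a φ).mul_right (hc.pow_right n)

/-- the restricted action on the image of a commuting endomorphism -/
def resAct (ρ : A →+* Module.End T Y) (e : Module.End T Y) (hc : ∀ a, Commute (ρ a) e) :
    A →+* Module.End T (LinearMap.range e) where
  toFun a := (ρ a).restrict (p := LinearMap.range e) (q := LinearMap.range e) (by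
    rintro _ ⟨z, rfl⟩
    exact ⟨ρ a z, by rw [← Module.End.mul_apply, ← (hc a).eq, Module.End.mul_apply]⟩)
  map_one' := LinearMap.ext fun y => Subtype.ext (by simp)
  map_mul' a b := LinearMap.ext fun y => Subtype.ext (by simp)
  map_zero' := LinearMap.ext fun y => Subtype.ext (by simp)
  map_add' a b := LinearMap.ext fun y => Subtype.ext (by simp)

theorem resAct_val (ρ : A →+* Module.End T Y) (e : Module.End T Y) (hc : ∀ a, Commute (ρ a) e)
    (a : A) (y : LinearMap.range e) : (resAct ρ e hc a y : Y) = ρ a y := rfl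

theorem split [IsNoetherianRing R] [Module.Finite R T] [Module.Finite T Y]
    (ρ : A →+* Module.End T Y) (ε : Module.End T Y) (μ : Y →ₛₗ[σ] M) (hσ : Surjective σ)
    (hR : ∀ r y, ρ (algebraMap R A r) y = algebraMap R T r • y) (hc : ∀ a, Commute (ρ a) ε)
    (hμ : Surjective μ) (hρ : ∀ a y, μ (ρ a y) = a • μ y) (hε : ∀ y, μ (ε y) = μ y)
    (hk : ∀ y, μ y = 0 → ε y ∈ RingHom.ker σ • (⊤ : Submodule T Y)) (N₀ : ℕ) (hN : 1 ≤ N₀)
    (f g v w : T[X]) (δ : T) (hfg : aeval ε (f * g) = 0) (hb : v * f + w * g = C δ)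
    (hδ : IsUnit (σ δ)) (hf : f.map σ = X ^ N₀) :
    ∃ (N : Type u) (_ : AddCommGroup N) (_ : Module A N) (_ : Module T N)
      (_ : SMulCommClass A T N), Module.Finite A N ∧
      (∀ (r : R) (y : N), algebraMap R A r • y = algebraMap R T r • y) ∧
      ∃ (i : N →ₗ[T] Y) (j : Y →ₗ[T] N) (π : N →ₗ[A] M),
        Injective i ∧ (∀ y, j (i y) = δ • y) ∧ Surjective π ∧
        ∀ y, π y = 0 ↔ y ∈ RingHom.ker σ • (⊤ : Submodule T N) := by
  have hc' : ∀ a, Commute (ρ a) (aeval ε f) := fun a => commute_aeval _ _ (hc a) f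
  let N : Submodule T Y := LinearMap.range (aeval ε f)
  let : Module A N := Module.compHom N (resAct ρ (aeval ε f) hc')
  have hval : ∀ (a : A) (y : N), ((a • y : N) : Y) = ρ a y := fun _ _ => rfl
  have : SMulCommClass A T N := ⟨fun a t y => Subtype.ext (by
    rw [hval, Submodule.coe_smul, Submodule.coe_smul, hval, map_smul])⟩
  have hRA : ∀ (r : R) (y : N), algebraMap R A r • y = algebraMap R T r • y := fun r y =>
    Subtype.ext (by rw [hval, hR, Submodule.coe_smul])
  have hfin : Module.Finite A N := by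
    have : IsNoetherianRing T := IsNoetherianRing.of_finite R T
    let : Module R N := Module.compHom N (algebraMap R T)
    have hs : ∀ (r : R) (y : N), r • y = algebraMap R T r • y := fun _ _ => rfl
    have : IsScalarTower R T N := ⟨fun r t y => by rw [hs, Algebra.smul_def, mul_smul]⟩
    have : IsScalarTower R A N := ⟨fun r a y => by rw [hs, Algebra.smul_def, mul_smul, hRA]⟩
    have : Module.Finite R N := Module.Finite.trans T N
    exact Module.Finite.of_restrictScalars_finite R A N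
  have hf1 : ∀ z, μ (aeval ε f z) = μ z := fun z => by
    rw [apply_aeval μ ε hε, ← eval_one_map, hf, eval_pow, eval_X, one_pow, one_smul]
  let j : Y →ₗ[T] N := LinearMap.codRestrict N (aeval ε (v * f)) fun z =>
    ⟨aeval ε v z, by rw [← Module.End.mul_apply, ← map_mul, mul_comm]⟩
  have hj : ∀ y : N, j (N.subtype y) = δ • y := by
    rintro ⟨_, z, rfl⟩
    refine Subtype.ext ?_
    change aeval ε (v * f) (aeval ε f z) = δ • aeval ε f z
    have e : v * f = C δ - w * g := by rw [← hb]; ring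
    have e2 : aeval ε (w * g) (aeval ε f z) = 0 := by
      rw [← Module.End.mul_apply, ← map_mul, mul_assoc, mul_comm g f, map_mul, hfg, mul_zero,
        LinearMap.zero_apply]
    rw [e, map_sub, LinearMap.sub_apply, e2, sub_zero, aeval_C, Module.algebraMap_end_apply]
  let π : N →ₗ[A] M :=
    { toFun := fun y => μ y
      map_add' := fun a b => by rw [Submodule.coe_add, map_add]
      map_smul' := fun a y => by rw [hval, hρ, RingHom.id_apply] }
  have hπ : ∀ y : N, π y = μ y := fun _ => rfl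
  refine ⟨N, inferInstance, inferInstance, inferInstance, inferInstance, hfin, hRA, N.subtype, j, π,
    N.injective_subtype, hj, fun m => ?_, fun y => ⟨fun hy => ?_, fun hy => ?_⟩⟩
  · obtain ⟨z, rfl⟩ := hμ m
    exact ⟨⟨aeval ε f z, z, rfl⟩, hf1 z⟩
  · have h1 : N.subtype y ∈ RingHom.ker σ • (⊤ : Submodule T Y) := by
      obtain ⟨_, z, rfl⟩ := y
      have hz : μ z = 0 := by rw [← hf1 z]; exact hy
      change aeval ε f z ∈ _
      obtain ⟨n, rfl⟩ : ∃ n, N₀ = n + 1 := ⟨N₀ - 1, by omega⟩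
      have e : aeval ε f z = aeval ε (f - X ^ (n + 1)) z + (ε ^ n) (ε z) := by
        rw [map_sub, map_pow, aeval_X, LinearMap.sub_apply, pow_succ, Module.End.mul_apply,
          sub_add_cancel]
      rw [e]
      refine Submodule.add_mem _ (aeval_mem_of_map_eq_zero ε _ ?_ z)
        (map_mem_smul_top _ _ (hk z hz))
      rw [Polynomial.map_sub, hf, Polynomial.map_pow, map_X, sub_self]
    have h2 := map_mem_smul_top _ j h1
    rw [hj] at h2
    obtain ⟨d, hd⟩ := hδ.exists_left_inv
    obtain ⟨δ₁, rfl⟩ := hσ d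
    have e : y = δ₁ • δ • y + (1 - δ₁ * δ) • y := by
      rw [smul_smul, ← add_smul, add_sub_cancel, one_smul]
    rw [e]
    refine Submodule.add_mem _ (Submodule.smul_mem _ _ h2)
      (Submodule.smul_mem_smul ?_ Submodule.mem_top)
    rw [RingHom.mem_ker, map_sub, map_one, map_mul, hd, sub_self]
  · rw [hπ]
    exact apply_eq_zero_of_mem μ (map_mem_smul_top _ N.subtype hy)

end sub

section bc

variable {T T₂ D M Y : Type u} [CommRing T] [CommRing T₂] [Algebra T T₂] [CommRing D]
  [Algebra T D] [AddCommGroup M] [Module D M] [AddCommGroup Y] [Module T Y]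

/-- the additive map on the base change -/
noncomputable def mu0 (σ : T₂ →ₐ[T] D) (μ : Y →ₛₗ[algebraMap T D] M) : T₂ ⊗[T] Y →+ M :=
  TensorProduct.liftAddHom
    { toFun := fun t =>
        { toFun := fun y => σ t • μ y
          map_zero' := by rw [map_zero, smul_zero]
          map_add' := fun a b => by rw [map_add, smul_add] }
      map_zero' := AddMonoidHom.ext fun y => by simp
      map_add' := fun a b => AddMonoidHom.ext fun y => by simp [add_smul] }
    (fun r t y => by
      change σ (r • t) • μ y = σ t • μ (r • y)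
      rw [map_smul, map_smulₛₗ, Algebra.smul_def, mul_comm, mul_smul])

theorem mu0_tmul (σ : T₂ →ₐ[T] D) (μ : Y →ₛₗ[algebraMap T D] M) (t : T₂) (y : Y) :
    mu0 σ μ (t ⊗ₜ[T] y) = σ t • μ y := rfl

/-- the semilinear map on the base change -/
noncomputable def mu2 (σ : T₂ →ₐ[T] D) (μ : Y →ₛₗ[algebraMap T D] M) :
    T₂ ⊗[T] Y →ₛₗ[(σ : T₂ →+* D)] M where
  toFun := mu0 σ μ
  map_add' := map_add _
  map_smul' c z := by
    induction z using TensorProduct.induction_on with
    | zero => rw [smul_zero, map_zero, smul_zero]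
    | tmul t y =>
      rw [TensorProduct.smul_tmul', mu0_tmul, mu0_tmul, smul_eq_mul, map_mul, mul_smul]
      rfl
    | add a b ha hb => rw [smul_add, map_add, map_add, ha, hb, smul_add]

theorem mu2_tmul (σ : T₂ →ₐ[T] D) (μ : Y →ₛₗ[algebraMap T D] M) (t : T₂) (y : Y) :
    mu2 σ μ (t ⊗ₜ[T] y) = σ t • μ y := rfl

theorem exists_one_tmul (σ : T₂ →ₐ[T] D) (hs : Surjective (algebraMap T D)) (z : T₂ ⊗[T] Y) :
    ∃ y : Y, z - (1 : T₂) ⊗ₜ[T] y ∈
      RingHom.ker (σ : T₂ →+* D) • (⊤ : Submodule T₂ (T₂ ⊗[T] Y)) := by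
  induction z using TensorProduct.induction_on with
  | zero => exact ⟨0, by simp⟩
  | tmul t y =>
    obtain ⟨t₀, ht₀⟩ := hs (σ t)
    refine ⟨t₀ • y, ?_⟩
    have e : t ⊗ₜ[T] y - (1 : T₂) ⊗ₜ[T] (t₀ • y) =
        (t - algebraMap T T₂ t₀) • ((1 : T₂) ⊗ₜ[T] y) := by
      rw [TensorProduct.smul_tmul', smul_eq_mul, mul_one, TensorProduct.sub_tmul,
        ← TensorProduct.smul_tmul, Algebra.algebraMap_eq_smul_one]
    rw [e]
    refine Submodule.smul_mem_smul ?_ Submodule.mem_top
    rw [RingHom.mem_ker, map_sub, RingHom.coe_coe, AlgHom.commutes, ht₀, sub_self]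
  | add a b ha hb =>
    obtain ⟨y, hy⟩ := ha
    obtain ⟨y', hy'⟩ := hb
    refine ⟨y + y', ?_⟩
    rw [TensorProduct.tmul_add, add_sub_add_comm]
    exact Submodule.add_mem _ hy hy'

theorem one_tmul_mem (σ : T₂ →ₐ[T] D) {y : Y}
    (hy : y ∈ RingHom.ker (algebraMap T D) • (⊤ : Submodule T Y)) :
    (1 : T₂) ⊗ₜ[T] y ∈ RingHom.ker (σ : T₂ →+* D) • (⊤ : Submodule T₂ (T₂ ⊗[T] Y)) := by
  refine Submodule.smul_induction_on hy (fun r hr z _ => ?_) fun a b ha hb => ?_
  · rw [TensorProduct.tmul_smul, ← algebraMap_smul T₂ r]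
    refine Submodule.smul_mem_smul ?_ Submodule.mem_top
    rw [RingHom.mem_ker, RingHom.coe_coe, AlgHom.commutes]
    exact hr
  · rw [TensorProduct.tmul_add]
    exact Submodule.add_mem _ ha hb

end bc

end CoreBP

open CoreBP in
theorem coreB : S_CoreB.{u} := by
  intro R A T D M Y _ _ _ _ _ _ _ _ _ _ _ _ _ _ _ ρ ε μ hs hR hc hμ hρ hε hk
  obtain ⟨N₀, H, hN, hm, hH, h0⟩ := exists_poly μ ε hε hk
  refine ⟨N₀, H, hm, hH, ?_⟩
  intro T₂ _ _ _ _ _ σ f g v w δ hfg hb hδ hf
  let β := Module.End.baseChangeHom T T₂ Y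
  have hβ : ∀ (φ : Module.End T Y) (t : T₂) (y : Y), β φ (t ⊗ₜ[T] y) = t ⊗ₜ[T] φ y :=
    fun _ _ _ => rfl
  refine split (R := R) ((β : Module.End T Y →+* Module.End T₂ (T₂ ⊗[T] Y)).comp ρ) (β ε)
    (mu2 σ μ) (fun d => ?_) (fun r z => ?_) (fun a => (hc a).map β) (fun m => ?_) (fun a z => ?_)
    (fun z => ?_) (fun z hz => ?_) N₀ hN f g v w δ ?_ hb hδ hf
  · obtain ⟨t, rfl⟩ := hs d
    exact ⟨algebraMap T T₂ t, σ.commutes t⟩
  · change β (ρ (algebraMap R A r)) z = _
    induction z using TensorProduct.induction_on with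
    | zero => rw [map_zero, smul_zero]
    | tmul t y =>
      rw [hβ, hR, TensorProduct.tmul_smul, IsScalarTower.algebraMap_apply R T T₂,
        algebraMap_smul T₂ (algebraMap R T r)]
    | add a b ha hb => rw [map_add, ha, hb, smul_add]
  · obtain ⟨y, rfl⟩ := hμ m
    exact ⟨1 ⊗ₜ[T] y, by rw [mu2_tmul, map_one, one_smul]⟩
  · change mu2 σ μ (β (ρ a) z) = _
    induction z using TensorProduct.induction_on with
    | zero => rw [map_zero, map_zero, smul_zero]
    | tmul t y => rw [hβ, mu2_tmul, mu2_tmul, hρ, smul_comm a]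
    | add a b ha hb => rw [map_add, map_add, map_add, ha, hb, smul_add]
  · induction z using TensorProduct.induction_on with
    | zero => rw [map_zero]
    | tmul t y => rw [hβ, mu2_tmul, mu2_tmul, hε]
    | add a b ha hb => rw [map_add, map_add, map_add, ha, hb]
  · obtain ⟨y, hy⟩ := exists_one_tmul σ hs z
    have h1 := apply_eq_zero_of_mem (mu2 σ μ) hy
    rw [map_sub, hz, mu2_tmul, map_one, one_smul, zero_sub, neg_eq_zero] at h1
    have h2 := map_mem_smul_top _ (β ε) hy
    have h3 := one_tmul_mem σ (hk y h1)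
    rw [map_sub, hβ] at h2
    simpa using Submodule.add_mem _ h2 h3
  · rw [hfg, aeval_map_algebraMap, aeval_algHom_apply, h0, map_zero]

end Pool.Agent.P.MP_46a8f8_ag
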