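import Pool.Agent.P.MP_46a8f8_ag.Base

namespace Pool.Agent.P.MP_46a8f8_ag

open Function IsLocalRing

universe u

namespace CurveP

/-- modules killed by the prime and locally by elements outside it -/
theorem kill {R A Γ : Type u} [CommRing R] [IsDomain R] [IsNoetherianRing R] [IsLocalRing R]
    [Ring A] [Algebra R A] [Module.Finite R A] [CommGroup Γ] {ψ : Inv A Γ} {𝔭 : Ideal R}
    (hψ : IsAdd R ψ) (hm : Van ψ (maximalIdeal R)) (hp : 𝔭.IsPrime) (hp0 : 𝔭 ≠ ⊥)
    (hq : ∀ 𝔮 : Ideal R, 𝔮.IsPrime → 𝔭 < 𝔮 → 𝔮 = maximalIdeal R)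
    (M : Type u) [AddCommGroup M] [Module A M] (hM : Module.Finite A M) (hK : Kill A 𝔭 M)
    (hc : ∀ m : M, ∃ c, c ∉ 𝔭 ∧ algebraMap R A c • m = 0) : ψ M = 1 := by
  classical
  have := isNoetherianRing_alg R A
  choose c hc1 hc2 using hc
  obtain ⟨s, hs⟩ := hM.fg_top
  have hC : ∏ m ∈ s, c m ∉ 𝔭 :=
    Submonoid.prod_mem 𝔭.primeCompl fun m _ => hc1 m
  have hC2 : ∀ m : M, algebraMap R A (∏ m ∈ s, c m) • m = 0 := by
    intro m
    have hm' : m ∈ Submodule.span A (s : Set M) := hs ▸ Submodule.mem_top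
    induction hm' using Submodule.span_induction with
    | mem x hx =>
      rw [← Finset.prod_erase_mul s c hx, map_mul, mul_smul, hc2, smul_zero]
    | zero => exact smul_zero _
    | add x y _ _ hx hy => rw [smul_add, hx, hy, add_zero]
    | smul a x _ hx => rw [smul_smul, Algebra.commutes, mul_smul, hx, smul_zero]
  refine hψ.devissage (𝔭 ⊔ Ideal.span {∏ m ∈ s, c m}) (fun 𝔮 h𝔮 hle => ?_) (hK.tors hp0 hM) ?_
  · rw [hq 𝔮 h𝔮 (lt_of_le_of_ne (le_sup_left.trans hle) fun e => hC ?_)]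
    · exact hm
    · rw [e]
      exact hle (Submodule.mem_sup_right (Ideal.mem_span_singleton_self _))
  · intro r hr m
    obtain ⟨x, hx, y, hy, rfl⟩ := Submodule.mem_sup.1 hr
    obtain ⟨z, rfl⟩ := Ideal.mem_span_singleton'.1 hy
    rw [map_add, add_smul, hK x hx, map_mul, mul_smul, hC2, smul_zero, add_zero]

/-- column vectors with the action through a representation -/
def Vec {A D : Type u} [Ring A] [CommRing D] {ρ : ℕ}
    (_Θ : A →+* Matrix (Fin ρ) (Fin ρ) D) : Type u := Fin ρ → D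

section

variable {A D : Type u} [Ring A] [CommRing D] {ρ : ℕ} (Θ : A →+* Matrix (Fin ρ) (Fin ρ) D)

instance : AddCommGroup (Vec Θ) := inferInstanceAs (AddCommGroup (Fin ρ → D))

instance : Module D (Vec Θ) := inferInstanceAs (Module D (Fin ρ → D))

instance : Module.Finite D (Vec Θ) := inferInstanceAs (Module.Finite D (Fin ρ → D))

instance : Module.Free D (Vec Θ) := inferInstanceAs (Module.Free D (Fin ρ → D))

/-- the underlying vector -/
def Vec.vec (w : Vec Θ) : Fin ρ → D := w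

/-- a vector as a column -/
def Vec.mk (w : Fin ρ → D) : Vec Θ := w

instance : Module A (Vec Θ) where
  smul a w := Vec.mk Θ ((Θ a).mulVec (Vec.vec Θ w))
  one_smul w := by
    change (Θ 1).mulVec (Vec.vec Θ w) = Vec.vec Θ w
    rw [map_one, Matrix.one_mulVec]
  mul_smul a b w := by
    change (Θ (a * b)).mulVec (Vec.vec Θ w) = (Θ a).mulVec ((Θ b).mulVec (Vec.vec Θ w))
    rw [map_mul, Matrix.mulVec_mulVec]
  smul_zero a := (Θ a).mulVec_zero
  smul_add a v w := (Θ a).mulVec_add (Vec.vec Θ v) (Vec.vec Θ w)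
  add_smul a b w := by
    change (Θ (a + b)).mulVec (Vec.vec Θ w) =
      (Θ a).mulVec (Vec.vec Θ w) + (Θ b).mulVec (Vec.vec Θ w)
    rw [map_add, Matrix.add_mulVec]
  zero_smul w := by
    change (Θ 0).mulVec (Vec.vec Θ w) = 0
    rw [map_zero, Matrix.zero_mulVec]

theorem Vec.vec_smul (a : A) (w : Vec Θ) :
    Vec.vec Θ (a • w) = (Θ a).mulVec (Vec.vec Θ w) := rfl

instance : SMulCommClass A D (Vec Θ) where
  smul_comm a c w := (Θ a).mulVec_smul c (Vec.vec Θ w)

theorem Vec.alg {R : Type u} [CommRing R] [Algebra R A] [Algebra R D]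
    (h : ∀ r, Θ (algebraMap R A r) = algebraMap R D r • (1 : Matrix (Fin ρ) (Fin ρ) D))
    (r : R) (w : Vec Θ) : algebraMap R A r • w = algebraMap R D r • w := by
  change (Θ (algebraMap R A r)).mulVec (Vec.vec Θ w) = algebraMap R D r • Vec.vec Θ w
  rw [h, Matrix.smul_mulVec, Matrix.one_mulVec]

theorem Vec.finite {R : Type u} [CommRing R] [Algebra R A] [Algebra R D] [Module.Finite R D]
    (h : ∀ r, Θ (algebraMap R A r) = algebraMap R D r • (1 : Matrix (Fin ρ) (Fin ρ) D)) :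
    Module.Finite A (Vec Θ) := by
  let _ : Module R (Vec Θ) := Module.compHom (Vec Θ) (algebraMap R D)
  have : IsScalarTower R D (Vec Θ) :=
    ⟨fun r a m => by rw [Algebra.smul_def, mul_smul]; rfl⟩
  have : IsScalarTower R A (Vec Θ) :=
    ⟨fun r a m => by rw [Algebra.smul_def, mul_smul, Vec.alg Θ h]; rfl⟩
  have : Module.Finite R (Vec Θ) := Module.Finite.trans D (Vec Θ)
  exact Module.Finite.of_restrictScalars_finite R A (Vec Θ)

end

/-- the torsion free case -/
theorem tf (h1 : S_KA.{u}) (h2 : S_Lat.{u}) (h3 : S_Chain.{u}) (h4 : S_CurveB.{u})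
    {R A Γ : Type u} [CommRing R] [IsDomain R] [IsNoetherianRing R] [IsLocalRing R]
    [Ring A] [Algebra R A] [Module.Free R A] [Module.Finite R A] [CommGroup Γ] {ψ : Inv A Γ}
    {𝔭 : Ideal R} (hreg : RegAt R (maximalIdeal R) 3) (hAz : Az R A)
    (hψ : IsAdd R ψ) (hm : Van ψ (maximalIdeal R)) (hp : 𝔭.IsPrime) (hp0 : 𝔭 ≠ ⊥)
    (hq : ∀ 𝔮 : Ideal R, 𝔮.IsPrime → 𝔭 < 𝔮 → 𝔮 = maximalIdeal R)
    (D : Type u) [CommRing D] [IsDomain D] [IsNoetherianRing D] [IsLocalRing D]
    [Ring.KrullDimLE 1 D] [Algebra R D] (hsurj : Surjective (algebraMap R D))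
    (hker : ∀ r, algebraMap R D r = 0 ↔ r ∈ 𝔭) (hnf : ¬ IsField D)
    (hinf : ∀ 𝔫 : Ideal D, 𝔫.IsMaximal → Infinite (D ⧸ 𝔫)) (hemb : Emb D 3)
    (M : Type u) [AddCommGroup M] [Module A M] [Module D M] [SMulCommClass A D M]
    [Module.Finite D M] (hcomp : ∀ (r : R) (m : M), algebraMap R A r • m = algebraMap R D r • m)
    (htf : ∀ (c : D) (m : M), c ≠ 0 → c • m = 0 → m = 0) : ψ M = 1 := by
  classical
  obtain ⟨Dt, _, _, _, _, hinj, hint, hfin, hfrac⟩ := h1 D
  obtain ⟨ρ, ι, Θ, hι, hι2, hΘ⟩ := h2 D Dt M hinj hfrac htf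
  let act : A →+* Module.End D M := Module.toModuleEnd D M
  have hact : ∀ a m, act a m = a • m := fun a m => rfl
  obtain ⟨s, hs⟩ := (inferInstance : Module.Finite R A).fg_top
  obtain ⟨t, ht⟩ := (inferInstance : Module.Finite D M).fg_top
  let W : Finset Dt :=
    (s ×ˢ (Finset.univ : Finset (Fin ρ × Fin ρ))).image (fun x => Θ (act x.1) x.2.1 x.2.2) ∪
      (t ×ˢ (Finset.univ : Finset (Fin ρ))).image fun x => ι x.1 x.2
  obtain ⟨D', hD'fin, hW, hemb'⟩ := h3 D Dt W hinj hfrac hinf hemb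
  have hsm : ∀ (r : R) (a : A), act (r • a) = algebraMap R D r • act a := by
    intro r a
    refine LinearMap.ext fun m => ?_
    rw [hact, LinearMap.smul_apply, hact, Algebra.smul_def, mul_smul, hcomp]
  have c1 : ∀ a i j, Θ (act a) i j ∈ D' := by
    intro a i j
    have ha : a ∈ Submodule.span R (s : Set A) := hs ▸ Submodule.mem_top
    induction ha using Submodule.span_induction with
    | mem x hx =>
      exact hW _ (Finset.mem_union_left _ (Finset.mem_image.2
        ⟨(x, i, j), Finset.mem_product.2 ⟨hx, Finset.mem_univ _⟩, rfl⟩))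
    | zero => simp
    | add x y _ _ hx hy =>
      rw [map_add, map_add, Matrix.add_apply]
      exact D'.add_mem hx hy
    | smul r x _ hx =>
      rw [hsm, map_smul, Matrix.smul_apply]
      exact D'.smul_mem hx _
  have c2 : ∀ m i, ι m i ∈ D' := by
    intro m i
    have hm' : m ∈ Submodule.span D (t : Set M) := ht ▸ Submodule.mem_top
    induction hm' using Submodule.span_induction with
    | mem x hx =>
      exact hW _ (Finset.mem_union_right _ (Finset.mem_image.2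
        ⟨(x, i), Finset.mem_product.2 ⟨hx, Finset.mem_univ _⟩, rfl⟩))
    | zero => simp
    | add x y _ _ hx hy =>
      rw [map_add, Pi.add_apply]
      exact D'.add_mem hx hy
    | smul r x _ hx =>
      rw [map_smul, Pi.smul_apply]
      exact D'.smul_mem hx _
  let Θ' : A →+* Matrix (Fin ρ) (Fin ρ) D' :=
    { toFun := fun a => Matrix.of fun i j => ⟨Θ (act a) i j, c1 a i j⟩
      map_one' := by
        ext i j
        by_cases hij : i = j <;> simp [Matrix.one_apply, hij]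
      map_mul' := fun a b => by
        ext i j
        simp [Matrix.mul_apply]
      map_zero' := by
        ext i j
        simp
      map_add' := fun a b => by
        ext i j
        simp }
  have hΘ' : ∀ a i j, (Θ' a i j : Dt) = Θ (act a) i j := fun a i j => rfl
  let _ : Algebra R D' := ((algebraMap D D').comp (algebraMap R D)).toAlgebra
  have hRD : ∀ r, algebraMap R D' r = algebraMap D D' (algebraMap R D r) := fun r => rfl
  have : IsScalarTower R D D' := IsScalarTower.of_algebraMap_eq hRD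
  have : Module.Finite R D := Module.Finite.of_surjective (Algebra.linearMap R D) hsurj
  have : Module.Finite R D' := Module.Finite.trans D D'
  have hinj' : Injective (algebraMap D D') := fun x y hxy => hinj (congrArg Subtype.val hxy)
  have : Ring.KrullDimLE 1 D' := by
    refine Ring.KrullDimLE.mk₁' fun I hI0 hI => ?_
    refine Ideal.isMaximal_of_isIntegral_of_isMaximal_comap (R := D) I ?_
    exact Ideal.IsPrime.isMaximal_of_ne_bot inferInstance
      fun h => hI0 (Ideal.eq_bot_of_comap_eq_bot h)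
  have hnf' : ¬ IsField D' := fun h => hnf (isField_of_isIntegral_of_isField hinj' h)
  have halg : ∀ r, Θ' (algebraMap R A r) =
      algebraMap R D' r • (1 : Matrix (Fin ρ) (Fin ρ) D') := by
    intro r
    ext i j
    rw [hΘ', Algebra.algebraMap_eq_smul_one r, hsm, map_one, map_smul, map_one, hRD]
    by_cases hij : i = j <;> simp [hij, Algebra.smul_def]
  have hV : ψ (Vec Θ') = 1 :=
    h4 R A D' (Vec Θ') Γ ψ hreg hAz hψ hnf' hemb' (Vec.alg Θ' halg)
  have hVfin : Module.Finite A (Vec Θ') := Vec.finite Θ' halg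
  have hVK : Kill A 𝔭 (Vec Θ') := by
    intro r hr v
    rw [Vec.alg Θ' halg, hRD, (hker r).2 hr, map_zero, zero_smul]
  let ι' : M →ₗ[A] Vec Θ' :=
    { toFun := fun m => Vec.mk Θ' fun i => ⟨ι m i, c2 m i⟩
      map_add' := fun x y => by
        funext i
        apply Subtype.ext
        change ι (x + y) i = ι x i + ι y i
        rw [map_add, Pi.add_apply]
      map_smul' := fun a m => by
        funext i
        apply Subtype.ext
        change ι (a • m) i = (((Θ' a).mulVec fun i => (⟨ι m i, c2 m i⟩ : D')) i : Dt)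
        rw [← hact, hΘ]
        simp [Matrix.mulVec, dotProduct, hΘ'] }
  have hι' : ∀ m i, ((Vec.vec Θ' (ι' m) i : D') : Dt) = ι m i := fun m i => rfl
  have hinjι : Injective ι' := by
    intro x y hxy
    refine hι (funext fun i => ?_)
    rw [← hι', ← hι', hxy]
  have hQ : ψ (Vec Θ' ⧸ LinearMap.range ι') = 1 := by
    refine kill hψ hm hp hp0 hq _ inferInstance (fun r hr v => ?_) fun v => ?_
    · obtain ⟨v, rfl⟩ := Submodule.mkQ_surjective _ v
      rw [← map_smul, hVK r hr, map_zero]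
    · obtain ⟨v, rfl⟩ := Submodule.mkQ_surjective _ v
      obtain ⟨c, hc0, m, hm'⟩ := hι2 fun i => ((Vec.vec Θ' v i : D') : Dt)
      obtain ⟨r, rfl⟩ := hsurj c
      refine ⟨r, fun h => hc0 ((hker r).2 h), ?_⟩
      rw [← map_smul, Submodule.mkQ_apply, Submodule.Quotient.mk_eq_zero, Vec.alg Θ' halg]
      refine ⟨m, funext fun i => Subtype.ext ?_⟩
      change ι m i = ((algebraMap R D' r * Vec.vec Θ' v i : D') : Dt)
      rw [hm', hRD]
      simp [Algebra.smul_def]
  have := hψ M (Vec Θ') _ ι' (LinearMap.range ι').mkQ hinjι (LinearMap.exact_map_mkQ_range ι')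
    (Submodule.mkQ_surjective _) (hVK.tors hp0 hVfin)
  rw [hV, hQ, mul_one] at this
  exact this.symm

end CurveP

open CurveP in
theorem curve (h1 : S_KA.{u}) (h2 : S_Lat.{u}) (h3 : S_Chain.{u}) (h4 : S_CurveB.{u}) :
    S_Curve.{u} := by
  intro R A Γ _ _ _ _ _ _ _ _ _ _ ψ 𝔭 hreg hAz hψ hm hp hp0 hpm hq M _ _ hM hK
  have := isNoetherianRing_alg R A
  have hsurj : Surjective (algebraMap R (R ⧸ 𝔭)) := Ideal.Quotient.mk_surjective
  have hker : ∀ r, algebraMap R (R ⧸ 𝔭) r = 0 ↔ r ∈ 𝔭 := fun r => Ideal.Quotient.eq_zero_iff_mem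
  have : IsLocalRing (R ⧸ 𝔭) := IsLocalRing.of_surjective' (algebraMap R (R ⧸ 𝔭)) hsurj
  have hcm : ∀ 𝔫 : Ideal (R ⧸ 𝔭), 𝔫.IsMaximal →
      𝔫.comap (algebraMap R (R ⧸ 𝔭)) = maximalIdeal R := fun 𝔫 h𝔫 =>
    IsLocalRing.eq_maximalIdeal (Ideal.comap_isMaximal_of_surjective _ hsurj)
  have : Ring.KrullDimLE 1 (R ⧸ 𝔭) := by
    refine Ring.KrullDimLE.mk₁' fun I hI0 hI => ?_
    refine Ideal.isMaximal_of_isIntegral_of_isMaximal_comap (R := R) I ?_
    have a1 : 𝔭 ≤ I.comap (algebraMap R (R ⧸ 𝔭)) := fun r hr => by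
      rw [Ideal.mem_comap, (hker r).2 hr]
      exact I.zero_mem
    have a2 : 𝔭 ≠ I.comap (algebraMap R (R ⧸ 𝔭)) := by
      intro e
      refine hI0 (eq_bot_iff.2 fun x hx => ?_)
      obtain ⟨r, rfl⟩ := hsurj x
      exact (hker r).2 (e.ge hx)
    rw [hq (I.comap (algebraMap R (R ⧸ 𝔭))) inferInstance (lt_of_le_of_ne a1 a2)]
    infer_instance
  have hnf : ¬ IsField (R ⧸ 𝔭) := fun h =>
    hpm (IsLocalRing.eq_maximalIdeal (Ideal.Quotient.maximal_of_isField 𝔭 h))
  have hinf : ∀ 𝔫 : Ideal (R ⧸ 𝔭), 𝔫.IsMaximal → Infinite ((R ⧸ 𝔭) ⧸ 𝔫) := by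
    intro 𝔫 h𝔫
    have : Infinite (R ⧸ 𝔫.comap (algebraMap R (R ⧸ 𝔭))) := by
      rw [hcm 𝔫 h𝔫]
      exact inferInstanceAs (Infinite (ResidueField R))
    exact Infinite.of_injective _ (Ideal.quotientMap_injective (I := 𝔫) (f := algebraMap R (R ⧸ 𝔭)))
  have hemb : Emb (R ⧸ 𝔭) 3 := by
    intro 𝔫 h𝔫
    obtain ⟨-, a, ha, hb⟩ := hreg
    refine ⟨fun i => algebraMap R (R ⧸ 𝔭) (a i), fun i => ?_, fun x hx => ?_⟩
    · rw [← Ideal.mem_comap, hcm 𝔫 h𝔫]
      exact ha i
    · obtain ⟨y, rfl⟩ := hsurj x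
      rw [← Ideal.mem_comap, hcm 𝔫 h𝔫] at hx
      obtain ⟨s, hs, hsy⟩ := hb y hx
      have hu : IsUnit s := by simpa using hs
      rw [Ideal.unit_mul_mem_iff_mem _ hu] at hsy
      refine Submodule.mem_sup_left ?_
      have := Ideal.mem_map_of_mem (algebraMap R (R ⧸ 𝔭)) hsy
      rwa [Ideal.map_span, ← Set.range_comp] at this
  let N : Submodule A M :=
    { carrier := {m | ∃ c, c ∉ 𝔭 ∧ algebraMap R A c • m = 0}
      add_mem' := by
        rintro x y ⟨c, hc, hx⟩ ⟨d, hd, hy⟩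
        refine ⟨c * d, fun h => (hp.mem_or_mem h).elim hc hd, ?_⟩
        rw [smul_add, map_mul, mul_smul, mul_smul, hy, smul_zero, add_zero, ← mul_smul,
          ← map_mul, mul_comm, map_mul, mul_smul, hx, smul_zero]
      zero_mem' := ⟨1, (Ideal.ne_top_iff_one _).1 hp.ne_top, smul_zero _⟩
      smul_mem' := by
        rintro a x ⟨c, hc, hx⟩
        exact ⟨c, hc, by rw [smul_smul, Algebra.commutes, mul_smul, hx, smul_zero]⟩ }
  have hT : Tors R A M := hK.tors hp0 hM
  have hN : ψ N = 1 :=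
    kill hψ hm hp hp0 hq N (hT.sub N).1 (fun r hr m => Subtype.ext (hK r hr m))
      fun m => by
        obtain ⟨c, hc, hx⟩ := m.2
        exact ⟨c, hc, Subtype.ext hx⟩
  rw [hψ.sub_quot hT N, hN, one_mul]
  have hK' : Kill A 𝔭 (M ⧸ N) := by
    intro r hr v
    obtain ⟨v, rfl⟩ := Submodule.mkQ_surjective _ v
    rw [← map_smul, hK r hr, map_zero]
  have htf : ∀ c, c ∉ 𝔭 → ∀ v : M ⧸ N, algebraMap R A c • v = 0 → v = 0 := by
    intro c hc v hv
    obtain ⟨v, rfl⟩ := Submodule.mkQ_surjective _ v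
    rw [← map_smul, Submodule.mkQ_apply, Submodule.Quotient.mk_eq_zero] at hv
    rw [Submodule.mkQ_apply, Submodule.Quotient.mk_eq_zero]
    obtain ⟨d, hd, hv⟩ := hv
    exact ⟨d * c, fun h => (hp.mem_or_mem h).elim hd hc, by rw [map_mul, mul_smul, hv]⟩
  let _ : Module R (M ⧸ N) := Module.compHom (M ⧸ N) (algebraMap R A)
  have : IsScalarTower R A (M ⧸ N) :=
    ⟨fun r a m => by rw [Algebra.smul_def, mul_smul]; rfl⟩
  have : Module.Finite R (M ⧸ N) := Module.Finite.trans A (M ⧸ N)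
  have hTB : Module.IsTorsionBySet R (M ⧸ N) 𝔭 := fun v r => hK' r r.2 v
  let _ : Module (R ⧸ 𝔭) (M ⧸ N) := hTB.module
  have hcomp : ∀ (r : R) (v : M ⧸ N), algebraMap R A r • v = algebraMap R (R ⧸ 𝔭) r • v :=
    fun _ _ => rfl
  have : IsScalarTower R (R ⧸ 𝔭) (M ⧸ N) :=
    ⟨fun r a m => by rw [Algebra.smul_def, mul_smul]; rfl⟩
  have : Module.Finite (R ⧸ 𝔭) (M ⧸ N) :=
    Module.Finite.of_restrictScalars_finite R (R ⧸ 𝔭) (M ⧸ N)
  have : SMulCommClass A (R ⧸ 𝔭) (M ⧸ N) := ⟨fun a c v => by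
    obtain ⟨r, rfl⟩ := hsurj c
    rw [← hcomp, ← hcomp, smul_smul, smul_smul, Algebra.commutes]⟩
  refine tf h1 h2 h3 h4 hreg hAz hψ hm hp hp0 hq (R ⧸ 𝔭) hsurj hker hnf hinf hemb (M ⧸ N) hcomp
    fun c v hc hv => ?_
  obtain ⟨r, rfl⟩ := hsurj c
  exact htf r (fun h => hc ((hker r).2 h)) v hv

end Pool.Agent.P.MP_46a8f8_ag
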