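import Pool.Agent.P.MP_46a8f8_ag.Base

/-!
Vanishing on free modules over a curve of embedding dimension at most three.
-/

namespace Pool.Agent.P.MP_46a8f8_ag

open TensorProduct Polynomial IsLocalRing Function

universe u

namespace CurveBP

theorem mem_smul_top_pi {T : Type u} [CommRing T] (I : Ideal T) {ρ : ℕ} (e : Fin ρ → T) :
    e ∈ I • (⊤ : Submodule T (Fin ρ → T)) ↔ ∀ i, e i ∈ I := by
  constructor
  · intro h i
    refine Submodule.smul_induction_on h (fun r hr n _ => ?_) fun x y hx hy => ?_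
    · exact I.mul_mem_right _ hr
    · exact I.add_mem hx hy
  · intro h
    have : e = ∑ i, e i • (Pi.single i 1 : Fin ρ → T) := by
      funext j
      simp [Finset.sum_apply, Pi.single_apply]
    rw [this]
    exact Submodule.sum_mem _ fun i _ => Submodule.smul_mem_smul (h i) Submodule.mem_top

/-- a free module lifts along a surjection of rings -/
theorem lift_free (T D M : Type u) [CommRing T] [CommRing D] [Algebra T D] [AddCommGroup M]
    [Module D M] {ρ : ℕ} (b : Module.Basis (Fin ρ) D M) (hs : Surjective (algebraMap T D)) :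
    ∃ π : (Fin ρ → T) →ₛₗ[algebraMap T D] M, Surjective π ∧
      (∀ e, π e = 0 ↔ e ∈ RingHom.ker (algebraMap T D) • (⊤ : Submodule T (Fin ρ → T))) ∧
      ∀ β₀ : M →ₗ[D] M, ∃ β : (Fin ρ → T) →ₗ[T] (Fin ρ → T), ∀ e, π (β e) = β₀ (π e) := by
  let π : (Fin ρ → T) →ₛₗ[algebraMap T D] M :=
    { toFun := fun e => ∑ i, algebraMap T D (e i) • b i
      map_add' := fun x y => by simp [add_smul, Finset.sum_add_distrib]
      map_smul' := fun c x => by simp [Finset.smul_sum, mul_smul] }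
  have hπ : ∀ e, π e = ∑ i, algebraMap T D (e i) • b i := fun _ => rfl
  have hsur : Surjective π := fun m => by
    choose e he using fun i => hs (b.repr m i)
    exact ⟨e, by rw [hπ]; simp only [he]; exact b.sum_repr m⟩
  refine ⟨π, hsur, fun e => ?_, fun β₀ => ?_⟩
  · rw [mem_smul_top_pi, hπ]
    constructor
    · intro h i
      exact Fintype.linearIndependent_iff.1 b.linearIndependent _ h i
    · intro h
      refine Finset.sum_eq_zero fun i _ => ?_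
      rw [RingHom.mem_ker.1 (h i), zero_smul]
  · choose c hc using fun j => hsur (β₀ (b j))
    refine ⟨Fintype.linearCombination T c, fun e => ?_⟩
    rw [Fintype.linearCombination_apply, map_sum, hπ e, map_sum]
    refine Finset.sum_congr rfl fun j _ => ?_
    rw [map_smulₛₗ, hc, map_smul]

section ker

variable {S D : Type u} [CommRing S] [CommRing D] [IsDomain D] (σ : S →+* D)

theorem comap_map (hσ : Surjective σ) {𝔮 : Ideal S} (h : RingHom.ker σ ≤ 𝔮) :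
    (𝔮.map σ).comap σ = 𝔮 := by
  rw [Ideal.comap_map_of_surjective σ hσ, sup_eq_left]
  exact h

theorem not_max (hσ : Surjective σ) (hD : ¬ IsField D) : ¬ (RingHom.ker σ).IsMaximal := by
  intro h
  obtain ⟨I, h1, h2⟩ := Ring.not_isField_iff_exists_ideal_bot_lt_and_lt_top.1 hD
  have h3 : RingHom.ker σ = I.comap σ :=
    h.eq_of_le (Ideal.comap_ne_top σ h2.ne) (Ideal.comap_mono (f := σ) h1.le)
  refine h1.ne' ?_
  rw [← Ideal.map_comap_of_surjective σ hσ I, ← h3]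
  exact Ideal.map_eq_bot_iff_le_ker σ |>.2 le_rfl

theorem above_max [Ring.KrullDimLE 1 D] (hσ : Surjective σ) (𝔮 : Ideal S) (hp : 𝔮.IsPrime)
    (h : RingHom.ker σ < 𝔮) : 𝔮.IsMaximal := by
  have h1 : (𝔮.map σ).IsPrime := Ideal.map_isPrime_of_surjective hσ h.le
  have h2 : 𝔮.map σ ≠ ⊥ := fun h0 => h.not_ge ((Ideal.map_eq_bot_iff_le_ker σ).1 h0)
  have h3 := h1.isMaximal_of_ne_bot h2
  rw [← comap_map σ hσ h.le]
  exact Ideal.comap_isMaximal_of_surjective σ hσ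

theorem ker_ne_bot [Ring.KrullDimLE 1 D] (hσ : Surjective σ)
    (hreg : ∀ 𝔫 : Ideal D, 𝔫.IsMaximal → RegAt S (𝔫.comap σ) 3) : RingHom.ker σ ≠ ⊥ := by
  intro h
  obtain ⟨𝔫, h𝔫⟩ := Ideal.exists_maximal D
  let e : S ≃+* D := RingEquiv.ofBijective σ ⟨(RingHom.injective_iff_ker_eq_bot σ).2 h, hσ⟩
  have h1 : (𝔫.comap σ).height = 𝔫.height := e.height_comap 𝔫
  have h2 := (hreg 𝔫 h𝔫).1
  have h3 := (Ideal.height_le_ringKrullDim_of_ne_top h𝔫.ne_top).trans
    (Ring.krullDimLE_iff.1 (inferInstance : Ring.KrullDimLE 1 D))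
  rw [← h1, h2] at h3
  exact absurd h3 (by decide)

theorem reg_above (hσ : Surjective σ)
    (hreg : ∀ 𝔫 : Ideal D, 𝔫.IsMaximal → RegAt S (𝔫.comap σ) 3) (𝔫 : Ideal S)
    (h𝔫 : 𝔫.IsMaximal) (h : RingHom.ker σ ≤ 𝔫) : RegAt S 𝔫 3 := by
  have h1 := comap_map σ hσ h
  rcases Ideal.map_eq_top_or_isMaximal_of_surjective σ hσ h𝔫 with h2 | h2
  · rw [h2, Ideal.comap_top] at h1
    exact absurd h1.symm h𝔫.ne_top
  · rw [← h1]
    exact hreg _ h2

theorem coprime (hσ : Surjective σ) {δ f : S} (hδ : IsUnit (σ δ))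
    (hf : ∀ 𝔫 : Ideal S, 𝔫.IsMaximal → f ∈ 𝔫 → RingHom.ker σ ≤ 𝔫) : IsCoprime δ f := by
  rw [← Ideal.isCoprime_span_singleton_iff, Ideal.isCoprime_iff_sup_eq]
  by_contra h
  obtain ⟨𝔫, h𝔫, hle⟩ := Ideal.exists_le_maximal _ h
  have a1 : δ ∈ 𝔫 := hle (Submodule.mem_sup_left (Ideal.mem_span_singleton_self _))
  have a2 : f ∈ 𝔫 := hle (Submodule.mem_sup_right (Ideal.mem_span_singleton_self _))
  obtain ⟨u, hu⟩ := hδ.exists_right_inv
  obtain ⟨u, rfl⟩ := hσ u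
  have a3 : δ * u - 1 ∈ 𝔫 := hf 𝔫 h𝔫 a2 (by rw [RingHom.mem_ker, map_sub, map_mul, hu]; simp)
  refine h𝔫.ne_top ((Ideal.eq_top_iff_one _).2 ?_)
  have : (1 : S) = δ * u - (δ * u - 1) := by ring
  rw [this]
  exact 𝔫.sub_mem (𝔫.mul_mem_right _ a1) a3

end ker

theorem main (h2 : S_CoreA.{u}) (h3 : S_CoreB.{u}) (h4 : S_Fac.{u}) (h5 : S_Dom.{u})
    (h6 : S_ThS2.{u}) (h7 : S_ThS3.{u}) (R A D M Γ T : Type u) [CommRing R] [IsDomain R]
    [IsNoetherianRing R] [IsLocalRing R] [Ring A] [Algebra R A] [Module.Free R A]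
    [Module.Finite R A] [CommRing D] [IsDomain D] [Ring.KrullDimLE 1 D] [AddCommGroup M]
    [Module A M] [Module D M] [SMulCommClass A D M] [Module.Free D M] [Module.Finite D M]
    [CommGroup Γ] (ψ : Inv A Γ) [CommRing T] [Algebra R T] [Module.Finite R T] [Algebra T D]
    (hAz : Az R A) (hψ : IsAdd R ψ) (hD : ¬ IsField D) (hs : Surjective (algebraMap T D))
    (hreg : ∀ 𝔫 : Ideal D, 𝔫.IsMaximal → RegAt T (𝔫.comap (algebraMap T D)) 3)
    (hsc : ∀ (r : R) (m : M), algebraMap R A r • m = algebraMap T D (algebraMap R T r) • m) :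
    ψ M = 1 := by
  have : IsNoetherianRing T := isNoetherianRing_alg R T
  obtain ⟨π₀, p1, p2, p3⟩ := lift_free T D M (Module.finBasis D M) hs
  obtain ⟨k, ρ, ε, μ, a1, a2, a3, a4, a5, a6⟩ := h2 R A T D M _ π₀ hAz hsc p1 p2 p3
  obtain ⟨N₀, H, b1, b2, b3⟩ := h3 R A T D M _ ρ ε μ hs a1 a2 a3 a4 a5 a6
  have m1 : (X - 1 : D[X]).Monic := by simpa using monic_X_sub_C (1 : D)
  have m2 : IsCoprime (X : D[X]) (X - 1) := ⟨1, -1, by ring⟩
  obtain ⟨T₂, _, _, _, σ, f, g, v, w, δ, δ', c1, c2, c3, c4, c5, c6, c7, -⟩ :=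
    h4 T D H (X ^ N₀) ((X - 1) ^ N₀) hs b1 (monic_X_pow N₀) (m1.pow N₀) m2.pow b2
  have : IsNoetherianRing T₂ := isNoetherianRing_alg T T₂
  obtain ⟨𝔰, d1, d2, d3⟩ := h5 T T₂ D σ δ δ' 3 hs c3 c5 c6 c7 hreg
  let S := T₂ ⧸ 𝔰
  let mk : T₂ →+* S := Ideal.Quotient.mk 𝔰
  letI : Algebra R S := ((algebraMap T S).comp (algebraMap R T)).toAlgebra
  have : IsScalarTower R T S := IsScalarTower.of_algebraMap_eq fun _ => rfl
  have : Module.Finite T S := Module.Finite.of_surjective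
    (Ideal.Quotient.mkₐ T 𝔰).toLinearMap (Ideal.Quotient.mkₐ_surjective T 𝔰)
  have : Module.Finite R S := Module.Finite.trans T S
  let τ : S →ₐ[T] D := Ideal.Quotient.liftₐ 𝔰 σ fun a ha => d2 ha
  have hτ : (τ : S →+* D).comp mk = (σ : T₂ →+* D) := RingHom.ext fun _ => rfl
  have hmk : mk.comp (algebraMap T T₂) = algebraMap T S := RingHom.ext fun _ => rfl
  have hτs : Surjective (τ : S →+* D) := fun d => by
    obtain ⟨t, rfl⟩ := hs d
    exact ⟨algebraMap T S t, τ.commutes t⟩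
  have hδ : IsUnit (τ (mk δ)) := c3
  have hregS : ∀ 𝔫 : Ideal D, 𝔫.IsMaximal → RegAt S (𝔫.comap (τ : S →+* D)) 3 := fun 𝔫 h𝔫 => by
    have := d3 𝔫 h𝔫
    rwa [← hτ, ← Ideal.comap_comap,
      Ideal.map_comap_of_surjective mk Ideal.Quotient.mk_surjective] at this
  obtain ⟨N, _, _, _, _, e1, e2, i, j, π, e3, e4, e5, e6⟩ :=
    b3 S τ (f.map mk) (g.map mk) (v.map mk) (w.map mk) (mk δ)
      (by rw [← Polynomial.map_mul, c1, Polynomial.map_map, hmk])
      (by rw [← Polynomial.map_mul, ← Polynomial.map_mul, ← Polynomial.map_add, c2, map_C]) hδ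
      (by rw [Polynomial.map_map, hτ, c4])
  have : Finite (MaximalSpectrum S) := finite_maximalSpectrum R S
  obtain ⟨r, c, f₀, φ, g1, g2, g3, g4, g5, g6⟩ := h6 S (RingHom.ker (τ : S →+* D))
    (RingHom.ker_isPrime _) (ker_ne_bot _ hτs hregS) (not_max _ hτs hD) (above_max _ hτs)
    (reg_above _ hτs hregS)
  exact h7 R A S N _ M Γ ψ i j (mk δ) π r c f₀ φ hψ e2 e3 e4 e5 (by rw [g1]; exact e6)
    (by rw [g1]; exact g2) g3 (coprime _ hτs hδ g4) g5 g6

end CurveBP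

theorem curveB (h1 : S_Model.{u}) (h2 : S_CoreA.{u}) (h3 : S_CoreB.{u}) (h4 : S_Fac.{u})
    (h5 : S_Dom.{u}) (h6 : S_ThS2.{u}) (h7 : S_ThS3.{u}) : S_CurveB.{u} := by
  intro R A D M Γ _ _ _ _ _ _ _ _ _ _ _ _ _ _ _ _ _ _ _ _ ψ hR hAz hψ hD hE hsc
  obtain ⟨T, _, _, _, σ, hσ, hreg⟩ := h1 R D 3 hR hE
  letI : Algebra T D := (σ : T →+* D).toAlgebra
  refine CurveBP.main h2 h3 h4 h5 h6 h7 R A D M Γ T ψ hAz hψ hD hσ hreg fun r m => ?_
  rw [hsc]
  congr 1
  exact (σ.commutes r).symm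

end Pool.Agent.P.MP_46a8f8_ag
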