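import Mathlib

/-!
Definitions for the reduced norm case of the Grothendieck-Serre problem.
-/

namespace Pool.Agent.P.MP_46a8f8_ag

open TensorProduct

universe u

/-- a function of `A`-modules -/
def Inv (A : Type u) [Ring A] (Γ : Type u) : Type (u + 1) :=
  ∀ (M : Type u) [AddCommGroup M] [Module A M], Γ

/-- finitely generated and killed by a nonzero element of `R` -/
def Tors (R A : Type u) [CommRing R] [Ring A] [Algebra R A]
    (M : Type u) [AddCommGroup M] [Module A M] : Prop :=
  Module.Finite A M ∧ ∃ r : R, r ≠ 0 ∧ ∀ m : M, algebraMap R A r • m = 0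

/-- killed by an ideal of `R` -/
def Kill {R : Type u} (A : Type u) [CommRing R] [Ring A] [Algebra R A] (I : Ideal R)
    (M : Type u) [AddCommGroup M] [Module A M] : Prop :=
  ∀ r ∈ I, ∀ m : M, algebraMap R A r • m = 0

/-- multiplicative on short exact sequences of finitely generated torsion modules -/
def IsAdd (R : Type u) {A Γ : Type u} [CommRing R] [Ring A] [Algebra R A] [CommGroup Γ]
    (ψ : Inv A Γ) : Prop :=
  ∀ (M₁ M₂ M₃ : Type u) [AddCommGroup M₁] [Module A M₁] [AddCommGroup M₂] [Module A M₂]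
    [AddCommGroup M₃] [Module A M₃] (f : M₁ →ₗ[A] M₂) (g : M₂ →ₗ[A] M₃),
    Function.Injective f → Function.Exact f g → Function.Surjective g → Tors R A M₂ →
      ψ M₂ = ψ M₁ * ψ M₃

/-- the invariant vanishes on finitely generated modules killed by `I` -/
def Van {R A Γ : Type u} [CommRing R] [Ring A] [Algebra R A] [CommGroup Γ]
    (ψ : Inv A Γ) (I : Ideal R) : Prop :=
  ∀ (M : Type u) [AddCommGroup M] [Module A M], Module.Finite A M → Kill A I M → ψ M = 1

/-- projective dimension at most `r` -/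
def PD (A : Type u) [Ring A] (M : Type u) [AddCommGroup M] [Module A M] (r : ℕ) : Prop :=
  CategoryTheory.HasProjectiveDimensionLE (ModuleCat.of A M) r

/-- a full separability idempotent -/
def Az (R A : Type u) [CommRing R] [Ring A] [Algebra R A] : Prop :=
  ∃ (k : ℕ) (a b : Fin k → A), ∑ i, a i * b i = 1 ∧
    (∀ c : A, ∑ i, (c * a i) ⊗ₜ[R] b i = ∑ i, a i ⊗ₜ[R] (b i * c)) ∧
    ∃ (l : ℕ) (x z w : Fin l → A),
      ∑ j, ∑ i, (x j * a i * z j) ⊗ₜ[R] (w j * b i) = (1 : A) ⊗ₜ[R] (1 : A)

/-- the data of a splitting over a field -/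
structure Setup (R A Ω : Type u) [CommRing R] [Ring A] [Algebra R A] [Field Ω] [Algebra R Ω]
    (n : ℕ) (Φ : A →ₐ[R] Matrix (Fin n) (Fin n) Ω) : Prop where
  inj : Function.Injective (algebraMap R Ω)
  free : Module.Free R A
  finite : Module.Finite R A
  rank : Module.finrank R A = n ^ 2
  span : Submodule.span Ω (Set.range Φ) = ⊤
  az : Az R A

/-- a unit which is a reduced norm up to an `n`-th power denominator is the norm of a unit -/
def GSN {R A Ω : Type u} [CommRing R] [Ring A] [Algebra R A] [Field Ω] [Algebra R Ω]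
    {n : ℕ} (Φ : A →ₐ[R] Matrix (Fin n) (Fin n) Ω) : Prop :=
  ∀ (v : Rˣ) (a : A) (f : R), f ≠ 0 → (Φ a).det = algebraMap R Ω (v * f ^ n) →
    ∃ y : Aˣ, (Φ y).det = algebraMap R Ω v

/-- column vectors with the action through `Φ` -/
def Col {R A Ω : Type u} [CommRing R] [Ring A] [Algebra R A] [Field Ω] [Algebra R Ω]
    {n : ℕ} (_Φ : A →ₐ[R] Matrix (Fin n) (Fin n) Ω) : Type u := Fin n → Ω

section

variable {R A Ω : Type u} [CommRing R] [Ring A] [Algebra R A] [Field Ω] [Algebra R Ω]
  {n : ℕ} (Φ : A →ₐ[R] Matrix (Fin n) (Fin n) Ω)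

instance : AddCommGroup (Col Φ) := inferInstanceAs (AddCommGroup (Fin n → Ω))

instance : Module Ω (Col Φ) := inferInstanceAs (Module Ω (Fin n → Ω))

instance : Module.Finite Ω (Col Φ) := inferInstanceAs (Module.Finite Ω (Fin n → Ω))

/-- the underlying vector -/
def Col.vec (w : Col Φ) : Fin n → Ω := w

/-- a vector as a column -/
def Col.mk (w : Fin n → Ω) : Col Φ := w

instance : Module A (Col Φ) where
  smul a w := Col.mk Φ ((Φ a).mulVec (Col.vec Φ w))
  one_smul w := by
    change (Φ 1).mulVec (Col.vec Φ w) = Col.vec Φ w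
    rw [map_one, Matrix.one_mulVec]
  mul_smul a b w := by
    change (Φ (a * b)).mulVec (Col.vec Φ w) = (Φ a).mulVec ((Φ b).mulVec (Col.vec Φ w))
    rw [map_mul, Matrix.mulVec_mulVec]
  smul_zero a := (Φ a).mulVec_zero
  smul_add a v w := (Φ a).mulVec_add (Col.vec Φ v) (Col.vec Φ w)
  add_smul a b w := by
    change (Φ (a + b)).mulVec (Col.vec Φ w) =
      (Φ a).mulVec (Col.vec Φ w) + (Φ b).mulVec (Col.vec Φ w)
    rw [map_add, Matrix.add_mulVec]
  zero_smul w := by
    change (Φ 0).mulVec (Col.vec Φ w) = 0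
    rw [map_zero, Matrix.zero_mulVec]

theorem Col.vec_smul (a : A) (w : Col Φ) :
    Col.vec Φ (a • w) = (Φ a).mulVec (Col.vec Φ w) := rfl

instance : SMulCommClass A Ω (Col Φ) where
  smul_comm a c w := (Φ a).mulVec_smul c (Col.vec Φ w)

/-- the reduced norm of an endomorphism -/
noncomputable def nu {F : Type u} [AddCommGroup F] [Module A F] (φ : F →ₗ[A] F) : Ω :=
  LinearMap.det (LinearMap.lcomp Ω (Col Φ) φ)

/-- the reduced norms of units -/
noncomputable def nrdU : Subgroup Ωˣ :=
  (Units.map ((Matrix.detMonoidHom).comp (Φ : A →* Matrix (Fin n) (Fin n) Ω))).range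

end

/-- an injective endomorphism with torsion cokernel -/
def Good (R : Type u) {A F : Type u} [CommRing R] [Ring A] [Algebra R A] [AddCommGroup F]
    [Module A F] (φ : F →ₗ[A] F) : Prop :=
  Function.Injective φ ∧ Tors R A (F ⧸ LinearMap.range φ)

/-- a determinant function on endomorphisms of finite free modules -/
structure IsTheta (R : Type u) {A Γ : Type u} [CommRing R] [Ring A] [Algebra R A] [CommGroup Γ]
    (θ : ∀ (F : Type u) [AddCommGroup F] [Module A F], (F →ₗ[A] F) → Γ) : Prop where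
  comp : ∀ (F : Type u) [AddCommGroup F] [Module A F] [Module.Free A F] [Module.Finite A F]
    (φ φ' : F →ₗ[A] F), Good R φ → Good R φ' → θ F (φ ∘ₗ φ') = θ F φ * θ F φ'
  bij : ∀ (F : Type u) [AddCommGroup F] [Module A F] [Module.Free A F] [Module.Finite A F]
    (φ : F →ₗ[A] F), Function.Bijective φ → θ F φ = 1
  prod : ∀ (F F' : Type u) [AddCommGroup F] [Module A F] [Module.Free A F] [Module.Finite A F]
    [AddCommGroup F'] [Module A F'] [Module.Free A F'] [Module.Finite A F']
    (φ : F →ₗ[A] F) (φ' : F' →ₗ[A] F'), Good R φ → Good R φ' →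
      θ (F × F') (φ.prodMap φ') = θ F φ * θ F' φ'

/-- multiplicative on short exact sequences of torsion modules of projective dimension
at most `r` -/
def IsAddPD (R : Type u) {A Γ : Type u} [CommRing R] [Ring A] [Algebra R A] [CommGroup Γ]
    (ψ : Inv A Γ) (r : ℕ) : Prop :=
  ∀ (M₁ M₂ M₃ : Type u) [AddCommGroup M₁] [Module A M₁] [AddCommGroup M₂] [Module A M₂]
    [AddCommGroup M₃] [Module A M₃] (f : M₁ →ₗ[A] M₂) (g : M₂ →ₗ[A] M₃),
    Function.Injective f → Function.Exact f g → Function.Surjective g → Tors R A M₂ →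
      PD A M₁ r → PD A M₂ r → PD A M₃ r → ψ M₂ = ψ M₁ * ψ M₃

/-- multiplication by a commuting scalar -/
def sA (A : Type u) {S : Type u} (P : Type u) [Ring A] [CommRing S] [AddCommGroup P] [Module A P]
    [Module S P] [SMulCommClass A S P] (s : S) : P →ₗ[A] P where
  toFun p := s • p
  map_add' := smul_add s
  map_smul' a p := (smul_comm a s p).symm

/-- the action of a matrix of commuting scalars -/
def mA (A : Type u) {S : Type u} (P : Type u) [Ring A] [CommRing S] [AddCommGroup P] [Module A P]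
    [Module S P] [SMulCommClass A S P] {r : ℕ} (φ : Matrix (Fin r) (Fin r) S) :
    (Fin r → P) →ₗ[A] (Fin r → P) where
  toFun p i := ∑ j, φ i j • p j
  map_add' p q := by
    funext i
    simp [Finset.sum_add_distrib]
  map_smul' a p := by
    funext i
    simp [Finset.smul_sum, smul_comm a]

/-- the localisation at `𝔫` is regular of dimension `d` (for a prime of a Noetherian ring) -/
def RegAt (P : Type u) [CommRing P] (𝔫 : Ideal P) (d : ℕ) : Prop :=
  𝔫.height = d ∧ ∃ a : Fin d → P, (∀ i, a i ∈ 𝔫) ∧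
    ∀ x ∈ 𝔫, ∃ s, s ∉ 𝔫 ∧ s * x ∈ Ideal.span (Set.range a)

/-- embedding dimension at most `e` at every maximal ideal -/
def Emb (D : Type u) [CommRing D] (e : ℕ) : Prop :=
  ∀ 𝔫 : Ideal D, 𝔫.IsMaximal → ∃ a : Fin e → D, (∀ i, a i ∈ 𝔫) ∧
    𝔫 ≤ Ideal.span (Set.range a) ⊔ 𝔫 ^ 2

/-- flat, unramified and essentially of finite type -/
def EE {C R : Type u} [CommRing C] [CommRing R] (φ : C →+* R) : Prop :=
  φ.Flat ∧ φ.FormallyUnramified ∧ φ.EssFiniteType

end Pool.Agent.P.MP_46a8f8_ag
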