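import Pool.Agent.P.MP_46a8f8_ag.Base

/-!
An additive invariant of a cokernel depends only on the determinant; lengths at primes of
height one.
-/

namespace Pool.Agent.P.MP_46a8f8_ag

open Function

universe u

namespace DetPP

/-- a multiplicative function of nonsingular matrices which is trivial on diagonal matrices and
on transvections is trivial -/
theorem mat_triv {S Γ : Type u} [CommRing S] [IsDomain S] [CommGroup Γ] {r : ℕ}
    (χ : Matrix (Fin r) (Fin r) S → Γ)
    (hmul : ∀ φ φ', φ.det ≠ 0 → φ'.det ≠ 0 → χ (φ * φ') = χ φ * χ φ')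
    (hdiag : ∀ d : Fin r → S, (∀ i, d i ≠ 0) → χ (Matrix.diagonal d) = 1)
    (htr : ∀ (i j : Fin r) (a : S), i ≠ j → χ (Matrix.transvection i j a) = 1)
    (φ : Matrix (Fin r) (Fin r) S) (hφ : φ.det ≠ 0) : χ φ = 1 := by
  let L := FractionRing S
  have hinj : Injective (algebraMap S L) := IsFractionRing.injective S L
  have hdet : ∀ d : Fin r → S, (∀ i, d i ≠ 0) → (Matrix.diagonal d).det ≠ 0 := fun d hd => by
    rw [Matrix.det_diagonal]
    exact Finset.prod_ne_zero_iff.2 fun i _ => hd i
  have hmap : ∀ φ : Matrix (Fin r) (Fin r) S,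
      (φ.map (algebraMap S L)).det = algebraMap S L φ.det := fun φ =>
    ((algebraMap S L).map_det φ).symm
  have key : ∀ g : Matrix (Fin r) (Fin r) L, g.det ≠ 0 → ∃ (s : S) (φ : Matrix (Fin r) (Fin r) S),
      s ≠ 0 ∧ φ.det ≠ 0 ∧ φ.map (algebraMap S L) = algebraMap S L s • g ∧ χ φ = 1 := by
    intro g hg
    refine Matrix.diagonal_transvection_induction_of_det_ne_zero
      (fun g => ∃ (s : S) (φ : Matrix (Fin r) (Fin r) S),
        s ≠ 0 ∧ φ.det ≠ 0 ∧ φ.map (algebraMap S L) = algebraMap S L s • g ∧ χ φ = 1) g hg ?_ ?_ ?_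
    · intro D hD
      rw [Matrix.det_diagonal] at hD
      obtain ⟨b, hb⟩ := IsLocalization.exist_integer_multiples_of_finite (nonZeroDivisors S) D
      choose d hd using hb
      have hb0 : (b : S) ≠ 0 := nonZeroDivisors.ne_zero b.2
      have hd0 : ∀ i, d i ≠ 0 := by
        intro i h0
        have h1 := hd i
        rw [h0, map_zero, Algebra.smul_def] at h1
        rcases mul_eq_zero.1 h1.symm with h2 | h2
        · exact hb0 (hinj (h2.trans (map_zero _).symm))
        · exact Finset.prod_ne_zero_iff.1 hD i (Finset.mem_univ i) h2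
      refine ⟨b, Matrix.diagonal d, hb0, hdet d hd0, ?_, hdiag d hd0⟩
      rw [Matrix.diagonal_map (map_zero _), ← Matrix.diagonal_smul]
      congr 1
      funext i
      rw [hd i, Algebra.smul_def]
      rfl
    · rintro ⟨i, j, hij, c⟩
      obtain ⟨a, b, hb, rfl⟩ := IsFractionRing.div_surjective (A := S) c
      have hb0 : b ≠ 0 := nonZeroDivisors.ne_zero hb
      have hb1 : algebraMap S L b ≠ 0 := fun h => hb0 (hinj (h.trans (map_zero _).symm))
      let e : Fin r → S := fun k => if k = i then 1 else b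
      let d : Fin r → S := fun k => if k = i then b else 1
      have he : ∀ k, e k ≠ 0 := fun k => by
        by_cases h : k = i <;> simp [e, h, hb0]
      have hd : ∀ k, d k ≠ 0 := fun k => by
        by_cases h : k = i <;> simp [d, h, hb0]
      have ht : (Matrix.transvection i j a).det ≠ 0 := by
        rw [Matrix.det_transvection_of_ne i j hij]
        exact one_ne_zero
      have h1 : (Matrix.diagonal e * Matrix.transvection i j a).det ≠ 0 := by
        rw [Matrix.det_mul]
        exact mul_ne_zero (hdet e he) ht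
      refine ⟨b, Matrix.diagonal e * Matrix.transvection i j a * Matrix.diagonal d, hb0, ?_, ?_, ?_⟩
      · rw [Matrix.det_mul]
        exact mul_ne_zero h1 (hdet d hd)
      · ext k l
        simp only [Matrix.map_apply, Matrix.mul_diagonal, Matrix.diagonal_mul,
          Matrix.TransvectionStruct.toMatrix_mk, Matrix.transvection, Matrix.smul_apply,
          Matrix.add_apply, Matrix.one_apply, Matrix.single_apply, smul_eq_mul, e, d]
        by_cases h2 : i = k ∧ j = l
        · obtain ⟨rfl, rfl⟩ := h2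
          simp only [if_true, and_self, if_neg hij, if_neg (Ne.symm hij), zero_add, one_mul,
            mul_one]
          rw [mul_div_cancel₀ _ hb1]
        · rw [if_neg h2, if_neg h2, add_zero, add_zero]
          by_cases h3 : k = l
          · subst h3
            by_cases h4 : k = i <;> simp [h4]
          · simp [h3]
      · rw [hmul _ _ h1 (hdet d hd), hmul _ _ (hdet e he) ht, hdiag e he, hdiag d hd,
          htr i j a hij, mul_one, mul_one]
    · rintro g g' - - ⟨s, φ, hs, h1, h2, h3⟩ ⟨s', φ', hs', h1', h2', h3'⟩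
      refine ⟨s * s', φ * φ', mul_ne_zero hs hs', ?_, ?_, ?_⟩
      · rw [Matrix.det_mul]
        exact mul_ne_zero h1 h1'
      · rw [Matrix.map_mul, h2, h2', map_mul, Matrix.smul_mul, Matrix.mul_smul, smul_smul]
      · rw [hmul _ _ h1 h1', h3, h3', mul_one]
  obtain ⟨s, φ', hs, -, h2, h3⟩ := key (φ.map (algebraMap S L)) (by
    rw [hmap]
    exact fun h => hφ (hinj (h.trans (map_zero _).symm)))
  have e : φ' = Matrix.diagonal (fun _ => s) * φ := by
    ext k l
    have := congrFun (congrFun h2 k) l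
    simp only [Matrix.map_apply, Matrix.smul_apply, smul_eq_mul, ← map_mul] at this
    rw [Matrix.diagonal_mul]
    exact hinj this
  rwa [e, hmul _ _ (hdet _ fun _ => hs) hφ, hdiag _ fun _ => hs, one_mul] at h3

section inv

variable {R A Γ : Type u} [CommRing R] [IsDomain R] [Ring A] [Algebra R A] [CommGroup Γ]
  {ψ : Inv A Γ}

theorem coker_comp (h : IsAdd R ψ) {M : Type u} [AddCommGroup M] [Module A M] (f g : M →ₗ[A] M)
    (hf : Injective f) (h1 : Tors R A (M ⧸ LinearMap.range f))
    (h2 : Tors R A (M ⧸ LinearMap.range g)) :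
    ψ (M ⧸ LinearMap.range (f ∘ₗ g)) = ψ (M ⧸ LinearMap.range f) * ψ (M ⧸ LinearMap.range g) := by
  let i : (M ⧸ LinearMap.range g) →ₗ[A] (M ⧸ LinearMap.range (f ∘ₗ g)) :=
    Submodule.mapQ _ _ f (by
      rintro _ ⟨x, rfl⟩
      exact ⟨x, rfl⟩)
  let p : (M ⧸ LinearMap.range (f ∘ₗ g)) →ₗ[A] (M ⧸ LinearMap.range f) :=
    Submodule.factor (LinearMap.range_comp_le_range g f)
  have hi : Injective i := by
    refine (injective_iff_map_eq_zero _).2 fun x hx => ?_
    obtain ⟨x, rfl⟩ := Submodule.Quotient.mk_surjective _ x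
    obtain ⟨y, hy⟩ := (Submodule.Quotient.mk_eq_zero _).1 hx
    exact (Submodule.Quotient.mk_eq_zero _).2 ⟨y, hf hy⟩
  have hp : Surjective p := Submodule.factor_surjective _
  have hex : Exact i p := by
    intro x
    obtain ⟨x, rfl⟩ := Submodule.Quotient.mk_surjective _ x
    constructor
    · intro hx
      obtain ⟨y, rfl⟩ := (Submodule.Quotient.mk_eq_zero _).1 hx
      exact ⟨Submodule.Quotient.mk y, rfl⟩
    · rintro ⟨y, hy⟩
      obtain ⟨y, rfl⟩ := Submodule.Quotient.mk_surjective _ y
      rw [← hy]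
      exact (Submodule.Quotient.mk_eq_zero _).2 ⟨y, rfl⟩
  rw [h _ _ _ i p hi hex hp (Tors.ext i p hex hp h2 h1), mul_comm]

theorem psi_pi (h : IsAdd R ψ) (r : ℕ) : ∀ (M : Fin r → Type u) [∀ i, AddCommGroup (M i)]
    [∀ i, Module A (M i)], (∀ i, Tors R A (M i)) →
    Tors R A (∀ i, M i) ∧ ψ (∀ i, M i) = ∏ i, ψ (M i) := by
  induction r with
  | zero =>
    intro M _ _ _
    exact ⟨Tors.subsingleton, by rw [h.subsingleton, Finset.univ_eq_empty, Finset.prod_empty]⟩
  | succ r ih =>
    intro M _ _ hM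
    obtain ⟨h1, h2⟩ := ih (fun i => M i.succ) fun i => hM i.succ
    have h3 := (hM 0).prod h1
    refine ⟨h3.equiv (Fin.consLinearEquiv A M), ?_⟩
    rw [← h.equiv (Fin.consLinearEquiv A M) h3, h.prod (hM 0) h1, h2, Fin.prod_univ_succ]

theorem coker_surj (h : IsAdd R ψ) {M : Type u} [AddCommGroup M] [Module A M] (f : M →ₗ[A] M)
    (hf : Surjective f) : ψ (M ⧸ LinearMap.range f) = 1 := by
  have : Subsingleton (M ⧸ LinearMap.range f) :=
    Submodule.Quotient.subsingleton_iff.2 (LinearMap.range_eq_top.2 hf)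
  exact h.subsingleton _

variable {S P : Type u} [CommRing S] [AddCommGroup P] [Module A P] [Module S P]
  [SMulCommClass A S P] {r : ℕ}

theorem mA_apply (φ : Matrix (Fin r) (Fin r) S) (p : Fin r → P) (i : Fin r) :
    mA A P φ p i = ∑ j, φ i j • p j := rfl

theorem sA_apply (s : S) (p : P) : sA A P s p = s • p := rfl

theorem mA_mul (φ φ' : Matrix (Fin r) (Fin r) S) :
    mA A P (φ * φ') = mA A P φ ∘ₗ mA A P φ' := by
  refine LinearMap.ext fun p => funext fun i => ?_
  simp only [LinearMap.comp_apply, mA_apply, Matrix.mul_apply, Finset.sum_smul, Finset.smul_sum,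
    mul_smul]
  exact Finset.sum_comm

theorem sA_mul (s t : S) : sA A P (s * t) = sA A P s ∘ₗ sA A P t :=
  LinearMap.ext fun p => mul_smul s t p

theorem mA_diagonal (d : Fin r → S) (p : Fin r → P) (i : Fin r) :
    mA A P (Matrix.diagonal d) p i = d i • p i := by
  rw [mA_apply, Finset.sum_eq_single i]
  · rw [Matrix.diagonal_apply_eq]
  · intro j _ hj
    rw [Matrix.diagonal_apply_ne' _ hj, zero_smul]
  · exact fun h => absurd (Finset.mem_univ i) h

/-- the cokernel of a diagonal matrix -/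
noncomputable def diagEquiv (d : Fin r → S) :
    ((Fin r → P) ⧸ LinearMap.range (mA A P (Matrix.diagonal d))) ≃ₗ[A]
      ∀ i, P ⧸ LinearMap.range (sA A P (d i)) :=
  let π : (Fin r → P) →ₗ[A] ∀ i, P ⧸ LinearMap.range (sA A P (d i)) :=
    LinearMap.pi fun i => (LinearMap.range (sA A P (d i))).mkQ ∘ₗ LinearMap.proj i
  (Submodule.quotEquivOfEq _ _ (by
    ext p
    constructor
    · rintro ⟨q, rfl⟩
      exact funext fun i =>
        (Submodule.Quotient.mk_eq_zero _).2 ⟨q i, (mA_diagonal (A := A) d q i).symm⟩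
    · intro hp
      choose q hq using fun i =>
        (Submodule.Quotient.mk_eq_zero (LinearMap.range (sA A P (d i)))).1 (congrFun hp i)
      exact ⟨q, funext fun i => (mA_diagonal (A := A) d q i).trans (hq i)⟩)).trans
    (π.quotKerEquivOfSurjective fun y => by
      choose q hq using fun i => Submodule.Quotient.mk_surjective _ (y i)
      exact ⟨q, funext hq⟩)

theorem mul_adj (φ : Matrix (Fin r) (Fin r) S) :
    φ * φ.adjugate = Matrix.diagonal fun _ => φ.det := by
  rw [Matrix.mul_adjugate, Matrix.smul_one_eq_diagonal]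

theorem adj_mul (φ : Matrix (Fin r) (Fin r) S) :
    φ.adjugate * φ = Matrix.diagonal fun _ => φ.det := by
  rw [Matrix.adjugate_mul, Matrix.smul_one_eq_diagonal]

end inv

end DetPP

open DetPP in
theorem detP : S_DetP.{u} := by
  intro R A S P Γ _ _ _ _ _ _ _ _ _ _ _ _ _ ψ h hP hT r φ hφ
  have hs : ∀ s : S, s ≠ 0 → Injective (sA A P s) := fun s hs =>
    (injective_iff_map_eq_zero _).2 fun p hp => hP s p hs hp
  have hinj : ∀ φ : Matrix (Fin r) (Fin r) S, φ.det ≠ 0 → Injective (mA A P φ) := by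
    intro φ hφ
    refine (injective_iff_map_eq_zero _).2 fun p hp => funext fun i => hP _ _ hφ ?_
    rw [← mA_diagonal (A := A) (fun _ => φ.det) p i, ← adj_mul, mA_mul, LinearMap.comp_apply, hp,
      map_zero]
    rfl
  have hdiag : ∀ d : Fin r → S, (∀ i, d i ≠ 0) →
      Tors R A ((Fin r → P) ⧸ LinearMap.range (mA A P (Matrix.diagonal d))) ∧
        ψ ((Fin r → P) ⧸ LinearMap.range (mA A P (Matrix.diagonal d))) =
          ∏ i, ψ (P ⧸ LinearMap.range (sA A P (d i))) := by
    intro d hd
    obtain ⟨h1, h2⟩ := psi_pi h r (fun i => P ⧸ LinearMap.range (sA A P (d i)))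
      fun i => hT _ (hd i)
    have h3 := h1.equiv (diagEquiv d).symm
    exact ⟨h3, by rw [h.equiv (diagEquiv d) h3, h2]⟩
  have htors : ∀ φ : Matrix (Fin r) (Fin r) S, φ.det ≠ 0 →
      Tors R A ((Fin r → P) ⧸ LinearMap.range (mA A P φ)) := by
    intro φ hφ
    refine (hdiag (fun _ => φ.det) fun _ => hφ).1.of_surjective (Submodule.factor ?_)
      (Submodule.factor_surjective _)
    rw [← mul_adj, mA_mul]
    exact LinearMap.range_comp_le_range _ _
  have h1 : ψ (P ⧸ LinearMap.range (sA A P (1 : S))) = 1 :=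
    coker_surj h _ fun p => ⟨p, one_smul S p⟩
  have hm : ∀ s t : S, s ≠ 0 → t ≠ 0 → ψ (P ⧸ LinearMap.range (sA A P (s * t))) =
      ψ (P ⧸ LinearMap.range (sA A P s)) * ψ (P ⧸ LinearMap.range (sA A P t)) := by
    intro s t hs0 ht0
    rw [sA_mul]
    exact coker_comp h _ _ (hs s hs0) (hT s hs0) (hT t ht0)
  have hprod : ∀ (d : Fin r → S), (∀ i, d i ≠ 0) → ∀ T : Finset (Fin r),
      ψ (P ⧸ LinearMap.range (sA A P (∏ i ∈ T, d i))) =
        ∏ i ∈ T, ψ (P ⧸ LinearMap.range (sA A P (d i))) := by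
    intro d hd T
    induction T using Finset.induction_on with
    | empty => rw [Finset.prod_empty, Finset.prod_empty, h1]
    | insert i T hi ih =>
      rw [Finset.prod_insert hi, Finset.prod_insert hi,
        hm _ _ (hd i) (Finset.prod_ne_zero_iff.2 fun j _ => hd j), ih]
  refine div_eq_one.1 (mat_triv (fun φ => ψ ((Fin r → P) ⧸ LinearMap.range (mA A P φ)) /
    ψ (P ⧸ LinearMap.range (sA A P φ.det))) ?_ ?_ ?_ φ hφ)
  · intro φ φ' h2 h3
    rw [Matrix.det_mul, hm _ _ h2 h3, mA_mul,
      coker_comp h _ _ (hinj φ h2) (htors φ h2) (htors φ' h3), mul_div_mul_comm]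
  · intro d hd
    rw [(hdiag d hd).2, Matrix.det_diagonal, hprod d hd, div_self']
  · intro i j a hij
    rw [Matrix.det_transvection_of_ne i j hij, h1, div_one]
    refine coker_surj h _ fun p => ⟨mA A P (Matrix.transvection i j (-a)) p, ?_⟩
    rw [← LinearMap.comp_apply, ← mA_mul, Matrix.transvection_mul_transvection_same i j hij,
      add_neg_cancel, Matrix.transvection_zero, ← Matrix.diagonal_one]
    exact funext fun k => (mA_diagonal _ p k).trans (one_smul S _)

namespace DetPP

variable {R : Type u} [CommRing R] (𝔭 : Ideal R) [𝔭.IsPrime]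

/-- the length of the localisation -/
noncomputable def lenR (M : Type u) [AddCommGroup M] [Module R M] : ℕ∞ :=
  Module.length (Localization 𝔭.primeCompl) (LocalizedModule 𝔭.primeCompl M)

variable {M₁ M₂ M₃ : Type u} [AddCommGroup M₁] [Module R M₁] [AddCommGroup M₂] [Module R M₂]
  [AddCommGroup M₃] [Module R M₃]

theorem lenR_add (f : M₁ →ₗ[R] M₂) (g : M₂ →ₗ[R] M₃) (hf : Injective f) (hfg : Exact f g)
    (hg : Surjective g) : lenR 𝔭 M₂ = lenR 𝔭 M₁ + lenR 𝔭 M₃ :=
  Module.length_eq_add_of_exact (LocalizedModule.map 𝔭.primeCompl f)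
    (LocalizedModule.map 𝔭.primeCompl g) (LocalizedModule.map_injective _ f hf)
    (LocalizedModule.map_surjective _ g hg) (LocalizedModule.map_exact 𝔭.primeCompl f g hfg)

theorem lenR_equiv (e : M₁ ≃ₗ[R] M₂) : lenR 𝔭 M₁ = lenR 𝔭 M₂ :=
  le_antisymm
    (Module.length_le_of_injective (LocalizedModule.map 𝔭.primeCompl e.toLinearMap)
      (LocalizedModule.map_injective _ _ e.injective))
    (Module.length_le_of_surjective (LocalizedModule.map 𝔭.primeCompl e.toLinearMap)
      (LocalizedModule.map_surjective _ _ e.surjective))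

theorem lenR_eq_zero : lenR 𝔭 M₁ = 0 ↔ ∀ m : M₁, ∃ s, s ∉ 𝔭 ∧ s • m = 0 := by
  rw [lenR, Module.length_eq_zero_iff, LocalizedModule.subsingleton_iff]
  rfl

theorem length_ne_top_of_smul {O N : Type u} [CommRing O] [IsNoetherianRing O]
    [Ring.KrullDimLE 1 O] [AddCommGroup N] [Module O N] [Module.Finite O N] {x : O}
    (hx : x ∈ nonZeroDivisors O) (h : ∀ m : N, x • m = 0) : Module.length O N ≠ ⊤ := by
  obtain ⟨k, p, hp⟩ := Module.Finite.exists_fin' O N
  let q : Fin k → (O ⧸ Ideal.span {x}) →ₗ[O] N := fun i =>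
    Submodule.liftQ _ (LinearMap.toSpanSingleton O N (p (Pi.single i 1))) (by
      rw [Ideal.span, Submodule.span_singleton_le_iff_mem]
      exact h _)
  let Q : (Fin k → O ⧸ Ideal.span {x}) →ₗ[O] N := ∑ i, q i ∘ₗ LinearMap.proj i
  have hQ : Surjective Q := by
    intro y
    obtain ⟨v, rfl⟩ := hp y
    refine ⟨fun i => Submodule.Quotient.mk (v i), ?_⟩
    conv_rhs => rw [← Finset.univ_sum_single v, map_sum]
    rw [LinearMap.sum_apply]
    refine Finset.sum_congr rfl fun i _ => ?_
    change v i • p (Pi.single i 1) = _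
    rw [← map_smul, ← Pi.single_smul, smul_eq_mul, mul_one]
  refine ne_top_of_le_ne_top ?_ (Module.length_le_of_surjective Q hQ)
  rw [Module.length_pi_of_fintype]
  exact ENat.sum_ne_top.2 fun i _ =>
    Module.length_ne_top_iff.2 (isFiniteLength_quotient_span_singleton O hx)

theorem lenR_ne_top [IsDomain R] [IsNoetherianRing R] (h𝔭 : 𝔭.height = 1) [Module.Finite R M₁]
    {r : R} (hr : r ≠ 0) (h : ∀ m : M₁, r • m = 0) : lenR 𝔭 M₁ ≠ ⊤ := by
  have : Ring.KrullDimLE 1 (Localization 𝔭.primeCompl) := by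
    rw [Ring.krullDimLE_iff, IsLocalization.AtPrime.ringKrullDim_eq_height 𝔭, h𝔭]
    exact le_rfl
  have hle : 𝔭.primeCompl ≤ nonZeroDivisors R := 𝔭.primeCompl_le_nonZeroDivisors
  have : IsDomain (Localization 𝔭.primeCompl) := IsLocalization.isDomain_localization hle
  refine length_ne_top_of_smul (x := algebraMap R _ r) (mem_nonZeroDivisors_of_ne_zero ?_) ?_
  · exact fun h0 => hr (IsLocalization.injective _ hle (h0.trans (map_zero _).symm))
  · intro m
    rw [algebraMap_smul]
    induction m using LocalizedModule.induction_on with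
    | h m s => rw [LocalizedModule.smul'_mk, h, LocalizedModule.zero_mk]

variable (A : Type u) [Ring A] [Algebra R A]

/-- the length of the localisation of a module over the algebra -/
noncomputable def lenA (M : Type u) [AddCommGroup M] [Module A M] : ℕ∞ :=
  letI := Module.compHom M (algebraMap R A)
  lenR 𝔭 M

theorem lenA_eq (M : Type u) [AddCommGroup M] [Module A M] [i : Module R M]
    [IsScalarTower R A M] : lenA 𝔭 A M = lenR 𝔭 M := by
  have e : (Module.compHom M (algebraMap R A) : Module R M) = i :=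
    Module.ext' _ _ fun r m => algebraMap_smul A r m
  rw [lenA, e]

theorem tower (M : Type u) [AddCommGroup M] [Module A M] :
    letI := Module.compHom M (algebraMap R A)
    IsScalarTower R A M :=
  letI := Module.compHom M (algebraMap R A)
  ⟨fun r a m => by
    rw [Algebra.smul_def, mul_smul]
    rfl⟩

theorem lenA_ne_top [IsDomain R] [IsNoetherianRing R] [Module.Finite R A] (h𝔭 : 𝔭.height = 1)
    (M : Type u) [AddCommGroup M] [Module A M] (hM : Tors R A M) : lenA 𝔭 A M ≠ ⊤ := by
  letI := Module.compHom M (algebraMap R A)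
  have := tower (R := R) A M
  obtain ⟨h1, r, hr, h2⟩ := hM
  have : Module.Finite R M := Module.Finite.trans A M
  exact lenR_ne_top 𝔭 h𝔭 hr h2

theorem lenA_add [IsDomain R] [IsNoetherianRing R] [Module.Finite R A] (h𝔭 : 𝔭.height = 1)
    (M₁ M₂ M₃ : Type u) [AddCommGroup M₁] [Module A M₁] [AddCommGroup M₂] [Module A M₂]
    [AddCommGroup M₃] [Module A M₃] (f : M₁ →ₗ[A] M₂) (g : M₂ →ₗ[A] M₃) (hf : Injective f)
    (hfg : Exact f g) (hg : Surjective g) (hM : Tors R A M₂) :
    (lenA 𝔭 A M₂).toNat = (lenA 𝔭 A M₁).toNat + (lenA 𝔭 A M₃).toNat := by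
  have h0 := lenA_ne_top 𝔭 A h𝔭 M₂ hM
  have e : lenA 𝔭 A M₂ = lenA 𝔭 A M₁ + lenA 𝔭 A M₃ := by
    letI := Module.compHom M₁ (algebraMap R A)
    letI := Module.compHom M₂ (algebraMap R A)
    letI := Module.compHom M₃ (algebraMap R A)
    have := tower (R := R) A M₁
    have := tower (R := R) A M₂
    have := tower (R := R) A M₃
    exact lenR_add 𝔭 (f.restrictScalars R) (g.restrictScalars R) hf hfg hg
  rw [e] at h0 ⊢
  exact ENat.toNat_add (fun h => h0 (by rw [h, top_add])) fun h => h0 (by rw [h, add_top])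

/-- the quotient by a principal left ideal as the cokernel of a matrix -/
theorem lenA_quot [IsDomain R] [Module.Free R A] [Module.Finite R A] (a : A) :
    lenA 𝔭 A (A ⧸ Submodule.span A {a}) = lenA 𝔭 R ((Fin (Module.finrank R A) → R) ⧸
      LinearMap.range (mA R R (LinearMap.toMatrix (Module.finBasis R A) (Module.finBasis R A)
        (LinearMap.mulRight R a)))) := by
  rw [lenA_eq, lenA_eq]
  let b := Module.finBasis R A
  let π : (Fin (Module.finrank R A) → R) →ₗ[R] A ⧸ Submodule.span A {a} :=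
    (Submodule.span A {a}).mkQ.restrictScalars R ∘ₗ b.equivFun.symm.toLinearMap
  have hπ : Surjective π :=
    (Submodule.span A {a}).mkQ_surjective.comp b.equivFun.symm.surjective
  have hm : ∀ x : A, mA R R (LinearMap.toMatrix b b (LinearMap.mulRight R a)) (b.equivFun x) =
      b.equivFun (x * a) := fun x =>
    LinearMap.toMatrix_mulVec_repr b b (LinearMap.mulRight R a) x
  refine (lenR_equiv 𝔭 ((Submodule.quotEquivOfEq _ _ ?_).trans
    (π.quotKerEquivOfSurjective hπ))).symm
  ext v
  obtain ⟨y, rfl⟩ := b.equivFun.surjective v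
  have e : b.equivFun y ∈ LinearMap.ker π ↔ ∃ x : A, x * a = y := by
    rw [LinearMap.mem_ker]
    change Submodule.Quotient.mk (b.equivFun.symm (b.equivFun y)) = 0 ↔ _
    rw [LinearEquiv.symm_apply_apply, Submodule.Quotient.mk_eq_zero, Submodule.mem_span_singleton]
    rfl
  rw [e]
  constructor
  · rintro ⟨w, hw⟩
    obtain ⟨x, rfl⟩ := b.equivFun.surjective w
    exact ⟨x, b.equivFun.injective ((hm x).symm.trans hw)⟩
  · rintro ⟨x, rfl⟩
    exact ⟨_, hm x⟩

end DetPP

open DetPP in
theorem len (h : S_DetP.{u}) : S_Len.{u} := by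
  intro R A _ _ _ _ _ _ _ 𝔭 _ h𝔭
  refine ⟨fun M _ _ => (lenA 𝔭 A M).toNat, lenA_add 𝔭 A h𝔭, fun M _ _ hM => ?_, ?_⟩
  · rw [ENat.toNat_eq_zero, or_iff_left (lenA_ne_top 𝔭 A h𝔭 M hM)]
    letI := Module.compHom M (algebraMap R A)
    exact lenR_eq_zero 𝔭
  · intro a c hc hac
    let ψ : Inv R (Multiplicative (ULift.{u} ℤ)) := fun M _ _ =>
      Multiplicative.ofAdd (ULift.up ((lenA 𝔭 R M).toNat : ℤ))
    have hψ : IsAdd R ψ := by
      intro M₁ M₂ M₃ _ _ _ _ _ _ f g hf hfg hg hM
      simp only [ψ]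
      rw [lenA_add 𝔭 R h𝔭 M₁ M₂ M₃ f g hf hfg hg hM, Nat.cast_add]
      rfl
    have key : ∀ x : A, LinearMap.det (LinearMap.mulRight R x) ≠ 0 →
        (lenA 𝔭 A (A ⧸ Submodule.span A {x})).toNat = (lenA 𝔭 R
          (R ⧸ LinearMap.range (sA R R (LinearMap.det (LinearMap.mulRight R x))))).toNat := by
      intro x hx
      have h1 := h R R R R _ ψ hψ (fun s p hs hp => (mul_eq_zero.1 hp).resolve_left hs)
        (fun s hs => ⟨inferInstance, s, hs, fun m => by
          obtain ⟨m, rfl⟩ := Submodule.Quotient.mk_surjective _ m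
          exact (Submodule.Quotient.mk_eq_zero _).2 ⟨m, rfl⟩⟩) _
        (LinearMap.toMatrix (Module.finBasis R A) (Module.finBasis R A) (LinearMap.mulRight R x))
        (by rwa [LinearMap.det_toMatrix])
      rw [LinearMap.det_toMatrix] at h1
      rw [lenA_quot]
      exact Int.natCast_inj.1 (congrArg (fun z => (Multiplicative.toAdd z).down) h1)
    have hd : LinearMap.det (LinearMap.mulRight R (algebraMap R A c)) = c ^ Module.finrank R A := by
      have : LinearMap.mulRight R (algebraMap R A c) = c • LinearMap.id :=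
        LinearMap.ext fun x => by
          rw [LinearMap.mulRight_apply, ← Algebra.commutes, ← Algebra.smul_def]
          rfl
      rw [this, LinearMap.det_smul, LinearMap.det_id, mul_one]
    have h0 : c ^ Module.finrank R A ≠ 0 := pow_ne_zero _ hc
    have hr : LinearMap.range (sA R R (LinearMap.det (LinearMap.mulRight R a))) =
        LinearMap.range (sA R R (c ^ Module.finrank R A)) := by
      ext z
      exact ⟨fun ⟨w, hw⟩ => by
          obtain ⟨w', hw'⟩ := hac.symm.dvd.trans ⟨w, hw.symm⟩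
          exact ⟨w', hw'.symm⟩,
        fun ⟨w, hw⟩ => by
          obtain ⟨w', hw'⟩ := hac.dvd.trans ⟨w, hw.symm⟩
          exact ⟨w', hw'.symm⟩⟩
    change (lenA 𝔭 A _).toNat = (lenA 𝔭 A _).toNat
    rw [key a (hac.ne_zero_iff.2 h0), key _ (by rwa [hd]), hd, hr]

end Pool.Agent.P.MP_46a8f8_ag
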