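import Pool.Agent.P.MP_46a8f8_ag.Base

/-! Passing to a domain; the normalisation of a one-dimensional local domain. -/

namespace Pool.Agent.P.MP_46a8f8_ag

open IsLocalRing Function

universe u

namespace DomP

/-- The Krull-Akizuki theorem for overrings of a one-dimensional local domain. -/
theorem noeth {R V : Type u} [CommRing R] [IsDomain R] [CommRing V] [IsDomain V] (i : R →+* V)
    (hi : Injective i) [IsNoetherianRing R] [IsLocalRing R]
    (hfrac' : ∀ x : V, ∃ b c : R, c ≠ 0 ∧ x * i c = i b)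
    (hdim : ∀ P : Ideal R, P ≠ ⊥ → P.IsPrime → P.IsMaximal) : IsNoetherianRing V := by
  classical
  refine (isNoetherianRing_iff_ideal_fg V).2 fun J => ?_
  rcases eq_or_ne J ⊥ with rfl | hJ
  · exact Submodule.fg_bot
  obtain ⟨x0, hx0, hx0'⟩ := Submodule.exists_mem_ne_zero_of_ne_bot hJ
  obtain ⟨a, c0, hc0, h0⟩ := hfrac' x0
  have haJ : i a ∈ J := h0 ▸ J.mul_mem_right _ hx0
  have ha' : i a ≠ 0 := h0 ▸ mul_ne_zero hx0' ((map_ne_zero_iff i hi).2 hc0)
  have ha : a ≠ 0 := (map_ne_zero_iff i hi).1 ha'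
  by_cases hu : IsUnit a
  · rw [J.eq_top_of_isUnit_mem haJ (hu.map i)]
    exact Ideal.fg_top V
  have hpow : ∀ c : R, c ≠ 0 → ∃ m, c ∣ a ^ m := by
    intro c hc
    have : a ∈ (Ideal.span {c}).radical := by
      rw [Ideal.radical_eq_sInf, Submodule.mem_sInf]
      rintro P ⟨hP1, hP2⟩
      have hP : P ≠ ⊥ := fun h => hc (by
        simpa [h] using hP1 (Ideal.mem_span_singleton_self c))
      rw [eq_maximalIdeal (hdim P hP hP2)]
      exact hu
    obtain ⟨m, hm⟩ := this
    exact ⟨m, Ideal.mem_span_singleton.1 hm⟩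
  have : Ring.KrullDimLE 0 (R ⧸ Ideal.span {a}) := by
    refine Ring.krullDimLE_zero_iff.2 fun P hP => ?_
    have h1 : (P.comap (Ideal.Quotient.mk _)).IsMaximal := by
      refine hdim _ (fun h => ha ?_) inferInstance
      have : a ∈ P.comap (Ideal.Quotient.mk (Ideal.span {a})) := by
        rw [Ideal.mem_comap, Ideal.Quotient.eq_zero_iff_mem.2 (Ideal.mem_span_singleton_self a)]
        exact P.zero_mem
      simpa [h] using this
    have h2 := Ideal.map_eq_top_or_isMaximal_of_surjective _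
      (Ideal.Quotient.mk_surjective (I := Ideal.span {a})) h1
    rw [Ideal.map_comap_of_surjective _ Ideal.Quotient.mk_surjective] at h2
    exact h2.resolve_left hP.ne_top
  have : IsArtinianRing (R ⧸ Ideal.span {a}) :=
    IsNoetherianRing.isArtinianRing_of_krullDimLE_zero
  obtain ⟨t, ht⟩ := IsArtinian.monotone_stabilizes (R := R ⧸ Ideal.span {a})
    (M := R ⧸ Ideal.span {a})
    ⟨fun n => OrderDual.toDual
      (((Ideal.span {i a ^ n}).comap i).map (Ideal.Quotient.mk (Ideal.span {a}))),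
      fun m n hmn => Ideal.map_mono (Ideal.comap_mono
        (Ideal.span_singleton_le_span_singleton.2 (pow_dvd_pow _ hmn)))⟩
  have hst : ∀ m, t ≤ m → ∀ r : R, i a ^ m ∣ i r →
      ∃ (y : V) (r' : R), i r = i a ^ (m + 1) * y + i a * i r' := by
    intro m hm r hr
    have h1 : ((Ideal.span {i a ^ m}).comap i).map (Ideal.Quotient.mk (Ideal.span {a})) =
        ((Ideal.span {i a ^ (m + 1)}).comap i).map (Ideal.Quotient.mk (Ideal.span {a})) :=
      (ht m hm).symm.trans (ht (m + 1) (by omega))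
    have h2 : Ideal.Quotient.mk (Ideal.span {a}) r ∈
        ((Ideal.span {i a ^ (m + 1)}).comap i).map (Ideal.Quotient.mk (Ideal.span {a})) :=
      h1 ▸ Ideal.mem_map_of_mem _ (Ideal.mem_comap.2 (Ideal.mem_span_singleton.2 hr))
    obtain ⟨r1, h3, h4⟩ := (Ideal.mem_map_iff_of_surjective _ Ideal.Quotient.mk_surjective).1 h2
    obtain ⟨y, hy⟩ := Ideal.mem_span_singleton.1 (Ideal.mem_comap.1 h3)
    obtain ⟨r', hr'⟩ := Ideal.mem_span_singleton.1 (Ideal.Quotient.eq.1 h4.symm)
    refine ⟨y, r', ?_⟩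
    rw [← hy, ← map_mul, ← hr', map_sub]
    ring
  have hall : ∀ x : V, ∃ (r : R) (y : V), i a ^ t * x = i r + i a ^ (t + 1) * y := by
    intro x
    have hdown : ∀ j, (∃ (r : R) (y : V), i a ^ (t + j) * x = i r + i a ^ (t + j + 1) * y) →
        ∃ (r : R) (y : V), i a ^ t * x = i r + i a ^ (t + 1) * y := by
      intro j
      induction j with
      | zero => exact id
      | succ j ih =>
        rintro ⟨r, y, h⟩
        obtain ⟨y', r', h'⟩ := hst (t + (j + 1)) (by omega) r
          ⟨x - i a * y, by rw [← sub_eq_iff_eq_add] at h; rw [← h]; ring⟩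
        refine ih ⟨r', y + y', mul_left_cancel₀ ha' ?_⟩
        rw [h'] at h
        linear_combination h
    obtain ⟨b, c, hc, h⟩ := hfrac' x
    obtain ⟨m, d, hd⟩ := hpow c hc
    refine hdown m ⟨a ^ t * b * d, 0, ?_⟩
    rw [pow_add, ← map_pow i a m, hd, map_mul, map_mul, map_mul, ← h, map_pow]
    ring
  let N : Ideal V → Ideal R := fun J =>
    { carrier := {r | ∃ x ∈ J, ∃ y : V, i a ^ t * x = i r + i a ^ (t + 1) * y}
      zero_mem' := ⟨0, J.zero_mem, 0, by simp⟩
      add_mem' := by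
        rintro r r' ⟨x, hx, y, h⟩ ⟨x', hx', y', h'⟩
        exact ⟨x + x', J.add_mem hx hx', y + y', by rw [map_add]; linear_combination h + h'⟩
      smul_mem' := by
        rintro c r ⟨x, hx, y, h⟩
        exact ⟨i c * x, J.mul_mem_left _ hx, i c * y, by
          rw [smul_eq_mul, map_mul]; linear_combination (i c) * h⟩ }
  obtain ⟨s, hs⟩ := (isNoetherianRing_iff_ideal_fg R).1 inferInstance (N J)
  have hs' : ∀ r : s, ∃ x ∈ J, ∃ y : V, i a ^ t * x = i r + i a ^ (t + 1) * y := fun r => by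
    have : (r : R) ∈ N J := hs ▸ Ideal.subset_span r.2
    exact this
  choose ξ hξ hξ' using hs'
  refine ⟨insert (i a) (Finset.univ.image ξ), le_antisymm ?_ fun x hx => ?_⟩
  · rw [Ideal.span_le]
    intro z hz
    simp only [Finset.coe_insert, Finset.coe_image, Set.mem_insert_iff, Set.mem_image] at hz
    rcases hz with rfl | ⟨r, -, rfl⟩
    exacts [haJ, hξ r]
  · set J0 := Ideal.span (↑(insert (i a) (Finset.univ.image ξ) : Finset V) : Set V)
    have hle : N J ≤ N J0 := by
      rw [← hs, Ideal.span_le]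
      intro r hr
      exact ⟨ξ ⟨r, hr⟩, Ideal.subset_span (by simp), hξ' ⟨r, hr⟩⟩
    obtain ⟨r, y, h⟩ := hall x
    obtain ⟨x', hx', y', h'⟩ := hle (show r ∈ N J from ⟨x, hx, y, h⟩)
    have : x = x' + i a * (y - y') :=
      mul_left_cancel₀ (pow_ne_zero t ha') (by linear_combination h - h')
    rw [this]
    exact J0.add_mem hx' (J0.mul_mem_right _ (Ideal.subset_span (by simp)))

end DomP

theorem ka : S_KA.{u} := by
  intro D _ _ _ _ _
  let K := FractionRing D
  let Dt := integralClosure D K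
  have hinjK : Injective (algebraMap D K) := IsFractionRing.injective D K
  have hinj : Injective (algebraMap D Dt) := fun a b h => hinjK (congrArg Subtype.val h)
  have hfrac : ∀ w : Dt, ∃ a b : D, b ≠ 0 ∧ algebraMap D Dt b * w = algebraMap D Dt a := by
    intro w
    obtain ⟨a, b, hb, h⟩ := IsFractionRing.div_surjective (A := D) (w : K)
    have hb0 := nonZeroDivisors.ne_zero hb
    refine ⟨a, b, hb0, Subtype.ext ?_⟩
    change algebraMap D K b * (w : K) = algebraMap D K a
    rw [← h, mul_div_cancel₀ _ ((map_ne_zero_iff _ hinjK).2 hb0)]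
  have hdim : ∀ P : Ideal D, P ≠ ⊥ → P.IsPrime → P.IsMaximal :=
    Ring.krullDimLE_one_iff_of_noZeroDivisors.1 inferInstance
  have hN : IsNoetherianRing Dt := DomP.noeth (algebraMap D Dt) hinj
    (fun x => by
      obtain ⟨a, b, hb, h⟩ := hfrac x
      exact ⟨a, b, hb, by rw [mul_comm, h]⟩) hdim
  have h1 : Ring.DimensionLEOne D := ⟨fun h1 h2 => hdim _ h1 h2⟩
  have h2 : Ring.DimensionLEOne Dt := Ring.DimensionLEOne.integralClosure D K
  have h3 : IsIntegrallyClosed Dt := integralClosure.isIntegrallyClosedOfFiniteExtension K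
  have h4 : IsDedekindDomain Dt := {}
  have hfin : {I : Ideal Dt | I.IsMaximal}.Finite := by
    refine (((maximalIdeal D).map (algebraMap D Dt)).finite_minimalPrimes_of_isNoetherianRing
      Dt).subset fun n hn => ?_
    have hn' : n.IsMaximal := hn
    refine ⟨⟨hn'.isPrime, Ideal.map_le_iff_le_comap.2 ?_⟩, fun p hp hpn => ?_⟩
    · exact (eq_maximalIdeal (Ideal.isMaximal_comap_of_isIntegral_of_isMaximal n)).ge
    · have := hp.1
      have h5 : p.comap (algebraMap D Dt) = maximalIdeal D :=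
        ((maximalIdeal.isMaximal D).eq_of_le (Ideal.comap_isPrime _ p).ne_top
          (Ideal.map_le_iff_le_comap.1 hp.2)).symm
      have h6 : p.IsMaximal := Ideal.isMaximal_of_isIntegral_of_isMaximal_comap p
        (h5 ▸ maximalIdeal.isMaximal D)
      exact (h6.eq_of_le hn'.ne_top hpn).ge
  refine ⟨Dt, inferInstance, inferInstance, IsPrincipalIdealRing.of_finite_maximals hfin,
    inferInstance, hinj, inferInstance, ?_, hfrac⟩
  have := hfin.to_subtype
  exact Finite.of_injective (fun n : MaximalSpectrum Dt =>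
    (⟨n.asIdeal, n.isMaximal⟩ : {I : Ideal Dt | I.IsMaximal}))
    fun a b hab => MaximalSpectrum.ext (congrArg Subtype.val hab)

theorem dom (h1 : S_RegAt.{u}) (h2 : S_RegFlat.{u}) (h3 : S_RegDom.{u}) : S_Dom.{u} := by
  intro T T₂ D _ _ _ _ _ _ _ _ σ δ δ' d hsurj hδ hδ' hker hflat hreg
  let τ : T₂ →+* D := σ
  have hτ : ∀ t, τ (algebraMap T T₂ t) = algebraMap T D t := σ.commutes
  have hq : (RingHom.ker τ).IsPrime := RingHom.ker_isPrime τ
  have key : ∀ (n : Ideal D) [n.IsMaximal], RegAt T₂ (n.comap τ) d := by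
    intro n hn
    have e : (n.comap τ).comap (algebraMap T T₂) = n.comap (algebraMap T D) := by
      ext t
      simp only [Ideal.mem_comap, hτ]
    refine h2 T T₂ (n.comap τ) d (hflat _ fun h => ?_) (fun x hx => ⟨δ', fun h => ?_, ?_⟩)
      (e ▸ hreg n hn)
    · exact hn.ne_top (n.eq_top_of_isUnit_mem h hδ)
    · refine hn.ne_top ((Ideal.eq_top_iff_one n).2 ?_)
      rw [← hδ']
      exact h
    · obtain ⟨t, ht⟩ := hsurj (τ x)
      have h4 := hker (x - algebraMap T T₂ t) (by
        change τ _ = 0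
        rw [map_sub, hτ, ht, sub_self])
      have h5 : RingHom.ker (algebraMap T D) ≤ n.comap (algebraMap T D) := Ideal.ker_le_comap _
      have h6 : t ∈ n.comap (algebraMap T D) := by
        rw [Ideal.mem_comap, ht]
        exact hx
      rw [e]
      have : δ' * x = δ' * (x - algebraMap T T₂ t) + δ' * algebraMap T T₂ t := by ring
      rw [this]
      exact Ideal.add_mem _ (Ideal.map_mono h5 h4)
        (Ideal.mul_mem_left _ _ (Ideal.mem_map_of_mem _ h6))
  let s : Ideal T₂ := RingHom.ker (algebraMap T₂ (Localization.AtPrime (RingHom.ker τ)))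
  have hs : ∀ z, z ∈ s ↔ ∃ c, c ∉ RingHom.ker τ ∧ c * z = 0 := fun z => by
    rw [RingHom.mem_ker, IsLocalization.map_eq_zero_iff (RingHom.ker τ).primeCompl]
    exact ⟨fun ⟨c, hc⟩ => ⟨c, c.2, hc⟩, fun ⟨c, hc, h⟩ => ⟨⟨c, hc⟩, h⟩⟩
  have hsq : s ≤ RingHom.ker τ := fun z hz => by
    obtain ⟨c, hc, h⟩ := (hs z).1 hz
    exact (hq.mem_or_mem (h ▸ Ideal.zero_mem _)).resolve_left hc
  have hker2 : ∀ (n : Ideal D) [n.IsMaximal],
      RingHom.ker (algebraMap T₂ (Localization.AtPrime (n.comap τ))) = s := by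
    intro n hn
    have hr := ((h1 T₂ (Localization.AtPrime (n.comap τ)) (n.comap τ) d).1 (key n)).1
    have := h3 (Localization.AtPrime (n.comap τ))
    have hle : RingHom.ker τ ≤ n.comap τ := Ideal.ker_le_comap _
    ext z
    rw [hs, RingHom.mem_ker]
    constructor
    · intro h
      obtain ⟨c, hc⟩ := (IsLocalization.map_eq_zero_iff (n.comap τ).primeCompl _ _).1 h
      exact ⟨c, fun h' => c.2 (hle h'), hc⟩
    · rintro ⟨c, hc, h⟩
      have h4 := congrArg (algebraMap T₂ (Localization.AtPrime (n.comap τ))) h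
      rw [map_mul, map_zero] at h4
      refine (mul_eq_zero.1 h4).resolve_left fun h5 => ?_
      obtain ⟨c', hc'⟩ := (IsLocalization.map_eq_zero_iff (n.comap τ).primeCompl _ _).1 h5
      rcases hq.mem_or_mem (hc' ▸ Ideal.zero_mem _) with h6 | h6
      exacts [c'.2 (hle h6), hc h6]
  have hsp : s.IsPrime := by
    obtain ⟨n, hn⟩ := Ideal.exists_maximal D
    have hr := ((h1 T₂ (Localization.AtPrime (n.comap τ)) (n.comap τ) d).1 (key n)).1
    have := h3 (Localization.AtPrime (n.comap τ))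
    rw [← hker2 n]
    exact RingHom.ker_isPrime _
  refine ⟨s, hsp, hsq, fun n hn => ?_⟩
  change RegAt (T₂ ⧸ s) ((n.comap τ).map (Ideal.Quotient.mk s)) d
  have hsn : s ≤ n.comap τ := hsq.trans (Ideal.ker_le_comap _)
  have hp : ((n.comap τ).map (Ideal.Quotient.mk s)).IsPrime :=
    Ideal.map_isPrime_of_surjective Ideal.Quotient.mk_surjective (by rwa [Ideal.mk_ker])
  let O := Localization.AtPrime (n.comap τ)
  let ι : T₂ ⧸ s →+* O := Ideal.Quotient.lift s (algebraMap T₂ O) fun z hz => by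
    rwa [← hker2 n] at hz
  have hι : Injective ι := RingHom.lift_injective_of_ker_le_ideal s _ (hker2 n).le
  let : Algebra (T₂ ⧸ s) O := ι.toAlgebra
  have hloc : IsLocalization.AtPrime O ((n.comap τ).map (Ideal.Quotient.mk s)) := by
    refine (isLocalization_iff _ _).2 ⟨?_, fun z => ?_, fun {x y} h => ⟨1, by rw [hι h]⟩⟩
    · rintro ⟨y, hy⟩
      obtain ⟨y, rfl⟩ := Ideal.Quotient.mk_surjective y
      exact IsLocalization.map_units O
        (⟨y, fun h => hy (Ideal.mem_map_of_mem _ h)⟩ : (n.comap τ).primeCompl)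
    · obtain ⟨⟨a, b⟩, h⟩ := IsLocalization.surj (n.comap τ).primeCompl z
      refine ⟨⟨Ideal.Quotient.mk s a, Ideal.Quotient.mk s b, fun h' => b.2 ?_⟩, h⟩
      have h4 : (b : T₂) ∈ ((n.comap τ).map (Ideal.Quotient.mk s)).comap (Ideal.Quotient.mk s) :=
        h'
      rwa [Ideal.comap_map_quotientMk, sup_eq_right.2 hsn] at h4
  exact (h1 (T₂ ⧸ s) O _ d).2 ((h1 T₂ O (n.comap τ) d).1 (key n))

end Pool.Agent.P.MP_46a8f8_ag
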