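import Pool.Agent.P.MP_46a8f8_ag.Base

/-!
The universal factorisation ring and its etale locus.
-/

namespace Pool.Agent.P.MP_46a8f8_ag

open TensorProduct Polynomial IsLocalRing Function

universe u

namespace FacP

section gen

variable {T T₂ T' D : Type u} [CommRing T] [CommRing T₂] [Algebra T T₂] [CommRing T']
  [Algebra T₂ T'] [Algebra T T'] [IsScalarTower T T₂ T'] (Δ : T₂) [IsLocalization.Away Δ T']
  [CommRing D] [Algebra T D]

/-- the kernel of a section is generated by the kernel downstairs, up to its square -/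
theorem ker_le [Algebra.FormallyUnramified T T'] (σ : T₂ →ₐ[T] D)
    (hs : Surjective (algebraMap T D)) (hΔ : IsUnit (σ Δ)) :
    RingHom.ker (σ : T₂ →+* D) ≤ (RingHom.ker (algebraMap T D)).map (algebraMap T T₂) ⊔
      RingHom.ker (σ : T₂ →+* D) ^ 2 := by
  set J := RingHom.ker (σ : T₂ →+* D) with hJ
  set K := (RingHom.ker (algebraMap T D)).map (algebraMap T T₂) ⊔ J ^ 2 with hK
  let φ₁ : T₂ →ₐ[T] T₂ ⧸ K := Ideal.Quotient.mkₐ T K
  let ι : D →ₐ[T] T₂ ⧸ K := AlgHom.liftOfSurjective (Algebra.ofId T D) hs (Algebra.ofId T _) (by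
    intro t ht
    have h1 : algebraMap T T₂ t ∈ K :=
      Ideal.mem_sup_left (Ideal.mem_map_of_mem _ ht)
    exact Ideal.Quotient.eq_zero_iff_mem.2 h1)
  let φ₂ : T₂ →ₐ[T] T₂ ⧸ K := ι.comp σ
  let I : Ideal (T₂ ⧸ K) := J.map (Ideal.Quotient.mk K)
  have hI : IsNilpotent I := ⟨2, by
    rw [← Ideal.map_pow, Ideal.zero_eq_bot, Ideal.map_eq_bot_iff_le_ker, Ideal.mk_ker]
    exact le_sup_right⟩
  have h12 : ∀ x, φ₁ x - φ₂ x ∈ I := fun x => by
    obtain ⟨t, ht⟩ := hs (σ x)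
    have h1 : φ₂ x = φ₁ (algebraMap T T₂ t) := by
      change ι (σ x) = _
      rw [← ht, AlgHom.commutes, AlgHom.commutes]
    rw [h1, ← map_sub]
    refine Ideal.mem_map_of_mem _ ?_
    rw [hJ, RingHom.mem_ker, RingHom.coe_coe, map_sub, AlgHom.commutes, ht, sub_self]
  have u₂ : IsUnit (φ₂ Δ) := hΔ.map ι
  have u₁ : IsUnit (φ₁ Δ) := by
    have h1 : IsNilpotent (φ₁ Δ - φ₂ Δ) := by
      obtain ⟨k, hk⟩ := hI
      refine ⟨k, ?_⟩
      have := Ideal.pow_mem_pow (h12 Δ) k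
      rwa [hk, Ideal.zero_eq_bot, Ideal.mem_bot] at this
    simpa using h1.isUnit_add_right_of_commute u₂ (Commute.all _ _)
  let g₁ : T' →ₐ[T] T₂ ⧸ K := IsLocalization.Away.liftAlgHom Δ u₁
  let g₂ : T' →ₐ[T] T₂ ⧸ K := IsLocalization.Away.liftAlgHom Δ u₂
  have e₁ : ∀ x, g₁ (algebraMap T₂ T' x) = φ₁ x := fun x => IsLocalization.Away.lift_eq Δ u₁ x
  have e₂ : ∀ x, g₂ (algebraMap T₂ T' x) = φ₂ x := fun x => IsLocalization.Away.lift_eq Δ u₂ x
  have hg : g₁ = g₂ := by
    refine Algebra.FormallyUnramified.lift_unique I hI g₁ g₂ ?_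
    refine AlgHom.coe_ringHom_injective (IsLocalization.ringHom_ext (Submonoid.powers Δ) ?_)
    refine RingHom.ext fun x => ?_
    change Ideal.Quotient.mk I (g₁ (algebraMap T₂ T' x)) =
      Ideal.Quotient.mk I (g₂ (algebraMap T₂ T' x))
    rw [e₁, e₂, Ideal.Quotient.eq]
    exact h12 x
  intro z hz
  have h1 : φ₁ z = 0 := by
    rw [← e₁, hg, e₂]
    change ι (σ z) = 0
    have : σ z = 0 := hz
    rw [this, map_zero]
  exact Ideal.Quotient.eq_zero_iff_mem.1 h1

theorem exists_mul_mem [IsNoetherianRing T₂] [Algebra.FormallyUnramified T T'] (σ : T₂ →ₐ[T] D)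
    (hs : Surjective (algebraMap T D)) (hΔ : IsUnit (σ Δ)) :
    ∃ δ' : T₂, σ δ' = 1 ∧
      ∀ z, σ z = 0 → δ' * z ∈ (RingHom.ker (algebraMap T D)).map (algebraMap T T₂) := by
  have h := ker_le (T' := T') Δ σ hs hΔ
  rw [pow_two, ← smul_eq_mul] at h
  obtain ⟨r, hr1, hr2⟩ := Submodule.exists_sub_one_mem_and_smul_le_of_fg_of_le_sup
    (I := RingHom.ker (σ : T₂ →+* D)) (N' := RingHom.ker (σ : T₂ →+* D))
    (P := RingHom.ker (σ : T₂ →+* D)) (Ideal.fg_of_isNoetherianRing _) le_rfl h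
  refine ⟨r, ?_, fun z hz => hr2 (Submodule.smul_mem_pointwise_smul z r _ hz)⟩
  rw [RingHom.mem_ker, RingHom.coe_coe, map_sub, map_one] at hr1
  exact sub_eq_zero.1 hr1

include T' in
theorem flat_atPrime [Module.Flat T T'] (𝔫 : Ideal T₂) [𝔫.IsPrime] (h : Δ ∉ 𝔫) :
    Module.Flat T (Localization.AtPrime 𝔫) := by
  have hle : Submonoid.powers Δ ≤ 𝔫.primeCompl := (Submonoid.powers_le).2 h
  let _ := IsLocalization.localizationAlgebraOfSubmonoidLe T' (Localization.AtPrime 𝔫)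
    (Submonoid.powers Δ) 𝔫.primeCompl hle
  have : IsScalarTower T₂ T' (Localization.AtPrime 𝔫) :=
    IsLocalization.localization_isScalarTower_of_submonoid_le T' (Localization.AtPrime 𝔫)
      (Submonoid.powers Δ) 𝔫.primeCompl hle
  have := IsLocalization.isLocalization_of_submonoid_le T' (Localization.AtPrime 𝔫)
    (Submonoid.powers Δ) 𝔫.primeCompl hle
  have : IsScalarTower T T' (Localization.AtPrime 𝔫) := IsScalarTower.of_algebraMap_eq fun t => by
    rw [IsScalarTower.algebraMap_apply T T₂ T', ← IsScalarTower.algebraMap_apply T₂ T',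
      ← IsScalarTower.algebraMap_apply]
  have : Module.Flat T' (Localization.AtPrime 𝔫) :=
    IsLocalization.flat _ (𝔫.primeCompl.map (algebraMap T₂ T'))
  exact Module.Flat.trans T T' _

include T' in
theorem pow_smul_eq_zero [Module.Flat T T'] (Y : Type u) [AddCommGroup Y] [Module T Y] (c : T)
    (hc : IsSMulRegular Y c) (z : T₂ ⊗[T] Y) (hz : algebraMap T T₂ c • z = 0) :
    ∃ k : ℕ, Δ ^ k • z = 0 := by
  let F : T₂ ⊗[T] Y →ₗ[T₂] T' ⊗[T] Y :=
    AlgebraTensorModule.rTensor T Y (Algebra.linearMap T₂ T')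
  have h1 : c • F z = 0 := by
    rw [← algebraMap_smul T₂ c, ← map_smul, hz, map_zero]
  have h2 : F z = 0 := (hc.lTensor T').right_eq_zero_of_smul h1
  obtain ⟨⟨_, k, rfl⟩, hk⟩ := (IsLocalizedModule.eq_zero_iff (Submonoid.powers Δ) F).1 h2
  exact ⟨k, hk⟩

end gen

theorem bezout {S : Type u} [CommRing S] {m k : ℕ} (f : MonicDegreeEq S m) (g : MonicDegreeEq S k)
    (s : S) : ∃ v w : S[X], v * f.1 + w * g.1 = C (s * f.1.resultant g.1) := by
  by_cases h : f.1.natDegree = 0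
  · refine ⟨C (s * f.1.resultant g.1), 0, ?_⟩
    rw [f.monic.natDegree_eq_zero.1 h]
    simp
  · obtain ⟨p, q, -, -, e⟩ := exists_mul_add_mul_eq_C_resultant f.1 g.1 le_rfl le_rfl (Or.inl h)
    refine ⟨C s * p, C s * q, ?_⟩
    rw [map_mul, ← e]
    ring

end FacP

open FacP in
theorem fac : S_Fac.{u} := by
  intro T D _ _ _ _ _ H p q hs hH hp hq hc h
  have hn : H.natDegree = p.natDegree + q.natDegree := by
    rw [← hp.natDegree_mul hq, ← h, hH.natDegree_map]
  let P : MonicDegreeEq T H.natDegree := .mk H hH rfl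
  let F : MonicDegreeEq D p.natDegree := .mk p hp rfl
  let G : MonicDegreeEq D q.natDegree := .mk q hq rfl
  let T₂ := UniversalFactorizationRing p.natDegree q.natDegree hn P
  let T' := UniversalCoprimeFactorizationRing p.natDegree q.natDegree hn P
  let Δ : T₂ := (UniversalFactorizationRing.presentation p.natDegree q.natDegree hn P).jacobian
  let φ : T' →ₐ[T] D :=
    (UniversalCoprimeFactorizationRing.homEquiv D _ _ hn P).symm ⟨(F, G), h.symm, hc⟩
  let σ : T₂ →ₐ[T] D := φ.comp (IsScalarTower.toAlgHom T T₂ T')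
  have e : UniversalCoprimeFactorizationRing.homEquiv D _ _ hn P φ = ⟨(F, G), h.symm, hc⟩ :=
    Equiv.apply_symm_apply _ _
  have e1 : (UniversalFactorizationRing.factor₁ p.natDegree q.natDegree hn P).1.map
      (σ : T₂ →+* D) = p := congrArg (fun x => x.1.1.1) e
  have hΔ : IsUnit (σ Δ) := (IsLocalization.Away.algebraMap_isUnit (S := T') Δ).map φ
  have : IsNoetherianRing T₂ := Algebra.FiniteType.isNoetherianRing T T₂
  obtain ⟨v, w, hb⟩ := bezout (UniversalFactorizationRing.factor₁ p.natDegree q.natDegree hn P)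
    (UniversalFactorizationRing.factor₂ p.natDegree q.natDegree hn P) ((-1) ^ H.natDegree)
  rw [← UniversalFactorizationRing.jacobian_resentation] at hb
  obtain ⟨δ', h1, h2⟩ := exists_mul_mem (T' := T') Δ σ hs hΔ
  exact ⟨T₂, inferInstance, inferInstance, inferInstance, σ, _, _, v, w, Δ, δ',
    UniversalFactorizationRing.factor₁_mul_factor₂ _ _ hn P, hb, hΔ, e1, h1, h2,
    fun 𝔫 _ h𝔫 => flat_atPrime (T' := T') Δ 𝔫 h𝔫,
    fun Y _ _ c hc z hz => pow_smul_eq_zero (T' := T') Δ Y c hc z hz⟩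

end Pool.Agent.P.MP_46a8f8_ag
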