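import Pool.Agent.P.MP_46a8f8_ag.St
import Pool.Agent.P.MP_46a8f8_ag.Base

/-!
Reduced norms of invertible matrices are reduced norms of units.
-/

namespace Pool.Agent.P.MP_46a8f8_ag

open TensorProduct Function IsLocalRing

universe u

namespace N2P

variable {R A Ω : Type u} [CommRing R] [Ring A] [Algebra R A] [Field Ω] [Algebra R Ω]
  {n : ℕ} (Φ : A →ₐ[R] Matrix (Fin n) (Fin n) Ω)
  {F : Type u} [AddCommGroup F] [Module A F]

theorem bij_unip (N : F →ₗ[A] F) (hN : N ∘ₗ N = 0) : Bijective (LinearMap.id + N : F →ₗ[A] F) := by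
  have h : ∀ x, N (N x) = 0 := fun x => LinearMap.congr_fun hN x
  refine bijective_iff_has_inverse.2 ⟨(LinearMap.id - N : F →ₗ[A] F), fun x => ?_, fun x => ?_⟩ <;>
    simp [h]

theorem step [Module.Finite A F]
    (hB : ∀ (c : A) (L : Submodule A A), Submodule.span A {c} ⊔ L = ⊤ → ∃ l ∈ L, IsUnit (c + l))
    (φ : F × A →ₗ[A] F × A) (hφ : Bijective φ) :
    ∃ (φ' : F →ₗ[A] F) (c : Aˣ), Bijective φ' ∧ nu Φ φ = nu Φ φ' * (Φ c).det := by
  have key : ∀ (χ : F × A →ₗ[A] F × A) (x : F) (y : A), χ (x, y) = χ (x, 0) + y • χ (0, 1) :=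
    fun χ x y => by rw [← map_smul, ← map_add]; simp
  obtain ⟨_, ⟨v', rfl⟩, c', hc'⟩ := hB (φ (0, 1)).2
    (LinearMap.range (LinearMap.snd A F A ∘ₗ φ ∘ₗ LinearMap.inl A F A)) (by
      rw [eq_top_iff]
      rintro z -
      obtain ⟨⟨x, y⟩, h⟩ := hφ.2 (0, z)
      have h2 := congrArg Prod.snd h
      rw [key] at h2
      refine Submodule.mem_sup.2 ⟨y • (φ (0, 1)).2,
        Submodule.smul_mem _ _ (Submodule.mem_span_singleton_self _), (φ (x, 0)).2, ⟨x, rfl⟩, ?_⟩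
      rw [add_comm]
      exact h2)
  let N₁ : F × A →ₗ[A] F × A :=
    LinearMap.inl A F A ∘ₗ LinearMap.toSpanSingleton A F v' ∘ₗ LinearMap.snd A F A
  have hN₁ : N₁ ∘ₗ N₁ = 0 := LinearMap.ext fun x => by simp [N₁]
  let v := (φ (v', 1)).1
  have hv : φ (v', 1) = (v, (c' : A)) := by
    refine Prod.ext rfl ?_
    rw [hc', key, one_smul, add_comm]
    rfl
  let N₂ : F × A →ₗ[A] F × A :=
    LinearMap.inl A F A ∘ₗ LinearMap.toSpanSingleton A F (-((c'⁻¹ : Aˣ) : A) • v) ∘ₗ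
      LinearMap.snd A F A
  have hN₂ : N₂ ∘ₗ N₂ = 0 := LinearMap.ext fun x => by simp [N₂]
  let χ : F × A →ₗ[A] F × A := (LinearMap.id + N₂) ∘ₗ φ ∘ₗ (LinearMap.id + N₁)
  have hχ : χ (0, 1) = (0, (c' : A)) := by
    have : (LinearMap.id + N₁ : F × A →ₗ[A] F × A) (0, 1) = (v', 1) := by simp [N₁]
    simp only [χ, LinearMap.comp_apply]
    rw [this, hv]
    simp [N₂, smul_smul]
  let φ' : F →ₗ[A] F := LinearMap.fst A F A ∘ₗ χ ∘ₗ LinearMap.inl A F A
  let l : F →ₗ[A] A := LinearMap.snd A F A ∘ₗ χ ∘ₗ LinearMap.inl A F A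
  let N₃ : F × A →ₗ[A] F × A :=
    LinearMap.inr A F A ∘ₗ LinearMap.toSpanSingleton A A (-((c'⁻¹ : Aˣ) : A)) ∘ₗ l ∘ₗ
      LinearMap.fst A F A
  have hN₃ : N₃ ∘ₗ N₃ = 0 := LinearMap.ext fun x => by simp [N₃]
  have hfin : χ ∘ₗ (LinearMap.id + N₃) = φ'.prodMap (LinearMap.toSpanSingleton A A (c' : A)) := by
    refine LinearMap.ext fun ⟨x, y⟩ => ?_
    have : (LinearMap.id + N₃ : F × A →ₗ[A] F × A) (x, y) =
        (x, y - l x * ((c'⁻¹ : Aˣ) : A)) := by simp [N₃, sub_eq_add_neg]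
    rw [LinearMap.comp_apply, this, key, hχ]
    have h0 : χ (x, 0) = (φ' x, l x) := rfl
    rw [h0]
    simp [sub_mul]
  have hb : Bijective (φ'.prodMap (LinearMap.toSpanSingleton A A (c' : A))) := by
    rw [← hfin]
    exact ((bij_unip N₂ hN₂).comp (hφ.comp (bij_unip N₁ hN₁))).comp (bij_unip N₃ hN₃)
  refine ⟨φ', c', ⟨fun x x' h => ?_, fun x => ?_⟩, ?_⟩
  · have := hb.1 (a₁ := (x, 0)) (a₂ := (x', 0)) (by simp [h])
    exact congrArg Prod.fst this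
  · obtain ⟨z, hz⟩ := hb.2 (x, 0)
    exact ⟨z.1, congrArg Prod.fst hz⟩
  · have := congrArg (nu Φ) hfin
    rw [nu_prodMap, nu_toSpanSingleton, nu_comp, nu_comp, nu_comp, nu_unipotent Φ _ hN₁,
      nu_unipotent Φ _ hN₂, nu_unipotent Φ _ hN₃] at this
    simpa using this

theorem pi_case
    (hB : ∀ (c : A) (L : Submodule A A), Submodule.span A {c} ⊔ L = ⊤ → ∃ l ∈ L, IsUnit (c + l))
    (N : ℕ) : ∀ φ : (Fin N → A) →ₗ[A] (Fin N → A), Bijective φ → ∃ y : Aˣ, nu Φ φ = (Φ y).det := by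
  induction N with
  | zero =>
    intro φ _
    have : φ = LinearMap.id := Subsingleton.elim _ _
    exact ⟨1, by rw [this, nu_id]; simp⟩
  | succ N ih =>
    intro φ hφ
    let e : (Fin (N + 1) → A) ≃ₗ[A] (Fin N → A) × A :=
      (Fin.consLinearEquiv A fun _ : Fin (N + 1) => A).symm.trans (LinearEquiv.prodComm A _ _)
    obtain ⟨φ', c, h1, h2⟩ := step Φ hB (e.toLinearMap ∘ₗ φ ∘ₗ e.symm.toLinearMap)
      (e.bijective.comp (hφ.comp e.symm.bijective))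
    obtain ⟨y, hy⟩ := ih φ' h1
    refine ⟨y * c, ?_⟩
    rw [← nu_conj Φ φ e, h2, hy, Units.val_mul, map_mul, Matrix.det_mul]

end N2P

theorem n2 (h : S_Bass.{u}) : S_N2.{u} := by
  intro R A Ω _ _ _ _ _ _ _ n Φ hS F _ _ _ _ φ hφ
  have := hS.finite
  rcases subsingleton_or_nontrivial A with hA | hA
  · have : Subsingleton F := Module.subsingleton A F
    have : φ = LinearMap.id := Subsingleton.elim _ _
    exact ⟨1, by rw [this, nu_id]; simp⟩
  classical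
  let b := Module.Free.chooseBasis A F
  let e : F ≃ₗ[A] (Fin (Fintype.card (Module.Free.ChooseBasisIndex A F)) → A) :=
    (b.reindex (Fintype.equivFin _)).equivFun
  obtain ⟨y, hy⟩ := N2P.pi_case Φ (h R A hS.az) _ (e.toLinearMap ∘ₗ φ ∘ₗ e.symm.toLinearMap)
    (e.bijective.comp (hφ.comp e.symm.bijective))
  exact ⟨y, by rw [← nu_conj Φ φ e, hy]⟩

end Pool.Agent.P.MP_46a8f8_ag
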