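import Pool.Agent.P.MP_46a8f8_ag.Base

/-!
The elementary regularity predicate.
-/

namespace Pool.Agent.P.MP_46a8f8_ag

open IsLocalRing Function

universe u

namespace Reg1P

variable {P : Type u} [CommRing P]

omit [CommRing P] in
theorem ncard_range_le {d : ℕ} (a : Fin d → P) : (Set.range a).ncard ≤ d := by
  rw [← Set.image_univ]
  exact (Set.ncard_image_le Set.finite_univ).trans (by simp [Set.ncard_univ])

theorem ht_le [IsNoetherianRing P] (𝔫 : Ideal P) [h𝔫 : 𝔫.IsPrime] {d : ℕ} (a : Fin d → P)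
    (ha : ∀ i, a i ∈ 𝔫) (h : ∀ x ∈ 𝔫, ∃ s, s ∉ 𝔫 ∧ s * x ∈ Ideal.span (Set.range a)) :
    𝔫.height ≤ d := by
  have hm : 𝔫 ∈ (Ideal.span (Set.range a)).minimalPrimes := by
    refine ⟨⟨h𝔫, Ideal.span_le.2 (Set.range_subset_iff.2 ha)⟩, fun q hq hle x hx => ?_⟩
    obtain ⟨s, hs, hsx⟩ := h x hx
    exact (hq.1.mem_or_mem (hq.2 hsx)).resolve_left fun h' => hs (hle h')
  refine (Ideal.height_le_card_of_mem_minimalPrimes_span (Set.finite_range a) hm).trans ?_
  exact_mod_cast ncard_range_le a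

/-- the elements which are multiplied into `I` by an element outside the prime `𝔫` -/
def sat (𝔫 : Ideal P) [h𝔫 : 𝔫.IsPrime] (I : Ideal P) : Ideal P where
  carrier := {x | ∃ s, s ∉ 𝔫 ∧ s * x ∈ I}
  add_mem' := by
    rintro x y ⟨s, hs, h1⟩ ⟨t, ht, h2⟩
    refine ⟨s * t, fun h => (h𝔫.mem_or_mem h).elim hs ht, ?_⟩
    have : s * t * (x + y) = t * (s * x) + s * (t * y) := by ring
    rw [this]
    exact I.add_mem (I.mul_mem_left _ h1) (I.mul_mem_left _ h2)
  zero_mem' := ⟨1, fun h => h𝔫.ne_top ((Ideal.eq_top_iff_one _).2 h), by simp⟩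
  smul_mem' := by
    rintro c x ⟨s, hs, h1⟩
    refine ⟨s, hs, ?_⟩
    rw [smul_eq_mul, mul_left_comm]
    exact I.mul_mem_left _ h1

theorem mem_sat {𝔫 : Ideal P} [𝔫.IsPrime] {I : Ideal P} {x : P} :
    x ∈ sat 𝔫 I ↔ ∃ s, s ∉ 𝔫 ∧ s * x ∈ I := Iff.rfl

theorem le_sat (𝔫 : Ideal P) [h𝔫 : 𝔫.IsPrime] (I : Ideal P) : I ≤ sat 𝔫 I := fun x hx =>
  ⟨1, fun h => h𝔫.ne_top ((Ideal.eq_top_iff_one _).2 h), by rwa [one_mul]⟩

theorem sat_of_mul {𝔫 : Ideal P} [h𝔫 : 𝔫.IsPrime] {I : Ideal P} {s x : P} (hs : s ∉ 𝔫)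
    (h : s * x ∈ sat 𝔫 I) : x ∈ sat 𝔫 I := by
  obtain ⟨t, ht, h1⟩ := h
  exact ⟨t * s, fun h => (h𝔫.mem_or_mem h).elim ht hs, by rwa [mul_assoc]⟩

end Reg1P

open Reg1P

theorem regAt : S_RegAt.{u} := by
  intro P O _ _ 𝔫 h𝔫 _ _ _ d
  have hl := IsLocalization.AtPrime.isLocalRing O 𝔫
  have hN : IsNoetherianRing O := IsLocalization.isNoetherianRing 𝔫.primeCompl O inferInstance
  have hd := IsLocalization.AtPrime.ringKrullDim_eq_height 𝔫 O
  have hm : 𝔫.map (algebraMap P O) = maximalIdeal O :=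
    IsLocalization.AtPrime.map_eq_maximalIdeal 𝔫 O
  constructor
  · rintro ⟨h1, a, ha, h2⟩
    have h3 : ringKrullDim O = d := by rw [hd, h1]; rfl
    refine ⟨IsRegularLocalRing.of_spanFinrank_maximalIdeal_le O ?_, h3⟩
    have h4 : maximalIdeal O = Ideal.span (Set.range fun i => algebraMap P O (a i)) := by
      have e : Ideal.span (Set.range fun i => algebraMap P O (a i)) =
          (Ideal.span (Set.range a)).map (algebraMap P O) := by
        rw [Ideal.map_span, ← Set.range_comp]; rfl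
      rw [← hm, e]
      refine le_antisymm (Ideal.map_le_iff_le_comap.2 fun x hx => ?_)
        (Ideal.map_mono (Ideal.span_le.2 (Set.range_subset_iff.2 ha)))
      obtain ⟨s, hs, hsx⟩ := h2 x hx
      exact (IsLocalization.algebraMap_mem_map_algebraMap_iff 𝔫.primeCompl O _ x).2 ⟨s, hs, hsx⟩
    rw [h3, h4]
    exact_mod_cast (Submodule.spanFinrank_span_le_ncard_of_finite (Set.finite_range _)).trans
      (ncard_range_le _)
  · rintro ⟨h1, h3⟩
    have h4 : 𝔫.height = d := by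
      rw [hd] at h3
      exact_mod_cast h3
    have h5 : (maximalIdeal O).spanFinrank = d := by
      have := h1.spanFinrank_maximalIdeal
      rw [h3] at this
      exact_mod_cast this
    have hfg : (maximalIdeal O).FG := (maximalIdeal O).fg_of_isNoetherianRing
    have h6 := Submodule.FG.generators_ncard hfg
    have hfin := Submodule.FG.finite_generators hfg
    rw [h5] at h6
    have := hfin.fintype
    let e : Fin d ≃ (Submodule.generators (maximalIdeal O)) :=
      (Fintype.equivFinOfCardEq (by rw [← h6, Set.ncard_eq_toFinset_card', Set.toFinset_card])).symm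
    have h7 : ∀ i, ∃ a ∈ 𝔫, (e i : O) ∈ Ideal.span {algebraMap P O a} := fun i => by
      have h8 : (e i : O) ∈ maximalIdeal O :=
        (Submodule.span_generators (maximalIdeal O)).le (Submodule.subset_span (e i).2)
      obtain ⟨⟨x, y⟩, hxy⟩ := IsLocalization.mk'_surjective 𝔫.primeCompl (e i : O)
      refine ⟨x, ?_, ?_⟩
      · rw [← hxy] at h8
        exact (IsLocalization.AtPrime.mk'_mem_maximal_iff O 𝔫 x y).1 h8
      · rw [← hxy]
        exact IsLocalization.mk'_mem_iff.2 (Ideal.mem_span_singleton_self _)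
    choose a ha ha' using h7
    refine ⟨h4, a, ha, fun x hx => ?_⟩
    refine (IsLocalization.algebraMap_mem_map_algebraMap_iff 𝔫.primeCompl O _ x).1 ?_
    have h9 : maximalIdeal O ≤ (Ideal.span (Set.range a)).map (algebraMap P O) := by
      conv_lhs => rw [← Submodule.span_generators (maximalIdeal O)]
      refine Submodule.span_le.2 fun z hz => ?_
      have := ha' (e.symm ⟨z, hz⟩)
      rw [e.apply_symm_apply] at this
      refine (Ideal.span_singleton_le_iff_mem _).2 ?_ this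
      exact Ideal.mem_map_of_mem _ (Ideal.subset_span ⟨_, rfl⟩)
    exact h9 (hm ▸ Ideal.mem_map_of_mem _ hx)

theorem cut : S_Cut.{u} := by
  intro P _ _ 𝔫 h𝔫 d f ⟨h1, a, ha, h2⟩ hf h3
  have hk : RingHom.ker (Ideal.Quotient.mk (Ideal.span {f})) ≤ 𝔫 := by
    rw [Ideal.mk_ker]; exact (Ideal.span_singleton_le_iff_mem _).2 hf
  have hp : (𝔫.map (Ideal.Quotient.mk (Ideal.span {f}))).IsPrime :=
    Ideal.map_isPrime_of_surjective Ideal.Quotient.mk_surjective hk
  have hmem : ∀ x, Ideal.Quotient.mk (Ideal.span {f}) x ∈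
      𝔫.map (Ideal.Quotient.mk (Ideal.span {f})) ↔ x ∈ 𝔫 := fun x =>
    Ideal.mem_quotient_iff_mem ((Ideal.span_singleton_le_iff_mem _).2 hf)
  obtain ⟨s, hs, hsf⟩ := h2 f hf
  obtain ⟨c, hc⟩ := (Ideal.mem_span_range_iff_exists_fun).1 hsf
  obtain ⟨i, hi⟩ : ∃ i, c i ∉ 𝔫 := by
    by_contra hcon
    push Not at hcon
    refine h3 s hs ?_
    rw [← hc, pow_two]
    exact Ideal.sum_mem _ fun i _ => Ideal.mul_mem_mul (hcon i) (ha i)
  let a' : Fin d → P ⧸ Ideal.span {f} := fun j => Ideal.Quotient.mk _ (a (i.succAbove j))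
  have ha' : ∀ j, a' j ∈ 𝔫.map (Ideal.Quotient.mk (Ideal.span {f})) := fun j => (hmem _).2 (ha _)
  have h4 : ∀ j, Ideal.Quotient.mk (Ideal.span {f}) (a j) ∈
      sat (𝔫.map (Ideal.Quotient.mk (Ideal.span {f}))) (Ideal.span (Set.range a')) := by
    refine Fin.succAboveCases i ?_ fun j => le_sat _ _ (Ideal.subset_span ⟨j, rfl⟩)
    refine ⟨Ideal.Quotient.mk _ (c i), fun h => hi ((hmem _).1 h), ?_⟩
    have e := congrArg (Ideal.Quotient.mk (Ideal.span {f})) hc
    rw [Fin.sum_univ_succAbove _ i, map_add, map_mul, map_mul, map_sum,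
      Ideal.Quotient.eq_zero_iff_mem.2 (Ideal.mem_span_singleton_self f), mul_zero] at e
    rw [eq_neg_of_add_eq_zero_left e]
    refine neg_mem (Ideal.sum_mem _ fun j _ => ?_)
    rw [map_mul]
    exact Ideal.mul_mem_left _ _ (Ideal.subset_span ⟨j, rfl⟩)
  have h5 : ∀ x ∈ 𝔫.map (Ideal.Quotient.mk (Ideal.span {f})),
      ∃ s, s ∉ 𝔫.map (Ideal.Quotient.mk (Ideal.span {f})) ∧ s * x ∈ Ideal.span (Set.range a') := by
    intro x hx
    obtain ⟨x, rfl⟩ := Ideal.Quotient.mk_surjective x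
    obtain ⟨t, ht, htx⟩ := h2 x ((hmem x).1 hx)
    refine mem_sat.1 (sat_of_mul (s := Ideal.Quotient.mk _ t) (fun h => ht ((hmem _).1 h)) ?_)
    rw [← map_mul]
    have : Ideal.span (Set.range a) ≤ (sat (𝔫.map (Ideal.Quotient.mk (Ideal.span {f})))
        (Ideal.span (Set.range a'))).comap (Ideal.Quotient.mk (Ideal.span {f})) :=
      Ideal.span_le.2 (Set.range_subset_iff.2 h4)
    exact this htx
  refine ⟨le_antisymm (ht_le _ a' ha' h5) ?_, a', ha', h5⟩
  have h6 := Ideal.height_le_height_add_one_of_mem hf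
  rw [h1, Nat.cast_add, Nat.cast_one] at h6
  exact (ENat.add_le_add_iff_right ENat.one_ne_top).1 h6

theorem regFlat : S_RegFlat.{u} := by
  intro P P' _ _ _ _ _ 𝔫' h𝔫 d hF h1 ⟨h2, a, ha, h3⟩
  let a' : Fin d → P' := fun i => algebraMap P P' (a i)
  have ha' : ∀ i, a' i ∈ 𝔫' := ha
  have h4 : ∀ x ∈ 𝔫', ∃ s, s ∉ 𝔫' ∧ s * x ∈ Ideal.span (Set.range a') := by
    intro x hx
    obtain ⟨s, hs, hsx⟩ := h1 x hx
    refine mem_sat.1 (sat_of_mul hs ?_)
    refine (Ideal.map_le_iff_le_comap.2 fun y hy => ?_ :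
      (𝔫'.comap (algebraMap P P')).map (algebraMap P P') ≤ sat 𝔫' (Ideal.span (Set.range a'))) hsx
    obtain ⟨t, ht, hty⟩ := h3 y hy
    refine ⟨algebraMap P P' t, ht, ?_⟩
    rw [← map_mul]
    have : Ideal.span (Set.range a) ≤ (Ideal.span (Set.range a')).comap (algebraMap P P') :=
      Ideal.span_le.2 (Set.range_subset_iff.2 fun i => Ideal.subset_span ⟨i, rfl⟩)
    exact this hty
  refine ⟨le_antisymm (ht_le _ a' ha' h4) ?_, a', ha', h4⟩
  have hN : IsNoetherianRing (Localization.AtPrime 𝔫') :=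
    IsLocalization.isNoetherianRing 𝔫'.primeCompl _ inferInstance
  have hu : (maximalIdeal (Localization.AtPrime 𝔫')).under P' = 𝔫' :=
    IsLocalization.AtPrime.under_maximalIdeal (Localization.AtPrime 𝔫') 𝔫'
  have hlo : (maximalIdeal (Localization.AtPrime 𝔫')).LiesOver (𝔫'.comap (algebraMap P P')) := by
    refine ⟨?_⟩
    rw [← Ideal.under_under (B := P'), hu]
  have h5 := Ideal.height_eq_height_add_of_liesOver_of_hasGoingDown
    (𝔫'.comap (algebraMap P P')) (maximalIdeal (Localization.AtPrime 𝔫'))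
  rw [← IsLocalization.height_under 𝔫'.primeCompl (maximalIdeal (Localization.AtPrime 𝔫')), hu,
    h2] at h5
  rw [h5]
  exact le_self_add

end Pool.Agent.P.MP_46a8f8_ag
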