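import Pool.Agent.P.MP_46a8f8_ag.Base

/-!
Semisimplicity modulo the maximal ideal, lifting of isomorphisms, stable range one.
-/

namespace Pool.Agent.P.MP_46a8f8_ag

open IsLocalRing Function

universe u

namespace SSP

/-- killed by the maximal ideal -/
def Km (R V : Type u) [CommRing R] [IsLocalRing R] [AddCommGroup V] [Module R V] : Prop :=
  ∀ r ∈ maximalIdeal R, ∀ v : V, r • v = 0

section base

variable {R V W : Type u} [CommRing R] [IsLocalRing R] [AddCommGroup V] [Module R V]
  [AddCommGroup W] [Module R W]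

theorem Km.semisimple (h : Km R V) : IsSemisimpleModule R V := by
  have hT : Module.IsTorsionBySet R V (maximalIdeal R : Set R) := fun v r => h r.1 r.2 v
  let _ := hT.module
  let _ : Field (R ⧸ maximalIdeal R) := Ideal.Quotient.field _
  exact hT.isSemisimpleModule_iff.1 inferInstance

theorem Km.length_ne_top [Module.Finite R V] (h : Km R V) : Module.length R V ≠ ⊤ := by
  have := h.semisimple
  exact Module.length_ne_top

theorem Km.exists_ne_zero (hV : Km R V) (hW : Km R W) (v : V) (hv : v ≠ 0) (w : W) (hw : w ≠ 0) :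
    ∃ f : V →ₗ[R] W, f ≠ 0 := by
  have := hV.semisimple
  let i : (R ⧸ maximalIdeal R) →ₗ[R] V :=
    (maximalIdeal R).liftQ (LinearMap.toSpanSingleton R V v) fun r hr => hV r hr v
  let j : (R ⧸ maximalIdeal R) →ₗ[R] W :=
    (maximalIdeal R).liftQ (LinearMap.toSpanSingleton R W w) fun r hr => hW r hr w
  have hi : Injective i := by
    rw [← LinearMap.ker_eq_bot]
    refine Submodule.ker_liftQ_eq_bot _ _ _ fun r hr => ?_
    by_contra hm
    have hu : IsUnit r := by simpa using hm
    have h0 : r • v = 0 := hr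
    exact hv (hu.smul_eq_zero.1 h0)
  obtain ⟨f, hf⟩ := IsSemisimpleModule.extension_property i hi j
  refine ⟨f, fun h0 => hw ?_⟩
  have := LinearMap.congr_fun hf (Submodule.Quotient.mk 1)
  have h2 : j (Submodule.Quotient.mk 1) = w := one_smul R w
  rw [← h2, ← this, h0]
  rfl

omit [IsLocalRing R] in
theorem inj_of_surj (f : V →ₗ[R] W) (hf : Surjective f) (hW : Module.length R W ≠ ⊤)
    (h : Module.length R V ≤ Module.length R W) : Injective f := by
  have e := Module.length_eq_add_of_exact (LinearMap.ker f).subtype f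
    (Submodule.subtype_injective _) hf (LinearMap.exact_subtype_ker_map f)
  rw [e] at h
  have h0 : Module.length R (LinearMap.ker f) = 0 := by
    have : Module.length R (LinearMap.ker f) + Module.length R W ≤ 0 + Module.length R W := by
      rwa [zero_add]
    exact nonpos_iff_eq_zero.1 ((ENat.add_le_add_iff_right hW).1 this)
  rw [← LinearMap.ker_eq_bot, ← Submodule.subsingleton_iff_eq_bot]
  exact Module.length_eq_zero_iff.1 h0

omit [IsLocalRing R] in
theorem surj_of_inj (f : V →ₗ[R] W) (hf : Injective f) (hV : Module.length R V ≠ ⊤)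
    (h : Module.length R W ≤ Module.length R V) : Surjective f := by
  have e := Module.length_eq_add_of_exact f (LinearMap.range f).mkQ hf
    (Submodule.mkQ_surjective _) (LinearMap.exact_map_mkQ_range f)
  rw [e] at h
  have h0 : Module.length R (W ⧸ LinearMap.range f) = 0 := by
    have : Module.length R V + Module.length R (W ⧸ LinearMap.range f) ≤
        Module.length R V + 0 := by rwa [add_zero]
    exact nonpos_iff_eq_zero.1 ((ENat.add_le_add_iff_left hV).1 this)
  rw [← LinearMap.range_eq_top, ← Submodule.Quotient.subsingleton_iff]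
  exact Module.length_eq_zero_iff.1 h0

end base

section az

variable {R A V W : Type u} [CommRing R] [IsLocalRing R] [Ring A] [Algebra R A]
  [AddCommGroup V] [Module A V] [Module R V] [IsScalarTower R A V]
  [AddCommGroup W] [Module A W] [Module R W] [IsScalarTower R A W]

theorem Km.sub (h : Km R V) (N : Submodule A V) : Km R N :=
  fun r hr v => Subtype.ext (h r hr v.1)

theorem split (hA : Az R A) (h : Km R V) (N : Submodule A V) :
    ∃ p : V →ₗ[A] N, ∀ v : N, p v = v := by
  have := h.semisimple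
  obtain ⟨g, hg⟩ := IsSemisimpleModule.extension_property (N.subtype.restrictScalars R)
    N.injective_subtype (LinearMap.id : N →ₗ[R] N)
  exact hA.extend N.subtype LinearMap.id g fun v => LinearMap.congr_fun hg v

theorem complemented (hA : Az R A) (h : Km R V) : ComplementedLattice (Submodule A V) :=
  ⟨fun N => by
    obtain ⟨p, hp⟩ := split hA h N
    exact ⟨_, LinearMap.isCompl_of_proj hp⟩⟩

/-- a map can be corrected inside a supplement of its range to become injective -/
theorem gen [Module.Finite R V] [Module.Finite R W] (hA : Az R A) (hV : Km R V) (hW : Km R W)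
    (hl : Module.length R V ≤ Module.length R W) (f₀ : V →ₗ[A] W) (L : Submodule A W)
    (hL : LinearMap.range f₀ ⊔ L = ⊤) :
    ∃ h : V →ₗ[A] W, LinearMap.range h ≤ L ∧ Injective (f₀ + h) := by
  have := hV.semisimple
  have hart : IsArtinian A V := isArtinian_of_tower R inferInstance
  let S : Set (Submodule A V) :=
    {K | ∃ h : V →ₗ[A] W, LinearMap.range h ≤ L ∧ LinearMap.ker (f₀ + h) = K}
  obtain ⟨K, ⟨h, hh, rfl⟩, hmin⟩ := (wellFounded_lt (α := Submodule A V)).has_min S
    ⟨_, 0, by simp, rfl⟩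
  refine ⟨h, hh, ?_⟩
  by_contra hinj
  set f := f₀ + h with hf
  have hsup : LinearMap.range f ⊔ L = ⊤ := by
    rw [eq_top_iff, ← hL]
    refine sup_le ?_ le_sup_right
    rintro _ ⟨v, rfl⟩
    have : f₀ v = f v - h v := by simp [hf]
    rw [this]
    exact Submodule.sub_mem _ (Submodule.mem_sup_left ⟨v, rfl⟩)
      (Submodule.mem_sup_right (hh ⟨v, rfl⟩))
  have := complemented hA hW
  obtain ⟨D, hD1, hD2⟩ := IsModularLattice.exists_disjoint_and_sup_eq
    (inf_le_right : LinearMap.range f ⊓ L ≤ L)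
  have hDL : D ≤ L := hD2 ▸ le_sup_right
  have hD0 : D ≠ ⊥ := by
    rintro rfl
    rw [sup_bot_eq, inf_eq_right] at hD2
    rw [sup_eq_left.2 hD2, LinearMap.range_eq_top] at hsup
    exact hinj (inj_of_surj (f.restrictScalars R) hsup hW.length_ne_top hl)
  have hK0 : LinearMap.ker f ≠ ⊥ := fun e => hinj (LinearMap.ker_eq_bot.1 e)
  obtain ⟨v, hv, hv0⟩ := Submodule.exists_mem_ne_zero_of_ne_bot hK0
  obtain ⟨w, hw, hw0⟩ := Submodule.exists_mem_ne_zero_of_ne_bot hD0
  obtain ⟨g₀, hg₀⟩ := (hV.sub (LinearMap.ker f)).exists_ne_zero (hW.sub D) ⟨v, hv⟩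
    (fun e => hv0 (congrArg Subtype.val e)) ⟨w, hw⟩ (fun e => hw0 (congrArg Subtype.val e))
  obtain ⟨g, hg⟩ := hA.exists_ne_zero g₀ hg₀
  obtain ⟨p, hp⟩ := split hA hV (LinearMap.ker f)
  let h' : V →ₗ[A] W := D.subtype ∘ₗ g ∘ₗ p
  refine hmin (LinearMap.ker (f₀ + (h + h'))) ⟨h + h', ?_, rfl⟩ ?_
  · rintro _ ⟨x, rfl⟩
    exact L.add_mem (hh ⟨x, rfl⟩) (hDL (g (p x)).2)
  · rw [← add_assoc, ← hf]
    refine lt_of_le_of_ne (fun x hx => ?_) fun e => hg (LinearMap.ext fun s => ?_)
    · have h1 : f x = -((g (p x) : D) : W) := eq_neg_of_add_eq_zero_left hx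
      have h2 : f x ∈ D := h1 ▸ D.neg_mem (g (p x)).2
      exact Submodule.disjoint_def.1 hD1 _ ⟨⟨x, rfl⟩, hDL h2⟩ h2
    · have h1 : (s : V) ∈ LinearMap.ker (f + h') := e.ge s.2
      have h2 : f s + ((g (p s) : D) : W) = 0 := h1
      rw [show f s = 0 from s.2, zero_add, hp] at h2
      exact Subtype.ext h2

variable (R A V) in
/-- the submodule `m V` -/
def mS : Submodule A V where
  carrier := (maximalIdeal R • ⊤ : Submodule R V)
  add_mem' := Submodule.add_mem _
  zero_mem' := Submodule.zero_mem _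
  smul_mem' a x hx := by
    refine Submodule.smul_induction_on (p := fun x => a • x ∈ (maximalIdeal R • ⊤ : Submodule R V))
      hx (fun r hr v _ => ?_) fun x y hx hy => ?_
    · rw [smul_comm]
      exact Submodule.smul_mem_smul hr Submodule.mem_top
    · rw [smul_add]
      exact Submodule.add_mem _ hx hy

theorem mS_restrict : (mS R A V).restrictScalars R = maximalIdeal R • ⊤ := rfl

theorem mem_mS {x : V} : x ∈ mS R A V ↔ x ∈ (maximalIdeal R • ⊤ : Submodule R V) := Iff.rfl

theorem km_quot : Km R (V ⧸ mS R A V) := fun r hr v => by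
  obtain ⟨v, rfl⟩ := Submodule.Quotient.mk_surjective _ v
  rw [← Submodule.Quotient.mk_smul, Submodule.Quotient.mk_eq_zero, mem_mS]
  exact Submodule.smul_mem_smul hr Submodule.mem_top

theorem finite_quot [Module.Finite R V] : Module.Finite R (V ⧸ mS R A V) :=
  Module.Finite.of_surjective ((mS R A V).mkQ.restrictScalars R) (mS R A V).mkQ_surjective

theorem length_quot (e : V ≃ₗ[R] W) :
    Module.length R (V ⧸ mS R A V) = Module.length R (W ⧸ mS R A W) := by
  rw [← (Submodule.Quotient.restrictScalarsEquiv R (mS R A V)).length_eq,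
    ← (Submodule.Quotient.restrictScalarsEquiv R (mS R A W)).length_eq]
  refine (Submodule.Quotient.equiv _ _ e ?_).length_eq
  rw [mS_restrict, mS_restrict, Submodule.map_smul'', Submodule.map_top,
    LinearMap.range_eq_top.2 e.surjective]

/-- Nakayama -/
theorem surj_of_mod [Module.Finite R W] (f : V →ₗ[A] W)
    (hf : Surjective ((mS R A W).mkQ ∘ₗ f)) : Surjective f := by
  have h : (⊤ : Submodule R W) ≤ LinearMap.range (f.restrictScalars R) := by
    refine Submodule.le_of_le_smul_of_le_jacobson_bot Module.Finite.fg_top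
      (maximalIdeal_le_jacobson _) fun w _ => ?_
    obtain ⟨v, hv⟩ := hf ((mS R A W).mkQ w)
    have h1 : f v - w ∈ mS R A W := (Submodule.Quotient.eq _).1 hv
    have h2 : w = f v - (f v - w) := by abel
    rw [h2]
    exact Submodule.sub_mem _ (Submodule.mem_sup_left ⟨v, rfl⟩)
      (Submodule.mem_sup_right (mem_mS.1 h1))
  exact fun w => h Submodule.mem_top

end az

end SSP

open SSP

theorem ss : S_SS.{u} := by
  intro R A V W _ _ _ _ _ _ _ _ _ _ _ _ _ _ hA hV hW hl
  obtain ⟨h, -, hh⟩ := gen hA hV hW hl (0 : V →ₗ[A] W) ⊤ (sup_top_eq _)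
  exact ⟨_, hh⟩

theorem lemF (hSS : S_SS.{u}) : S_LemF.{u} := by
  rintro R A P Q _ _ _ _ _ _ _ _ _ _ _ _ _ J r hA ⟨eP⟩ ⟨eQ⟩
  have : Module.Finite R P := Module.Finite.equiv eP.symm
  have : Module.Finite R Q := Module.Finite.equiv eQ.symm
  have := finite_quot (R := R) (A := A) (V := P)
  have := finite_quot (R := R) (A := A) (V := Q)
  have hl := length_quot (A := A) (eP.trans eQ.symm)
  obtain ⟨f, hf⟩ := hSS R A (P ⧸ mS R A P) (Q ⧸ mS R A Q) hA km_quot km_quot hl.le
  have hfs : Surjective f :=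
    surj_of_inj (f.restrictScalars R) hf km_quot.length_ne_top hl.ge
  let g : P →ₗ[A] Q ⧸ mS R A Q := f ∘ₗ (mS R A P).mkQ
  have hg : Surjective g := hfs.comp (mS R A P).mkQ_surjective
  choose q hq using fun i : Fin r => (mS R A Q).mkQ_surjective (g (eP.symm (Pi.single i 1)))
  have hJ : ∀ j ∈ J, ∀ x : Q, j • x = 0 := fun j hj x => by
    apply eQ.injective
    rw [map_smul, map_zero]
    funext i
    rw [Pi.smul_apply, Pi.zero_apply, Algebra.smul_def, Ideal.Quotient.algebraMap_eq,
      Ideal.Quotient.eq_zero_iff_mem.2 hj, zero_mul]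
  let G : (Fin r → R ⧸ J) →ₗ[R] Q :=
    ∑ i, J.liftQ (LinearMap.toSpanSingleton R Q (q i)) (fun j hj => hJ j hj _) ∘ₗ
      LinearMap.proj i
  have hG : ∀ i, G (Pi.single i 1) = q i := fun i => by
    simp only [G, LinearMap.sum_apply, LinearMap.comp_apply, LinearMap.proj_apply]
    rw [Finset.sum_eq_single i (fun b _ hb => by rw [Pi.single_eq_of_ne hb, map_zero])
      (fun h => absurd (Finset.mem_univ i) h), Pi.single_eq_same]
    exact one_smul R (q i)
  have hGg : ((mS R A Q).mkQ.restrictScalars R) ∘ₗ G =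
      (g.restrictScalars R) ∘ₗ eP.symm.toLinearMap := by
    refine LinearMap.pi_ext fun i x => ?_
    obtain ⟨x, rfl⟩ := Ideal.Quotient.mk_surjective x
    have : (Pi.single i (Ideal.Quotient.mk J x) : Fin r → R ⧸ J) = x • Pi.single i 1 := by
      rw [← Pi.single_smul, Algebra.smul_def, mul_one, Ideal.Quotient.algebraMap_eq]
    rw [this, map_smul, map_smul, LinearMap.comp_apply, hG]
    exact congrArg (x • ·) (hq i)
  obtain ⟨F, hF⟩ := hA.lift (mS R A Q).mkQ g (G ∘ₗ eP.toLinearMap) fun v => by
    have := LinearMap.congr_fun hGg (eP v)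
    simpa using this
  have hFs : Surjective F := surj_of_mod (R := R) F (by
    rw [show (mS R A Q).mkQ ∘ₗ F = g from LinearMap.ext hF]
    exact hg)
  let e : Q ≃ₗ[R] P := eQ.trans eP.symm
  have hFi : Injective F := by
    have := IsNoetherian.injective_of_surjective_endomorphism
      (e.toLinearMap ∘ₗ F.restrictScalars R) (e.surjective.comp hFs)
    exact Injective.of_comp (f := e) this
  exact ⟨LinearEquiv.ofBijective F ⟨hFi, hFs⟩⟩

theorem bass (_hSS : S_SS.{u}) : S_Bass.{u} := by
  intro R A _ _ _ _ _ _ hA c L hL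
  have := finite_quot (R := R) (A := A) (V := A)
  have hc : ∀ c : A, mS R A A ≤ (mS R A A).comap (LinearMap.toSpanSingleton A A c) := by
    intro c x hx
    have := Submodule.mem_map_of_mem (f := LinearMap.mulRight R c) (mem_mS.1 hx)
    rw [Submodule.map_smul''] at this
    rw [Submodule.mem_comap, mem_mS]
    exact (Submodule.smul_mono le_rfl le_top : _ ≤ (maximalIdeal R • ⊤ : Submodule R A)) this
  let ρ : (A ⧸ mS R A A) →ₗ[A] A ⧸ mS R A A := (mS R A A).mapQ _ _ (hc c)
  have hρ : LinearMap.range ρ ⊔ L.map (mS R A A).mkQ = ⊤ := by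
    rw [eq_top_iff, ← Submodule.range_mkQ, ← Submodule.map_top, ← hL, Submodule.map_sup]
    refine sup_le_sup_right ?_ _
    rw [Submodule.map_span, Set.image_singleton, Submodule.span_singleton_le_iff_mem]
    exact ⟨Submodule.Quotient.mk 1, by simp [ρ]⟩
  obtain ⟨h, hh, hi⟩ := gen hA km_quot km_quot le_rfl ρ _ hρ
  have hs : Surjective (ρ + h) :=
    surj_of_inj ((ρ + h).restrictScalars R) hi km_quot.length_ne_top le_rfl
  obtain ⟨l, hl, hl2⟩ := hh ⟨Submodule.Quotient.mk 1, rfl⟩
  refine ⟨l, hl, ?_⟩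
  have h1 : Surjective (LinearMap.toSpanSingleton A A (c + l)) := by
    refine surj_of_mod (R := R) _ ?_
    have : (mS R A A).mkQ ∘ₗ LinearMap.toSpanSingleton A A (c + l) =
        (ρ + h) ∘ₗ (mS R A A).mkQ := by
      refine LinearMap.ext_ring ?_
      simp [ρ, ← hl2]
    rw [this]
    exact hs.comp (mS R A A).mkQ_surjective
  have h2 := IsNoetherian.injective_of_surjective_endomorphism
    ((LinearMap.toSpanSingleton A A (c + l)).restrictScalars R) h1
  obtain ⟨y, hy⟩ := h1 1
  have hy' : y * (c + l) = 1 := hy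
  have hy2 : (c + l) * y = 1 := h2 (by
    change ((c + l) * y) * (c + l) = 1 * (c + l)
    rw [mul_assoc, hy', mul_one, one_mul])
  exact ⟨⟨c + l, y, hy2, hy'⟩, rfl⟩

end Pool.Agent.P.MP_46a8f8_ag
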