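import Mathlib

/-!
Elements of reduced norm one of an Azumaya algebra, and torsors under them.
-/

namespace Pool.Agent.P.MP_46a8f8_ag

open TensorProduct

universe u

/-- The map `S ⊗ A → S' ⊗ A` induced by a map `f : S → S'` of commutative `R`-algebras. -/
noncomputable def baseMap {R : Type u} (A : Type u) [CommRing R] [Ring A] [Algebra R A]
    {S S' : Type u} [CommRing S] [Algebra R S] [CommRing S'] [Algebra R S'] (f : S →ₐ[R] S')
    (x : S ⊗[R] A) : S' ⊗[R] A :=
  Algebra.TensorProduct.map f (AlgHom.id R A) x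

/-- `x` has determinant one in every splitting `S ⊗ A ≃ Mₙ(S)`. -/
def DetOne {R : Type u} (A : Type u) [CommRing R] [Ring A] [Algebra R A] {S : Type u} [CommRing S]
    [Algebra R S] (x : S ⊗[R] A) : Prop :=
  ∀ (n : ℕ) (Φ : S ⊗[R] A ≃ₐ[S] Matrix (Fin n) (Fin n) S), (Φ x).det = 1

/-- The set `SL₁(A)(S)`: the units of `S ⊗ A` which have determinant one in every splitting
over every `S`-algebra. -/
def SLOne (R A : Type u) [CommRing R] [Ring A] [Algebra R A] (S : Type u) [CommRing S]
    [Algebra R S] : Type u :=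
  {g : S ⊗[R] A // IsUnit g ∧ ∀ (S' : Type u) [CommRing S'] [Algebra R S'] (f : S →ₐ[R] S'),
    DetOne A (baseMap A f g)}

/-- For each commutative `R`-algebra `S`, a map `SL₁(A)(S) × (Spec O)(S) → (Spec O)(S)`. -/
def Action (R A O : Type u) [CommRing R] [Ring A] [Algebra R A] [CommRing O] [Algebra R O] :
    Type (u + 1) :=
  ∀ (S : Type u) [CommRing S] [Algebra R S], SLOne R A S → (O →ₐ[R] S) → (O →ₐ[R] S)

variable {R A O : Type u} [CommRing R] [Ring A] [Algebra R A] [CommRing O] [Algebra R O]

/-- `1 • p = p` -/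
def Action.One (a : Action R A O) : Prop :=
  ∀ (S : Type u) [CommRing S] [Algebra R S] (g : SLOne R A S) (p : O →ₐ[R] S),
    g.1 = 1 → a S g p = p

/-- `(g h) • p = g • h • p` -/
def Action.Mul (a : Action R A O) : Prop :=
  ∀ (S : Type u) [CommRing S] [Algebra R S] (g h k : SLOne R A S) (p : O →ₐ[R] S),
    k.1 = g.1 * h.1 → a S k p = a S g (a S h p)

/-- the action is natural in `S` -/
def Action.Natural (a : Action R A O) : Prop :=
  ∀ (S S' : Type u) [CommRing S] [Algebra R S] [CommRing S'] [Algebra R S'] (f : S →ₐ[R] S')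
    (g : SLOne R A S) (g' : SLOne R A S') (p : O →ₐ[R] S),
    g'.1 = baseMap A f g.1 → f.comp (a S g p) = a S' g' (f.comp p)

/-- the action is simply transitive -/
def Action.SimplyTransitive (a : Action R A O) : Prop :=
  ∀ (S : Type u) [CommRing S] [Algebra R S] (p q : O →ₐ[R] S), ∃! g : SLOne R A S, a S g p = q

variable (R A O) in
/-- `Spec O` is an `SL₁(A)`-torsor over `R`: `O` is faithfully flat over `R`, and for every
commutative `R`-algebra `S` the group `SL₁(A)(S)` acts simply transitively on the set of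
`S`-points of `Spec O`, naturally in `S`. -/
def IsTorsor : Prop :=
  Module.FaithfullyFlat R O ∧
    ∃ a : Action R A O, a.One ∧ a.Mul ∧ a.Natural ∧ a.SimplyTransitive

end Pool.Agent.P.MP_46a8f8_ag
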