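import Pool.Agent.P.MP_46a8f8_ag.Fin0
import Pool.Agent.P.MP_46a8f8_ag.SS
import Pool.Agent.P.MP_46a8f8_ag.N2
import Pool.Agent.P.MP_46a8f8_ag.Reg1
import Pool.Agent.P.MP_46a8f8_ag.Tor2

/-!
All packages are proved.
-/

namespace Pool.Agent.P.MP_46a8f8_ag

open TensorProduct

universe u

theorem pk : Pk.{u} := pk_of (lemF ss) (n2 (bass ss)) regAt cut regFlat

variable {R A O : Type u} [CommRing R] [Ring A] [Algebra R A] [CommRing O] [Algebra R O]

/-- comparison of the two descriptions of the elements of reduced norm one -/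
noncomputable def toSLOne {S : Type u} [CommRing S] [Algebra R S] (g : SL1 R A S) :
    SLOne R A S :=
  ⟨(g.1 : S ⊗[R] A), g.1.isUnit, fun S' _ _ f n Φ => g.2 S' f n Φ⟩

theorem toSLOne_bijective (S : Type u) [CommRing S] [Algebra R S] :
    Function.Bijective (toSLOne : SL1 R A S → SLOne R A S) :=
  ⟨fun _ _ h => Subtype.ext (Units.ext (congrArg Subtype.val h)), fun g =>
    ⟨⟨g.2.1.unit, fun S' _ _ f n Φ => g.2.2 S' f n Φ⟩, rfl⟩⟩

theorem IsTorsor.nonempty (h : IsTorsor R A O) : Nonempty (Torsor R A O) := by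
  obtain ⟨ff, a, h1, h2, h3, h4⟩ := h
  exact ⟨{
    ff := ff
    act := fun S _ _ g => a S (toSLOne g)
    one_act := fun S _ _ p => h1 S _ p rfl
    mul_act := fun S _ _ g h p => h2 S _ _ _ p rfl
    natural := fun S S' _ _ _ _ f g g' p h => h3 S S' f _ _ p h.symm
    simply_transitive := fun S _ _ p q => by
      obtain ⟨g, hg, hu⟩ := h4 S p q
      obtain ⟨g, rfl⟩ := (toSLOne_bijective S).2 g
      exact ⟨g, hg, fun g' hg' => (toSLOne_bijective S).1 (hu _ hg')⟩ }⟩

end Pool.Agent.P.MP_46a8f8_ag
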