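import Pool.Agent.P.MP_46a8f8_ag.St2

/-!
Hilbert 90 for the unit group of an Azumaya algebra over a local ring.
-/

namespace Pool.Agent.P.MP_46a8f8_ag

open TensorProduct Function

universe u

namespace H90P

section ev

variable {R : Type u} (A : Type u) [CommRing R] [Ring A] [Algebra R A]
  {O T S S' : Type u} [CommRing O] [Algebra R O] [CommRing T] [Algebra R T]
  [CommRing S] [Algebra R S] [CommRing S'] [Algebra R S']

theorem mp_tmul (f : S →ₐ[R] S') (s : S) (a : A) : mp A f (s ⊗ₜ[R] a) = f s ⊗ₜ[R] a := rfl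

theorem mp_mp (f : S →ₐ[R] S') (g : T →ₐ[R] S) (x : T ⊗[R] A) :
    mp A f (mp A g x) = mp A (f.comp g) x := by
  induction x using TensorProduct.induction_on with
  | zero => simp
  | tmul t a => rfl
  | add x y hx hy => simp only [map_add, hx, hy]

theorem mp_id (x : S ⊗[R] A) : mp A (AlgHom.id R S) x = x := by
  induction x using TensorProduct.induction_on with
  | zero => simp
  | tmul t a => rfl
  | add x y hx hy => simp only [map_add, hx]; rw [hy]

theorem mp_smul (f : S →ₐ[R] S') (s : S) (x : S ⊗[R] A) :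
    mp A f (s • x) = f s • mp A f x := by
  induction x using TensorProduct.induction_on with
  | zero => simp
  | tmul t a => rw [smul_tmul', mp_tmul, mp_tmul, smul_tmul', smul_eq_mul, smul_eq_mul, map_mul]
  | add x y hx hy => simp only [smul_add, map_add, hx, hy]

/-- the map out of a tensor product given by two points -/
noncomputable def pr (p : O →ₐ[R] S) (t : T →ₐ[R] S) : O ⊗[R] T →ₐ[R] S :=
  Algebra.TensorProduct.lift p t fun _ _ => Commute.all _ _

theorem pr_tmul (p : O →ₐ[R] S) (t : T →ₐ[R] S) (o : O) (x : T) :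
    pr p t (o ⊗ₜ[R] x) = p o * t x := rfl

/-- the left inclusion -/
noncomputable def iL (R O T : Type u) [CommRing R] [CommRing O] [Algebra R O] [CommRing T]
    [Algebra R T] : O →ₐ[R] O ⊗[R] T := Algebra.TensorProduct.includeLeft

/-- the right inclusion -/
noncomputable def iR (R O T : Type u) [CommRing R] [CommRing O] [Algebra R O] [CommRing T]
    [Algebra R T] : T →ₐ[R] O ⊗[R] T := Algebra.TensorProduct.includeRight

theorem pr_iL (p : O →ₐ[R] S) (t : T →ₐ[R] S) : (pr p t).comp (iL R O T) = p := by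
  ext o
  change pr p t (o ⊗ₜ[R] 1) = p o
  rw [pr_tmul, map_one, mul_one]

theorem pr_iR (p : O →ₐ[R] S) (t : T →ₐ[R] S) : (pr p t).comp (iR R O T) = t := by
  ext o
  change pr p t (1 ⊗ₜ[R] o) = t o
  rw [pr_tmul, map_one, one_mul]

/-- evaluation at two points -/
noncomputable def ev (p : O →ₐ[R] S) (t : T →ₐ[R] S) :
    O ⊗[R] (T ⊗[R] A) →ₗ[R] S ⊗[R] A :=
  (mp A (pr p t)).toLinearMap ∘ₗ (TensorProduct.assoc R O T A).symm.toLinearMap

theorem ev_tmul (p : O →ₐ[R] S) (t : T →ₐ[R] S) (o : O) (y : T ⊗[R] A) :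
    ev A p t (o ⊗ₜ[R] y) = p o • mp A t y := by
  induction y using TensorProduct.induction_on with
  | zero => simp
  | tmul x a =>
    change mp A (pr p t) ((o ⊗ₜ[R] x) ⊗ₜ[R] a) = _
    rw [mp_tmul, mp_tmul, pr_tmul, smul_tmul', smul_eq_mul]
  | add x y hx hy => simp only [tmul_add, map_add, hx, hy, smul_add]

theorem mp_ev (f : S →ₐ[R] S') (p : O →ₐ[R] S) (t : T →ₐ[R] S) (y : O ⊗[R] (T ⊗[R] A)) :
    mp A f (ev A p t y) = ev A (f.comp p) (f.comp t) y := by
  induction y using TensorProduct.induction_on with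
  | zero => simp
  | tmul o y => rw [ev_tmul, ev_tmul, mp_smul, mp_mp]; rfl
  | add x y hx hy => simp only [map_add, hx, hy]

theorem ev_bijective : Bijective (ev A (iL R O T) (iR R O T)) := by
  have h : pr (iL R O T) (iR R O T) = AlgHom.id R _ := by
    refine Algebra.TensorProduct.ext' fun o x => ?_
    rw [pr_tmul]
    simp [iL, iR]
  have h2 : ⇑(ev A (iL R O T) (iR R O T)) = (TensorProduct.assoc R O T A).symm := by
    funext y
    change mp A (pr _ _) _ = _
    rw [h, mp_id]
    rfl
  rw [h2]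
  exact (TensorProduct.assoc R O T A).symm.bijective

end ev

section main

variable {R A O : Type u} [CommRing R] [Ring A] [Algebra R A] [CommRing O] [Algebra R O]
  (c : ∀ (S : Type u) [CommRing S] [Algebra R S], (O →ₐ[R] S) → (O →ₐ[R] S) → S ⊗[R] A)

/-- the descent condition -/
noncomputable def del : O ⊗[R] A →ₗ[R] (O ⊗[R] O) ⊗[R] A :=
  LinearMap.mulRight R (c _ (iL R O O) (iR R O O)) ∘ₗ (mp A (iR R O O)).toLinearMap -
    (mp A (iL R O O)).toLinearMap

theorem del_apply (z : O ⊗[R] A) :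
    del c z = mp A (iR R O O) z * c _ (iL R O O) (iR R O O) - mp A (iL R O O) z := rfl

/-- naturality of the cocycle -/
def Nat' : Prop :=
  ∀ (S S' : Type u) [CommRing S] [Algebra R S] [CommRing S'] [Algebra R S'] (f : S →ₐ[R] S')
    (p q : O →ₐ[R] S), mp A f (c S p q) = c S' (f.comp p) (f.comp q)

variable {c}

theorem mp_del (hn : Nat' c) {S : Type u} [CommRing S] [Algebra R S] (t : O ⊗[R] O →ₐ[R] S)
    (z : O ⊗[R] A) :
    mp A t (del c z) = mp A (t.comp (iR R O O)) z * c S (t.comp (iL R O O)) (t.comp (iR R O O)) -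
      mp A (t.comp (iL R O O)) z := by
  rw [del_apply, map_sub, map_mul, hn, mp_mp, mp_mp]

theorem ev_del (hn : Nat' c) {S : Type u} [CommRing S] [Algebra R S] (p : O →ₐ[R] S)
    (t : O ⊗[R] O →ₐ[R] S) (y : O ⊗[R] (O ⊗[R] A)) :
    ev A p t (LinearMap.lTensor O (del c) y) =
      ev A p (t.comp (iR R O O)) y * c S (t.comp (iL R O O)) (t.comp (iR R O O)) -
        ev A p (t.comp (iL R O O)) y := by
  induction y using TensorProduct.induction_on with
  | zero => simp
  | tmul o y =>
    rw [LinearMap.lTensor_tmul, ev_tmul, ev_tmul, ev_tmul, mp_del hn, smul_sub, smul_mul_assoc]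
  | add x y hx hy =>
    simp only [map_add, hx, hy, add_mul]
    abel

variable (c) in
/-- the comparison map -/
noncomputable def mu : O ⊗[R] (LinearMap.ker (del c)) →ₗ[O] O ⊗[R] A :=
  LinearMap.liftBaseChange O (LinearMap.ker (del c)).subtype

theorem mu_tmul (o : O) (z : LinearMap.ker (del c)) :
    mu c (o ⊗ₜ[R] z) = o • (z : O ⊗[R] A) := by
  simp [mu]

theorem mu_eq (y : O ⊗[R] (LinearMap.ker (del c))) :
    mu c y = ev A (AlgHom.id R O) (AlgHom.id R O)
      (LinearMap.lTensor O (LinearMap.ker (del c)).subtype y) := by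
  induction y using TensorProduct.induction_on with
  | zero => simp
  | tmul o y => rw [mu_tmul, LinearMap.lTensor_tmul, ev_tmul, mp_id]; rfl
  | add x y hx hy => simp only [map_add, hx, hy]

theorem mu_injective [Module.Flat R O] (hn : Nat' c) : Injective (mu c) := by
  refine (injective_iff_map_eq_zero _).2 fun y hy => ?_
  have hex := Module.Flat.lTensor_exact O (LinearMap.exact_subtype_ker_map (del c))
  have hinj := Module.Flat.lTensor_preserves_injective_linearMap (M := O) _
    (LinearMap.ker (del c)).injective_subtype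
  refine (injective_iff_map_eq_zero _).1 hinj y ?_
  rw [mu_eq] at hy
  set y' := LinearMap.lTensor O (LinearMap.ker (del c)).subtype y with hy'
  have h0 : LinearMap.lTensor O (del c) y' = 0 := hex.apply_apply_eq_zero y
  have h1 := ev_del hn (iL R O O) (pr (iR R O O) (iL R O O)) y'
  rw [h0, map_zero, pr_iL, pr_iR] at h1
  have h2 := mp_ev A (iL R O O) (AlgHom.id R O) (AlgHom.id R O) y'
  rw [hy, map_zero, AlgHom.comp_id] at h2
  rw [← h2, zero_mul, zero_sub, eq_comm, neg_eq_zero] at h1
  exact (injective_iff_map_eq_zero _).1 (ev_bijective A).1 y' h1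

theorem mu_surjective [Module.Flat R O] (hn : Nat' c)
    (h1 : ∀ (S : Type u) [CommRing S] [Algebra R S] (p : O →ₐ[R] S), c S p p = 1)
    (hc : ∀ (S : Type u) [CommRing S] [Algebra R S] (p q r : O →ₐ[R] S),
      c S q r * c S p q = c S p r) : Surjective (mu c) := by
  intro w
  have hex := Module.Flat.lTensor_exact O (LinearMap.exact_subtype_ker_map (del c))
  obtain ⟨y, hy⟩ := (ev_bijective A (O := O) (T := O)).2
    (mp A (iL R O O) w * c _ (iR R O O) (iL R O O))
  have key : ∀ (S : Type u) [CommRing S] [Algebra R S] (p q : O →ₐ[R] S),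
      ev A p q y = mp A p w * c S q p := by
    intro S _ _ p q
    have := mp_ev A (pr p q) (iL R O O) (iR R O O) y
    rw [hy, map_mul, mp_mp, hn, pr_iL, pr_iR] at this
    exact this.symm
  have h0 : LinearMap.lTensor O (del c) y = 0 := by
    refine (injective_iff_map_eq_zero _).1 (ev_bijective A (O := O) (T := O ⊗[R] O)).1 _ ?_
    rw [ev_del hn, key, key, mul_assoc, hc, sub_self]
  obtain ⟨x, hx⟩ := (hex y).1 h0
  refine ⟨x, ?_⟩
  rw [mu_eq, hx, key, h1, mul_one, mp_id]

variable (c) in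
/-- the left action of `A` on the module of descent data -/
@[reducible] noncomputable def modA : Module A (LinearMap.ker (del c)) where
  smul a z := ⟨((1 : O) ⊗ₜ[R] a) * (z : O ⊗[R] A), by
    have hz : del c z = 0 := z.2
    rw [LinearMap.mem_ker]
    rw [del_apply] at hz ⊢
    rw [map_mul, map_mul, mp_tmul, mp_tmul, map_one, map_one, mul_assoc, ← mul_sub, hz,
      mul_zero]⟩
  one_smul z := Subtype.ext (one_mul (z : O ⊗[R] A))
  mul_smul a b z := Subtype.ext (by
    change ((1 : O) ⊗ₜ[R] (a * b)) * (z : O ⊗[R] A) =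
      ((1 : O) ⊗ₜ[R] a) * (((1 : O) ⊗ₜ[R] b) * (z : O ⊗[R] A))
    rw [← mul_assoc, Algebra.TensorProduct.tmul_mul_tmul, one_mul])
  smul_zero a := Subtype.ext (mul_zero _)
  smul_add a x y := Subtype.ext (mul_add _ (x : O ⊗[R] A) (y : O ⊗[R] A))
  add_smul a b z := Subtype.ext (by
    change ((1 : O) ⊗ₜ[R] (a + b)) * (z : O ⊗[R] A) =
      ((1 : O) ⊗ₜ[R] a) * (z : O ⊗[R] A) + ((1 : O) ⊗ₜ[R] b) * (z : O ⊗[R] A)
    rw [tmul_add, add_mul])
  zero_smul z := Subtype.ext (by
    change ((1 : O) ⊗ₜ[R] (0 : A)) * (z : O ⊗[R] A) = 0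
    rw [tmul_zero, zero_mul])

end main

theorem equiv_bot {R M : Type u} [CommRing R] [AddCommGroup M] [Module R M] [Module.Free R M]
    [Module.Finite R M] [Nontrivial R] :
    Nonempty (M ≃ₗ[R] (Fin (Module.finrank R M) → R ⧸ (⊥ : Ideal R))) :=
  ⟨(Module.finBasis R M).equivFun.trans (LinearEquiv.piCongrRight fun _ =>
    (Submodule.quotEquivOfEqBot (⊥ : Ideal R) rfl).symm)⟩

end H90P

open H90P in
theorem h90 (h : S_LemF.{u}) : S_H90.{u} := by
  intro R A O _ _ _ _ _ _ _ _ _ _ c hA hn h1 hc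
  have hn' : Nat' c := hn
  let M := LinearMap.ker (del c)
  let e : O ⊗[R] M ≃ₗ[O] O ⊗[R] A :=
    LinearEquiv.ofBijective (mu c) ⟨mu_injective hn', mu_surjective hn' h1 hc⟩
  have : Module.Finite O (O ⊗[R] M) := Module.Finite.equiv e.symm
  have : Module.Flat O (O ⊗[R] M) := Module.Flat.of_linearEquiv e
  have : Module.Finite R M := Module.Finite.of_finite_tensorProduct_of_faithfullyFlat O
  have : Module.Flat R M := Module.Flat.of_flat_tensorProduct R M O
  have : Module.Free R M := Module.free_of_flat_of_isLocalRing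
  have : Nontrivial O := (FaithfulSMul.algebraMap_injective R O).nontrivial
  have hr : Module.finrank R M = Module.finrank R A := by
    have := e.finrank_eq
    rwa [Module.finrank_baseChange, Module.finrank_baseChange] at this
  let := modA c
  have : IsScalarTower R A M := ⟨fun r a z => Subtype.ext (by
    change ((1 : O) ⊗ₜ[R] (r • a)) * (z : O ⊗[R] A) = r • (((1 : O) ⊗ₜ[R] a) * (z : O ⊗[R] A))
    rw [tmul_smul, smul_mul_assoc])⟩
  obtain ⟨φ⟩ := h R A A M ⊥ (Module.finrank R A) hA equiv_bot (hr ▸ equiv_bot)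
  let z : O ⊗[R] A := (φ 1 : M)
  have hz : ∀ y, ∃ w, mu c y = w * z := by
    intro y
    induction y using TensorProduct.induction_on with
    | zero => exact ⟨0, by simp⟩
    | tmul o m =>
      obtain ⟨a, rfl⟩ := φ.surjective m
      refine ⟨o • ((1 : O) ⊗ₜ[R] a), ?_⟩
      have : φ a = a • φ 1 := by rw [← map_smul, smul_eq_mul, mul_one]
      rw [mu_tmul, this, smul_mul_assoc]
      rfl
    | add x y hx hy =>
      obtain ⟨v, hv⟩ := hx
      obtain ⟨w, hw⟩ := hy
      exact ⟨v + w, by rw [map_add, hv, hw, add_mul]⟩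
  have hs : Surjective (LinearMap.mulRight O z) := fun x => by
    obtain ⟨y, rfl⟩ := mu_surjective hn' h1 hc x
    obtain ⟨w, hw⟩ := hz y
    exact ⟨w, hw.symm⟩
  have hi : Injective (LinearMap.mulRight O z) :=
    OrzechProperty.injective_of_surjective_endomorphism _ hs
  obtain ⟨w, hw⟩ := hs 1
  have hw1 : w * z = 1 := hw
  have hw2 : z * w = 1 := hi (by
    change z * w * z = 1 * z
    rw [mul_assoc, hw1, mul_one, one_mul])
  refine ⟨⟨z, w, hw2, hw1⟩, fun S _ _ p q => ?_⟩
  have h0 : del c z = 0 := (φ 1).2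
  have h2 := mp_del hn' (pr p q) z
  rw [h0, map_zero, pr_iL, pr_iR, eq_comm, sub_eq_zero] at h2
  exact h2

end Pool.Agent.P.MP_46a8f8_ag
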