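import Pool.Agent.P.MP_46a8f8_ag.Base

/-!
Lattices over a principal ideal domain and matrices of endomorphisms.
-/

namespace Pool.Agent.P.MP_46a8f8_ag

open TensorProduct Function

universe u

namespace LatP

theorem abs_lat {D Dt M P : Type u} [CommRing D] [IsDomain D] [CommRing Dt] [IsDomain Dt]
    [Algebra D Dt] [AddCommGroup M] [Module D M] [AddCommGroup P] [Module Dt P] [Module D P]
    [IsScalarTower D Dt P] [Module.Free Dt P] [Module.Finite Dt P]
    (hfr : ∀ w : Dt, ∃ a b : D, b ≠ 0 ∧ algebraMap D Dt b * w = algebraMap D Dt a)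
    (j : M →ₗ[D] P) (hj : Injective j) (hsp : Submodule.span Dt (Set.range j) = ⊤)
    (hext : ∀ β : Module.End D M, ∃ β' : Module.End Dt P, ∀ m, β' (j m) = j (β m)) :
    ∃ (ρ : ℕ) (ι : M →ₗ[D] (Fin ρ → Dt))
      (Θ : Module.End D M →ₐ[D] Matrix (Fin ρ) (Fin ρ) Dt), Injective ι ∧
      (∀ v : Fin ρ → Dt, ∃ c : D, c ≠ 0 ∧ c • v ∈ LinearMap.range ι) ∧
      ∀ β m, ι (β m) = (Θ β).mulVec (ι m) := by
  classical
  choose E hE using hext
  have huniq : ∀ f g : Module.End Dt P, (∀ m, f (j m) = g (j m)) → f = g := by
    intro f g h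
    refine LinearMap.ext_on_range hsp h
  let b := Module.finBasis Dt P
  let EL : Module.End D M →ₗ[D] Module.End Dt P :=
    { toFun := E
      map_add' := fun β γ => huniq _ _ fun m => by
        simp only [hE, LinearMap.add_apply, map_add]
      map_smul' := fun c β => huniq _ _ fun m => by
        simp only [hE, LinearMap.smul_apply, map_smul, RingHom.id_apply] }
  let EA : Module.End D M →ₐ[D] Module.End Dt P :=
    AlgHom.ofLinearMap EL
      (huniq _ _ fun m => by
        change E 1 (j m) = _
        simp only [hE, Module.End.one_apply])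
      (fun β γ => huniq _ _ fun m => by
        change E (β * γ) (j m) = (E β * E γ) (j m)
        simp only [hE, Module.End.mul_apply])
  let ι : M →ₗ[D] (Fin (Module.finrank Dt P) → Dt) :=
    (b.equivFun.toLinearMap.restrictScalars D) ∘ₗ j
  refine ⟨Module.finrank Dt P, ι,
    ((LinearMap.toMatrixAlgEquiv b).toAlgHom.restrictScalars D).comp EA, ?_, ?_, ?_⟩
  · exact b.equivFun.injective.comp hj
  · intro v
    have key : ∀ p ∈ Submodule.span Dt (Set.range j), ∃ c : D, c ≠ 0 ∧ c • p ∈ LinearMap.range j := by
      intro p hp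
      induction hp using Submodule.span_induction with
      | mem x hx => exact ⟨1, one_ne_zero, by rw [one_smul]; exact hx⟩
      | zero => exact ⟨1, one_ne_zero, by rw [one_smul]; exact zero_mem _⟩
      | add x y _ _ hx hy =>
        obtain ⟨c, hc, hx⟩ := hx
        obtain ⟨d, hd, hy⟩ := hy
        refine ⟨c * d, mul_ne_zero hc hd, ?_⟩
        rw [smul_add]
        refine add_mem ?_ ?_
        · rw [mul_comm, mul_smul]; exact Submodule.smul_mem _ _ hx
        · rw [mul_smul]; exact Submodule.smul_mem _ _ hy
      | smul w x _ hx =>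
        obtain ⟨c, hc, hx⟩ := hx
        obtain ⟨a, d, hd, hw⟩ := hfr w
        refine ⟨d * c, mul_ne_zero hd hc, ?_⟩
        have : (d * c) • w • x = a • c • x := by
          rw [mul_comm, mul_smul, ← algebraMap_smul Dt d, ← mul_smul, hw, algebraMap_smul,
            smul_comm]
        rw [this]
        exact Submodule.smul_mem _ _ hx
    obtain ⟨c, hc, m, hm⟩ := key (b.equivFun.symm v) (by rw [hsp]; trivial)
    refine ⟨c, hc, m, ?_⟩
    change b.equivFun (j m) = _
    rw [hm, LinearMapClass.map_smul_of_tower, LinearEquiv.apply_symm_apply]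
  · intro β m
    change b.equivFun (j (β m)) = (LinearMap.toMatrix b b (E β)).mulVec (b.equivFun (j m))
    rw [← hE]
    exact (LinearMap.toMatrix_mulVec_repr b b (E β) (j m)).symm

end LatP

theorem lat : S_Lat.{u} := by
  intro D Dt M _ _ _ _ _ _ _ _ _ hinj hfr htf
  classical
  let K := FractionRing Dt
  have hK : Injective (algebraMap D K) := by
    rw [IsScalarTower.algebraMap_eq D Dt K]
    exact (IsFractionRing.injective Dt K).comp hinj
  have : IsFractionRing D K :=
    { map_units := fun y => by
        refine IsUnit.mk0 _ fun h => nonZeroDivisors.ne_zero y.2 (hK ?_)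
        rw [h, map_zero]
      surj := fun z => by
        obtain ⟨x, y, hy, rfl⟩ := IsFractionRing.div_surjective (A := Dt) z
        have hy0 : y ≠ 0 := nonZeroDivisors.ne_zero hy
        obtain ⟨a, b, hb, hx⟩ := hfr x
        obtain ⟨a', b', hb', hy'⟩ := hfr y
        have ha' : a' ≠ 0 := by
          rintro rfl
          rw [map_zero] at hy'
          exact mul_ne_zero (fun h => hb' (hinj (by rw [h, map_zero]))) hy0 hy'
        refine ⟨(a * b', ⟨a' * b, mem_nonZeroDivisors_of_ne_zero (mul_ne_zero ha' hb)⟩), ?_⟩
        have h1 := congrArg (algebraMap Dt K) hx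
        have h2 := congrArg (algebraMap Dt K) hy'
        rw [map_mul, ← IsScalarTower.algebraMap_apply, ← IsScalarTower.algebraMap_apply] at h1 h2
        have hyK : algebraMap Dt K y ≠ 0 := fun h =>
          hy0 (IsFractionRing.injective Dt K (by rw [h, map_zero]))
        simp only [map_mul]
        rw [← h1, ← h2, div_mul_eq_mul_div, div_eq_iff hyK]
        ring
      exists_of_eq := fun h => ⟨1, by rw [hK h]⟩ }
  let j0 : M →ₗ[D] K ⊗[D] M := TensorProduct.mk D K M 1
  have hj0 : Injective j0 := by
    rw [injective_iff_map_eq_zero]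
    intro m hm
    obtain ⟨s, hs⟩ := (IsLocalizedModule.eq_zero_iff (nonZeroDivisors D) j0).1 hm
    exact htf s m (nonZeroDivisors.ne_zero s.2) hs
  let P : Submodule Dt (K ⊗[D] M) := Submodule.span Dt (Set.range j0)
  let j : M →ₗ[D] P :=
    { toFun := fun m => ⟨j0 m, Submodule.subset_span ⟨m, rfl⟩⟩
      map_add' := fun x y => Subtype.ext (map_add j0 x y)
      map_smul' := fun c x => Subtype.ext (map_smul j0 c x) }
  have hsp : Submodule.span Dt (Set.range j) = ⊤ := by
    apply Submodule.map_injective_of_injective P.injective_subtype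
    rw [Submodule.map_span, Submodule.map_top, Submodule.range_subtype, ← Set.range_comp]
    rfl
  have : Module.Finite Dt P := by
    obtain ⟨s, hs⟩ := Module.Finite.fg_top (R := D) (M := M)
    refine ⟨⟨s.image j, ?_⟩⟩
    rw [eq_top_iff, ← hsp, Submodule.span_le]
    rintro _ ⟨m, rfl⟩
    have hm : m ∈ Submodule.span D (s : Set M) := by rw [hs]; trivial
    have h1 : j m ∈ Submodule.span D (j '' (s : Set M)) := by
      rw [← Submodule.map_span]
      exact ⟨m, hm, rfl⟩
    rw [Finset.coe_image]
    exact Submodule.span_le_restrictScalars D Dt _ h1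
  have : Module.IsTorsionFree Dt (K ⊗[D] M) :=
    Module.IsTorsionFree.trans_faithfulSMul Dt K (K ⊗[D] M)
  have : Module.IsTorsionFree Dt P := inferInstance
  have : Module.Free Dt P := Module.free_of_finite_type_torsion_free' (R := Dt) (M := P)
  have hj : Injective j := fun x y h => hj0 (congrArg Subtype.val h)
  refine LatP.abs_lat (P := P) hfr j hj hsp fun β => ?_
  have hmap : ∀ x ∈ P, (β.baseChange K).restrictScalars Dt x ∈ P := by
    intro x hx
    induction hx using Submodule.span_induction with
    | mem x hx =>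
      obtain ⟨m, rfl⟩ := hx
      exact Submodule.subset_span ⟨β m, rfl⟩
    | zero => rw [map_zero]; exact zero_mem _
    | add x y _ _ hx hy => rw [map_add]; exact add_mem hx hy
    | smul w x _ hx => rw [map_smul]; exact Submodule.smul_mem _ _ hx
  exact ⟨((β.baseChange K).restrictScalars Dt).restrict hmap, fun m => Subtype.ext rfl⟩

end Pool.Agent.P.MP_46a8f8_ag
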