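import Pool.Agent.P.MP_46a8f8_ag.Base

/-!
A finite algebra that is regular at the good points.
-/

namespace Pool.Agent.P.MP_46a8f8_ag

open Polynomial IsLocalRing Function

universe u

namespace ModelP

/-- the saturation of an ideal at a prime -/
def sat {P : Type u} [CommRing P] (N : Ideal P) [hN : N.IsPrime] (K : Ideal P) : Ideal P where
  carrier := {x | ∃ s, s ∉ N ∧ s * x ∈ K}
  zero_mem' := ⟨1, (Ideal.ne_top_iff_one N).1 hN.ne_top, by simp⟩
  add_mem' := by
    rintro x y ⟨s, hs, h⟩ ⟨t, ht, h'⟩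
    refine ⟨s * t, fun e => (hN.mem_or_mem e).elim hs ht, ?_⟩
    have : s * t * (x + y) = t * (s * x) + s * (t * y) := by ring
    rw [this]
    exact K.add_mem (K.mul_mem_left _ h) (K.mul_mem_left _ h')
  smul_mem' := by
    rintro c x ⟨s, hs, h⟩
    refine ⟨s, hs, ?_⟩
    have : s * c • x = c * (s * x) := by rw [smul_eq_mul]; ring
    rw [this]
    exact K.mul_mem_left _ h

theorem regAt_equiv {P Q : Type u} [CommRing P] [CommRing Q] (e : P ≃+* Q) {N : Ideal Q} {d : ℕ}
    (h : RegAt Q N d) : RegAt P (N.comap (e : P →+* Q)) d := by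
  obtain ⟨h1, a, ha, h2⟩ := h
  have k : ∀ y, e.symm y ∈ N.comap (e : P →+* Q) ↔ y ∈ N := fun y => by
    rw [Ideal.mem_comap, RingEquiv.coe_toRingHom, e.apply_symm_apply]
  refine ⟨(e.height_comap N).trans h1, e.symm ∘ a, fun i => (k _).2 (ha i), fun x hx => ?_⟩
  obtain ⟨s, hs, h3⟩ := h2 (e x) hx
  refine ⟨e.symm s, fun h => hs ((k _).1 h), ?_⟩
  have h4 := Ideal.mem_map_of_mem (e.symm : Q →+* P) h3
  rw [Ideal.map_span, ← Set.range_comp] at h4
  simpa using h4

theorem regAt_poly {P : Type u} [CommRing P] [IsNoetherianRing P] (N : Ideal P[X])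
    [hN : N.IsMaximal] (hm : (N.comap C).IsMaximal) {d : ℕ} (h : RegAt P (N.comap C) d) :
    RegAt P[X] N (d + 1) := by
  obtain ⟨h1, a, ha, h2⟩ := h
  have : N.LiesOver (N.comap C) := ⟨rfl⟩
  have h3 : N.height = ((d + 1 : ℕ) : ℕ∞) := by
    rw [Polynomial.height_eq_height_add_one (N.comap C) N, h1]
    norm_cast
  have h4 : N ≠ (N.comap C).map C := fun e => by
    have h5 := Polynomial.height_map_C (N.comap C)
    rw [← e, h3] at h5
    have h6 : ((d + 1 : ℕ) : ℕ∞) = d := h5.trans (by rw [← h1])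
    have := Nat.cast_injective h6
    omega
  obtain ⟨f, -, hf⟩ := Polynomial.exists_monic_span_sup_map_eq P N hm h4
  have hfN : f ∈ N := by
    rw [hf]
    exact Ideal.mem_sup_right (Ideal.mem_span_singleton_self f)
  refine ⟨h3, Fin.cons f fun i => C (a i), fun i => ?_, ?_⟩
  · refine Fin.cases ?_ (fun i => ?_) i
    · exact hfN
    · exact ha i
  · have key : (N.comap C).map C ⊔ Ideal.span {f} ≤
        sat N (Ideal.span (Set.range (Fin.cons f fun i => C (a i) : Fin (d + 1) → P[X]))) := by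
      refine sup_le (Ideal.map_le_iff_le_comap.2 fun x hx => ?_) ?_
      · obtain ⟨s, hs, h5⟩ := h2 x hx
        refine ⟨C s, hs, ?_⟩
        have h6 := Ideal.mem_map_of_mem (C : P →+* P[X]) h5
        rw [Ideal.map_span, ← Set.range_comp, map_mul] at h6
        refine Ideal.span_mono ?_ h6
        rintro _ ⟨i, rfl⟩
        exact ⟨i.succ, rfl⟩
      · rw [Ideal.span_singleton_le_iff_mem]
        exact ⟨1, (Ideal.ne_top_iff_one N).1 hN.ne_top, by
          rw [one_mul]
          exact Ideal.subset_span ⟨0, rfl⟩⟩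
    intro x hx
    exact key (hf.le hx)

variable {R D : Type u} [CommRing R] [CommRing D] [Algebra R D]

/-- regular of dimension `e` at the preimages of the maximal ideals -/
def Good {P : Type u} [CommRing P] [Algebra R P] (σ : P →ₐ[R] D) (e : ℕ) : Prop :=
  ∀ 𝔫 : Ideal D, 𝔫.IsMaximal → RegAt P (𝔫.comap (σ : P →+* D)) e

theorem comap_max [Module.Finite R D] {P : Type u} [CommRing P] [Algebra R P] (σ : P →ₐ[R] D)
    (𝔫 : Ideal D) [𝔫.IsMaximal] : (𝔫.comap (σ : P →+* D)).IsMaximal := by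
  refine Ideal.isMaximal_comap_of_isIntegral_of_isMaximal' _ ?_ 𝔫
  refine RingHom.IsIntegral.tower_top (algebraMap R P) _ ?_
  rw [AlgHom.comp_algebraMap]
  exact fun x => Algebra.IsIntegral.isIntegral (R := R) x

theorem Good.equiv {P Q : Type u} [CommRing P] [Algebra R P] [CommRing Q] [Algebra R Q]
    (e : P ≃ₐ[R] Q) {σ : Q →ₐ[R] D} {d : ℕ} (h : Good σ d) :
    Good (σ.comp (e : P →ₐ[R] Q)) d := by
  intro 𝔫 h𝔫
  have e1 : 𝔫.comap (σ.comp (e : P →ₐ[R] Q) : P →+* D) =
      (𝔫.comap (σ : Q →+* D)).comap (e.toRingEquiv : P →+* Q) := by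
    ext x
    rfl
  rw [e1]
  exact regAt_equiv e.toRingEquiv (h 𝔫 h𝔫)

theorem Good.poly [Module.Finite R D] {P : Type u} [CommRing P] [IsNoetherianRing P] [Algebra R P]
    {σ : P →ₐ[R] D} {d : ℕ} (h : Good σ d) (w : D) : Good (aevalTower σ w) (d + 1) := by
  intro 𝔫 h𝔫
  have e : (𝔫.comap (aevalTower σ w : P[X] →+* D)).comap C = 𝔫.comap (σ : P →+* D) := by
    ext x
    simp
  have := comap_max (aevalTower σ w) 𝔫
  exact regAt_poly _ (e ▸ comap_max σ 𝔫) (e ▸ h 𝔫 h𝔫)

theorem good_mv [IsNoetherianRing R] [IsLocalRing R] [Module.Finite R D] {d : ℕ}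
    (h : RegAt R (maximalIdeal R) d) (N : ℕ) (w : Fin N → D) :
    Good (MvPolynomial.aeval w : MvPolynomial (Fin N) R →ₐ[R] D) (d + N) := by
  induction N with
  | zero =>
    have h0 : Good (Algebra.ofId R D) d := fun 𝔫 h𝔫 => by
      rwa [IsLocalRing.eq_maximalIdeal (comap_max (Algebra.ofId R D) 𝔫)]
    have h1 := h0.equiv (MvPolynomial.isEmptyAlgEquiv R (Fin 0))
    have e : (MvPolynomial.aeval w : MvPolynomial (Fin 0) R →ₐ[R] D) = (Algebra.ofId R D).comp
        (MvPolynomial.isEmptyAlgEquiv R (Fin 0) : MvPolynomial (Fin 0) R →ₐ[R] R) :=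
      MvPolynomial.algHom_ext fun i => i.elim0
    rw [e]
    exact h1
  | succ N ih =>
    have h1 := ((ih fun i => w i.succ).poly (w 0)).equiv (MvPolynomial.finSuccEquiv R N)
    have e : (MvPolynomial.aeval w : MvPolynomial (Fin (N + 1)) R →ₐ[R] D) =
        (aevalTower (MvPolynomial.aeval fun i : Fin N => w i.succ) (w 0)).comp
          (MvPolynomial.finSuccEquiv R N : MvPolynomial (Fin (N + 1)) R →ₐ[R] _) := by
      refine MvPolynomial.algHom_ext fun i => ?_
      refine Fin.cases ?_ (fun i => ?_) i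
      · simp [MvPolynomial.finSuccEquiv_X_zero]
      · simp [MvPolynomial.finSuccEquiv_X_succ]
    rw [e]
    exact h1

/-- the kernel is not inside the square of a good ideal of large height -/
theorem not_le_sq {P : Type u} [CommRing P] [IsNoetherianRing P] (σ : P →+* D)
    (hσ : Surjective σ) {d : ℕ} (hD : Emb D d) (𝔫 : Ideal D) [h𝔫 : 𝔫.IsMaximal]
    (hh : (d : ℕ∞) < (𝔫.comap σ).height) : ∃ f, σ f = 0 ∧ f ∉ 𝔫.comap σ ^ 2 := by
  by_contra hne
  push Not at hne
  obtain ⟨a, ha, h1⟩ := hD 𝔫 h𝔫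
  choose b hb using fun i => hσ (a i)
  have hp : (𝔫.comap σ).IsPrime := Ideal.comap_isPrime σ 𝔫
  have h2 : 𝔫.comap σ ≤ Ideal.span (Set.range b) ⊔ 𝔫.comap σ • 𝔫.comap σ := by
    rw [smul_eq_mul, ← pow_two]
    intro x hx
    have e : Ideal.span (Set.range a) ⊔ 𝔫 ^ 2 =
        (Ideal.span (Set.range b) ⊔ 𝔫.comap σ ^ 2).map σ := by
      rw [Ideal.map_sup, Ideal.map_pow, Ideal.map_comap_of_surjective σ hσ, Ideal.map_span,
        ← Set.range_comp, show σ ∘ b = a from funext hb]
    have h3 := h1 hx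
    rw [e] at h3
    obtain ⟨y, hy, e'⟩ := (Ideal.mem_map_iff_of_surjective σ hσ).1 h3
    have h4 : x - y ∈ 𝔫.comap σ ^ 2 := hne _ (by rw [map_sub, e', sub_self])
    have : x = y + (x - y) := by ring
    rw [this]
    exact Submodule.add_mem _ hy (Submodule.mem_sup_right h4)
  obtain ⟨r, hr1, hr2⟩ := Submodule.exists_sub_one_mem_and_smul_le_of_fg_of_le_sup
    (I := 𝔫.comap σ) (N := Ideal.span (Set.range b)) (N' := 𝔫.comap σ) (P := 𝔫.comap σ)
    (𝔫.comap σ).fg_of_isNoetherianRing le_rfl h2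
  have hr : r ∉ 𝔫.comap σ := fun h => hp.ne_top ((Ideal.eq_top_iff_one _).2 (by
    have : (1 : P) = r - (r - 1) := by ring
    rw [this]
    exact Submodule.sub_mem _ h hr1))
  have hle : Ideal.span (Set.range b) ≤ 𝔫.comap σ := by
    rw [Ideal.span_le]
    rintro _ ⟨i, rfl⟩
    change σ (b i) ∈ 𝔫
    rw [hb]
    exact ha i
  have hmin : 𝔫.comap σ ∈ (Ideal.span (Set.range b)).minimalPrimes := by
    refine ⟨⟨hp, hle⟩, fun q hq hq' x hx => ?_⟩
    have h5 : r * x ∈ q := hq.2 (hr2 (Submodule.smul_mem_pointwise_smul x r _ hx))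
    exact (hq.1.mem_or_mem h5).resolve_left fun h => hr (hq' h)
  have h6 := Ideal.height_le_card_of_mem_minimalPrimes_span (Set.finite_range b) hmin
  have h7 : (Set.range b).ncard ≤ d := by
    have := Set.ncard_image_le (f := b) (s := Set.univ)
    rwa [Set.image_univ, Set.ncard_univ, Nat.card_eq_fintype_card, Fintype.card_fin] at this
  exact absurd (h6.trans (Nat.cast_le.2 h7)) (not_le.2 hh)

/-- one element of the kernel outside all the squares -/
theorem exists_not_mem_sq {P : Type u} [CommRing P] [Finite (MaximalSpectrum D)] (σ : P →+* D)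
    (hσ : Surjective σ)
    (h : ∀ 𝔫 : MaximalSpectrum D, ∃ f, σ f = 0 ∧ f ∉ 𝔫.asIdeal.comap σ ^ 2) :
    ∃ f, σ f = 0 ∧ ∀ 𝔫 : MaximalSpectrum D, f ∉ 𝔫.asIdeal.comap σ ^ 2 := by
  classical
  have := Fintype.ofFinite (MaximalSpectrum D)
  choose f hf hf' using h
  have hc : Pairwise (IsCoprime on fun 𝔫 : MaximalSpectrum D => 𝔫.asIdeal) :=
    fun _ _ h => MaximalSpectrum.isCoprime_of_ne h
  choose ε hε using fun k : MaximalSpectrum D =>
    Ideal.exists_forall_sub_mem_ideal hc fun j => if j = k then 1 else 0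
  choose e he using fun k => hσ (ε k)
  refine ⟨∑ k, e k * f k, by simp [hf], fun 𝔫 hn => hf' 𝔫 ?_⟩
  have hfN : ∀ k, f k ∈ 𝔫.asIdeal.comap σ := fun k => by
    rw [Ideal.mem_comap, hf]
    exact Submodule.zero_mem _
  have h1 : ∀ k, (e k - if 𝔫 = k then 1 else 0) * f k ∈ 𝔫.asIdeal.comap σ ^ 2 := fun k => by
    rw [pow_two]
    refine Ideal.mul_mem_mul ?_ (hfN k)
    have := hε k 𝔫
    rw [Ideal.mem_comap, map_sub, he]
    split_ifs at this ⊢
    · rwa [map_one]
    · rwa [map_zero]
  have h2 : f 𝔫 = ∑ k, e k * f k - ∑ k, (e k - if 𝔫 = k then 1 else 0) * f k := by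
    rw [← Finset.sum_sub_distrib]
    simp [sub_mul]
  rw [h2]
  exact Submodule.sub_mem _ hn (Submodule.sum_mem _ fun k _ => h1 k)

theorem cancel {P : Type u} [CommRing P] {N : Ideal P} (hN : N.IsMaximal) {s f : P} (hs : s ∉ N)
    (hf : f ∈ N) (h : s * f ∈ N ^ 2) : f ∈ N ^ 2 := by
  obtain ⟨y, i, hi, e⟩ := hN.exists_inv hs
  have : f = y * (s * f) + i * f := by rw [← mul_assoc, ← add_mul, e, one_mul]
  rw [this]
  refine Submodule.add_mem _ (Ideal.mul_mem_left _ _ h) ?_
  rw [pow_two]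
  exact Ideal.mul_mem_mul hi hf

/-- a power of the variable equals a polynomial of smaller total degree -/
def Rel {P : Type u} [CommRing P] [Algebra R P] {N : ℕ} (π : MvPolynomial (Fin N) R →ₐ[R] P)
    (i : Fin N) : Prop :=
  ∃ (e : ℕ) (G : MvPolynomial (Fin N) R), G.totalDegree < e ∧ π (MvPolynomial.X i) ^ e = π G

theorem finite_of_rel {P : Type u} [CommRing P] [Algebra R P] {N : ℕ}
    (π : MvPolynomial (Fin N) R →ₐ[R] P) (hπ : Surjective π) (h : ∀ i, Rel π i) :
    Module.Finite R P := by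
  classical
  choose e G hG hG' using h
  let W := (MvPolynomial.restrictDegree (Fin N) R (Finset.univ.sup e)).map π.toLinearMap
  have key : ∀ (k : ℕ) (p : MvPolynomial (Fin N) R), p.totalDegree < k → π p ∈ W := by
    intro k
    induction k with
    | zero => exact fun p hp => absurd hp (Nat.not_lt_zero _)
    | succ k ih =>
      intro p hp
      rw [p.as_sum, map_sum]
      refine Submodule.sum_mem _ fun s hs => ?_
      by_cases hc : ∀ i, s i ≤ e i
      · refine Submodule.mem_map_of_mem (f := π.toLinearMap) ?_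
        rw [MvPolynomial.mem_restrictDegree]
        intro s' hs' i
        rw [Finset.mem_singleton.1 (MvPolynomial.support_monomial_subset hs')]
        exact (hc i).trans (Finset.le_sup (Finset.mem_univ i))
      · push Not at hc
        obtain ⟨i, hi⟩ := hc
        have e1 : s = (s - Finsupp.single i (e i)) + Finsupp.single i (e i) :=
          (tsub_add_cancel_of_le (Finsupp.single_le_iff.2 hi.le)).symm
        have e2 : (s.sum fun _ e => e) =
            ((s - Finsupp.single i (e i)).sum fun _ e => e) + e i := by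
          conv_lhs => rw [e1]
          rw [Finsupp.sum_add_index' (fun _ => rfl) fun _ _ _ => rfl,
            Finsupp.sum_single_index rfl]
        generalize s - Finsupp.single i (e i) = s' at e1 e2
        have h1 := MvPolynomial.le_totalDegree hs
        generalize MvPolynomial.coeff s p = c
        rw [e1, MvPolynomial.monomial_add_single, map_mul, map_pow, hG', ← map_mul]
        refine ih _ ?_
        have h2 := MvPolynomial.totalDegree_mul (MvPolynomial.monomial s' c) (G i)
        have h3 : (MvPolynomial.monomial s' c).totalDegree ≤ s'.sum fun _ e => e :=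
          MvPolynomial.totalDegree_monomial_le s' c
        have h4 := hG i
        omega
  have hW : W = ⊤ := by
    rw [eq_top_iff]
    intro x _
    obtain ⟨p, rfl⟩ := hπ x
    exact key _ p (Nat.lt_succ_self _)
  refine ⟨hW ▸ Submodule.FG.map _ ?_⟩
  exact (Module.Finite.iff_fg).1 inferInstance

/-- a perturbation of a polynomial by a high power of a monic polynomial in one variable -/
theorem rel_of [Nontrivial R] {P : Type u} [CommRing P] [Algebra R P] {N : ℕ}
    (π : MvPolynomial (Fin N) R →ₐ[R] P) (i : Fin N) (F : MvPolynomial (Fin N) R) (q : R[X])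
    (hq : q.Monic) (hd : F.totalDegree < q.natDegree)
    (h : π F + aeval (π (MvPolynomial.X i)) q = 0) : Rel π i := by
  refine ⟨q.natDegree, -(F + ∑ k ∈ Finset.range q.natDegree,
    MvPolynomial.C (q.coeff k) * MvPolynomial.X i ^ k), ?_, ?_⟩
  · rw [MvPolynomial.totalDegree_neg]
    refine (MvPolynomial.totalDegree_add _ _).trans_lt (max_lt hd ?_)
    refine lt_of_le_of_lt (MvPolynomial.totalDegree_finsetSum_le (d := q.natDegree - 1)
      fun k hk => ?_) (by omega)
    refine (MvPolynomial.totalDegree_mul _ _).trans ?_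
    rw [MvPolynomial.totalDegree_C, MvPolynomial.totalDegree_X_pow]
    have := Finset.mem_range.1 hk
    omega
  · rw [hq.as_sum] at h
    simp only [map_add, map_pow, aeval_X, map_sum, map_mul, aeval_C] at h
    simp only [map_neg, map_add, map_sum, map_mul, map_pow, MvPolynomial.algHom_C]
    linear_combination h

theorem cut (hC : S_Cut.{u}) [IsNoetherianRing R] [IsLocalRing R] [Module.Finite R D] {d : ℕ}
    (hD : Emb D d) {N : ℕ} (r : ℕ) : ∀ (P : Type u) [CommRing P] [Algebra R P]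
      (π : MvPolynomial (Fin N) R →ₐ[R] P) (σ : P →ₐ[R] D), Surjective π → Surjective σ →
      r ≤ N → Good σ (d + r) → (∀ i : Fin N, r ≤ i → Rel π i) →
      ∃ (S : Type u) (_ : CommRing S) (_ : Algebra R S) (_ : Module.Finite R S) (σ : S →ₐ[R] D),
        Surjective σ ∧ Good σ d := by
  induction r with
  | zero =>
    intro P _ _ π σ hπ hσ _ hg hr
    exact ⟨P, inferInstance, inferInstance, finite_of_rel π hπ fun i => hr i (Nat.zero_le _), σ,
      hσ, hg⟩
  | succ r ih =>
    intro P _ _ π σ hπ hσ hN hg hr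
    have : IsNoetherianRing P :=
      isNoetherianRing_of_surjective (MvPolynomial (Fin N) R) P π.toRingHom hπ
    have := finite_maximalSpectrum R D
    obtain ⟨f, hf, hf'⟩ := exists_not_mem_sq (σ : P →+* D) hσ fun 𝔫 => by
      have := 𝔫.isMaximal
      refine not_le_sq (σ : P →+* D) hσ hD 𝔫.asIdeal ?_
      rw [(hg _ this).1]
      exact Nat.cast_lt.2 (by omega)
    obtain ⟨F, rfl⟩ := hπ f
    let i₀ : Fin N := ⟨r, hN⟩
    obtain ⟨m, hm, hm'⟩ := Algebra.IsIntegral.isIntegral (R := R) (σ (π (MvPolynomial.X i₀)))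
    have hm1 : (X * m).Monic := monic_X.mul hm
    have hm2 : σ (aeval (π (MvPolynomial.X i₀)) (X * m)) = 0 := by
      rw [← aeval_algHom_apply, map_mul, aeval_def _ m, hm', mul_zero]
    have hm3 : F.totalDegree < ((X * m) ^ (F.totalDegree + 2)).natDegree := by
      rw [hm1.natDegree_pow, monic_X.natDegree_mul hm, natDegree_X]
      nlinarith
    obtain ⟨g, hg'⟩ : ∃ g, g = π F +
      aeval (π (MvPolynomial.X i₀)) ((X * m) ^ (F.totalDegree + 2)) := ⟨_, rfl⟩
    have hg0 : σ g = 0 := by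
      rw [hg', map_add, map_pow, map_pow, hm2, zero_pow (by omega), add_zero]
      exact hf
    have hg1 : ∀ 𝔫 : Ideal D, 𝔫.IsMaximal → g ∉ 𝔫.comap (σ : P →+* D) ^ 2 := fun 𝔫 h𝔫 h => by
      refine hf' ⟨𝔫, h𝔫⟩ ?_
      have h1 : aeval (π (MvPolynomial.X i₀)) (X * m) ∈ 𝔫.comap (σ : P →+* D) := by
        change σ _ ∈ 𝔫
        rw [hm2]
        exact 𝔫.zero_mem
      have h2 : π F = g - aeval (π (MvPolynomial.X i₀)) (X * m) ^ F.totalDegree *
          aeval (π (MvPolynomial.X i₀)) (X * m) ^ 2 := by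
        rw [hg', map_pow, pow_add, add_sub_cancel_right]
      rw [h2]
      exact Submodule.sub_mem _ h (Ideal.mul_mem_left _ _ (Ideal.pow_mem_pow h1 2))
    let σ' : (P ⧸ Ideal.span {g}) →ₐ[R] D := Ideal.Quotient.liftₐ _ σ fun a ha => by
      obtain ⟨b, rfl⟩ := Ideal.mem_span_singleton'.1 ha
      rw [map_mul, hg0, mul_zero]
    refine ih (P ⧸ Ideal.span {g}) ((Ideal.Quotient.mkₐ R _).comp π) σ'
      ((Ideal.Quotient.mkₐ_surjective R _).comp hπ) (fun x => ?_) (by omega) (fun 𝔫 h𝔫 => ?_)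
      fun i hi => ?_
    · obtain ⟨y, rfl⟩ := hσ x
      exact ⟨Ideal.Quotient.mk _ y, rfl⟩
    · have e : 𝔫.comap (σ' : _ →+* D) =
          (𝔫.comap (σ : P →+* D)).map (Ideal.Quotient.mk (Ideal.span {g})) := by
        rw [← Ideal.map_comap_of_surjective (Ideal.Quotient.mk (Ideal.span {g}))
          Ideal.Quotient.mk_surjective (𝔫.comap (σ' : _ →+* D))]
        rfl
      have hmax := comap_max σ 𝔫
      have hgN : g ∈ 𝔫.comap (σ : P →+* D) := by
        change σ g ∈ 𝔫
        rw [hg0]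
        exact 𝔫.zero_mem
      rw [e]
      exact hC P _ (d + r) g (hg 𝔫 h𝔫) hgN fun s hs h => hg1 𝔫 h𝔫 (cancel hmax hs hgN h)
    · rcases hi.eq_or_lt with hi | hi
      · have e : i = i₀ := Fin.ext hi.symm
        rw [e]
        refine rel_of _ i₀ F _ (hm1.pow _) hm3 ?_
        rw [AlgHom.comp_apply, AlgHom.comp_apply, aeval_algHom_apply, ← map_add, ← hg']
        exact Ideal.Quotient.eq_zero_iff_mem.2 (Ideal.mem_span_singleton_self g)
      · obtain ⟨e, G, h1, h2⟩ := hr i hi
        exact ⟨e, G, h1, by rw [AlgHom.comp_apply, AlgHom.comp_apply, ← map_pow, h2]⟩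

end ModelP

open ModelP in
theorem model (h : S_Cut.{u}) : S_Model.{u} := by
  intro R D _ _ _ _ _ _ d hR hD
  obtain ⟨N, π, hπ⟩ := Algebra.FiniteType.iff_quotient_mvPolynomial''.1
    (inferInstance : Algebra.FiniteType R D)
  have hg := good_mv hR N (π ∘ MvPolynomial.X)
  rw [← MvPolynomial.aeval_unique π] at hg
  exact cut h hD N (MvPolynomial (Fin N) R) (AlgHom.id R _) π surjective_id hπ le_rfl hg
    fun i hi => absurd i.2 (not_lt.2 hi)

end Pool.Agent.P.MP_46a8f8_ag
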