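import Pool.Agent.P.MP_46a8f8_ag.St2

/-!
The reduced norm, natural in the base ring, by faithfully flat descent.
-/

namespace Pool.Agent.P.MP_46a8f8_ag

open TensorProduct Function

universe u

namespace NrdP

variable {R A : Type u} [CommRing R] [Ring A] [Algebra R A]
  {S S' S'' : Type u} [CommRing S] [Algebra R S] [CommRing S'] [Algebra R S'] [CommRing S'']
  [Algebra R S''] {n : ℕ}

theorem mp_tmul (f : S →ₐ[R] S') (s : S) (a : A) : mp A f (s ⊗ₜ[R] a) = f s ⊗ₜ[R] a := rfl

theorem mp_mp (f : S →ₐ[R] S') (g : S' →ₐ[R] S'') (x : S ⊗[R] A) :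
    mp A g (mp A f x) = mp A (g.comp f) x := by
  induction x using TensorProduct.induction_on with
  | zero => simp
  | tmul s a => rfl
  | add y z hy hz => simp only [map_add, hy, hz]

theorem mp_smul (f : S →ₐ[R] S') (s : S) (x : S ⊗[R] A) : mp A f (s • x) = f s • mp A f x := by
  induction x using TensorProduct.induction_on with
  | zero => simp
  | tmul t a => simp only [smul_tmul', mp_tmul, smul_eq_mul, map_mul]
  | add y z hy hz => simp only [smul_add, map_add, hy, hz]

/-- base change of a splitting -/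
theorem exists_bc (f : S →ₐ[R] S') (Φ : S ⊗[R] A ≃ₐ[S] Matrix (Fin n) (Fin n) S) :
    ∃ Φ' : S' ⊗[R] A ≃ₐ[S'] Matrix (Fin n) (Fin n) S', ∀ x, Φ' (mp A f x) = (Φ x).map f := by
  let F : S' ⊗[R] A →ₐ[S'] Matrix (Fin n) (Fin n) S' :=
    Algebra.TensorProduct.lift (Algebra.ofId S' _)
      (f.mapMatrix.comp ((Φ.restrictScalars R).toAlgHom.comp Algebra.TensorProduct.includeRight))
      fun s a => Algebra.commutes s _
  have hF : ∀ x, F (mp A f x) = (Φ x).map f := fun x => by
    induction x using TensorProduct.induction_on with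
    | zero => simp
    | tmul s a =>
      have e : s ⊗ₜ[R] a = s • ((1 : S) ⊗ₜ[R] a) := by rw [smul_tmul', smul_eq_mul, mul_one]
      rw [e, mp_smul, map_smul, map_smul, mp_tmul, map_one]
      ext i j
      simp [F]
    | add y z hy hz => simp only [map_add, hy, hz, Matrix.map_add _ (map_add f)]
  let G : Matrix (Fin n) (Fin n) S' → S' ⊗[R] A := fun M =>
    ∑ i, ∑ j, M i j • mp A f (Φ.symm (Matrix.single i j 1))
  have h1 : RightInverse G F := fun M => by
    simp only [G, map_sum, map_smul, hF, AlgEquiv.apply_symm_apply]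
    conv_rhs => rw [Matrix.matrix_eq_sum_single M]
    refine Finset.sum_congr rfl fun i _ => Finset.sum_congr rfl fun j _ => ?_
    rw [Matrix.map_single, map_one, Matrix.smul_single, smul_eq_mul, mul_one]
  have h2 : LeftInverse G F := fun y => by
    induction y using TensorProduct.induction_on with
    | zero => simp [G]
    | tmul s a =>
      have e : s ⊗ₜ[R] a = s • mp A f ((1 : S) ⊗ₜ[R] a) := by
        rw [mp_tmul, map_one, smul_tmul', smul_eq_mul, mul_one]
      rw [e, map_smul, hF]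
      generalize (1 : S) ⊗ₜ[R] a = x
      obtain ⟨M, rfl⟩ := Φ.symm.surjective x
      rw [AlgEquiv.apply_symm_apply]
      conv_rhs => rw [Matrix.matrix_eq_sum_single M]
      simp only [G, map_sum, Finset.smul_sum]
      refine Finset.sum_congr rfl fun i _ => Finset.sum_congr rfl fun j _ => ?_
      rw [Matrix.smul_apply, Matrix.map_apply, smul_eq_mul, mul_smul, ← mp_smul, ← map_smul Φ.symm,
        Matrix.smul_single, smul_eq_mul, mul_one]
    | add y z hy hz =>
      simp only [G, map_add, Matrix.add_apply, add_smul, Finset.sum_add_distrib] at hy hz ⊢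
      rw [hy, hz]
  exact ⟨AlgEquiv.ofBijective F ⟨h2.injective, h1.surjective⟩, hF⟩

theorem map_det (h : S_UD.{u}) (f : S →ₐ[R] S') (Φ : S ⊗[R] A ≃ₐ[S] Matrix (Fin n) (Fin n) S)
    {m : ℕ} (Ψ : S' ⊗[R] A ≃ₐ[S'] Matrix (Fin m) (Fin m) S') (x : S ⊗[R] A) :
    f (Φ x).det = (Ψ (mp A f x)).det := by
  obtain ⟨Φ', hΦ⟩ := exists_bc f Φ
  rw [← h _ _ _ _ Φ' Ψ, hΦ, AlgHom.map_det]
  rfl

/-- descent of the determinant along a faithfully flat algebra -/
theorem descend (h : S_UD.{u}) {T : Type u} [CommRing T] [Algebra R T] [Algebra S T]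
    [IsScalarTower R S T] [Module.FaithfullyFlat S T]
    (Φ : T ⊗[R] A ≃ₐ[T] Matrix (Fin n) (Fin n) T) :
    ∃ N : S ⊗[R] A →* S, ∀ x,
      algebraMap S T (N x) = (Φ (mp A (IsScalarTower.toAlgHom R S T) x)).det := by
  have key : ∀ x, ∃ s, algebraMap S T s = (Φ (mp A (IsScalarTower.toAlgHom R S T) x)).det := by
    intro x
    let g1 : T →ₐ[R] T ⊗[S] T := Algebra.TensorProduct.includeLeft
    let g2 : T →ₐ[R] T ⊗[S] T := Algebra.TensorProduct.includeRight.restrictScalars R
    obtain ⟨Ψ, -⟩ := exists_bc g1 Φ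
    have e : g1.comp (IsScalarTower.toAlgHom R S T) = g2.comp (IsScalarTower.toAlgHom R S T) := by
      ext s
      exact (Algebra.TensorProduct.tmul_one_eq_one_tmul s)
    have e1 := map_det h g1 Φ Ψ (mp A (IsScalarTower.toAlgHom R S T) x)
    have e2 := map_det h g2 Φ Ψ (mp A (IsScalarTower.toAlgHom R S T) x)
    rw [mp_mp] at e1 e2
    rw [e, ← e2] at e1
    exact (Algebra.IsEffective.of_faithfullyFlat S T _).1 (sub_eq_zero.2 e1)
  choose N hN using key
  have hi : Injective (algebraMap S T) := FaithfulSMul.algebraMap_injective S T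
  exact ⟨⟨⟨N, hi (by rw [hN]; simp)⟩, fun x y => hi (by
    rw [map_mul, hN, hN, hN, map_mul, map_mul, Matrix.det_mul])⟩, hN⟩

end NrdP

open NrdP in
theorem nrd (h : S_UD.{u}) : S_Nrd.{u} := by
  intro R A O _ _ _ _ _ _ _ _ n ⟨Φ0⟩
  have H : ∀ (S : Type u) [CommRing S] [Algebra R S],
      ∃ (Φ : (S ⊗[R] O) ⊗[R] A ≃ₐ[S ⊗[R] O] Matrix (Fin n) (Fin n) (S ⊗[R] O))
        (N : S ⊗[R] A →* S), ∀ x, algebraMap S (S ⊗[R] O) (N x) =
          (Φ (mp A (IsScalarTower.toAlgHom R S (S ⊗[R] O)) x)).det := fun S _ _ => by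
    obtain ⟨Φ, -⟩ := exists_bc (Algebra.TensorProduct.includeRight : O →ₐ[R] S ⊗[R] O) Φ0
    exact ⟨Φ, descend h Φ⟩
  choose Φ N hN using H
  have hi : ∀ (S : Type u) [CommRing S] [Algebra R S], Injective (algebraMap S (S ⊗[R] O)) :=
    fun S _ _ => FaithfulSMul.algebraMap_injective S _
  have h1 : ∀ (S S' : Type u) [CommRing S] [Algebra R S] [CommRing S'] [Algebra R S']
      (f : S →ₐ[R] S') (x : S ⊗[R] A), f (N S x) = N S' (mp A f x) := by
    intro S S' _ _ _ _ f x
    apply hi S'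
    have e := map_det h (mp O f) (Φ S) (Φ S') (mp A (IsScalarTower.toAlgHom R S (S ⊗[R] O)) x)
    rw [← hN, mp_mp] at e
    rw [hN, mp_mp]
    exact e
  have h2 : ∀ (S : Type u) [CommRing S] [Algebra R S] (m : ℕ)
      (Ψ : S ⊗[R] A ≃ₐ[S] Matrix (Fin m) (Fin m) S) (x : S ⊗[R] A), N S x = (Ψ x).det := by
    intro S _ _ m Ψ x
    apply hi S
    rw [hN]
    exact (map_det h (IsScalarTower.toAlgHom R S (S ⊗[R] O)) Ψ (Φ S) x).symm
  refine ⟨N, h1, h2, fun S _ _ g => ⟨fun hg => hi S ?_, fun hg S' _ _ f m Ψ => ?_⟩⟩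
  · rw [hN, map_one]
    exact hg _ _ _ _
  · rw [← h2, ← h1, hg, map_one]

end Pool.Agent.P.MP_46a8f8_ag
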