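import Pool.Agent.P.MP_46a8f8_ag.Base

/-!
Projective dimension over regular local rings.
-/

namespace Pool.Agent.P.MP_46a8f8_ag

open IsLocalRing Function

universe u

namespace PdP

open scoped Pointwise

theorem map_inj {O : Type u} [CommRing O] {K F M : Type u} [AddCommGroup K] [Module O K]
    [AddCommGroup F] [Module O F] [AddCommGroup M] [Module O M] (x : O) (f : K →ₗ[O] F)
    (g : F →ₗ[O] M) (hf : Injective f) (hfg : Exact f g) (hx : IsSMulRegular M x) :
    Injective (QuotSMulTop.map x f) := by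
  refine (injective_iff_map_eq_zero _).2 fun k hk => ?_
  obtain ⟨k, rfl⟩ := Submodule.Quotient.mk_surjective _ k
  rw [QuotSMulTop.map_apply_mk, Submodule.Quotient.mk_eq_zero,
    Submodule.mem_smul_pointwise_iff_exists] at hk
  obtain ⟨v, -, hv⟩ := hk
  have h1 : x • g v = x • (0 : M) := by
    rw [← map_smul, hv, smul_zero]
    exact hfg.apply_apply_eq_zero k
  obtain ⟨k', rfl⟩ := (hfg v).1 (hx h1)
  rw [Submodule.Quotient.mk_eq_zero, Submodule.mem_smul_pointwise_iff_exists]
  exact ⟨k', trivial, hf (by rw [map_smul, hv])⟩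

/-- the lifting lemma -/
theorem lift {O : Type u} [CommRing O] [IsLocalRing O] [IsNoetherianRing O] (x : O)
    (hx : x ∈ maximalIdeal O) (hO : IsSMulRegular O x) (r : ℕ) :
    ∀ (M : Type u) [AddCommGroup M] [Module O M] [Module.Finite O M], IsSMulRegular M x →
      PD (O ⧸ Ideal.span {x}) (QuotSMulTop x M) r → PD O M r := by
  induction r with
  | zero =>
    intro M _ _ _ hM h
    have hnt : Ideal.span {x} ≠ ⊤ := by
      rw [Ne, Ideal.span_singleton_eq_top]
      exact (mem_maximalIdeal x).1 hx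
    have : Nontrivial (O ⧸ Ideal.span {x}) := Ideal.Quotient.nontrivial_iff.2 hnt
    have : IsLocalRing (O ⧸ Ideal.span {x}) :=
      IsLocalRing.of_surjective' (Ideal.Quotient.mk _) Ideal.Quotient.mk_surjective
    have : Module.Projective (O ⧸ Ideal.span {x}) (QuotSMulTop x M) := pd_zero_iff.1 h
    have : Module.Finite (O ⧸ Ideal.span {x}) (QuotSMulTop x M) :=
      Module.Finite.of_restrictScalars_finite O _ _
    have hfree : Module.Free (O ⧸ Ideal.span {x}) (QuotSMulTop x M) :=
      Module.free_of_flat_of_isLocalRing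
    have : Module.FinitePresentation O M := Module.finitePresentation_of_finite O M
    have : Module.Free O M :=
      (Module.free_quotSMulTop_iff_free O M (maximalIdeal_le_jacobson _ hx) hM).1 hfree
    exact PD.of_projective 0
  | succ r ih =>
    intro M _ _ _ hM h
    obtain ⟨N, p, hp⟩ := Module.Finite.exists_fin' O M
    have hF : IsSMulRegular (Fin N → O) x := fun a b hab => funext fun i => hO (congrFun hab i)
    have hK : IsSMulRegular (LinearMap.ker p) x := hF.submodule _ x
    have hex := LinearMap.exact_subtype_ker_map p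
    have hs : Surjective (algebraMap O (O ⧸ Ideal.span {x})) := Ideal.Quotient.mk_surjective
    have h1 : PD (O ⧸ Ideal.span {x}) (QuotSMulTop x (LinearMap.ker p)) r :=
      PD.left ((QuotSMulTop.map x (LinearMap.ker p).subtype).extendScalarsOfSurjective hs)
        ((QuotSMulTop.map x p).extendScalarsOfSurjective hs)
        (map_inj x _ p (LinearMap.ker p).injective_subtype hex hM)
        (QuotSMulTop.map_exact x hex hp) (QuotSMulTop.map_surjective x hp)
        (PD.of_projective r) h
    exact PD.right (LinearMap.ker p).subtype p (LinearMap.ker p).injective_subtype hex hp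
      (ih _ hK h1) (PD.of_projective _)

theorem not_le_sq {O : Type u} [CommRing O] [IsLocalRing O] [IsNoetherianRing O] (d : ℕ)
    (hd : ringKrullDim O = (d + 1 : ℕ)) : ¬ maximalIdeal O ≤ maximalIdeal O ^ 2 := by
  intro h
  have h1 : maximalIdeal O = ⊥ := by
    refine Submodule.eq_bot_of_le_smul_of_le_jacobson_bot (maximalIdeal O) _
      (maximalIdeal O).fg_of_isNoetherianRing ?_ (maximalIdeal_le_jacobson _)
    rwa [smul_eq_mul, ← pow_two]
  have h2 : IsField O := isField_iff_maximalIdeal_eq.2 h1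
  rw [ringKrullDim_eq_zero_of_isField h2] at hd
  have : (0 : ℕ) = d + 1 := by exact_mod_cast hd
  omega

theorem dim_eq {a : WithBot ℕ∞} {d : ℕ} (h : a + 1 = ((d + 1 : ℕ) : WithBot ℕ∞)) :
    a = (d : ℕ) := by
  induction a with
  | bot => simp at h; exact absurd h (by exact_mod_cast WithBot.bot_ne_coe)
  | coe a =>
    induction a with
    | top =>
      have : (⊤ : ℕ∞) + 1 = ((d + 1 : ℕ) : ℕ∞) := by exact_mod_cast h
      rw [top_add] at this
      exact absurd this (ENat.top_ne_natCast _)
    | coe a =>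
      have : a + 1 = d + 1 := by exact_mod_cast h
      have : a = d := by omega
      rw [this]; rfl

end PdP

theorem pdReg (h : S_RegQuot.{u}) (h' : S_RegDom.{u}) : S_PdReg.{u} := by
  intro d
  induction d with
  | zero =>
    intro O _ _ hd M _ _ _
    have := h' O
    have : Ring.KrullDimLE 0 O := Ring.krullDimLE_iff.2 hd.le
    have hf : IsField O := Ring.KrullDimLE.isField_of_isDomain
    let _ := hf.toField
    have : Module.Free O M := Module.Free.of_divisionRing O M
    exact PD.of_projective 0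
  | succ d ih =>
    intro O _ _ hd M _ _ _
    have := h' O
    obtain ⟨x, hx, hx2⟩ := SetLike.not_le_iff_exists.1 (PdP.not_le_sq d hd)
    obtain ⟨h1, h2⟩ := h O x hx hx2
    have hx0 : x ≠ 0 := fun e => hx2 (e ▸ Submodule.zero_mem _)
    have hO : IsSMulRegular O x := fun a b hab => mul_left_cancel₀ hx0 hab
    obtain ⟨N, p, hp⟩ := Module.Finite.exists_fin' O M
    have hF : IsSMulRegular (Fin N → O) x := fun a b hab => funext fun i => hO (congrFun hab i)
    have hK : IsSMulRegular (LinearMap.ker p) x := hF.submodule _ x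
    have : Module.Finite (O ⧸ Ideal.span {x}) (QuotSMulTop x (LinearMap.ker p)) :=
      Module.Finite.of_restrictScalars_finite O _ _
    have h3 := ih (O ⧸ Ideal.span {x}) (PdP.dim_eq (h2.trans hd))
      (QuotSMulTop x (LinearMap.ker p))
    exact PD.right (LinearMap.ker p).subtype p (LinearMap.ker p).injective_subtype
      (LinearMap.exact_subtype_ker_map p) hp (PdP.lift x hx hO d _ hK h3) (PD.of_projective _)

theorem pd2 (h : S_RegQuot.{u}) (h' : S_RegDom.{u}) : S_PD2.{u} := by
  intro O _ _ 𝔮 hd hq hqm r c hc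
  have := h' O
  have hd' : ringKrullDim O = ((2 + 1 : ℕ) : WithBot ℕ∞) := hd
  have hn : ¬ (maximalIdeal O : Set O) ⊆ (maximalIdeal O ^ 2 : Ideal O) ∪ 𝔮 := by
    rw [Ideal.subset_union]
    rintro (h1 | h1)
    · exact PdP.not_le_sq 2 hd' h1
    · exact hqm (le_antisymm (le_maximalIdeal hq.ne_top) h1)
  obtain ⟨x, hx, hx'⟩ := Set.not_subset.1 hn
  have hx2 : x ∉ maximalIdeal O ^ 2 := fun e => hx' (Or.inl e)
  have hxq : x ∉ 𝔮 := fun e => hx' (Or.inr e)
  obtain ⟨h1, h2⟩ := h O x hx hx2
  have hx0 : x ≠ 0 := fun e => hx2 (e ▸ Submodule.zero_mem _)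
  have hO : IsSMulRegular O x := fun a b hab => mul_left_cancel₀ hx0 hab
  have hQ : IsSMulRegular (O ⧸ 𝔮) x := by
    rw [isSMulRegular_quotient_iff_mem_of_smul_mem]
    intro a ha
    exact (hq.mem_or_mem ha).resolve_left hxq
  have : Module.Finite (O ⧸ Ideal.span {x}) (QuotSMulTop x (O ⧸ 𝔮)) :=
    Module.Finite.of_restrictScalars_finite O _ _
  have h3 := pdReg h h' 2 (O ⧸ Ideal.span {x}) (PdP.dim_eq (h2.trans hd'))
    (QuotSMulTop x (O ⧸ 𝔮))
  have h4 : PD O (O ⧸ 𝔮) 2 := PdP.lift x hx hO 2 _ hQ h3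
  have h5 : PD O 𝔮 1 :=
    PD.left (Submodule.subtype 𝔮) (Submodule.mkQ 𝔮) (Submodule.injective_subtype 𝔮)
      (LinearMap.exact_subtype_mkQ 𝔮) (Submodule.mkQ_surjective 𝔮) (PD.of_projective 1) h4
  have hr : LinearMap.range (Fintype.linearCombination O c) = 𝔮 := by
    rw [Fintype.range_linearCombination]
    exact hc
  let g : (Fin r → O) →ₗ[O] 𝔮 :=
    (Fintype.linearCombination O c).codRestrict 𝔮 fun v => hr ▸ LinearMap.mem_range_self _ v
  have hg : Surjective g := fun y => by
    obtain ⟨v, hv⟩ : (y : O) ∈ LinearMap.range (Fintype.linearCombination O c) := hr ▸ y.2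
    exact ⟨v, Subtype.ext hv⟩
  have hex : Exact (LinearMap.ker (Fintype.linearCombination O c)).subtype g := fun v =>
    ⟨fun hv => ⟨⟨v, congrArg Subtype.val hv⟩, rfl⟩, fun ⟨w, hw⟩ => Subtype.ext (hw ▸ w.2)⟩
  have h6 : PD O (LinearMap.ker (Fintype.linearCombination O c)) 0 :=
    PD.left _ g (Submodule.injective_subtype _) hex hg (PD.of_projective 0) h5
  have := pd_zero_iff.1 h6
  exact Module.free_of_flat_of_isLocalRing

end Pool.Agent.P.MP_46a8f8_ag
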