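import Pool.Agent.P.MP_46a8f8_ag.Base

/-!
A change of coordinates that makes a polynomial monic modulo the maximal ideal, and the
geometric presentation used in the trick of Quillen.
-/

namespace Pool.Agent.P.MP_46a8f8_ag

open Polynomial IsLocalRing Function

universe u

namespace QGeoP

section

variable (B : Type u) [CommRing B] (n N : ℕ)

/-- the substitution -/
noncomputable def T1 (c : B) :
    MvPolynomial (Fin (n + 1)) B →ₐ[B] MvPolynomial (Fin (n + 1)) B :=
  MvPolynomial.aeval fun i => if i = 0 then MvPolynomial.X 0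
    else MvPolynomial.X i + c • MvPolynomial.X 0 ^ N ^ i.1

theorem T1_comp (c : B) : (T1 B n N c).comp (T1 B n N (-c)) = AlgHom.id _ _ := by
  apply MvPolynomial.algHom_ext
  intro i
  cases i using Fin.cases <;> simp [T1]

/-- the change of coordinates -/
noncomputable def eq : MvPolynomial (Fin (n + 1)) B ≃ₐ[B] (MvPolynomial (Fin n) B)[X] :=
  (AlgEquiv.ofAlgHom (T1 B n N 1) (T1 B n N (-1)) (T1_comp B n N 1)
    (by simpa using T1_comp B n N (-1))).trans (MvPolynomial.finSuccEquiv B n)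

variable [Nontrivial B] {N}

theorem eq_X (hN : N ≠ 0) (i : Fin (n + 1)) : (eq B n N (MvPolynomial.X i)).Monic ∧
    (eq B n N (MvPolynomial.X i)).natDegree = N ^ i.1 := by
  cases i using Fin.cases with
  | zero =>
    have : eq B n N (MvPolynomial.X 0) = X := by
      simp [eq, T1, MvPolynomial.finSuccEquiv_X_zero]
    rw [this]
    exact ⟨monic_X, natDegree_X⟩
  | succ j =>
    have : eq B n N (MvPolynomial.X j.succ) = X ^ N ^ j.succ.1 + C (MvPolynomial.X j) := by
      simp [eq, T1, MvPolynomial.finSuccEquiv_X_zero, MvPolynomial.finSuccEquiv_X_succ, add_comm]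
    rw [this]
    exact ⟨monic_X_pow_add_C _ (pow_ne_zero _ hN), natDegree_X_pow_add_C⟩

theorem eq_mono (hN : N ≠ 0) (v : Fin (n + 1) →₀ ℕ) :
    (eq B n N (MvPolynomial.monomial v 1)).Monic ∧
    (eq B n N (MvPolynomial.monomial v 1)).natDegree = ∑ i, N ^ i.1 * v i := by
  rw [MvPolynomial.monomial_eq, MvPolynomial.C_1, one_mul, Finsupp.prod_fintype _ _ (by simp),
    map_prod]
  simp only [map_pow]
  refine ⟨monic_prod_of_monic _ _ fun i _ => (eq_X B n hN i).1.pow _, ?_⟩
  rw [natDegree_prod_of_monic _ _ fun i _ => (eq_X B n hN i).1.pow _]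
  refine Finset.sum_congr rfl fun i _ => ?_
  rw [(eq_X B n hN i).1.natDegree_pow, (eq_X B n hN i).2, mul_comm]

end

theorem digits_ne {n N : ℕ} (hN : 1 < N) {v w : Fin (n + 1) →₀ ℕ} (hv : ∀ i, v i < N)
    (hw : ∀ i, w i < N) (h : ∑ i, N ^ i.1 * v i = ∑ i, N ^ i.1 * w i) : v = w := by
  refine Finsupp.ext <| congrFun <| List.ofFn_inj.mp ?_
  apply Nat.ofDigits_inj_of_len_eq hN (by simp) (by grind) (by grind)
  simpa only [Nat.ofDigits_eq_sum_mapIdx, List.mapIdx_eq_ofFn, List.get_ofFn, List.length_ofFn,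
    Fin.val_cast, mul_comm, List.sum_ofFn] using! h

theorem EE.inj {C R : Type u} [CommRing C] [CommRing R] {φ : C →+* R} (h : EE φ)
    {P Q : Ideal R} [P.IsPrime] [Q.IsPrime] (hPQ : P ≤ Q) (e : P.comap φ = Q.comap φ) : P = Q := by
  obtain ⟨-, h2, h3⟩ := h
  algebraize [φ]
  exact Algebra.QuasiFinite.eq_of_le_of_under_eq (R := C) P Q hPQ e

theorem EE.comp {C C' R : Type u} [CommRing C] [CommRing C'] [CommRing R] {φ : C →+* R}
    (h : EE φ) {ψ : C' →+* C} (hψ : Bijective ψ) : EE (φ.comp ψ) :=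
  ⟨(RingHom.Flat.of_bijective hψ).comp h.1,
    (RingHom.FormallyUnramified.of_surjective hψ.2).comp h.2.1,
    (RingHom.FiniteType.of_surjective _ hψ.2).essFiniteType.comp h.2.2⟩

/-- a fibre of the polynomial ring has dimension at most one -/
theorem fibre {R : Type u} [CommRing R] (a b c : Ideal R[X]) [a.IsPrime] [b.IsPrime] [c.IsPrime]
    (hab : a < b) (hbc : b < c) (h : c.comap C ≤ a.comap C) : False := by
  let p : PrimeSpectrum R := ⟨a.comap C, inferInstance⟩
  have hd : Order.krullDim (PrimeSpectrum.comap (algebraMap R R[X]) ⁻¹' {p}) ≤ (1 : ℕ) := by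
    rw [Order.krullDim_eq_of_orderIso (PrimeSpectrum.preimageOrderIsoFiber R R[X] p),
      ← ringKrullDim,
      ← ringKrullDim_eq_of_ringEquiv (polyEquivTensor R (p.asIdeal.ResidueField)).toRingEquiv,
      ← Ring.krullDimLE_iff]
    infer_instance
  let a' : PrimeSpectrum.comap (algebraMap R R[X]) ⁻¹' {p} := ⟨⟨a, inferInstance⟩, rfl⟩
  let b' : PrimeSpectrum.comap (algebraMap R R[X]) ⁻¹' {p} := ⟨⟨b, inferInstance⟩,
    PrimeSpectrum.ext (le_antisymm ((Ideal.comap_mono hbc.le).trans h) (Ideal.comap_mono hab.le))⟩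
  let c' : PrimeSpectrum.comap (algebraMap R R[X]) ⁻¹' {p} := ⟨⟨c, inferInstance⟩,
    PrimeSpectrum.ext (le_antisymm h (Ideal.comap_mono (hab.trans hbc).le))⟩
  rcases Order.krullDim_le_one_iff.1 hd b' with h1 | h1
  · exact h1.not_lt (show a' < b' from hab)
  · exact h1.not_lt (show b' < c' from hbc)

theorem exists_mid {R : Type u} [CommRing R] [IsDomain R] (𝔭 : Ideal R) [𝔭.IsPrime]
    (h : 2 ≤ 𝔭.height) : ∃ q : Ideal R, q.IsPrime ∧ ⊥ < q ∧ q < 𝔭 := by
  by_contra hn
  have : 𝔭.height ≤ (1 : ℕ) := Ideal.height_le_iff.2 fun q hq hlt => by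
    have : q = ⊥ := by
      by_contra h0
      exact hn ⟨q, hq, bot_lt_iff_ne_bot.2 h0, hlt⟩
    rw [this, Ideal.height_bot]
    exact zero_lt_one
  exact absurd (h.trans this) (by norm_num)

theorem exists_rad {C R : Type u} [CommRing C] [CommRing R] [IsNoetherianRing R] {φ : C →+* R}
    (h : EE φ) (P J : Ideal R) [P.IsPrime] (hPJ : P ≤ J) (hn : ¬ J ≤ P) :
    ∃ x : C, φ x ∉ P ∧ φ x ∈ J.radical := by
  have key : ∀ q : J.minimalPrimes, ∃ x : C, φ x ∉ P ∧ φ x ∈ q.1 := fun q => by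
    have := q.2.1.1
    by_contra hx
    refine hn (q.2.1.2.trans (EE.inj h (hPJ.trans q.2.1.2) (le_antisymm
      (Ideal.comap_mono (hPJ.trans q.2.1.2)) fun x hq => ?_)).ge)
    by_contra hp
    exact hx ⟨x, hp, hq⟩
  choose x hx hx' using key
  have := (Ideal.finite_minimalPrimes_of_isNoetherianRing R J).fintype
  refine ⟨∏ q, x q, ?_, ?_⟩
  · rw [map_prod, Ideal.IsPrime.prod_mem_iff]
    rintro ⟨q, -, hq⟩
    exact hx q hq
  · rw [← Ideal.sInf_minimalPrimes, Ideal.mem_sInf, map_prod]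
    intro q hq
    exact Ideal.mem_of_dvd _ (Finset.dvd_prod_of_mem _ (Finset.mem_univ ⟨q, hq⟩)) (hx' ⟨q, hq⟩)

end QGeoP

open QGeoP in
theorem nagata : S_Nagata.{u} := by
  intro B _ _ m P hP
  classical
  let N := 2 + P.totalDegree
  have hN : 1 < N := by omega
  have hN0 : N ≠ 0 := by omega
  let E : (Fin (m + 1) →₀ ℕ) → (MvPolynomial (Fin m) B)[X] := fun v =>
    eq B m N (MvPolynomial.monomial v 1)
  let S := P.support.filter fun v => IsUnit (P.coeff v)
  have hs : ∀ v, MvPolynomial.monomial v (P.coeff v) =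
      P.coeff v • MvPolynomial.monomial v (1 : B) := fun v => by
    rw [MvPolynomial.smul_monomial, smul_eq_mul, mul_one]
  have hS : S.Nonempty := by
    by_contra h
    apply hP
    rw [← P.support_sum_monomial_coeff]
    refine Ideal.sum_mem _ fun v hv => ?_
    rw [hs, Algebra.smul_def]
    exact Ideal.mul_mem_right _ _ (Ideal.mem_map_of_mem _ ((mem_maximalIdeal _).2 fun hu =>
      h ⟨v, Finset.mem_filter.2 ⟨hv, hu⟩⟩))
  have hlt : ∀ v ∈ S, ∀ i, v i < N := fun v hv i =>
    lt_of_le_of_lt ((MvPolynomial.monomial_le_degreeOf i (Finset.mem_filter.1 hv).1).trans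
      (MvPolynomial.degreeOf_le_totalDegree P i)) (by omega)
  obtain ⟨v, hv, hmax⟩ := Finset.exists_max_image S (fun v => (E v).natDegree) hS
  obtain ⟨c, hc⟩ := (Finset.mem_filter.1 hv).2
  refine ⟨eq B m N, E v + ∑ w ∈ S.erase v, ((↑c⁻¹ : B) * P.coeff w) • E w, c, ?_, ?_⟩
  · refine (eq_mono B m hN0 v).1.add_of_left (lt_of_le_of_lt (degree_sum_le _ _) ?_)
    refine (Finset.sup_lt_iff (bot_lt_iff_ne_bot.2
      (degree_ne_bot.2 (eq_mono B m hN0 v).1.ne_zero))).2 fun w hw => ?_
    obtain ⟨hwv, hw⟩ := Finset.mem_erase.1 hw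
    refine lt_of_le_of_lt (degree_smul_le _ _) (degree_lt_degree (lt_of_le_of_ne (hmax w hw) ?_))
    rw [(eq_mono B m hN0 v).2, (eq_mono B m hN0 w).2]
    exact fun e => hwv (digits_ne hN (hlt w hw) (hlt v hv) e)
  · have e1 : (c : B) • (E v + ∑ w ∈ S.erase v, ((↑c⁻¹ : B) * P.coeff w) • E w) =
        ∑ w ∈ S, P.coeff w • E w := by
      rw [← Finset.add_sum_erase S _ hv, smul_add, Finset.smul_sum, hc]
      congr 1
      exact Finset.sum_congr rfl fun w _ => by rw [smul_smul, ← hc, Units.mul_inv_cancel_left]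
    have e2 : eq B m N P = ∑ w ∈ P.support, P.coeff w • E w := by
      conv_lhs => rw [← P.support_sum_monomial_coeff]
      rw [map_sum]
      exact Finset.sum_congr rfl fun w _ => by rw [hs, map_smul]
    rw [e1, e2, ← Finset.sum_filter_add_sum_filter_not P.support fun v => IsUnit (P.coeff v),
      add_sub_cancel_left]
    refine Ideal.sum_mem _ fun w hw => ?_
    rw [Algebra.smul_def]
    exact Ideal.mul_mem_right _ _ (Ideal.mem_map_of_mem _
      ((mem_maximalIdeal _).2 (Finset.mem_filter.1 hw).2))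

open QGeoP in
theorem qgeo (h : S_Nagata.{u}) : S_QGeo.{u} := by
  intro B R _ _ _ _ _ _ _ _ _ m φ 𝔭 hE hP h𝔭 hh hn
  have hm : (maximalIdeal B).map (algebraMap B R) ≤ maximalIdeal R :=
    le_maximalIdeal hP.ne_top
  obtain ⟨P, hP1, hP2⟩ := exists_rad hE _ (𝔭 ⊔ (maximalIdeal B).map (algebraMap B R))
    le_sup_right fun hle => hn (le_sup_left.trans hle)
  have hmap : ∀ {C : Type u} [CommRing C] [Algebra B C] (f : C →ₐ[B] R) (x : C),
      x ∈ (maximalIdeal B).map (algebraMap B C) → f x ∈ (maximalIdeal B).map (algebraMap B R) :=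
    fun f x hx => by
      have := Ideal.mem_map_of_mem (f : _ →+* R) hx
      rwa [Ideal.map_map, AlgHom.comp_algebraMap] at this
  have hP3 : P ∉ (maximalIdeal B).map (algebraMap B (MvPolynomial (Fin m) B)) :=
    fun hx => hP1 (hmap φ P hx)
  cases m with
  | zero =>
    exfalso
    obtain ⟨b, rfl⟩ := MvPolynomial.C_surjective (Fin 0) P
    have hb : IsUnit b := by
      by_contra hb
      exact hP3 (Ideal.mem_map_of_mem _ ((mem_maximalIdeal _).2 hb))
    have h1 := (Ideal.IsPrime.radical_le_iff inferInstance).2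
      (sup_le (le_maximalIdeal h𝔭.ne_top) hm) hP2
    exact (mem_maximalIdeal _).1 h1 ((hb.map MvPolynomial.C).map _)
  | succ m =>
    obtain ⟨e, Q, c, hQ, hc⟩ := h B m P hP3
    let f : (MvPolynomial (Fin m) B)[X] →ₐ[B] R := φ.comp e.symm.toAlgHom
    have hf : EE (f : (MvPolynomial (Fin m) B)[X] →+* R) := EE.comp hE e.symm.bijective
    refine ⟨MvPolynomial (Fin m) B, inferInstance, inferInstance, f, hf, ?_, ?_⟩
    · have h1 := hmap f _ hc
      have h2 : f (e P) = φ P := by simp [f]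
      rw [map_sub, h2, map_smul] at h1
      have h3 : (c : B) • f Q ∈ (𝔭 ⊔ (maximalIdeal B).map (algebraMap B R)).radical := by
        have := Ideal.sub_mem _ hP2 (Ideal.le_radical (Ideal.mem_sup_right h1))
        simpa using this
      have h4 := Submodule.smul_of_tower_mem _ (↑c⁻¹ : B) h3
      rw [smul_smul, Units.inv_mul, one_smul] at h4
      obtain ⟨N, hN⟩ := h4
      refine ⟨Q, N, hQ, (?_ : 𝔭 ⊔ (maximalIdeal B).map (algebraMap B R) ≤ _) hN⟩
      refine sup_le_sup_left (Ideal.map_le_iff_le_comap.2 fun b hb => ?_) _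
      have e1 : (f : (MvPolynomial (Fin m) B)[X] →+* R).comp C (MvPolynomial.C b) =
          algebraMap B R b := f.commutes b
      rw [Ideal.mem_comap, ← e1]
      refine Ideal.mem_map_of_mem _ ?_
      rw [Ideal.mem_comap, e1]
      exact hm (Ideal.mem_map_of_mem _ hb)
    · obtain ⟨q, hq, h0, h1⟩ := exists_mid 𝔭 hh
      by_contra hr
      refine fibre ((⊥ : Ideal R).comap (f : (MvPolynomial (Fin m) B)[X] →+* R))
        (q.comap (f : (MvPolynomial (Fin m) B)[X] →+* R))
        (𝔭.comap (f : (MvPolynomial (Fin m) B)[X] →+* R))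
        (lt_of_le_of_ne (Ideal.comap_mono h0.le) fun e => h0.ne (EE.inj hf h0.le e))
        (lt_of_le_of_ne (Ideal.comap_mono h1.le) fun e => h1.ne (EE.inj hf h1.le e))
        fun r hr' => ?_
      by_contra hz
      exact hr ⟨r, hr', hz⟩

end Pool.Agent.P.MP_46a8f8_ag
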