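import Pool.Agent.P.MP_46a8f8_ag.Base

/-!
The tensor construction used in the trick of Quillen.
-/

namespace Pool.Agent.P.MP_46a8f8_ag

open TensorProduct Polynomial Function

universe u

namespace QLiftP

section reg

variable {R' N : Type u} [CommRing R'] [AddCommGroup N] [Module R' N]

theorem poly_inj (S A : N →ₗ[R'] N) (hS : Injective S) :
    Injective ((X : R'[X]) • S.baseChange R'[X] - A.baseChange R'[X]) := by
  classical
  let Φ : R'[X] ⊗[R'] N ≃ₗ[R'] (ℕ →₀ N) :=
    TensorProduct.equivFinsuppOfBasisLeft (Polynomial.basisMonomials R')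
  have hΦ : ∀ (p : R'[X]) (n : N) (k : ℕ), Φ (p ⊗ₜ n) k = p.coeff k • n := by
    intro p n k
    simp only [Φ, TensorProduct.equivFinsuppOfBasisLeft_apply_tmul_apply]
    rfl
  have key : ∀ (z : R'[X] ⊗[R'] N) (k : ℕ),
      Φ (((X : R'[X]) • S.baseChange R'[X] - A.baseChange R'[X]) z) (k + 1) =
        S (Φ z k) - A (Φ z (k + 1)) := by
    intro z k
    induction z using TensorProduct.induction_on with
    | zero => simp
    | tmul p n =>
      simp only [LinearMap.sub_apply, LinearMap.smul_apply, LinearMap.baseChange_tmul,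
        smul_tmul', map_sub, Finsupp.sub_apply, hΦ, smul_eq_mul, coeff_X_mul, map_smul]
    | add x y hx hy =>
      simp only [map_add, Finsupp.add_apply, hx, hy]
      abel
  rw [injective_iff_map_eq_zero]
  intro z hz
  by_contra hne
  have h1 : (Φ z).support.Nonempty := by
    rw [Finsupp.support_nonempty_iff]
    intro h
    exact hne (Φ.injective (h.trans (map_zero Φ).symm))
  have h2 := (Φ z).support.max'_mem h1
  have h3 : Φ z ((Φ z).support.max' h1 + 1) = 0 := by
    by_contra h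
    have := (Φ z).support.le_max' _ (Finsupp.mem_support_iff.2 h)
    omega
  have h4 := key z ((Φ z).support.max' h1)
  rw [hz, h3, map_zero, map_zero, sub_zero] at h4
  exact Finsupp.mem_support_iff.1 h2 (hS (by rw [← h4, map_zero]; rfl))

theorem flat_inj (R : Type u) [CommRing R] [Algebra R' R] [Algebra R'[X] R]
    [IsScalarTower R' R'[X] R] [Module.Flat R'[X] R] (S A : N →ₗ[R'] N) (hS : Injective S) :
    Injective (algebraMap R'[X] R X • S.baseChange R - A.baseChange R) := by
  have h1 := Module.Flat.lTensor_preserves_injective_linearMap (M := R) _ (poly_inj S A hS)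
  let e := AlgebraTensorModule.cancelBaseChange R' R'[X] R R N
  have key : ∀ z : R ⊗[R'] N, (algebraMap R'[X] R X • S.baseChange R - A.baseChange R) z =
      e ((((X : R'[X]) • S.baseChange R'[X] - A.baseChange R'[X]).lTensor R) (e.symm z)) := by
    intro z
    induction z using TensorProduct.induction_on with
    | zero => simp
    | tmul r n =>
      simp only [e, LinearMap.sub_apply, LinearMap.smul_apply, LinearMap.baseChange_tmul,
        AlgebraTensorModule.cancelBaseChange_symm_tmul, LinearMap.lTensor_tmul, smul_tmul',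
        tmul_sub, map_sub, AlgebraTensorModule.cancelBaseChange_tmul, smul_eq_mul, mul_one,
        one_smul]
      rw [Algebra.smul_def]
    | add x y hx hy => simp only [map_add, hx, hy]
  intro z z' h
  rw [key, key] at h
  exact e.symm.injective (h1 (e.injective h))

end reg

section ring

variable (R' R B D : Type u) [CommRing R'] [CommRing R] [Algebra R' R] [CommRing B] [Algebra R' B]
  [CommRing D] [Algebra R D] [Algebra R' D] [IsScalarTower R' R D] [Algebra B D]
  [IsScalarTower R' B D]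

/-- the multiplication map -/
noncomputable def mu : R ⊗[R'] B →ₐ[R] D :=
  Algebra.TensorProduct.lift (Algebra.ofId R D) (IsScalarTower.toAlgHom R' B D)
    (fun _ _ => Commute.all _ _)

variable {R' R B D}

theorem mu_tmul (r : R) (b : B) :
    mu R' R B D (r ⊗ₜ b) = algebraMap R D r * algebraMap B D b := rfl

theorem ker_le [Algebra R'[X] R] [IsScalarTower R' R'[X] R] [Algebra.FormallyUnramified R'[X] R]
    (hR : Surjective (algebraMap R D)) (hB : Injective (algebraMap B D))
    (hfr : ∀ d : D, ∃ a s : B, IsUnit (algebraMap B D s) ∧ algebraMap B D s * d = algebraMap B D a)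
    (s₀ α : B) (hs₀ : IsUnit (algebraMap B D s₀))
    (hα : algebraMap B D s₀ * algebraMap R D (algebraMap R'[X] R X) = algebraMap B D α) :
    RingHom.ker (mu R' R B D) ≤
      Ideal.span {algebraMap R'[X] R X ⊗ₜ[R'] s₀ - (1 : R) ⊗ₜ[R'] α} ⊔
        RingHom.ker (mu R' R B D) ^ 2 := by
  set q := RingHom.ker (mu R' R B D) with hq
  set J := Ideal.span {algebraMap R'[X] R X ⊗ₜ[R'] s₀ - (1 : R) ⊗ₜ[R'] α} ⊔ q ^ 2 with hJ
  let mk : R ⊗[R'] B →+* (R ⊗[R'] B) ⧸ J := Ideal.Quotient.mk J
  have hnil : (q.map mk) ^ 2 = ⊥ := by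
    rw [← Ideal.map_pow, Ideal.map_eq_bot_iff_le_ker, Ideal.mk_ker]
    exact le_sup_right
  have hunit : ∀ s : B, IsUnit (algebraMap B D s) → IsUnit (mk ((1 : R) ⊗ₜ s)) := by
    intro s hs
    obtain ⟨d, hd⟩ := hs.exists_left_inv
    obtain ⟨r, rfl⟩ := hR d
    have h1 : r ⊗ₜ[R'] s - 1 ∈ q := by
      rw [hq, RingHom.mem_ker, map_sub, mu_tmul, hd, map_one, sub_self]
    have h2 : IsNilpotent (mk (r ⊗ₜ[R'] s - 1)) := ⟨2, by
      have := Ideal.pow_mem_pow (Ideal.mem_map_of_mem mk h1) 2
      rwa [hnil, Ideal.mem_bot] at this⟩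
    have h3 := h2.isUnit_add_one
    rw [map_sub, map_one, sub_add_cancel] at h3
    have h4 : r ⊗ₜ[R'] s = (r ⊗ₜ[R'] (1 : B)) * ((1 : R) ⊗ₜ[R'] s) := by simp
    rw [h4, map_mul] at h3
    exact isUnit_of_mul_isUnit_right h3
  let S : Submonoid B := (IsUnit.submonoid D).comap (algebraMap B D)
  have hloc : IsLocalization S D := by
    rw [isLocalization_iff]
    refine ⟨fun y => y.2, fun d => ?_, fun {x y} h => ⟨1, by rw [hB h]⟩⟩
    obtain ⟨a, s, hs, h⟩ := hfr d
    exact ⟨(a, ⟨s, hs⟩), by rw [mul_comm]; exact h⟩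
  let j : B →+* (R ⊗[R'] B) ⧸ J :=
    mk.comp (Algebra.TensorProduct.includeRight : B →ₐ[R'] R ⊗[R'] B).toRingHom
  have hj : ∀ b, j b = mk ((1 : R) ⊗ₜ b) := fun _ => rfl
  let lam : D →+* (R ⊗[R'] B) ⧸ J :=
    IsLocalization.lift (M := S) (g := j) (fun y => hunit y.1 y.2)
  have hlam : ∀ b, lam (algebraMap B D b) = mk ((1 : R) ⊗ₜ b) := fun b =>
    IsLocalization.lift_eq _ b
  let f₁ : R →+* (R ⊗[R'] B) ⧸ J :=
    mk.comp (Algebra.TensorProduct.includeLeftRingHom : R →+* R ⊗[R'] B)
  have hf₁ : ∀ r, f₁ r = mk (r ⊗ₜ (1 : B)) := fun _ => rfl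
  let f₂ : R →+* (R ⊗[R'] B) ⧸ J := lam.comp (algebraMap R D)
  have hf₂ : ∀ r, f₂ r = lam (algebraMap R D r) := fun _ => rfl
  have hmul : ∀ (r : R) (b : B), f₁ r * mk ((1 : R) ⊗ₜ b) = mk (r ⊗ₜ b) := by
    intro r b
    rw [hf₁, ← map_mul]
    simp
  have hagree : f₂.comp (algebraMap R'[X] R) = f₁.comp (algebraMap R'[X] R) := by
    refine Polynomial.ringHom_ext (fun c => ?_) ?_
    · have e1 : algebraMap R'[X] R (C c) = algebraMap R' R c := by
        rw [IsScalarTower.algebraMap_apply R' R'[X] R, algebraMap_eq]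
      change f₂ (algebraMap R'[X] R (C c)) = f₁ (algebraMap R'[X] R (C c))
      rw [e1, hf₁, hf₂,
        ← IsScalarTower.algebraMap_apply R' R D, IsScalarTower.algebraMap_apply R' B D, hlam]
      congr 1
      rw [Algebra.algebraMap_eq_smul_one, Algebra.algebraMap_eq_smul_one, smul_tmul]
    · change f₂ (algebraMap R'[X] R X) = f₁ (algebraMap R'[X] R X)
      refine (hunit s₀ hs₀).mul_right_cancel ?_
      rw [hmul, hf₂, ← hlam, ← map_mul, mul_comm, hα, hlam, eq_comm, Ideal.Quotient.eq]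
      exact Ideal.mem_sup_left (Ideal.mem_span_singleton_self _)
  have heq : ∀ r, f₁ r = f₂ r := by
    let : Algebra R'[X] ((R ⊗[R'] B) ⧸ J) := (f₁.comp (algebraMap R'[X] R)).toAlgebra
    let g₁ : R →ₐ[R'[X]] (R ⊗[R'] B) ⧸ J := { f₁ with commutes' := fun _ => rfl }
    let g₂ : R →ₐ[R'[X]] (R ⊗[R'] B) ⧸ J :=
      { f₂ with commutes' := fun p => RingHom.congr_fun hagree p }
    have h := Algebra.FormallyUnramified.ext (I := q.map mk) ⟨2, hnil⟩ (g₁ := g₁) (g₂ := g₂)
      (fun r => by
        rw [Ideal.Quotient.eq]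
        change f₁ r - f₂ r ∈ _
        obtain ⟨a, s, hs, h⟩ := hfr (algebraMap R D r)
        rw [← Ideal.mul_unit_mem_iff_mem _ (hunit s hs), sub_mul, hmul, hf₂, ← hlam, ← map_mul,
          mul_comm, h, hlam, ← map_sub]
        refine Ideal.mem_map_of_mem mk ?_
        rw [hq, RingHom.mem_ker, map_sub, mu_tmul, mu_tmul, map_one, one_mul, mul_comm, h,
          sub_self])
    exact fun r => AlgHom.congr_fun h r
  have hfac : ∀ z : R ⊗[R'] B, mk z = lam (mu R' R B D z) := by
    intro z
    induction z using TensorProduct.induction_on with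
    | zero => simp
    | tmul r b => rw [mu_tmul, map_mul, hlam, ← hf₂, ← heq, hmul]
    | add x y hx hy => rw [map_add, map_add, map_add, hx, hy]
  intro z hz
  rw [← Ideal.Quotient.eq_zero_iff_mem]
  change mk z = 0
  rw [hfac, RingHom.mem_ker.1 hz, map_zero]

end ring

section module

variable (R' R B N : Type u) [CommRing R'] [CommRing R] [Algebra R' R] [CommRing B] [Algebra R' B]
  [AddCommGroup N] [Module R' N] [Module B N] [IsScalarTower R' B N]

/-- the action of the tensor product of rings -/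
noncomputable def rho : R ⊗[R'] B →ₐ[R] Module.End R (R ⊗[R'] N) :=
  Algebra.TensorProduct.lift (Algebra.ofId R _)
    ((Module.End.baseChangeHom R' R N).comp (Algebra.lsmul R' R' N))
    (fun r _ => Algebra.commutes r _)

variable {R' R B N}

theorem rho_tmul (r r' : R) (b : B) (n : N) :
    rho R' R B N (r ⊗ₜ b) (r' ⊗ₜ n) = (r * r') ⊗ₜ (b • n) := by
  simp [rho, Algebra.ofId_apply, Module.End.baseChangeHom, smul_tmul']

theorem rho_comm (f : N →ₗ[B] N) (t : R ⊗[R'] B) (e : R ⊗[R'] N) :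
    (f.restrictScalars R').baseChange R (rho R' R B N t e) =
      rho R' R B N t ((f.restrictScalars R').baseChange R e) := by
  induction t using TensorProduct.induction_on with
  | zero => simp
  | tmul r b =>
    induction e using TensorProduct.induction_on with
    | zero => simp
    | tmul r' n => simp [rho_tmul]
    | add x y hx hy => simp only [map_add, hx, hy]
  | add x y hx hy => simp only [map_add, LinearMap.add_apply, hx, hy]

variable {D M : Type u} [CommRing D] [Algebra R D] [Algebra R' D] [IsScalarTower R' R D]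
  [Algebra B D] [IsScalarTower R' B D] [AddCommGroup M] [Module D M]

variable (R' R) in
/-- the map to the module -/
noncomputable def pr (ι : N →ₛₗ[algebraMap B D] M) : R ⊗[R'] N →+ M :=
  TensorProduct.liftAddHom
    { toFun := fun r =>
        { toFun := fun n => algebraMap R D r • ι n
          map_zero' := by simp
          map_add' := fun _ _ => by simp }
      map_zero' := by ext; simp
      map_add' := fun _ _ => by ext; simp [add_smul] }
    (fun c r n => by
      change algebraMap R D (c • r) • ι n = algebraMap R D r • ι (c • n)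
      rw [← algebraMap_smul B c n, map_smulₛₗ ι, ← IsScalarTower.algebraMap_apply, smul_smul,
        Algebra.smul_def, map_mul, ← IsScalarTower.algebraMap_apply, mul_comm])

theorem pr_tmul (ι : N →ₛₗ[algebraMap B D] M) (r : R) (n : N) :
    pr R' R ι (r ⊗ₜ n) = algebraMap R D r • ι n := rfl

theorem pr_rho (ι : N →ₛₗ[algebraMap B D] M) (t : R ⊗[R'] B) (e : R ⊗[R'] N) :
    pr R' R ι (rho R' R B N t e) = mu R' R B D t • pr R' R ι e := by
  induction t using TensorProduct.induction_on with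
  | zero => simp
  | tmul r b =>
    induction e using TensorProduct.induction_on with
    | zero => simp
    | tmul r' n =>
      rw [rho_tmul, pr_tmul, pr_tmul, mu_tmul, map_smulₛₗ, smul_smul, smul_smul, map_mul]
      congr 1
      ring
    | add x y hx hy => simp only [map_add, hx, hy, smul_add]
  | add x y hx hy => simp only [map_add, LinearMap.add_apply, hx, hy, add_smul]

theorem main [Algebra R'[X] R] [IsScalarTower R' R'[X] R] [Module.Flat R'[X] R]
    [Algebra.FormallyUnramified R'[X] R] [Module.Finite R' B] [Module.Finite B N]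
    (hR : Surjective (algebraMap R D)) (hB : Injective (algebraMap B D))
    (hfr : ∀ d : D, ∃ a s : B, IsUnit (algebraMap B D s) ∧ algebraMap B D s * d = algebraMap B D a)
    (ι : N →ₛₗ[algebraMap B D] M) (hι : Injective ι)
    (hsp : Submodule.span D (Set.range ι) = ⊤) :
    ∃ (T : Type u) (_ : CommRing T) (_ : Algebra R T) (_ : Module.Finite R T) (_ : Algebra T D)
      (_ : IsScalarTower R T D) (E : Type u) (_ : AddCommGroup E) (_ : Module T E)
      (_ : Module.Finite T E) (π : E →ₛₗ[algebraMap T D] M) (g : T), Surjective π ∧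
      (∀ e, π e = 0 ↔ e ∈ RingHom.ker (algebraMap T D) • (⊤ : Submodule T E)) ∧
      (∀ β₀ : M →ₗ[D] M, ∃ β : E →ₗ[T] E, ∀ e, π (β e) = β₀ (π e)) ∧
      g ∈ RingHom.ker (algebraMap T D) ∧
      RingHom.ker (algebraMap T D) ≤ Ideal.span {g} ⊔ RingHom.ker (algebraMap T D) ^ 2 ∧
      IsSMulRegular E g ∧
      ∀ r : R', algebraMap R' D r = 0 → ∀ e : E, algebraMap R T (algebraMap R' R r) • e = 0 := by
  classical
  let aT : Algebra (R ⊗[R'] B) D := (mu R' R B D).toRingHom.toAlgebra
  have haT : ∀ t, algebraMap (R ⊗[R'] B) D t = mu R' R B D t := fun _ => rfl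
  have tw : IsScalarTower R (R ⊗[R'] B) D :=
    IsScalarTower.of_algebraMap_eq fun r => ((mu R' R B D).commutes r).symm
  let mE : Module (R ⊗[R'] B) (R ⊗[R'] N) :=
    Module.compHom (R ⊗[R'] N) (rho R' R B N).toRingHom
  have hE : ∀ (t : R ⊗[R'] B) (e : R ⊗[R'] N), t • e = rho R' R B N t e := fun _ _ => rfl
  have tE : IsScalarTower R (R ⊗[R'] B) (R ⊗[R'] N) :=
    ⟨fun r t e => by rw [hE, hE, map_smul, LinearMap.smul_apply]⟩
  have fN : Module.Finite R' N := Module.Finite.trans B N
  have fE : Module.Finite (R ⊗[R'] B) (R ⊗[R'] N) :=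
    Module.Finite.of_restrictScalars_finite R _ _
  let π : R ⊗[R'] N →ₛₗ[algebraMap (R ⊗[R'] B) D] M :=
    { toFun := pr R' R ι
      map_add' := map_add _
      map_smul' := fun t e => pr_rho ι t e }
  have hπ : ∀ (r : R) (n : N), π (r ⊗ₜ n) = algebraMap R D r • ι n := fun _ _ => rfl
  have hπR : ∀ (r : R) (e : R ⊗[R'] N), π (r • e) = algebraMap R D r • π e := by
    intro r e
    rw [← algebraMap_smul (R ⊗[R'] B) r e, map_smulₛₗ, ← IsScalarTower.algebraMap_apply]
  set q := RingHom.ker (algebraMap (R ⊗[R'] B) D) with hq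
  have hsurj : Surjective π := by
    intro m
    have hm : m ∈ Submodule.span D (Set.range ι) := hsp ▸ Submodule.mem_top
    induction hm using Submodule.span_induction with
    | mem x hx =>
      obtain ⟨n, rfl⟩ := hx
      exact ⟨1 ⊗ₜ n, by rw [hπ, map_one, one_smul]⟩
    | zero => exact ⟨0, map_zero _⟩
    | add x y _ _ hx hy =>
      obtain ⟨e, rfl⟩ := hx
      obtain ⟨e', rfl⟩ := hy
      exact ⟨e + e', map_add _ _ _⟩
    | smul d x _ hx =>
      obtain ⟨e, rfl⟩ := hx
      obtain ⟨r, rfl⟩ := hR d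
      exact ⟨r • e, hπR r e⟩
  have hker : ∀ e ∈ q • (⊤ : Submodule (R ⊗[R'] B) (R ⊗[R'] N)), π e = 0 := by
    intro e he
    refine Submodule.smul_induction_on he (fun t ht e _ => ?_) (fun x y hx hy => ?_)
    · rw [map_smulₛₗ, RingHom.mem_ker.1 ht, zero_smul]
    · rw [map_add, hx, hy, add_zero]
  have hone : ∀ (b : B) (n : N), ((1 : R) ⊗ₜ[R'] b) • ((1 : R) ⊗ₜ[R'] n) = (1 : R) ⊗ₜ (b • n) := by
    intro b n
    rw [hE, rho_tmul, one_mul]
  have hnorm : ∀ e : R ⊗[R'] N, ∃ s : B, IsUnit (algebraMap B D s) ∧ ∃ n : N,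
      ((1 : R) ⊗ₜ[R'] s) • e - (1 : R) ⊗ₜ[R'] n ∈
        q • (⊤ : Submodule (R ⊗[R'] B) (R ⊗[R'] N)) := by
    intro e
    induction e using TensorProduct.induction_on with
    | zero => exact ⟨1, by simp, 0, by simp⟩
    | tmul r n =>
      obtain ⟨a, s, hs, h⟩ := hfr (algebraMap R D r)
      refine ⟨s, hs, a • n, ?_⟩
      have e1 : ((1 : R) ⊗ₜ[R'] s) • (r ⊗ₜ[R'] n) - (1 : R) ⊗ₜ[R'] (a • n) =
          (r ⊗ₜ[R'] s - (1 : R) ⊗ₜ[R'] a) • ((1 : R) ⊗ₜ[R'] n) := by
        rw [sub_smul, hone, hE, hE, rho_tmul, rho_tmul, one_mul, mul_one]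
      rw [e1]
      refine Submodule.smul_mem_smul ?_ Submodule.mem_top
      rw [hq, RingHom.mem_ker, haT, map_sub, mu_tmul, mu_tmul, map_one, one_mul, mul_comm, h,
        sub_self]
    | add x y hx hy =>
      obtain ⟨s, hs, n, h⟩ := hx
      obtain ⟨s', hs', n', h'⟩ := hy
      refine ⟨s * s', by rw [map_mul]; exact hs.mul hs', s' • n + s • n', ?_⟩
      have e0 : (1 : R) ⊗ₜ[R'] (s * s') = ((1 : R) ⊗ₜ[R'] s) * ((1 : R) ⊗ₜ[R'] s') := by simp
      have e1 : ((1 : R) ⊗ₜ[R'] (s * s')) • (x + y) - (1 : R) ⊗ₜ[R'] (s' • n + s • n') =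
          ((1 : R) ⊗ₜ[R'] s') • (((1 : R) ⊗ₜ[R'] s) • x - (1 : R) ⊗ₜ[R'] n) +
          ((1 : R) ⊗ₜ[R'] s) • (((1 : R) ⊗ₜ[R'] s') • y - (1 : R) ⊗ₜ[R'] n') := by
        rw [tmul_add, ← hone, ← hone, e0, smul_add, smul_sub, smul_sub, smul_smul, smul_smul,
          mul_comm ((1 : R) ⊗ₜ[R'] s') ((1 : R) ⊗ₜ[R'] s)]
        abel
      rw [e1]
      exact add_mem (Submodule.smul_mem _ _ h) (Submodule.smul_mem _ _ h')
  have hnorm' : ∀ (e : R ⊗[R'] N) (s : B) (n : N), ((1 : R) ⊗ₜ[R'] s) • e - (1 : R) ⊗ₜ[R'] n ∈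
      q • (⊤ : Submodule (R ⊗[R'] B) (R ⊗[R'] N)) → ι n = algebraMap B D s • π e := by
    intro e s n h
    have h1 := hker _ h
    rw [map_sub, map_smulₛₗ, haT, mu_tmul, hπ, map_one, one_mul, one_smul, sub_eq_zero] at h1
    exact h1.symm
  obtain ⟨α, s₀, hs₀, hα⟩ := hfr (algebraMap R D (algebraMap R'[X] R X))
  refine ⟨R ⊗[R'] B, inferInstance, inferInstance, inferInstance, aT, tw, R ⊗[R'] N,
    inferInstance, mE, fE, π, algebraMap R'[X] R X ⊗ₜ[R'] s₀ - (1 : R) ⊗ₜ[R'] α, hsurj,
    fun e => ⟨fun he => ?_, hker e⟩, fun β₀ => ?_, ?_, ?_, ?_, fun r hr e => ?_⟩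
  · obtain ⟨s, hs, n, h⟩ := hnorm e
    have h1 := hnorm' e s n h
    rw [he, smul_zero] at h1
    have h2 : n = 0 := hι (h1.trans (map_zero ι).symm)
    rw [h2, tmul_zero, sub_zero] at h
    obtain ⟨d, hd⟩ := hs.exists_left_inv
    obtain ⟨r, rfl⟩ := hR d
    have h3 : (1 : R ⊗[R'] B) - r ⊗ₜ[R'] s ∈ q := by
      rw [hq, RingHom.mem_ker, haT, map_sub, mu_tmul, hd, map_one, sub_self]
    have e0 : r ⊗ₜ[R'] s = (r ⊗ₜ[R'] (1 : B)) * ((1 : R) ⊗ₜ[R'] s) := by simp
    have e1 : e = ((1 : R ⊗[R'] B) - r ⊗ₜ[R'] s) • e +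
        (r ⊗ₜ[R'] (1 : B)) • (((1 : R) ⊗ₜ[R'] s) • e) := by
      rw [smul_smul, ← e0, ← add_smul, sub_add_cancel, one_smul]
    rw [e1]
    exact add_mem (Submodule.smul_mem_smul h3 Submodule.mem_top) (Submodule.smul_mem _ _ h)
  · have hden : ∀ m : M, ∃ s : B, IsUnit (algebraMap B D s) ∧ ∃ n : N,
        ι n = algebraMap B D s • m := by
      intro m
      obtain ⟨e, rfl⟩ := hsurj m
      obtain ⟨s, hs, n, h⟩ := hnorm e
      exact ⟨s, hs, n, hnorm' e s n h⟩
    have hfin : ∀ F : Finset N, ∃ s : B, IsUnit (algebraMap B D s) ∧ ∀ x ∈ F, ∃ n : N,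
        ι n = algebraMap B D s • β₀ (ι x) := by
      intro F
      induction F using Finset.induction_on with
      | empty => exact ⟨1, by simp, by simp⟩
      | insert y F _ ih =>
        obtain ⟨s, hs, h⟩ := ih
        obtain ⟨s', hs', n', h'⟩ := hden (β₀ (ι y))
        refine ⟨s * s', by rw [map_mul]; exact hs.mul hs', fun x hx => ?_⟩
        rcases Finset.mem_insert.1 hx with rfl | hx
        · exact ⟨s • n', by rw [map_smulₛₗ, h', smul_smul, map_mul]⟩
        · obtain ⟨n, hn⟩ := h x hx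
          exact ⟨s' • n, by rw [map_smulₛₗ, hn, smul_smul, map_mul, mul_comm]⟩
    obtain ⟨F, hF⟩ := Module.Finite.fg_top (R := B) (M := N)
    obtain ⟨s, hs, h⟩ := hfin F
    have hall : ∀ x : N, ∃ n : N, ι n = algebraMap B D s • β₀ (ι x) := by
      intro x
      have hx : x ∈ Submodule.span B (F : Set N) := hF ▸ Submodule.mem_top
      induction hx using Submodule.span_induction with
      | mem x hx => exact h x hx
      | zero => exact ⟨0, by simp⟩
      | add x y _ _ hx hy =>
        obtain ⟨n, hn⟩ := hx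
        obtain ⟨n', hn'⟩ := hy
        exact ⟨n + n', by rw [map_add, hn, hn', map_add, map_add, smul_add]⟩
      | smul b x _ hx =>
        obtain ⟨n, hn⟩ := hx
        exact ⟨b • n, by rw [map_smulₛₗ, hn, map_smulₛₗ, map_smul, smul_comm]⟩
    choose f₀ hf₀ using hall
    let f : N →ₗ[B] N :=
      { toFun := f₀
        map_add' := fun x y => hι (by rw [map_add, hf₀, hf₀, hf₀, map_add, map_add, smul_add])
        map_smul' := fun b x => hι (by
          rw [RingHom.id_apply, map_smulₛₗ, hf₀, hf₀, map_smulₛₗ, map_smul, smul_comm]) }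
    obtain ⟨d, hd⟩ := hs.exists_left_inv
    obtain ⟨r, rfl⟩ := hR d
    let β₁ : R ⊗[R'] N →ₗ[R ⊗[R'] B] R ⊗[R'] N :=
      { toFun := (f.restrictScalars R').baseChange R
        map_add' := map_add _
        map_smul' := fun t e => rho_comm f t e }
    refine ⟨algebraMap R (R ⊗[R'] B) r • β₁, fun e => ?_⟩
    rw [LinearMap.smul_apply, map_smulₛₗ, ← IsScalarTower.algebraMap_apply]
    induction e using TensorProduct.induction_on with
    | zero => simp
    | tmul r' n =>
      have e1 : β₁ (r' ⊗ₜ n) = r' ⊗ₜ f₀ n := rfl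
      rw [e1, hπ, hπ, hf₀, map_smul, smul_comm, smul_smul (algebraMap R D r), hd, one_smul]
    | add x y hx hy => rw [map_add, map_add, map_add, map_add, smul_add, hx, hy]
  · rw [RingHom.mem_ker, haT, map_sub, mu_tmul, mu_tmul, map_one, one_mul, mul_comm, hα,
      sub_self]
  · exact ker_le hR hB hfr s₀ α hs₀ hα
  · have hS : Injective (Algebra.lsmul R' R' N s₀ : N →ₗ[R'] N) := by
      intro x y hxy
      have h1 : s₀ • x = s₀ • y := hxy
      have h2 := congrArg ι h1
      rw [map_smulₛₗ, map_smulₛₗ] at h2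
      exact hι (hs₀.smul_left_cancel.1 h2)
    have h1 := flat_inj R (Algebra.lsmul R' R' N s₀ : N →ₗ[R'] N) (Algebra.lsmul R' R' N α) hS
    have key : ∀ e : R ⊗[R'] N, (algebraMap R'[X] R X ⊗ₜ[R'] s₀ - (1 : R) ⊗ₜ[R'] α) • e =
        (algebraMap R'[X] R X • (Algebra.lsmul R' R' N s₀ : N →ₗ[R'] N).baseChange R -
          (Algebra.lsmul R' R' N α : N →ₗ[R'] N).baseChange R) e := by
      intro e
      induction e using TensorProduct.induction_on with
      | zero => simp
      | tmul r n =>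
        rw [sub_smul, hE, hE, rho_tmul, rho_tmul, one_mul]
        simp [smul_tmul', Algebra.smul_def]
      | add x y hx hy => rw [smul_add, map_add, hx, hy]
    intro x y hxy
    exact h1 (by rw [← key, ← key]; exact hxy)
  · rw [algebraMap_smul, algebraMap_smul]
    induction e using TensorProduct.induction_on with
    | zero => simp
    | tmul r' n =>
      have h1 : r • n = 0 := hι (by
        rw [← algebraMap_smul B r n, map_smulₛₗ, ← IsScalarTower.algebraMap_apply, hr, zero_smul,
          map_zero])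
      rw [← tmul_smul, h1, tmul_zero]
    | add x y hx hy => rw [smul_add, hx, hy, add_zero]

end module

end QLiftP

theorem qlift : S_QLift.{u} := by
  intro R' R D M _ _ _ _ _ _ _ _ _ _ _ _ _ _ _ Db hR hfin hfr
  let : Module R' M := Module.compHom M (algebraMap R' D)
  have : IsScalarTower R' D M := ⟨fun r d m => by rw [Algebra.smul_def, mul_smul]; rfl⟩
  obtain ⟨F, hF⟩ := Module.Finite.fg_top (R := D) (M := M)
  let N : Submodule Db M := Submodule.span Db (F : Set M)
  have : Module.Finite Db N := Module.Finite.span_of_finite Db F.finite_toSet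
  let ι : N →ₛₗ[algebraMap Db D] M :=
    { toFun := Subtype.val
      map_add' := fun _ _ => rfl
      map_smul' := fun _ _ => rfl }
  refine QLiftP.main (B := Db) (N := N) hR Subtype.val_injective (fun d => ?_) ι
    Subtype.val_injective ?_
  · obtain ⟨a, s, ha, hs, hu, h⟩ := hfr d
    exact ⟨⟨a, ha⟩, ⟨s, hs⟩, hu, h⟩
  · rw [eq_top_iff, ← hF]
    exact Submodule.span_mono fun x hx => ⟨⟨x, Submodule.subset_span hx⟩, rfl⟩

end Pool.Agent.P.MP_46a8f8_ag
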