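import Pool.Agent.P.MP_46a8f8_ag.Base

/-!
Vanishing on primes not contained in the extension of the maximal ideal of the base.
-/

namespace Pool.Agent.P.MP_46a8f8_ag

open TensorProduct Polynomial IsLocalRing Function

universe u

namespace QVP

theorem core (h4 : S_CoreA.{u}) (h5 : S_CoreB.{u}) (h6 : S_Fac.{u})
    {R A T D M E Γ : Type u} [CommRing R] [IsDomain R] [IsNoetherianRing R] [IsLocalRing R]
    [Ring A] [Algebra R A] [Module.Free R A] [Module.Finite R A] [CommRing T] [Algebra R T]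
    [Module.Finite R T] [CommRing D] [Nontrivial D] [Algebra T D] [AddCommGroup M] [Module A M]
    [Module D M] [SMulCommClass A D M] [AddCommGroup E] [Module T E] [Module.Finite T E]
    [CommGroup Γ] (ψ : Inv A Γ) (π : E →ₛₗ[algebraMap T D] M) (g : T) (r₀ : R) (hAz : Az R A)
    (hψ : IsAdd R ψ)
    (hAD : ∀ (r : R) (m : M), algebraMap R A r • m = algebraMap T D (algebraMap R T r) • m)
    (hs : Surjective (algebraMap T D)) (hπ : Surjective π)
    (hker : ∀ e, π e = 0 ↔ e ∈ RingHom.ker (algebraMap T D) • (⊤ : Submodule T E))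
    (hβ : ∀ β₀ : M →ₗ[D] M, ∃ β : E →ₗ[T] E, ∀ e, π (β e) = β₀ (π e))
    (hg : g ∈ RingHom.ker (algebraMap T D))
    (hq : RingHom.ker (algebraMap T D) ≤ Ideal.span {g} ⊔ RingHom.ker (algebraMap T D) ^ 2)
    (hreg : IsSMulRegular E g) (hr₀ : r₀ ≠ 0) (hr : ∀ e : E, algebraMap R T r₀ • e = 0) :
    ψ M = 1 := by
  obtain ⟨k, ρ, ε, μ, a1, a2, a3, a4, a5, a6⟩ := h4 R A T D M E π hAz hAD hπ hker hβ
  obtain ⟨N₀, H, hH, hH2, hcl⟩ := h5 R A T D M (Fin k → E) ρ ε μ hs a1 a2 a3 a4 a5 a6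
  have : IsNoetherianRing T := isNoetherianRing_alg R T
  have hm1 : ((X - 1) ^ N₀ : D[X]).Monic := by
    rw [← C_1]
    exact (monic_X_sub_C 1).pow _
  have hco : IsCoprime (X ^ N₀ : D[X]) ((X - 1) ^ N₀) :=
    IsCoprime.pow ⟨1, -1, by ring⟩
  obtain ⟨T₂, _, _, _, σ, f, g', v, w, δ, δ', b1, b2, b3, b4, b5, b6, -, b8⟩ :=
    h6 T D H (X ^ N₀) ((X - 1) ^ N₀) hs hH (monic_X_pow _) hm1 hco hH2
  let _ : Algebra R T₂ := ((algebraMap T T₂).comp (algebraMap R T)).toAlgebra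
  have : IsScalarTower R T T₂ := IsScalarTower.of_algebraMap_eq fun _ => rfl
  have : Module.Finite R T₂ := Module.Finite.trans T T₂
  have : IsNoetherianRing T₂ := isNoetherianRing_alg R T₂
  have : Finite (MaximalSpectrum T₂) := finite_maximalSpectrum R T₂
  obtain ⟨N, _, _, _, _, c1, c2, i, j, π', c3, -, c5, c6⟩ := hcl T₂ σ f g' v w δ b1 b2 b3 b4
  set q₂ := RingHom.ker (σ : T₂ →+* D) with hq₂
  have hmem : ∀ z, z ∈ q₂ ↔ σ z = 0 := fun z => Iff.rfl
  have hmap : (RingHom.ker (algebraMap T D)).map (algebraMap T T₂) ≤ q₂ := by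
    rw [Ideal.map_le_iff_le_comap]
    intro t ht
    rw [Ideal.mem_comap, hmem, AlgHom.commutes]
    exact ht
  have d1 : algebraMap T T₂ g ∈ q₂ := hmap (Ideal.mem_map_of_mem _ hg)
  have d2 : q₂ ≤ Ideal.span {algebraMap T T₂ g} ⊔ q₂ ^ 2 := by
    intro z hz
    have e : z = δ' * z + (1 - δ') * z := by ring
    rw [e]
    refine Submodule.add_mem _ ?_ (Ideal.mem_sup_right ?_)
    · have h1 := Ideal.map_mono (f := algebraMap T T₂) hq (b6 z hz)
      rw [Ideal.map_sup, Ideal.map_pow, Ideal.map_span, Set.image_singleton] at h1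
      exact sup_le_sup_left (Ideal.pow_right_mono hmap 2) _ h1
    · rw [pow_two]
      refine Ideal.mul_mem_mul ?_ hz
      rw [hmem, map_sub, map_one, b5, sub_self]
  obtain ⟨t, ht⟩ := hs (b3.unit⁻¹ : Dˣ)
  have d3 : δ * algebraMap T T₂ t - 1 ∈ q₂ := by
    rw [hmem, map_sub, map_mul, AlgHom.commutes, ht, map_one, IsUnit.mul_val_inv, sub_self]
  have hreg' : IsSMulRegular (Fin k → E) g := fun x y hxy =>
    funext fun l => hreg (congrFun hxy l)
  have d4 : ∀ y : N, algebraMap T T₂ g • y = 0 → ∃ l : ℕ, δ ^ l • y = 0 := fun y hy => by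
    obtain ⟨l, hl⟩ := b8 (Fin k → E) g hreg' (i y) (by rw [← map_smul, hy, map_zero])
    exact ⟨l, c3 (by rw [map_smul, hl, map_zero])⟩
  obtain ⟨g₀, e1, e2⟩ := prin q₂ (algebraMap T T₂ g) δ (algebraMap T T₂ t) d1 d2 d3 d4
  have hT : Tors R A N := by
    refine ⟨c1, r₀, hr₀, fun y => c3 ?_⟩
    rw [c2, map_smul, map_zero, IsScalarTower.algebraMap_apply R T T₂, algebraMap_smul]
    induction i y using TensorProduct.induction_on with
    | zero => exact smul_zero _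
    | tmul s x =>
      have : algebraMap R T r₀ • x = 0 := funext fun l => hr (x l)
      rw [← TensorProduct.tmul_smul, this, TensorProduct.tmul_zero]
    | add x y hx hy => rw [smul_add, hx, hy, add_zero]
  refine hψ.coker (sA A N g₀) π' e2 (fun y => ?_) c5 hT rfl
  rw [c6, e1, Submodule.ideal_span_singleton_smul, Submodule.mem_smul_pointwise_iff_exists]
  exact ⟨fun ⟨x, _, hx⟩ => ⟨x, hx⟩, fun ⟨x, hx⟩ => ⟨x, trivial, hx⟩⟩

end QVP

open QVP in
theorem qv (h1 : S_QGeo.{u}) (h2 : S_ZMT.{u}) (h3 : S_QLift.{u}) (h4 : S_CoreA.{u})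
    (h5 : S_CoreB.{u}) (h6 : S_Fac.{u}) : S_QV.{u} := by
  intro B R A Γ _ _ _ _ _ _ _ _ _ _ _ _ _ _ ψ m φ 𝔭 hE hP hAz hψ h𝔭 hht hle M _ _ hM hK
  obtain ⟨R', _, _, φ', ⟨f1, f2, f3⟩, ⟨Q, N, hQ, hQN⟩, r, hr1, hr2⟩ :=
    h1 B R m φ 𝔭 hE hP h𝔭 hht hle
  let _ : Algebra R'[X] R := φ'.toAlgebra
  let _ : Algebra R' R := (φ'.comp C).toAlgebra
  have : IsScalarTower R' R'[X] R := IsScalarTower.of_algebraMap_eq fun _ => rfl
  have : Module.Flat R'[X] R := f1
  have : Algebra.FormallyUnramified R'[X] R := f2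
  have : Algebra.EssFiniteType R'[X] R := f3
  have : Nontrivial (R ⧸ 𝔭) := Ideal.Quotient.nontrivial_iff.2 h𝔭.ne_top
  have : IsLocalRing (R ⧸ 𝔭) :=
    IsLocalRing.of_surjective' (Ideal.Quotient.mk 𝔭) Ideal.Quotient.mk_surjective
  have : Algebra.EssFiniteType R'[X] (R ⧸ 𝔭) := Algebra.EssFiniteType.comp R'[X] R (R ⧸ 𝔭)
  have hloc : (maximalIdeal (R ⧸ 𝔭)).comap (Ideal.Quotient.mk 𝔭) = maximalIdeal R :=
    IsLocalRing.eq_maximalIdeal
      (Ideal.comap_isMaximal_of_surjective _ Ideal.Quotient.mk_surjective)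
  have hQD : algebraMap R'[X] (R ⧸ 𝔭) Q ^ N ∈
      ((maximalIdeal (R ⧸ 𝔭)).comap (algebraMap R' (R ⧸ 𝔭))).map (algebraMap R' (R ⧸ 𝔭)) := by
    have e := Ideal.mem_map_of_mem (Ideal.Quotient.mk 𝔭) hQN
    rw [Ideal.map_sup, Ideal.map_quotient_self, bot_sup_eq, Ideal.map_map, ← hloc,
      Ideal.comap_comap, map_pow] at e
    exact e
  obtain ⟨Db, hDb, hDs⟩ := h2 R' (R ⧸ 𝔭) Q N hQ hQD
  let _ : Module R M := Module.compHom M (algebraMap R A)
  have : IsScalarTower R A M := ⟨fun r a m => by rw [Algebra.smul_def, mul_smul]; rfl⟩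
  have : Module.Finite R M := Module.Finite.trans A M
  have hTB : Module.IsTorsionBySet R M 𝔭 := fun x a => hK a.1 a.2 x
  let _ : Module (R ⧸ 𝔭) M := hTB.module
  have hsm : ∀ (a : R) (x : M), Ideal.Quotient.mk 𝔭 a • x = algebraMap R A a • x :=
    fun a x => rfl
  have : IsScalarTower R (R ⧸ 𝔭) M := hTB.isScalarTower
  have : Module.Finite (R ⧸ 𝔭) M := Module.Finite.of_restrictScalars_finite R _ M
  have : SMulCommClass A (R ⧸ 𝔭) M := ⟨fun a d x => by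
    obtain ⟨d, rfl⟩ := Ideal.Quotient.mk_surjective d
    rw [hsm, hsm, smul_smul, smul_smul, Algebra.commutes]⟩
  obtain ⟨T, _, _, _, _, _, E, _, _, _, π, g, k1, k2, k3, k4, k5, k6, k7⟩ :=
    h3 R' R (R ⧸ 𝔭) M Db Ideal.Quotient.mk_surjective hDb hDs
  refine core h4 h5 h6 ψ π g (φ' (C r)) hAz hψ (fun a x => ?_) (fun d => ?_) k1 k2 k3 k4 k5 k6
    hr2 (k7 r (Ideal.Quotient.eq_zero_iff_mem.2 hr1))
  · rw [← IsScalarTower.algebraMap_apply]
    exact (hsm a x).symm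
  · obtain ⟨d, rfl⟩ := Ideal.Quotient.mk_surjective d
    exact ⟨algebraMap R T d, (IsScalarTower.algebraMap_apply R T (R ⧸ 𝔭) d).symm⟩

end Pool.Agent.P.MP_46a8f8_ag
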