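import Pool.Agent.P.MP_46a8f8_ag.Base

/-!
Regular local rings: quotients, integrality and a depth lemma.
-/

namespace Pool.Agent.P.MP_46a8f8_ag

open IsLocalRing

universe u

namespace Reg2P

theorem atPrime_self (O : Type u) [CommRing O] [IsLocalRing O] (𝔫 : Ideal O) [𝔫.IsPrime]
    (h : 𝔫 = maximalIdeal O) : IsLocalization.AtPrime O 𝔫 := by
  subst h
  exact IsLocalization.of_le_isUnit (fun x hx => by simpa using! hx)

theorem dim_eq (O : Type u) [CommRing O] [IsRegularLocalRing O] :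
    ringKrullDim O = ((maximalIdeal O).spanFinrank : ℕ) :=
  IsRegularLocalRing.spanFinrank_maximalIdeal.symm

theorem jac (O : Type u) [CommRing O] [IsLocalRing O] {I : Ideal O} (h : I ≤ maximalIdeal O) :
    I ≤ (⊥ : Ideal O).jacobson := by
  rw [jacobson_eq_maximalIdeal ⊥ bot_ne_top]
  exact h

theorem not_le_sq (O : Type u) [CommRing O] [IsLocalRing O] [IsNoetherianRing O]
    (h : (maximalIdeal O).spanFinrank ≠ 0) : ¬ maximalIdeal O ≤ maximalIdeal O ^ 2 := by
  intro hle
  apply h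
  rw [Submodule.spanFinrank_eq_zero_iff_eq_bot (IsNoetherian.noetherian _)]
  refine Submodule.eq_bot_of_le_smul_of_le_jacobson_bot (maximalIdeal O) _
    (IsNoetherian.noetherian _) ?_ (jac O le_rfl)
  rwa [smul_eq_mul, ← sq]

theorem succ_of (h : S_RegQuot.{u}) (O : Type u) [CommRing O] [IsRegularLocalRing O] (x : O)
    (hx : x ∈ maximalIdeal O) (hx2 : x ∉ maximalIdeal O ^ 2) :
    ∃ _ : IsRegularLocalRing (O ⧸ Ideal.span {x}),
      (maximalIdeal (O ⧸ Ideal.span {x})).spanFinrank + 1 = (maximalIdeal O).spanFinrank := by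
  obtain ⟨h1, h2⟩ := h O x hx hx2
  refine ⟨h1, ?_⟩
  rw [dim_eq, dim_eq] at h2
  exact_mod_cast h2

theorem prime_of (h : S_RegQuot.{u}) (h' : S_RegDom.{u}) (O : Type u) [CommRing O]
    [IsRegularLocalRing O] (x : O) (hx : x ∈ maximalIdeal O) (hx2 : x ∉ maximalIdeal O ^ 2) :
    Prime x := by
  obtain ⟨h1, -⟩ := h O x hx hx2
  have := h' (O ⧸ Ideal.span {x})
  have hp : (Ideal.span {x}).IsPrime := (Ideal.Quotient.isDomain_iff_prime _).1 this
  have h0 : x ≠ 0 := by
    rintro rfl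
    exact hx2 (zero_mem _)
  exact (Ideal.span_singleton_prime h0).1 hp

theorem dom_aux (h : S_RegQuot.{u}) (d : ℕ) : ∀ (O : Type u) [CommRing O] [IsRegularLocalRing O],
    (maximalIdeal O).spanFinrank = d → IsDomain O := by
  classical
  induction d with
  | zero =>
    intro O _ _ hd
    rw [Submodule.spanFinrank_eq_zero_iff_eq_bot (IsNoetherian.noetherian _)] at hd
    exact (isField_iff_maximalIdeal_eq.2 hd).isDomain
  | succ d ih =>
    intro O _ _ hd
    have hfin := minimalPrimes.finite_of_isNoetherianRing O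
    have hav : ¬ ((maximalIdeal O : Set O) ⊆
        ⋃ i ∈ (↑(insert (maximalIdeal O ^ 2) hfin.toFinset) : Set (Ideal O)), (id i : Ideal O)) := by
      rw [Ideal.subset_union_prime (maximalIdeal O ^ 2) (maximalIdeal O ^ 2)]
      · rintro ⟨p, hp, hle⟩
        rcases Finset.mem_insert.1 hp with rfl | hp
        · exact not_le_sq O (by omega) hle
        · have hp' : p ∈ minimalPrimes O := by simpa using hp
          have hpm : p = maximalIdeal O :=
            ((maximalIdeal.isMaximal O).eq_of_le hp'.1.1.ne_top hle).symm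
          rw [hpm, ← Ideal.height_eq_zero_iff] at hp'
          have h1 := maximalIdeal_height_eq_ringKrullDim (R := O)
          rw [hp', dim_eq, hd] at h1
          have h2 : (0 : ℕ) = d + 1 := by exact_mod_cast h1
          omega
      · intro p hp hne _
        rcases Finset.mem_insert.1 hp with rfl | hp
        · exact absurd rfl hne
        · have hp' : p ∈ minimalPrimes O := by simpa using hp
          exact hp'.1.1
    obtain ⟨x, hx, hxn⟩ := Set.not_subset.1 hav
    simp only [Finset.coe_insert, Set.Finite.coe_toFinset, id, Set.mem_iUnion, not_exists,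
      Set.mem_insert_iff, SetLike.mem_coe] at hxn
    have hx2 : x ∉ maximalIdeal O ^ 2 := hxn _ (Or.inl rfl)
    obtain ⟨h1, h2⟩ := succ_of h O x hx hx2
    have hdom := ih (O ⧸ Ideal.span {x}) (by omega)
    have hp : (Ideal.span {x}).IsPrime := (Ideal.Quotient.isDomain_iff_prime _).1 hdom
    obtain ⟨p, hpm, hple⟩ := Ideal.exists_minimalPrimes_le (bot_le : (⊥ : Ideal O) ≤ Ideal.span {x})
    have hxp : x ∉ p := hxn p (Or.inr hpm)
    have hpp : p.IsPrime := hpm.1.1
    have hbot : p = ⊥ := by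
      refine Submodule.eq_bot_of_le_smul_of_le_jacobson_bot (Ideal.span {x}) _
        (IsNoetherian.noetherian _) ?_ (jac O ((Ideal.span_singleton_le_iff_mem _).2 hx))
      intro z hz
      obtain ⟨c, rfl⟩ := Ideal.mem_span_singleton.1 (hple hz)
      exact Submodule.smul_mem_smul (Ideal.mem_span_singleton_self x)
        ((hpp.mem_or_mem hz).resolve_left hxp)
    rw [hbot] at hpp
    exact IsDomain.of_bot_isPrime O

theorem dvr_aux (h : S_RegQuot.{u}) (h' : S_RegDom.{u}) (d : ℕ) :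
    ∀ (O : Type u) [CommRing O] [IsRegularLocalRing O], (maximalIdeal O).spanFinrank = d + 1 →
      ∃ J : Ideal O, J.IsPrime ∧ (1 ≤ d → J ≠ ⊥) ∧ J ≠ maximalIdeal O ∧
        IsPrincipalIdealRing (O ⧸ J) := by
  induction d with
  | zero =>
    intro O _ _ hd
    have := h' O
    obtain ⟨hp, hne⟩ := (Submodule.spanFinrank_eq_one_iff _).1 hd
    have hpid : IsPrincipalIdealRing O :=
      ((tfae_of_isNoetherianRing_of_isLocalRing_of_isDomain O).out 4 0).1 hp
    exact ⟨⊥, Ideal.isPrime_bot, fun h => absurd h (by omega), hne.symm,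
      IsPrincipalIdealRing.of_surjective (Ideal.Quotient.mk ⊥) Ideal.Quotient.mk_surjective⟩
  | succ d ih =>
    intro O _ _ hd
    obtain ⟨x, hx, hx2⟩ := SetLike.not_le_iff_exists.1 (not_le_sq O (by omega))
    obtain ⟨h1, h2⟩ := succ_of h O x hx hx2
    obtain ⟨J, hJ, -, hJm, hpid⟩ := ih (O ⧸ Ideal.span {x}) (by omega)
    have hsurj : Function.Surjective (Ideal.Quotient.mk (Ideal.span {x})) :=
      Ideal.Quotient.mk_surjective
    have hmap : (J.comap (Ideal.Quotient.mk (Ideal.span {x}))).map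
        (Ideal.Quotient.mk (Ideal.span {x})) = J := Ideal.map_comap_of_surjective _ hsurj J
    have hxJ : x ∈ J.comap (Ideal.Quotient.mk (Ideal.span {x})) := by
      rw [Ideal.mem_comap, Ideal.Quotient.eq_zero_iff_mem.2 (Ideal.mem_span_singleton_self x)]
      exact zero_mem _
    refine ⟨J.comap (Ideal.Quotient.mk (Ideal.span {x})), inferInstance, fun _ hb => ?_,
      fun hm => ?_, ?_⟩
    · rw [hb, Ideal.mem_bot] at hxJ
      exact hx2 (hxJ ▸ zero_mem _)
    · apply hJm
      rw [← hmap, hm]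
      exact map_maximalIdeal_of_surjective _ hsurj
    · have e := DoubleQuot.quotQuotEquivQuotOfLE ((Ideal.span_singleton_le_iff_mem _).2 hxJ)
      rw [hmap] at e
      exact IsPrincipalIdealRing.of_surjective e.toRingHom e.surjective

end Reg2P

open Reg2P

theorem regQuot (h1 : S_RegAt.{u}) (h2 : S_Cut.{u}) : S_RegQuot.{u} := by
  intro O _ _ x hx hx2
  have hne : (maximalIdeal O).spanFinrank ≠ 0 := by
    intro h0
    rw [Submodule.spanFinrank_eq_zero_iff_eq_bot (IsNoetherian.noetherian _)] at h0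
    rw [h0, Ideal.mem_bot] at hx
    exact hx2 (hx ▸ zero_mem _)
  obtain ⟨d, hd⟩ := Nat.exists_eq_succ_of_ne_zero hne
  have hdim : ringKrullDim O = (d + 1 : ℕ) := by rw [dim_eq, hd]
  have := atPrime_self O (maximalIdeal O) rfl
  have hr : RegAt O (maximalIdeal O) (d + 1) :=
    (h1 O O (maximalIdeal O) (d + 1)).2 ⟨inferInstance, hdim⟩
  have hc := h2 O (maximalIdeal O) d x hr hx (fun s hs hsx => by
    have hu : IsUnit s := by simpa using hs
    exact hx2 ((Ideal.unit_mul_mem_iff_mem _ hu).1 hsx))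
  have : Nontrivial (O ⧸ Ideal.span {x}) := Ideal.Quotient.nontrivial_iff.2
    (ne_top_of_le_ne_top (maximalIdeal.isMaximal O).ne_top
      ((Ideal.span_singleton_le_iff_mem _).2 hx))
  have : IsLocalRing (O ⧸ Ideal.span {x}) :=
    IsLocalRing.of_surjective' (Ideal.Quotient.mk _) Ideal.Quotient.mk_surjective
  rw [map_maximalIdeal_of_surjective _ Ideal.Quotient.mk_surjective] at hc
  have := atPrime_self (O ⧸ Ideal.span {x}) (maximalIdeal _) rfl
  obtain ⟨h3, h4⟩ := (h1 (O ⧸ Ideal.span {x}) (O ⧸ Ideal.span {x}) (maximalIdeal _) d).1 hc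
  refine ⟨h3, ?_⟩
  rw [h4, hdim]
  norm_cast

theorem regDom (h : S_RegQuot.{u}) : S_RegDom.{u} :=
  fun O _ _ => dom_aux h _ O rfl

theorem regDVR (h : S_RegQuot.{u}) (h' : S_RegDom.{u}) : S_RegDVR.{u} := by
  intro O _ _ hd
  rw [dim_eq] at hd
  have hd' : 2 ≤ (maximalIdeal O).spanFinrank := by exact_mod_cast hd
  obtain ⟨J, a1, a2, a3, a4⟩ := dvr_aux h h' ((maximalIdeal O).spanFinrank - 1) O (by omega)
  exact ⟨J, a1, a2 (by omega), a3, a4⟩

theorem hq (h : S_RegQuot.{u}) (h' : S_RegDom.{u}) : S_HQ.{u} := by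
  intro O _ _ 𝔮 hd hqp hqm hmax a b ha hab
  have := h' O
  rw [dim_eq] at hd
  have hd' : (maximalIdeal O).spanFinrank = 3 := by exact_mod_cast hd
  have hav : ¬ ((maximalIdeal O : Set O) ⊆ (maximalIdeal O ^ 2 : Ideal O) ∪ 𝔮) := by
    rw [Ideal.subset_union]
    rintro (hle | hle)
    · exact not_le_sq O (by omega) hle
    · exact hqm ((maximalIdeal.isMaximal O).eq_of_le hqp.ne_top hle).symm
  obtain ⟨x, hx, hxn⟩ := Set.not_subset.1 hav
  simp only [Set.mem_union, SetLike.mem_coe, not_or] at hxn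
  obtain ⟨hx2, hxq⟩ := hxn
  have hxp : Prime x := prime_of h h' O x hx hx2
  obtain ⟨h1, h2⟩ := succ_of h O x hx hx2
  have := h' (O ⧸ Ideal.span {x})
  set π := Ideal.Quotient.mk (Ideal.span {x}) with hπ
  have hsurj : Function.Surjective π := Ideal.Quotient.mk_surjective
  obtain ⟨yb, hy, hy2⟩ :=
    SetLike.not_le_iff_exists.1 (not_le_sq (O ⧸ Ideal.span {x}) (by omega))
  have hyp : Prime yb := prime_of h h' _ yb hy hy2
  obtain ⟨wb, hw, hwy⟩ : ∃ wb ∈ maximalIdeal (O ⧸ Ideal.span {x}), wb ∉ Ideal.span {yb} := by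
    refine SetLike.not_le_iff_exists.1 fun hle => ?_
    have he : maximalIdeal (O ⧸ Ideal.span {x}) = Ideal.span {yb} :=
      le_antisymm hle ((Ideal.span_singleton_le_iff_mem _).2 hy)
    have h3 : (maximalIdeal (O ⧸ Ideal.span {x})).spanFinrank = 1 := by
      rw [Submodule.spanFinrank_eq_one_iff]
      refine ⟨⟨yb, he⟩, fun hb => hyp.ne_zero ?_⟩
      rwa [hb, Ideal.mem_bot] at hy
    omega
  rw [Ideal.mem_span_singleton] at hwy
  have hrad : ∀ zb ∈ maximalIdeal (O ⧸ Ideal.span {x}), ∃ k : ℕ, ∃ Z ∈ 𝔮, π Z = zb ^ k := by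
    intro zb hz
    rw [← map_maximalIdeal_of_surjective π hsurj, Ideal.mem_map_iff_of_surjective π hsurj] at hz
    obtain ⟨z, hz, rfl⟩ := hz
    have hr : z ∈ (𝔮 ⊔ Ideal.span {x}).radical := by
      rw [Ideal.radical_eq_sInf, Submodule.mem_sInf]
      rintro P ⟨hP1, hP2⟩
      have hlt : 𝔮 < P := lt_of_le_of_ne (le_sup_left.trans hP1) fun he =>
        hxq (he ▸ hP1 (Ideal.mem_sup_right (Ideal.mem_span_singleton_self x)))
      rw [hmax P hP2 hlt]
      exact hz
    obtain ⟨k, hk⟩ := hr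
    obtain ⟨Z, hZ, t, ht, he⟩ := Submodule.mem_sup.1 hk
    refine ⟨k, Z, hZ, ?_⟩
    rw [← map_pow, ← he, map_add, Ideal.Quotient.eq_zero_iff_mem.2 ht, add_zero]
  obtain ⟨k, Y, hY, hYe⟩ := hrad yb hy
  obtain ⟨l, W, hW, hWe⟩ := hrad wb hw
  have hxY : ¬ x ∣ Y := by
    intro hdv
    have h0 : π Y = 0 := Ideal.Quotient.eq_zero_iff_mem.2 (Ideal.mem_span_singleton.2 hdv)
    rw [hYe] at h0
    exact pow_ne_zero k hyp.ne_zero h0
  have hY0 : Y ≠ 0 := by
    rintro rfl
    exact hxY (dvd_zero x)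
  let I : Ideal O :=
    { carrier := {c | ∀ t ∈ 𝔮, Y ∣ c * t}
      add_mem' := fun {c c'} hc hc' t ht => by
        rw [add_mul]
        exact dvd_add (hc t ht) (hc' t ht)
      zero_mem' := fun t _ => by simp
      smul_mem' := fun r c hc t ht => by
        rw [smul_eq_mul, mul_assoc]
        exact (hc t ht).mul_left r }
  have hI : ∀ c, c ∈ I ↔ ∀ t ∈ 𝔮, Y ∣ c * t := fun c => Iff.rfl
  have hle : I ≤ Ideal.span {Y} := by
    refine Submodule.le_of_le_smul_of_le_jacobson_bot (I := Ideal.span {x})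
      (IsNoetherian.noetherian _) (jac O ((Ideal.span_singleton_le_iff_mem _).2 hx)) ?_
    intro c hc
    obtain ⟨s, hs⟩ := (hI c).1 hc W hW
    have h3 : yb ^ k ∣ π c * wb ^ l := ⟨π s, by rw [← hWe, ← hYe, ← map_mul, hs, map_mul]⟩
    have h4 : yb ^ k ∣ π c :=
      hyp.pow_dvd_of_dvd_mul_right k (fun hdv => hwy (hyp.dvd_of_dvd_pow hdv)) h3
    obtain ⟨eb, he⟩ := h4
    obtain ⟨e, rfl⟩ := hsurj eb
    rw [← hYe, ← map_mul, Ideal.Quotient.eq, Ideal.mem_span_singleton] at he
    obtain ⟨c', hc'⟩ := he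
    have hc'I : c' ∈ I := by
      rw [hI]
      intro t ht
      obtain ⟨g, hg⟩ := (hI c).1 hc t ht
      have h5 : x * (c' * t) = Y * (g - e * t) := by linear_combination hg - t * hc'
      obtain ⟨g', hg'⟩ := (hxp.dvd_or_dvd ⟨_, h5.symm⟩).resolve_left hxY
      refine ⟨g', mul_left_cancel₀ hxp.ne_zero ?_⟩
      rw [h5, hg']
      ring
    have h6 : c = Y * e + x • c' := by
      rw [smul_eq_mul, ← hc']
      ring
    rw [h6]
    exact Submodule.add_mem_sup (Ideal.mem_span_singleton.2 (dvd_mul_right _ _))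
      (Submodule.smul_mem_smul (Ideal.mem_span_singleton_self x) hc'I)
  obtain ⟨c, hc⟩ := hab Y hY
  have hcI : c ∈ I := by
    rw [hI]
    intro t ht
    obtain ⟨s, hs⟩ := hab t ht
    refine ⟨s, mul_left_cancel₀ ha ?_⟩
    linear_combination Y * hs - t * hc
  obtain ⟨e, he⟩ := Ideal.mem_span_singleton.1 (hle hcI)
  refine ⟨e, mul_right_cancel₀ hY0 ?_⟩
  rw [hc, he]
  ring

end Pool.Agent.P.MP_46a8f8_ag
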