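import Pool.Agent.P.MP_46a8f8_ag.Base

/-!
Regularity of local rings that are flat and unramified over a polynomial ring over a regular
local ring.
-/

namespace Pool.Agent.P.MP_46a8f8_ag

open IsLocalRing

universe u

namespace RegBP

/-- the maximal ideal of an unramified local algebra is generated by its contraction -/
theorem map_comap_max {C R : Type u} [CommRing C] [CommRing R] [IsLocalRing R] [Algebra C R]
    [Algebra.FormallyUnramified C R] [Algebra.EssFiniteType C R] :
    ((maximalIdeal R).comap (algebraMap C R)).map (algebraMap C R) = maximalIdeal R := by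
  set r := (maximalIdeal R).comap (algebraMap C R) with hr
  have hu : ∀ y : r.primeCompl, IsUnit (algebraMap C R y) := by
    intro y
    have hy : algebraMap C R (y : C) ∉ maximalIdeal R := y.2
    exact (notMem_maximalIdeal).1 hy
  let O := Localization.AtPrime r
  letI : Algebra O R := (IsLocalization.lift (S := O) hu).toAlgebra
  haveI : IsScalarTower C O R := IsScalarTower.of_algebraMap_eq (fun x => by
    change _ = IsLocalization.lift (S := O) hu (algebraMap C O x)
    rw [IsLocalization.lift_eq])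
  haveI : Algebra.FormallyUnramified O R := Algebra.FormallyUnramified.of_restrictScalars C O R
  haveI : Algebra.EssFiniteType O R := Algebra.EssFiniteType.of_comp C O R
  have hm : (maximalIdeal O).map (algebraMap O R) = r.map (algebraMap C R) := by
    rw [← Localization.AtPrime.map_eq_maximalIdeal, Ideal.map_map, ← IsScalarTower.algebraMap_eq]
  haveI : IsLocalHom (algebraMap O R) := by
    refine ((local_hom_TFAE (algebraMap O R)).out 2 0).1 ?_
    rw [hm]
    exact Ideal.map_comap_le
  rw [← hm]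
  exact Algebra.FormallyUnramified.map_maximalIdeal

/-- in a local ring the denominators can be dropped -/
theorem span_eq {R : Type u} [CommRing R] [IsLocalRing R] {d : ℕ} (a : Fin d → R)
    (ha : ∀ i, a i ∈ maximalIdeal R)
    (h : ∀ x ∈ maximalIdeal R, ∃ s, s ∉ maximalIdeal R ∧ s * x ∈ Ideal.span (Set.range a)) :
    Ideal.span (Set.range a) = maximalIdeal R := by
  apply le_antisymm
  · rw [Ideal.span_le]
    rintro _ ⟨i, rfl⟩
    exact ha i
  · intro x hx
    obtain ⟨s, hs, hsx⟩ := h x hx
    exact (Ideal.unit_mul_mem_iff_mem _ ((notMem_maximalIdeal).1 hs)).1 hsx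

/-- a local ring is its own localisation -/
theorem selfLoc (R : Type u) [CommRing R] [IsLocalRing R] :
    IsLocalization.AtPrime R (maximalIdeal R) :=
  IsLocalization.of_le_isUnit (fun _ hx => (notMem_maximalIdeal).1 hx)

end RegBP

open RegBP in
theorem regB (h1 : S_RegAt.{u}) (h2 : S_RegFlat.{u}) (h3 : S_RegDom.{u}) : S_RegB.{u} := by
  intro B R _ _ _ _ _ _ _ _ m e φ hE hB
  obtain ⟨hfl, hun, hef⟩ := hE
  let C := MvPolynomial (Fin m) B
  letI : Algebra C R := (φ : C →+* R).toAlgebra
  haveI : IsScalarTower B C R :=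
    IsScalarTower.of_algebraMap_eq (fun x => (φ.commutes x).symm)
  haveI : Module.Flat C R := hfl
  haveI : Algebra.FormallyUnramified C R := hun
  haveI : Algebra.EssFiniteType C R := hef
  haveI : Module.Flat B R := Module.Flat.trans B C R
  set r := (maximalIdeal R).comap (algebraMap C R) with hr
  have hmax : r.map (algebraMap C R) = maximalIdeal R := map_comap_max
  have hcB : (maximalIdeal R).comap (algebraMap B R) = maximalIdeal B :=
    ((local_hom_TFAE (algebraMap B R)).out 0 4).1 ‹_›
  have hrB : r.comap (algebraMap B C) = maximalIdeal B := by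
    rw [hr, Ideal.comap_comap, ← IsScalarTower.algebraMap_eq, hcB]
  haveI : r.LiesOver (maximalIdeal B) := ⟨hrB.symm⟩
  haveI : (maximalIdeal R).LiesOver (maximalIdeal B) := ⟨hcB.symm⟩
  set I := (maximalIdeal B).map (algebraMap B C) with hI
  have hIr : I ≤ r := by
    rw [hI, Ideal.map_le_iff_le_comap, hrB]
  letI : Field (B ⧸ maximalIdeal B) := Ideal.Quotient.field _
  haveI : IsRegularRing (C ⧸ I) :=
    IsRegularRing.of_ringEquiv
      (MvPolynomial.quotientEquivQuotientMvPolynomial (σ := Fin m) (maximalIdeal B)).toRingEquiv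
  set rb := r.map (Ideal.Quotient.mk I) with hrb
  haveI : rb.IsPrime := Ideal.map_isPrime_of_surjective Ideal.Quotient.mk_surjective (by
    rw [Ideal.mk_ker]; exact hIr)
  have hcrb : rb.comap (Ideal.Quotient.mk I) = r := by
    rw [hrb, Ideal.comap_map_of_surjective _ Ideal.Quotient.mk_surjective,
      ← RingHom.ker_eq_comap_bot, Ideal.mk_ker]
    exact sup_eq_left.2 hIr
  obtain ⟨d, hd⟩ : ∃ d : ℕ, rb.height = d :=
    ⟨rb.height.toNat, (ENat.natCast_toNat (rb.height_ne_top Ideal.IsPrime.ne_top')).symm⟩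
  have hrbR : RegAt (C ⧸ I) rb d := by
    refine (h1 (C ⧸ I) (Localization.AtPrime rb) rb d).2 ⟨inferInstance, ?_⟩
    rw [IsLocalization.AtPrime.ringKrullDim_eq_height rb, hd]
    rfl
  obtain ⟨hBh, b, hb, hbs⟩ := id hB
  have hbI : Ideal.span (Set.range b) = maximalIdeal B := span_eq b hb hbs
  obtain ⟨-, cb, hcb, hcbs⟩ := hrbR
  choose c hc using fun i => Ideal.Quotient.mk_surjective (I := I) (cb i)
  have hcr : ∀ i, c i ∈ r := fun i => by
    rw [← hcrb, Ideal.mem_comap, hc]; exact hcb i
  have hgen : ∀ x ∈ r, ∃ s, s ∉ r ∧ s * x ∈ I ⊔ Ideal.span (Set.range c) := by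
    intro x hx
    obtain ⟨sb, hsb, hsx⟩ := hcbs (Ideal.Quotient.mk I x) (Ideal.mem_map_of_mem _ hx)
    obtain ⟨s, rfl⟩ := Ideal.Quotient.mk_surjective (I := I) sb
    refine ⟨s, fun hs => hsb (Ideal.mem_map_of_mem _ hs), ?_⟩
    have h4 : Ideal.span (Set.range cb) = (Ideal.span (Set.range c)).map (Ideal.Quotient.mk I) := by
      rw [Ideal.map_span, ← Set.range_comp]
      congr 2
      funext i
      exact (hc i).symm
    rw [h4, ← map_mul, ← Ideal.mem_comap,
      Ideal.comap_map_of_surjective _ Ideal.Quotient.mk_surjective,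
      ← RingHom.ker_eq_comap_bot, Ideal.mk_ker, sup_comm] at hsx
    exact hsx
  have hrh : r.height = (e + d : ℕ) := by
    rw [Ideal.height_eq_height_add_of_liesOver_of_hasGoingDown (maximalIdeal B) r, hBh, hd]
    push_cast
    rfl
  have hCr : RegAt C r (e + d) := by
    refine ⟨hrh, Fin.append (fun i => algebraMap B C (b i)) c, ?_, ?_⟩
    · intro i
      refine Fin.addCases (fun j => ?_) (fun j => ?_) i
      · rw [Fin.append_left]
        exact hIr (Ideal.mem_map_of_mem _ (hb j))
      · rw [Fin.append_right]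
        exact hcr j
    · intro x hx
      obtain ⟨s, hs, hsx⟩ := hgen x hx
      refine ⟨s, hs, (sup_le ?_ ?_ : I ⊔ Ideal.span (Set.range c) ≤ _) hsx⟩
      · rw [hI, ← hbI, Ideal.map_span, Ideal.span_le]
        rintro _ ⟨_, ⟨j, rfl⟩, rfl⟩
        exact Ideal.subset_span ⟨Fin.castAdd d j, Fin.append_left _ _ j⟩
      · rw [Ideal.span_le]
        rintro _ ⟨j, rfl⟩
        exact Ideal.subset_span ⟨Fin.natAdd e j, Fin.append_right _ _ j⟩
  have hRm : RegAt R (maximalIdeal R) (e + d) := by
    refine h2 C R (maximalIdeal R) (e + d) ?_ ?_ hCr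
    · exact Module.Flat.trans C R _
    · intro x hx
      refine ⟨1, (maximalIdeal R).ne_top_iff_one.1 (maximalIdeal.isMaximal R).ne_top, ?_⟩
      rw [one_mul, ← hr, hmax]
      exact hx
  haveI := selfLoc R
  have hreg : IsRegularLocalRing R := ((h1 R R (maximalIdeal R) (e + d)).1 hRm).1
  set P := (maximalIdeal B).map (algebraMap B R) with hP
  have hPm : P ≤ maximalIdeal R := map_maximalIdeal_le _
  have hIP : I.map (algebraMap C R) = P := by
    rw [hI, Ideal.map_map, ← IsScalarTower.algebraMap_eq]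
  haveI : Nontrivial (R ⧸ P) :=
    Ideal.Quotient.nontrivial_iff.2 (ne_top_of_le_ne_top (maximalIdeal.isMaximal R).ne_top hPm)
  haveI : IsLocalRing (R ⧸ P) := .of_surjective' _ Ideal.Quotient.mk_surjective
  have hmq : (maximalIdeal R).map (Ideal.Quotient.mk P) = maximalIdeal (R ⧸ P) :=
    map_maximalIdeal_of_surjective _ Ideal.Quotient.mk_surjective
  have hq : (maximalIdeal (R ⧸ P)).height = d := by
    have h5 := Ideal.height_eq_height_add_of_liesOver_of_hasGoingDown (maximalIdeal B)
      (maximalIdeal R)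
    rw [hRm.1, hBh, ← hP, hmq, Nat.cast_add] at h5
    exact (WithTop.add_left_cancel (ENat.natCast_ne_top e) h5).symm
  have hqs : maximalIdeal (R ⧸ P) ≤
      Ideal.span (Set.range fun i => Ideal.Quotient.mk P (algebraMap C R (c i))) := by
    rw [← hmq, ← hmax, Ideal.map_map, Ideal.map_le_iff_le_comap]
    intro x hx
    obtain ⟨s, hs, hsx⟩ := hgen x hx
    have hsu : IsUnit (((Ideal.Quotient.mk P).comp (algebraMap C R)) s) := by
      rw [hr, Ideal.mem_comap] at hs
      exact ((notMem_maximalIdeal).1 hs).map (Ideal.Quotient.mk P)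
    rw [Ideal.mem_comap, ← Ideal.unit_mul_mem_iff_mem _ hsu, ← map_mul, ← Ideal.mem_comap]
    refine (sup_le ?_ ?_ : I ⊔ Ideal.span (Set.range c) ≤ _) hsx
    · intro y hy
      have : algebraMap C R y ∈ P := hIP ▸ Ideal.mem_map_of_mem _ hy
      rw [Ideal.mem_comap, RingHom.comp_apply, Ideal.Quotient.eq_zero_iff_mem.2 this]
      exact zero_mem _
    · rw [Ideal.span_le]
      rintro _ ⟨j, rfl⟩
      exact Ideal.subset_span ⟨j, rfl⟩
  have hQ : RegAt (R ⧸ P) (maximalIdeal (R ⧸ P)) d := by
    refine ⟨hq, fun i => Ideal.Quotient.mk P (algebraMap C R (c i)), fun i => ?_, fun x hx => ?_⟩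
    · rw [← hmq]
      exact Ideal.mem_map_of_mem _ (hcr i)
    · refine ⟨1, (maximalIdeal _).ne_top_iff_one.1 (maximalIdeal.isMaximal _).ne_top, ?_⟩
      rw [one_mul]
      exact hqs hx
  haveI := selfLoc (R ⧸ P)
  haveI : IsRegularLocalRing (R ⧸ P) := ((h1 _ (R ⧸ P) (maximalIdeal _) d).1 hQ).1
  haveI : IsDomain (R ⧸ P) := h3 _
  haveI hPp : P.IsPrime := (Ideal.Quotient.isDomain_iff_prime P).1 ‹_›
  have hPB : P.comap (algebraMap B R) = maximalIdeal B := by
    apply le_antisymm
    · rw [← hcB]
      exact Ideal.comap_mono hPm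
    · exact Ideal.le_comap_map
  refine ⟨hreg, hPp, h2 B R P e (Module.Flat.trans B R _) (fun x hx => ?_) (hPB ▸ hB)⟩
  refine ⟨1, P.ne_top_iff_one.1 hPp.ne_top, ?_⟩
  rw [one_mul, hPB]
  exact hx

end Pool.Agent.P.MP_46a8f8_ag
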