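import Pool.Agent.P.MP_46a8f8_ag.Base

/-!
The resolution step, and projective dimension over a separable algebra.
-/

namespace Pool.Agent.P.MP_46a8f8_ag

open Function

universe u

namespace ResP

variable {R A Γ : Type u} [CommRing R] [Ring A] [Algebra R A] [CommGroup Γ]
  {M K K' P P' Q : Type u} [AddCommGroup M] [Module A M] [AddCommGroup K] [Module A K]
  [AddCommGroup K'] [Module A K'] [AddCommGroup P] [Module A P] [AddCommGroup P'] [Module A P']
  [AddCommGroup Q] [Module A Q]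

theorem fac (f : Q →ₗ[A] P) (hf : Injective f) (h : K →ₗ[A] P) (hh : ∀ x, ∃ y, f y = h x) :
    ∃ q : K →ₗ[A] Q, ∀ x, f (q x) = h x :=
  ⟨(LinearEquiv.ofInjective f hf).symm.toLinearMap ∘ₗ h.codRestrict _ hh, fun x => by simp⟩

theorem half (p : P →ₗ[A] M) (p' : P' →ₗ[A] M) (a : Q →ₗ[A] P) (b : Q →ₗ[A] P')
    (h1 : ∀ x, a x = 0 → b x = 0 → x = 0) (h2 : ∀ y y', p y = p' y' → ∃ x, a x = y ∧ b x = y')
    (h3 : ∀ x, p (a x) = p' (b x)) (i : K' →ₗ[A] P') (hi : Injective i) (he : Exact i p')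
    (hp : Surjective p') : ∃ j : K' →ₗ[A] Q, Injective j ∧ Exact j a ∧ Surjective a := by
  have hab : Injective (a.prod b) := (injective_iff_map_eq_zero _).2 fun x hx =>
    h1 x (congrArg Prod.fst hx) (congrArg Prod.snd hx)
  obtain ⟨j, hj⟩ := fac (a.prod b) hab (LinearMap.inr A P P' ∘ₗ i) fun k => by
    obtain ⟨x, e1, e2⟩ := h2 0 (i k) (by rw [map_zero, he.apply_apply_eq_zero])
    exact ⟨x, Prod.ext e1 e2⟩
  have ja : ∀ k, a (j k) = 0 := fun k => congrArg Prod.fst (hj k)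
  have jb : ∀ k, b (j k) = i k := fun k => congrArg Prod.snd (hj k)
  refine ⟨j, fun k k' e => hi (by rw [← jb, ← jb, e]), fun x => ⟨fun hx => ?_, ?_⟩, fun y => ?_⟩
  · obtain ⟨k, hk⟩ := (he (b x)).1 (by rw [← h3, hx, map_zero])
    exact ⟨k, hab (Prod.ext ((ja k).trans hx.symm) ((jb k).trans hk))⟩
  · rintro ⟨k, rfl⟩
    exact ja k
  · obtain ⟨y', hy⟩ := hp (p y)
    obtain ⟨x, e, -⟩ := h2 y y' hy.symm
    exact ⟨x, e⟩

/-- the value given by a resolution of length one -/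
def Cov (R : Type u) [CommRing R] [Algebra R A] (χ : Inv A Γ) (r : ℕ) (M : Type u)
    [AddCommGroup M] [Module A M] (γ : Γ) : Prop :=
  ∃ (K P : Type u) (_ : AddCommGroup K) (_ : Module A K) (_ : AddCommGroup P) (_ : Module A P)
    (i : K →ₗ[A] P) (p : P →ₗ[A] M), Injective i ∧ Exact i p ∧ Surjective p ∧ Tors R A P ∧
      PD A K r ∧ PD A P r ∧ γ = χ P / χ K

theorem Cov.unique [IsDomain R] [IsNoetherianRing A] {χ : Inv A Γ} {r : ℕ} (h : IsAddPD R χ r)
    {γ γ' : Γ} (c : Cov R χ r M γ) (c' : Cov R χ r M γ') : γ = γ' := by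
  obtain ⟨K, P, _, _, _, _, i, p, hi, he, hp, hT, hK, hP, rfl⟩ := c
  obtain ⟨K', P', _, _, _, _, i', p', hi', he', hp', hT', hK', hP', rfl⟩ := c'
  let Q : Submodule A (P × P') :=
    LinearMap.eqLocus (p ∘ₗ LinearMap.fst A P P') (p' ∘ₗ LinearMap.snd A P P')
  let a : Q →ₗ[A] P := LinearMap.fst A P P' ∘ₗ Q.subtype
  let b : Q →ₗ[A] P' := LinearMap.snd A P P' ∘ₗ Q.subtype
  obtain ⟨j', hj', ej', ha⟩ := half p p' a b (fun x e e' => Subtype.ext (Prod.ext e e'))
    (fun y y' e => ⟨⟨(y, y'), e⟩, rfl, rfl⟩) (fun x => x.2) i' hi' he' hp'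
  obtain ⟨j, hj, ej, hb⟩ := half p' p b a (fun x e e' => Subtype.ext (Prod.ext e' e))
    (fun y y' e => ⟨⟨(y', y), e.symm⟩, rfl, rfl⟩) (fun x => x.2.symm) i hi he hp
  have hQ : Tors R A Q := (hT.prod hT').sub Q
  have hD : PD A Q r := PD.mid j b hj ej hb hK hP'
  rw [div_eq_div_iff_mul_eq_mul, mul_comm, ← h K' Q P j' a hj' ej' ha hQ hK' hD hP,
    h K Q P' j b hj ej hb hQ hK hD hP', mul_comm]

theorem exists_cover (hA : ∀ (r : R) (a : A), r ≠ 0 → algebraMap R A r * a = 0 → a = 0)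
    (hM : Tors R A M) : ∃ (P : Type u) (_ : AddCommGroup P) (_ : Module A P) (p : P →ₗ[A] M),
      Surjective p ∧ Tors R A P ∧ PD A P 1 := by
  obtain ⟨h1, c, hc, h2⟩ := hM
  obtain ⟨N, p, hp⟩ := Module.Finite.exists_fin' A M
  let s : (Fin N → A) →ₗ[A] (Fin N → A) :=
    { toFun := fun x => algebraMap R A c • x
      map_add' := smul_add _
      map_smul' := fun a x => by
        rw [RingHom.id_apply, smul_smul, smul_smul, Algebra.commutes] }
  have hs : Injective s := (injective_iff_map_eq_zero _).2 fun x hx =>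
    funext fun i => hA c (x i) hc (congrFun hx i)
  refine ⟨(Fin N → A) ⧸ LinearMap.range s, inferInstance, inferInstance,
    (LinearMap.range s).liftQ p ?_, fun m => ?_, ⟨inferInstance, c, hc, fun m => ?_⟩,
    PD.right s (LinearMap.range s).mkQ hs (LinearMap.exact_map_mkQ_range s)
      (Submodule.mkQ_surjective _) (PD.of_projective 0) (PD.of_projective 1)⟩
  · rintro _ ⟨x, rfl⟩
    exact (map_smul p _ x).trans (h2 _)
  · obtain ⟨x, rfl⟩ := hp m
    exact ⟨Submodule.Quotient.mk x, rfl⟩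
  · obtain ⟨x, rfl⟩ := Submodule.mkQ_surjective _ m
    rw [← map_smul, Submodule.mkQ_apply, Submodule.Quotient.mk_eq_zero]
    exact ⟨x, rfl⟩

end ResP

open ResP

theorem res : S_Res.{u} := by
  intro R A Γ _ _ _ _ _ _ _ hA χ r hr h
  classical
  have := isNoetherianRing_alg R A
  let χ' : Inv A Γ := fun M _ _ => if h : ∃ γ, Cov R χ r M γ then h.choose else 1
  have key : ∀ (M : Type u) [AddCommGroup M] [Module A M] (γ : Γ), Cov R χ r M γ → χ' M = γ := by
    intro M _ _ γ c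
    have e : ∃ γ, Cov R χ r M γ := ⟨γ, c⟩
    exact (dif_pos e).trans (Cov.unique h e.choose_spec c)
  refine ⟨χ', ?_, fun M _ _ hM hP => ?_⟩
  · intro M₁ M₂ M₃ _ _ _ _ _ _ f g hf hfg hg hM _ h2 h3
    obtain ⟨P, _, _, p, hp, hT, hP⟩ := exists_cover hA hM
    replace hP := hP.mono hr
    have hgp : Surjective (g ∘ₗ p) := hg.comp hp
    have e2 := LinearMap.exact_subtype_ker_map p
    have e3 := LinearMap.exact_subtype_ker_map (g ∘ₗ p)
    have k2 := PD.left _ p (Submodule.injective_subtype _) e2 hp hP h2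
    have k3 := PD.left _ _ (Submodule.injective_subtype _) e3 hgp hP h3
    have hle : LinearMap.ker p ≤ LinearMap.ker (g ∘ₗ p) := LinearMap.ker_le_ker_comp p g
    obtain ⟨q, hq⟩ := fac f hf (p ∘ₗ (LinearMap.ker (g ∘ₗ p)).subtype) fun x => (hfg _).1 x.2
    rw [key M₂ _ ⟨_, P, _, _, _, _, _, p, Submodule.injective_subtype _, e2, hp, hT, k2, hP, rfl⟩,
      key M₃ _ ⟨_, P, _, _, _, _, _, _, Submodule.injective_subtype _, e3, hgp, hT, k3, hP, rfl⟩,
      key M₁ _ ⟨_, _, _, _, _, _, Submodule.inclusion hle, q, Submodule.inclusion_injective hle,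
        fun x => ⟨fun hx => ⟨⟨x, (hq x).symm.trans (by rw [hx, map_zero])⟩, rfl⟩, ?_⟩,
        fun m => ?_, hT.sub _, k2, k3, rfl⟩, div_mul_div_cancel']
    · rintro ⟨y, rfl⟩
      exact hf ((hq _).trans (y.2.trans (map_zero f).symm))
    · obtain ⟨x, hx⟩ := hp (f m)
      exact ⟨⟨x, (congrArg g hx).trans (hfg.apply_apply_eq_zero m)⟩, hf ((hq _).trans hx)⟩
  · have z : PD A PUnit.{u + 1} r := PD.of_projective r
    have h1 := h PUnit.{u + 1} PUnit.{u + 1} PUnit.{u + 1} 0 0 (fun _ _ _ => rfl)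
      (fun _ => ⟨fun _ => ⟨0, rfl⟩, fun _ => rfl⟩) (fun _ => ⟨0, rfl⟩) Tors.subsingleton z z z
    rw [key M _ ⟨PUnit.{u + 1}, M, _, _, _, _, 0, LinearMap.id, fun _ _ _ => rfl,
      fun y => ⟨fun e => ⟨0, e.symm⟩, fun ⟨_, e⟩ => e.symm⟩, surjective_id, hM, z, hP, rfl⟩,
      mul_eq_left.1 h1.symm, div_one]

theorem pdA : S_PdA.{u} := by
  intro R A _ _ _ _ _ _ hA r
  have := isNoetherianRing_alg R A
  induction r with
  | zero =>
    intro M _ _ _ _ _ h
    obtain ⟨N, p, hp⟩ := Module.Finite.exists_fin' A M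
    have := pd_zero_iff.1 h
    obtain ⟨s, hs⟩ := Module.projective_lifting_property (p.restrictScalars R) LinearMap.id hp
    obtain ⟨s', hs'⟩ := hA.lift p LinearMap.id s (LinearMap.congr_fun hs)
    exact pd_zero_iff.2 (Module.Projective.of_split s' p (LinearMap.ext hs'))
  | succ r ih =>
    intro M _ _ _ _ _ h
    obtain ⟨N, p, hp⟩ := Module.Finite.exists_fin' A M
    have e := LinearMap.exact_subtype_ker_map p
    exact PD.right _ p (Submodule.injective_subtype _) e hp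
      (ih _ (PD.left ((LinearMap.ker p).subtype.restrictScalars R) (p.restrictScalars R)
        (Submodule.injective_subtype _) e hp (PD.of_projective r) h)) (PD.of_projective _)

end Pool.Agent.P.MP_46a8f8_ag
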