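import Pool.Agent.P.MP_46a8f8_ag.Base

/-!
Local structure of smooth algebras, and Zariski's main theorem for essentially finite type
local algebras.
-/

namespace Pool.Agent.P.MP_46a8f8_ag

open TensorProduct Polynomial IsLocalRing Function

universe u

namespace StructP

/-- a local ring essentially of finite type is the localisation of a finite type algebra at a
prime -/
theorem atPrime (B R : Type u) [CommRing B] [CommRing R] [IsLocalRing R] [Algebra B R]
    [Algebra.EssFiniteType B R] :
    IsLocalization.AtPrime R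
      ((maximalIdeal R).comap (algebraMap (Algebra.EssFiniteType.subalgebra B R) R)) := by
  refine IsLocalization.of_le (Algebra.EssFiniteType.submonoid B R) _ ?_ ?_
  · intro x hx
    have hx' : IsUnit (algebraMap (Algebra.EssFiniteType.subalgebra B R) R x) := hx
    intro hm
    exact (mem_maximalIdeal _).mp hm hx'
  · intro x hx
    by_contra hu
    exact hx ((mem_maximalIdeal _).mpr hu)

end StructP

theorem struct : S_Struct.{u} := by
  intro B R _ _ _ _ _ _ _
  let S₀ := Algebra.EssFiniteType.subalgebra B R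
  let p : Ideal S₀ := (maximalIdeal R).comap (algebraMap S₀ R)
  have hp : p.IsPrime := Ideal.comap_isPrime _ _
  have hloc : IsLocalization.AtPrime R p := StructP.atPrime B R
  have hfp : Algebra.FinitePresentation B S₀ :=
    (Algebra.FinitePresentation.of_finiteType (R := B) (A := S₀)).mp inferInstance
  let e : R ≃ₐ[S₀] Localization.AtPrime p := IsLocalization.algEquiv p.primeCompl _ _
  have hsm : Algebra.IsSmoothAt B p := Algebra.FormallySmooth.of_equiv (e.restrictScalars B)
  obtain ⟨f, hf, n, alg, htower, het⟩ :=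
    Algebra.IsSmoothAt.exists_isStandardEtale_mvPolynomial (R := B) (p := p)
  have hle : Submonoid.powers f ≤ p.primeCompl := by
    rw [Submonoid.powers_le]
    exact hf
  let _ : Algebra (Localization.Away f) R :=
    IsLocalization.localizationAlgebraOfSubmonoidLe _ _ _ _ hle
  have ht1 : IsScalarTower S₀ (Localization.Away f) R :=
    IsLocalization.localization_isScalarTower_of_submonoid_le _ _ _ _ hle
  have hl2 : IsLocalization (p.primeCompl.map (algebraMap S₀ (Localization.Away f))) R :=
    IsLocalization.isLocalization_of_submonoid_le _ _ _ _ hle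
  have ht2 : IsScalarTower B (Localization.Away f) R := by
    refine IsScalarTower.of_algebraMap_eq fun b => ?_
    rw [IsScalarTower.algebraMap_apply B S₀ (Localization.Away f),
      ← IsScalarTower.algebraMap_apply S₀ (Localization.Away f) R,
      ← IsScalarTower.algebraMap_apply B S₀ R]
  let φ : MvPolynomial (Fin n) B →ₐ[B] R :=
    (IsScalarTower.toAlgHom B (Localization.Away f) R).comp
      (IsScalarTower.toAlgHom B (MvPolynomial (Fin n) B) (Localization.Away f))
  have hφ : (φ : MvPolynomial (Fin n) B →+* R) =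
      (algebraMap (Localization.Away f) R).comp
        (algebraMap (MvPolynomial (Fin n) B) (Localization.Away f)) := rfl
  refine ⟨n, φ, ?_⟩
  rw [hφ]
  refine ⟨?_, ?_, ?_⟩
  · refine RingHom.Flat.comp ?_ ?_
    · exact RingHom.flat_algebraMap_iff.mpr inferInstance
    · exact RingHom.flat_algebraMap_iff.mpr
        (IsLocalization.flat R (p.primeCompl.map (algebraMap S₀ (Localization.Away f))))
  · refine RingHom.FormallyUnramified.comp ?_ ?_
    · exact RingHom.formallyUnramified_algebraMap.mpr inferInstance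
    · exact RingHom.formallyUnramified_algebraMap.mpr
        (Algebra.FormallyUnramified.of_isLocalization
          (p.primeCompl.map (algebraMap S₀ (Localization.Away f))))
  · refine RingHom.EssFiniteType.comp ?_ ?_
    · exact RingHom.essFiniteType_algebraMap.mpr inferInstance
    · exact RingHom.essFiniteType_algebraMap.mpr
        (Algebra.EssFiniteType.of_isLocalization R
          (p.primeCompl.map (algebraMap S₀ (Localization.Away f))))

theorem zmt : S_ZMT.{u} := by
  intro R' D _ _ _ _ _ _ _ _ _ Q N hQ hQN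
  have hE : Algebra.EssFiniteType R' D := Algebra.EssFiniteType.comp R' R'[X] D
  let S₀ := Algebra.EssFiniteType.subalgebra R' D
  let p : Ideal S₀ := (maximalIdeal D).comap (algebraMap S₀ D)
  have hp : p.IsPrime := Ideal.comap_isPrime _ _
  have hloc : IsLocalization.AtPrime D p := StructP.atPrime R' D
  let J : Ideal D := ((maximalIdeal D).comap (algebraMap R' D)).map (algebraMap R' D)
  have hqf : Algebra.QuasiFinite R'[X] D := inferInstance
  have hqf1 : Algebra.QuasiFinite R'[X] (D ⧸ J) := inferInstance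
  have hroot : aeval (algebraMap R'[X] (D ⧸ J) X) (Q ^ N) = 0 := by
    have h1 : aeval (algebraMap R'[X] (D ⧸ J) X) (Q ^ N) = algebraMap R'[X] (D ⧸ J) (Q ^ N) := by
      have h2 := aeval_algHom_apply (IsScalarTower.toAlgHom R' R'[X] (D ⧸ J)) X (Q ^ N)
      rw [aeval_X_left_apply] at h2
      exact h2
    rw [h1, IsScalarTower.algebraMap_apply R'[X] D (D ⧸ J), map_pow]
    exact Ideal.Quotient.eq_zero_iff_mem.mpr hQN
  let ψ : AdjoinRoot (Q ^ N) →ₐ[R'] (D ⧸ J) :=
    AdjoinRoot.liftAlgHom (Q ^ N) (Algebra.ofId _ _) (algebraMap R'[X] (D ⧸ J) X) hroot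
  let _ : Algebra (AdjoinRoot (Q ^ N)) (D ⧸ J) := ψ.toRingHom.toAlgebra
  have ht1 : IsScalarTower R' (AdjoinRoot (Q ^ N)) (D ⧸ J) :=
    IsScalarTower.of_algebraMap_eq fun x => (ψ.commutes x).symm
  let _ : Algebra R'[X] (AdjoinRoot (Q ^ N)) := (AdjoinRoot.mk (Q ^ N)).toAlgebra
  have ht2 : IsScalarTower R'[X] (AdjoinRoot (Q ^ N)) (D ⧸ J) := by
    refine IsScalarTower.of_algebraMap_eq fun x => ?_
    change _ = ψ (AdjoinRoot.mk _ x)
    have h2 := aeval_algHom_apply (IsScalarTower.toAlgHom R' R'[X] (D ⧸ J)) X x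
    rw [aeval_X_left_apply] at h2
    rw [AdjoinRoot.liftAlgHom_mk]
    exact h2.symm
  have hfin : Module.Finite R' (AdjoinRoot (Q ^ N)) := (hQ.pow N).finite_adjoinRoot
  have hqf2 : Algebra.QuasiFinite (AdjoinRoot (Q ^ N)) (D ⧸ J) :=
    Algebra.QuasiFinite.of_restrictScalars R'[X] _ _
  have hqf3 : Algebra.QuasiFinite R' (D ⧸ J) :=
    Algebra.QuasiFinite.trans R' (AdjoinRoot (Q ^ N)) _
  let e : D ≃ₐ[S₀] Localization.AtPrime p := IsLocalization.algEquiv p.primeCompl _ _
  have hw : Algebra.WeaklyQuasiFiniteAt R' p := by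
    rw [Algebra.weaklyQuasiFiniteAt_iff]
    have hu : p.under R' = (maximalIdeal D).comap (algebraMap R' D) := by
      change ((maximalIdeal D).comap (algebraMap S₀ D)).comap (algebraMap R' S₀) = _
      rw [Ideal.comap_comap, ← IsScalarTower.algebraMap_eq]
    refine (Algebra.QuasiFinite.iff_of_algEquiv
      (Ideal.quotientEquivAlg J _ (e.restrictScalars R') ?_)).mp hqf3
    rw [hu]
    change _ = Ideal.map _ (Ideal.map _ _)
    rw [Ideal.map_map]
    congr 1
    ext x
    exact ((e.restrictScalars R').commutes x).symm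
  obtain ⟨S', hS', r, hr, hbij⟩ :=
    Algebra.QuasiFiniteAt.exists_fg_and_exists_notMem_and_awayMap_bijective (R := R') p
  have hsurj := Localization.awayMap_surjective_iff.mp hbij.2
  have hru : IsUnit (algebraMap S₀ D r.1) :=
    IsLocalization.map_units D (⟨r.1, hr⟩ : p.primeCompl)
  refine ⟨S'.map S₀.val, ?_, fun d => ?_⟩
  · have h1 : (Subalgebra.toSubmodule (S'.map S₀.val)).FG := by
      rw [Subalgebra.map_toSubmodule]
      exact hS'.map _
    exact ⟨(Submodule.fg_top _).mpr h1⟩
  · obtain ⟨⟨x, s⟩, hxs⟩ := IsLocalization.surj p.primeCompl d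
    obtain ⟨b, k, hb⟩ := hsurj x
    obtain ⟨c, l, hc⟩ := hsurj s.1
    have hsu : IsUnit (algebraMap S₀ D s.1) := IsLocalization.map_units D s
    have hb' : (b.1.1 : D) = (r.1.1 : D) ^ k * (x.1 : D) := congrArg Subtype.val hb
    have hc' : (c.1.1 : D) = (r.1.1 : D) ^ l * (s.1.1 : D) := congrArg Subtype.val hc
    have hxs' : d * (s.1.1 : D) = (x.1 : D) := hxs
    have hru' : IsUnit (r.1.1 : D) := hru
    have hsu' : IsUnit (s.1.1 : D) := hsu
    have hrm : (r.1.1 : D) ∈ S'.map S₀.val := ⟨r.1, r.2, rfl⟩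
    have hbm : (b.1.1 : D) ∈ S'.map S₀.val := ⟨b.1, b.2, rfl⟩
    have hcm : (c.1.1 : D) ∈ S'.map S₀.val := ⟨c.1, c.2, rfl⟩
    refine ⟨(r.1.1 : D) ^ l * b.1.1, (r.1.1 : D) ^ k * c.1.1, mul_mem (pow_mem hrm _) hbm,
      mul_mem (pow_mem hrm _) hcm, ?_, ?_⟩
    · rw [hc']
      exact (hru'.pow _).mul ((hru'.pow _).mul hsu')
    · rw [hb', hc', ← hxs']
      ring

end Pool.Agent.P.MP_46a8f8_ag
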