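import Pool.Agent.P.MP_46a8f8_ag.Base

/-!
Hilbert-Burch over a semilocal domain.
-/

namespace Pool.Agent.P.MP_46a8f8_ag

open Function TensorProduct Matrix IsLocalRing

universe u

namespace ThS2P

variable {S : Type u} [CommRing S] [IsDomain S]

/-- a finite flat module over a semilocal domain is free -/
theorem basis_dom [Finite (MaximalSpectrum S)] (M : Type u) [AddCommGroup M] [Module S M]
    [Module.Finite S M] [Module.Flat S M] :
    Nonempty (Module.Basis (Fin (Module.finrank S M)) S M) := by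
  refine Module.nonempty_basis_of_flat_of_finrank_eq S M _ fun P => ?_
  have := P.isMaximal
  let _ := Ideal.Quotient.field P.1
  exact Module.finrank_baseChange.symm.trans
    ((AlgebraTensorModule.cancelBaseChange S (S ⧸ P.1) P.1.ResidueField P.1.ResidueField
      M).finrank_eq.trans (Ideal.finrank_fiber_eq_finrank P.1))

theorem inj (𝔫 : Ideal S) [𝔫.IsPrime] : Injective (algebraMap S (Localization.AtPrime 𝔫)) :=
  IsLocalization.injective _ 𝔫.primeCompl_le_nonZeroDivisors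

/-- the localisation of the module of relations -/
noncomputable def kl {r : ℕ} (c : Fin r → S) (O : Type u) [CommRing O] [Algebra S O] :
    LinearMap.ker (Fintype.linearCombination S c) →ₗ[S]
      LinearMap.ker (Fintype.linearCombination O (algebraMap S O ∘ c)) where
  toFun x := ⟨fun i => algebraMap S O (x.1 i), by
    have h : ∑ i, x.1 i * c i = 0 := x.2
    simpa [Fintype.linearCombination_apply] using congrArg (algebraMap S O) h⟩
  map_add' x y := Subtype.ext (funext fun i => map_add _ _ _)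
  map_smul' s x := Subtype.ext (funext fun i => by simp [Algebra.smul_def])

theorem kl_loc {r : ℕ} (c : Fin r → S) (𝔫 : Ideal S) [𝔫.IsPrime] :
    IsLocalizedModule 𝔫.primeCompl (kl c (Localization.AtPrime 𝔫)) where
  map_units := (isLocalizedModule_id 𝔫.primeCompl _ (Localization.AtPrime 𝔫)).map_units
  surj y := by
    obtain ⟨b, hb⟩ := IsLocalization.exist_integer_multiples_of_finite 𝔫.primeCompl y.1
    choose x hx using hb
    refine ⟨(⟨x, inj 𝔫 ?_⟩, b), Subtype.ext (funext fun i => (hx i).symm)⟩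
    have h : ∑ i, y.1 i * algebraMap S _ (c i) = 0 := y.2
    simp only [Fintype.linearCombination_apply, smul_eq_mul, map_sum, map_mul, hx, map_zero,
      smul_mul_assoc, ← Finset.smul_sum, h, smul_zero]
  exists_of_eq {x y} h := ⟨1, congrArg _ (Subtype.ext (funext fun i =>
    inj 𝔫 (congrFun (congrArg Subtype.val h) i)))⟩

section loc

variable {q : Ideal S} (hq : q.IsPrime) (𝔫 : Ideal S) [h𝔫 : 𝔫.IsMaximal] (hle : q ≤ 𝔫)

include hle

omit [IsDomain S] in
theorem disj : Disjoint (𝔫.primeCompl : Set S) q :=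
  Set.disjoint_left.2 fun _ h h' => h (hle h')

include hq

omit [IsDomain S] in
theorem map_prime : (q.map (algebraMap S (Localization.AtPrime 𝔫))).IsPrime :=
  IsLocalization.isPrime_of_isPrime_disjoint 𝔫.primeCompl _ q hq (disj 𝔫 hle)

omit [IsDomain S] in
theorem map_ne (hm : ¬ q.IsMaximal) :
    q.map (algebraMap S (Localization.AtPrime 𝔫)) ≠ maximalIdeal _ := fun h => by
  have := IsLocalization.under_map_of_isPrime_disjoint 𝔫.primeCompl (Localization.AtPrime 𝔫) hq
    (disj 𝔫 hle)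
  rw [h, Localization.AtPrime.under_maximalIdeal] at this
  exact hm (this ▸ h𝔫)

end loc

omit [IsDomain S] in
theorem map_above {q : Ideal S} (h : ∀ 𝔮 : Ideal S, 𝔮.IsPrime → q < 𝔮 → 𝔮.IsMaximal)
    (𝔫 : Ideal S) [h𝔫 : 𝔫.IsMaximal] (𝔮' : Ideal (Localization.AtPrime 𝔫)) (hp : 𝔮'.IsPrime)
    (hlt : q.map (algebraMap S _) < 𝔮') : 𝔮' = maximalIdeal _ := by
  have e := IsLocalization.map_under 𝔫.primeCompl (Localization.AtPrime 𝔫) 𝔮'
  have h1 : (𝔮'.under S).IsMaximal := h _ inferInstance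
    (lt_of_le_of_ne (Ideal.map_le_iff_le_comap.1 hlt.le) fun e' => hlt.ne (e' ▸ e))
  have h2 : 𝔮'.under S ≤ 𝔫 := (Ideal.comap_mono (le_maximalIdeal hp.ne_top)).trans
    Localization.AtPrime.under_maximalIdeal.le
  rw [← e, h1.eq_of_le h𝔫.ne_top h2, Localization.AtPrime.map_eq_maximalIdeal]

/-- the determinant computation -/
theorem core [IsNoetherianRing S] {r : ℕ} (c : Fin (r + 1) → S) (hf : c 0 ≠ 0)
    (b : Module.Basis (Fin r) S (LinearMap.ker (Fintype.linearCombination S c)))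
    (H : ∀ a b : S, a ≠ 0 → (∀ e ∈ Ideal.span (Set.range c), a ∣ b * e) → a ∣ b) :
    ∃ φ : Matrix (Fin (r + 1)) (Fin (r + 1)) S,
      (∀ v, c 0 ∣ ∑ i, c i * v i ↔ ∃ w, φ.mulVec w = v) ∧ Associated φ.det (c 0) := by
  set π := Fintype.linearCombination S c with hπ
  have hq : ∀ e ∈ Ideal.span (Set.range c), ∃ v, π v = e := fun e he => by
    rwa [Ideal.span, ← Fintype.range_linearCombination] at he
  let Φ : (Fin (r + 1) → S) → Matrix (Fin (r + 1)) (Fin (r + 1)) S := fun v =>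
    Matrix.of fun i j => (Fin.cons v (fun j => (b j).1) : Fin (r + 1) → Fin (r + 1) → S) j i
  have hΦ : ∀ v w, Φ v *ᵥ w = w 0 • v + (b.equivFun.symm fun j => w j.succ).1 := fun v w => by
    funext i
    simp [Φ, mulVec, dotProduct, Fin.sum_univ_succ, mul_comm]
  have h1 : ∀ v w, π (Φ v *ᵥ w) = w 0 * π v := fun v w => by
    rw [hΦ, map_add, map_smul, (b.equivFun.symm _).2, add_zero, smul_eq_mul]
  have h2 : ∀ v x s, π x = s * π v → ∃ w, Φ v *ᵥ w = x := fun v x s h => by
    refine ⟨Fin.cons s (b.equivFun ⟨x - s • v, by simp [h]⟩), ?_⟩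
    rw [hΦ]
    simp
  let e₀ : Fin (r + 1) → S := Pi.single 0 1
  have he : π e₀ = c 0 := by simp [hπ, e₀]
  have hup : ∀ v, (Φ e₀).updateCol 0 v = Φ v := fun v => by
    ext i j
    refine Fin.cases ?_ (fun j => ?_) j
    · simp [Φ]
    · simp [Φ]
  have h3 : ∀ v, (Φ v).det * c 0 = (Φ e₀).det * π v := fun v => by
    rw [← hup v, ← cramer_apply, ← he, ← h1, mulVec_cramer, map_smul, smul_eq_mul]
  have hd : (Φ e₀).det ≠ 0 := fun h => by
    obtain ⟨w, hw, e⟩ := Matrix.exists_mulVec_eq_zero_iff.2 h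
    have w0 : w 0 = 0 := by
      have := h1 e₀ w
      rw [e, map_zero, he] at this
      exact (mul_eq_zero.1 this.symm).resolve_right hf
    rw [hΦ, w0, zero_smul, zero_add, Submodule.coe_eq_zero, map_eq_zero_iff _
      b.equivFun.symm.injective] at e
    exact hw (funext fun j => Fin.cases w0 (fun j => congrFun e j) j)
  obtain ⟨a, ha⟩ : c 0 ∣ (Φ e₀).det := H _ _ hf fun e he => by
    obtain ⟨v, rfl⟩ := hq e he
    exact ⟨_, (h3 v).symm.trans (mul_comm _ _)⟩
  have ha0 : a ≠ 0 := by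
    rintro rfl
    exact hd (ha.trans (mul_zero _))
  have h4 : Ideal.span (Set.range c) ≤ (Ideal.span {a}).radical := fun e he => by
    obtain ⟨v, rfl⟩ := hq e he
    by_cases hv : π v = 0
    · rw [hv]
      exact Ideal.zero_mem _
    choose N hN using fun j => h2 v (π v • Pi.single j 1) (π (Pi.single j 1)) (by
      rw [map_smul, smul_eq_mul, mul_comm])
    have e1 : Φ v * (Matrix.of N)ᵀ = π v • (1 : Matrix _ _ S) := by
      ext i j
      have := congrFun (hN j) i
      simpa [mul_apply, mulVec, dotProduct, one_apply, Pi.single_apply] using this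
    have e2 := congrArg Matrix.det e1
    have e3 : (Φ v).det = π v * a := mul_right_cancel₀ hf (by rw [h3, ha]; ring)
    rw [det_mul, det_smul, det_one, mul_one, Fintype.card_fin, e3, pow_succ', mul_assoc] at e2
    exact ⟨r, Ideal.mem_span_singleton.2 ⟨_, (mul_left_cancel₀ hv e2).symm⟩⟩
  obtain ⟨M, hM⟩ := Ideal.exists_pow_le_of_le_radical_of_fg h4 (Ideal.fg_of_isNoetherianRing _)
  have h5 : ∀ (M : ℕ) (b : S), (∀ e ∈ Ideal.span (Set.range c) ^ M, a ∣ b * e) → a ∣ b := by
    intro M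
    induction M with
    | zero => exact fun b h => by simpa using h 1 (by simp)
    | succ M ih =>
      refine fun b h => H a b ha0 fun e he => ih _ fun e' he' => ?_
      rw [mul_assoc]
      exact h _ (by rw [pow_succ']; exact Ideal.mul_mem_mul he he')
  have h6 : IsUnit a := isUnit_of_dvd_one (h5 M 1 fun e he =>
    (Ideal.mem_span_singleton.1 (hM he)).mul_left 1)
  have h7 : ∀ v, ∑ i, c i * v i = π v := fun v => by
    simp [hπ, Fintype.linearCombination_apply, mul_comm]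
  refine ⟨Φ e₀, fun v => ⟨fun ⟨s, hs⟩ => h2 e₀ v s ?_, ?_⟩, ?_⟩
  · rw [← h7, hs, he, mul_comm]
  · rintro ⟨w, rfl⟩
    rw [h7, h1, he]
    exact dvd_mul_left _ _
  · rw [ha]
    exact associated_mul_unit_left _ _ h6

end ThS2P

open ThS2P

theorem thS2 (h1 : S_RegAt.{u}) (h2 : S_HQ.{u}) (h3 : S_PD2.{u}) : S_ThS2.{u} := by
  intro S _ _ _ _ q hq h0 hm hab hreg
  obtain ⟨f, hfq, hf0, hf⟩ : ∃ f ∈ q, f ≠ 0 ∧ ∀ 𝔫 : Ideal S, 𝔫.IsMaximal → f ∈ 𝔫 → q ≤ 𝔫 := by
    obtain ⟨j, hj, hj1⟩ := exists_mem_sub_one_mem q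
    have key : ∀ 𝔫 : Ideal S, 𝔫.IsMaximal → j ∈ 𝔫 → q ≤ 𝔫 := fun 𝔫 h𝔫 h => by
      by_contra hc
      exact h𝔫.ne_top ((Ideal.eq_top_iff_one _).2
        (by simpa using 𝔫.sub_mem h (hj1 𝔫 h𝔫 hc)))
    by_cases hj0 : j = 0
    · obtain ⟨f, hfq, hf0⟩ := Submodule.exists_mem_ne_zero_of_ne_bot h0
      exact ⟨f, hfq, hf0, fun 𝔫 h𝔫 _ => key 𝔫 h𝔫 (hj0 ▸ 𝔫.zero_mem)⟩
    · exact ⟨j, hj, hj0, key⟩
  obtain ⟨r, c', hc'⟩ := Submodule.fg_iff_exists_fin_generating_family.1
    q.fg_of_isNoetherianRing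
  let c : Fin (r + 1) → S := Fin.cons f c'
  have hc : Ideal.span (Set.range c) = q := by
    rw [Fin.range_cons, Ideal.span_insert, Ideal.span, Ideal.span, hc', sup_eq_right]
    exact (Submodule.span_singleton_le_iff_mem _ _).2 hfq
  have hcO : ∀ (O : Type u) [CommRing O] [Algebra S O],
      Ideal.span (Set.range (algebraMap S O ∘ c)) = q.map (algebraMap S O) := fun O _ _ => by
    rw [← hc, Ideal.map_span, Set.range_comp]
  have H : ∀ a b : S, a ≠ 0 → (∀ e ∈ q, a ∣ b * e) → a ∣ b := fun a b ha h => by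
    by_contra hn
    obtain ⟨𝔫, h𝔫, hle⟩ := Ideal.exists_le_maximal
      (Submodule.comap (LinearMap.mulLeft S b) (Ideal.span {a})) fun e => hn (by
        simpa [Ideal.mem_span_singleton] using (Ideal.eq_top_iff_one _).1 e)
    replace hle : ∀ s, a ∣ b * s → s ∈ 𝔫 := fun s hs => hle (Ideal.mem_span_singleton.2 hs)
    have hq𝔫 : q ≤ 𝔫 := fun e he => hle e (h e he)
    obtain ⟨_, hd⟩ := (h1 S (Localization.AtPrime 𝔫) 𝔫 3).1 (hreg 𝔫 h𝔫 hq𝔫)
    obtain ⟨z, hz⟩ := h2 _ _ hd (map_prime hq 𝔫 hq𝔫) (map_ne hq 𝔫 hq𝔫 hm) (map_above hab 𝔫)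
      (algebraMap S _ a) (algebraMap S _ b) ((map_ne_zero_iff _ (inj 𝔫)).2 ha) fun e he => by
        obtain ⟨⟨x, s⟩, hx⟩ := (IsLocalization.mem_map_algebraMap_iff 𝔫.primeCompl _).1 he
        rw [← (IsLocalization.map_units (Localization.AtPrime 𝔫) s).dvd_mul_right, mul_assoc, hx,
          ← map_mul]
        exact map_dvd _ (h x x.2)
    obtain ⟨⟨x, s⟩, hx⟩ := IsLocalization.surj 𝔫.primeCompl z
    exact s.2 (hle s ⟨x, inj 𝔫 (by rw [map_mul, map_mul, hz, mul_assoc, hx])⟩)
  set K := LinearMap.ker (Fintype.linearCombination S c) with hK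
  have : Module.Flat S K := by
    refine @Module.flat_of_isLocalized_maximal S S _ _ _ K _ _ _ _ _ _ _ _ _
      (fun 𝔫 _ => kl c (Localization.AtPrime 𝔫)) (fun 𝔫 _ => kl_loc c 𝔫) fun 𝔫 h𝔫 => ?_
    have : Module.Projective (Localization.AtPrime 𝔫) (LinearMap.ker (Fintype.linearCombination
        (Localization.AtPrime 𝔫) (algebraMap S (Localization.AtPrime 𝔫) ∘ c))) := by
      by_cases hq𝔫 : q ≤ 𝔫
      · obtain ⟨_, hd⟩ := (h1 S (Localization.AtPrime 𝔫) 𝔫 3).1 (hreg 𝔫 h𝔫 hq𝔫)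
        have := h3 _ _ hd (map_prime hq 𝔫 hq𝔫) (map_ne hq 𝔫 hq𝔫 hm) _ _ (hcO _)
        infer_instance
      · obtain ⟨e, he, he'⟩ := SetLike.not_le_iff_exists.1 hq𝔫
        refine pd_zero_iff.1 (PD.left _ _ (Submodule.injective_subtype _)
          (LinearMap.exact_subtype_ker_map _) (LinearMap.range_eq_top.1 ?_) (PD.of_projective 0)
          (PD.of_projective 1))
        rw [Fintype.range_linearCombination]
        exact (hcO _).trans (Ideal.eq_top_of_isUnit_mem _ (Ideal.mem_map_of_mem _ he)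
          (IsLocalization.map_units _ (⟨e, he'⟩ : 𝔫.primeCompl)))
    exact Module.Flat.trans S (Localization.AtPrime 𝔫) _
  have hr : Module.finrank S K = r := by
    have e1 := K.finrank_quotient_add_finrank
    have e2 : LinearMap.range (Fintype.linearCombination S c) = q :=
      (Fintype.range_linearCombination S c).trans hc
    have e3 := Submodule.finrank_le (R := S) q
    have := Submodule.nontrivial_iff_ne_bot.2 h0
    have e4 := Module.finrank_pos (R := S) (M := q)
    rw [(LinearMap.quotKerEquivRange _).finrank_eq, e2, Module.finrank_fin_fun] at e1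
    rw [Module.finrank_self] at e3
    omega
  obtain ⟨b⟩ := basis_dom (S := S) K
  rw [hr] at b
  obtain ⟨φ, hφ, hd⟩ := core c hf0 b (hc ▸ H)
  exact ⟨r + 1, c, f, φ, hc, hfq, hf0, hf, hφ, hd⟩

end Pool.Agent.P.MP_46a8f8_ag
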