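import Pool.Agent.P.MP_46a8f8_ag.Base

/-!
Vanishing of an additive invariant on a module with a Hilbert-Burch type resolution.
-/

namespace Pool.Agent.P.MP_46a8f8_ag

open Function

universe u

namespace ThS3P

variable {A S P : Type u} [Ring A] [CommRing S] [AddCommGroup P] [Module A P] [Module S P]
  [SMulCommClass A S P] {r : ℕ}

/-- a combination with commuting scalars -/
def cm (A : Type u) {S : Type u} (P : Type u) [Ring A] [CommRing S] [AddCommGroup P] [Module A P]
    [Module S P] [SMulCommClass A S P] {r : ℕ} (c : Fin r → S) : (Fin r → P) →ₗ[A] P where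
  toFun p := ∑ i, c i • p i
  map_add' p q := by simp [Finset.sum_add_distrib]
  map_smul' a p := by simp [Finset.smul_sum, smul_comm a]

theorem mem_iff (c : Fin r → S) (y : P) :
    y ∈ Ideal.span (Set.range c) • (⊤ : Submodule S P) ↔ ∃ p, cm A P c p = y := by
  constructor
  · intro h
    refine Submodule.smul_induction_on (p := fun y => ∃ p, cm A P c p = y) h
      (fun s hs n _ => ?_) ?_
    · obtain ⟨a, rfl⟩ := Ideal.mem_span_range_iff_exists_fun.1 hs
      refine ⟨fun i => a i • n, ?_⟩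
      change ∑ i, c i • a i • n = _
      simp only [Finset.sum_smul, smul_smul, mul_comm]
    · rintro _ _ ⟨p, rfl⟩ ⟨q, rfl⟩
      exact ⟨p + q, map_add _ _ _⟩
  · rintro ⟨p, rfl⟩
    change ∑ i, c i • p i ∈ _
    exact Submodule.sum_mem _ fun i _ =>
      Submodule.smul_mem_smul (Ideal.subset_span (Set.mem_range_self i)) Submodule.mem_top

theorem sum_mulVec {Y : Type u} {κ : Type} [AddCommGroup Y] [Module S Y] [Fintype κ]
    (φ : Matrix (Fin r) (Fin r) S) (w : κ → Fin r → S) (b : κ → Y) (i : Fin r) :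
    ∑ j, φ i j • ∑ l, w l j • b l = ∑ l, φ.mulVec (w l) i • b l := by
  simp only [Finset.smul_sum, smul_smul, Matrix.mulVec, dotProduct, Finset.sum_smul]
  exact Finset.sum_comm

theorem range_assoc {s t : S} (h : Associated s t) :
    LinearMap.range (sA A P s) = LinearMap.range (sA A P t) := by
  obtain ⟨v, rfl⟩ := h
  apply le_antisymm
  · rintro _ ⟨p, rfl⟩
    refine ⟨(↑v⁻¹ : S) • p, ?_⟩
    change (s * v) • (↑v⁻¹ : S) • p = s • p
    rw [smul_smul, Units.mul_inv_cancel_right]
  · rintro _ ⟨p, rfl⟩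
    exact ⟨(v : S) • p, (mul_smul s (v : S) p).symm⟩

end ThS3P

open ThS3P in
theorem thS3 (h : S_DetP.{u}) : S_ThS3.{u} := by
  intro R A S P Y M Γ _ _ _ _ _ _ _ _ _ _ _ _ _ _ _ _ _ _ _ _ _ _ ψ i j δ π r c f φ hψ hR hi hj hπ
    hker hf hf0 hco hφ hdet
  have tf : ∀ (s : S) (p : P), s ≠ 0 → s • p = 0 → p = 0 := fun s p hs hp => hi (by
    have := congrArg i hp
    rw [map_smul, map_zero] at this
    rw [map_zero]
    exact (smul_eq_zero.1 this).resolve_left hs)
  have tors : ∀ s : S, s ≠ 0 → Tors R A (P ⧸ LinearMap.range (sA A P s)) := fun s hs => by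
    obtain ⟨a, ha, ha0⟩ := (Submodule.ne_bot_iff _).1 (Ideal.comap_ne_bot_of_integral_mem (R := R)
      hs (Ideal.mem_span_singleton_self s) (Algebra.IsIntegral.isIntegral s))
    obtain ⟨t, ht⟩ := Ideal.mem_span_singleton'.1 (Ideal.mem_comap.1 ha)
    refine ⟨inferInstance, a, ha0, fun m => ?_⟩
    obtain ⟨p, rfl⟩ := Submodule.Quotient.mk_surjective _ m
    rw [← Submodule.Quotient.mk_smul, Submodule.Quotient.mk_eq_zero, hR, ← ht, mul_comm, mul_smul]
    exact ⟨t • p, rfl⟩
  have h1 : LinearMap.range (mA A P φ) ≤ (LinearMap.range (sA A P f)).comap (cm A P c) := by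
    rintro _ ⟨p, rfl⟩
    choose t ht using fun k => (hφ _).2 ⟨Pi.single k 1, rfl⟩
    refine ⟨∑ k, t k • p k, ?_⟩
    change f • ∑ k, t k • p k = ∑ l, c l • ∑ k, φ l k • p k
    simp only [Finset.smul_sum, smul_smul]
    rw [Finset.sum_comm]
    refine Finset.sum_congr rfl fun k _ => ?_
    rw [← ht k, Finset.sum_smul]
    simp
  have h2 : LinearMap.range (sA A P f) ≤ LinearMap.ker π := by
    rintro _ ⟨p, rfl⟩
    exact (hker _).2 (Submodule.smul_mem_smul hf Submodule.mem_top)
  have hinj : Injective (Submodule.mapQ _ _ (cm A P c) h1) := by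
    rw [injective_iff_map_eq_zero]
    intro m hm
    obtain ⟨p, rfl⟩ := Submodule.Quotient.mk_surjective _ m
    rw [Submodule.mapQ_apply, Submodule.Quotient.mk_eq_zero] at hm
    rw [Submodule.Quotient.mk_eq_zero]
    obtain ⟨p', hp'⟩ := hm
    replace hp' : f • p' = ∑ k, c k • p k := hp'
    let b := Module.finBasis S Y
    have e1 : ∀ l, f ∣ ∑ k, c k * b.repr (i (p k)) l := fun l => ⟨b.repr (i p') l, by
      have := congrArg (fun y => b.repr (i y) l) hp'
      simpa [map_sum, Finset.sum_apply'] using this.symm⟩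
    choose w hw using fun l => (hφ _).1 (e1 l)
    have e2 : ∀ k, ∑ k', φ k k' • j (∑ l, w l k' • b l) = δ • p k := fun k => by
      rw [← hj, ← b.sum_repr (i (p k))]
      simp only [← map_smul, ← map_sum]
      rw [sum_mulVec]
      simp only [hw]
    have e3 : ∀ k, f ∣ ∑ l, c l * (Pi.single k f : Fin r → S) l := fun k =>
      Finset.dvd_sum fun l _ => Dvd.dvd.mul_left (by
        rw [Pi.single_apply]
        split_ifs
        exacts [dvd_rfl, dvd_zero f]) _
    choose v hv using fun k => (hφ _).1 (e3 k)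
    have e4 : ∀ k, ∑ k', φ k k' • ∑ l, v l k' • p l = f • p k := fun k => by
      rw [sum_mulVec]
      simp [hv, Pi.single_apply]
    obtain ⟨α, β, hαβ⟩ := hco
    refine ⟨fun k' => α • j (∑ l, w l k' • b l) + β • ∑ l, v l k' • p l, funext fun k => ?_⟩
    change ∑ k', φ k k' • (α • j (∑ l, w l k' • b l) + β • ∑ l, v l k' • p l) = p k
    simp only [smul_add, Finset.sum_add_distrib, smul_comm (φ k _) α, smul_comm (φ k _) β]
    rw [← Finset.smul_sum, ← Finset.smul_sum, e2, e4, smul_smul, smul_smul, ← add_smul, hαβ,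
      one_smul]
  have hex : Exact (Submodule.mapQ _ _ (cm A P c) h1) (Submodule.liftQ _ π h2) := by
    intro m
    obtain ⟨y, rfl⟩ := Submodule.Quotient.mk_surjective _ m
    rw [Submodule.liftQ_apply]
    constructor
    · intro hy
      obtain ⟨p, rfl⟩ := (mem_iff (A := A) c y).1 ((hker y).1 hy)
      exact ⟨Submodule.Quotient.mk p, rfl⟩
    · rintro ⟨m, hm⟩
      obtain ⟨p, rfl⟩ := Submodule.Quotient.mk_surjective _ m
      have := congrArg (Submodule.liftQ _ π h2) hm
      rw [Submodule.mapQ_apply, Submodule.liftQ_apply, Submodule.liftQ_apply] at this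
      rw [← this]
      exact (hker _).2 ((mem_iff (A := A) c _).2 ⟨p, rfl⟩)
  have hsur : Surjective (Submodule.liftQ _ π h2) := fun m => by
    obtain ⟨y, rfl⟩ := hπ m
    exact ⟨Submodule.Quotient.mk y, rfl⟩
  have e := hψ _ _ _ _ _ hinj hex hsur (tors f hf0)
  rw [h R A S P Γ ψ hψ tf tors r φ (fun z => hf0 (hdet.eq_zero_iff.1 z)), range_assoc hdet] at e
  exact (left_eq_mul.1 e)

end Pool.Agent.P.MP_46a8f8_ag
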