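import Pool.Agent.P.MP_46a8f8_ag.St2

/-!
Base change of the separability data, Wedderburn over an algebraically closed field, and
independence of the determinant of the splitting.
-/

namespace Pool.Agent.P.MP_46a8f8_ag

open TensorProduct Function

universe u

theorem azBC : S_AzBC.{u} := by
  intro R A R' _ _ _ _ _ h
  obtain ⟨k, a, b, h1, hc, l, x, z, w, h2⟩ := h
  let D : R' → A ⊗[R] A →ₗ[R] (R' ⊗[R] A) ⊗[R'] (R' ⊗[R] A) := fun r =>
    (AlgebraTensorModule.distribBaseChange R R' A A).toLinearMap.restrictScalars R ∘ₗ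
      TensorProduct.mk R R' (A ⊗[R] A) r
  have hD : ∀ r s t, D r (s ⊗ₜ t) = (r ⊗ₜ s) ⊗ₜ (1 ⊗ₜ t) := fun r s t =>
    AlgebraTensorModule.distribBaseChange_tmul R R' s t r
  refine ⟨k, fun i => 1 ⊗ₜ a i, fun i => 1 ⊗ₜ b i, ?_, fun c => ?_, l, fun j => 1 ⊗ₜ x j,
    fun j => 1 ⊗ₜ z j, fun j => 1 ⊗ₜ w j, ?_⟩
  · simp only [Algebra.TensorProduct.tmul_mul_tmul, mul_one]
    rw [← tmul_sum, h1, Algebra.TensorProduct.one_def]
  · induction c using TensorProduct.induction_on with
    | zero => simp
    | add c d hc' hd' =>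
      simp only [add_mul, mul_add, add_tmul, tmul_add, Finset.sum_add_distrib, hc', hd']
    | tmul r c =>
      have e := congrArg (D r) (hc c)
      simp only [map_sum, hD] at e
      simp only [Algebra.TensorProduct.tmul_mul_tmul, mul_one, one_mul]
      rw [e]
      refine Finset.sum_congr rfl fun i _ => ?_
      have e1 : ∀ s : A, r ⊗ₜ[R] s = r • ((1 : R') ⊗ₜ[R] s) := fun s => by
        rw [smul_tmul', smul_eq_mul, mul_one]
      rw [e1 (a i), e1 (b i * c), smul_tmul]
  · have e := congrArg (D 1) h2
    simp only [map_sum, hD] at e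
    simp only [Algebra.TensorProduct.tmul_mul_tmul, mul_one]
    rw [e, Algebra.TensorProduct.one_def]

theorem wed (_h : S_SS.{u}) : S_Wed.{u} := by
  intro K A _ _ _ _ _ h
  rcases subsingleton_or_nontrivial A with hA | hA
  · exact ⟨0, ⟨default⟩⟩
  have hs : IsSimpleRing A := by
    refine isSimpleRing_iff_isTwoSided_imp.2 ⟨hA, fun I hI => ?_⟩
    by_contra hcon
    obtain ⟨h0, h1⟩ := not_or.1 hcon
    obtain ⟨r0, hr0⟩ := LinearMap.exists_leftInverse_of_injective
      (I.subtype.restrictScalars K) (LinearMap.ker_eq_bot.2 I.injective_subtype)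
    obtain ⟨r, hr⟩ := h.extend I.subtype LinearMap.id r0 fun v => LinearMap.congr_fun hr0 v
    have n1 : Nontrivial I := Submodule.nontrivial_iff_ne_bot.2 h0
    have n2 : Nontrivial (A ⧸ I) := Submodule.Quotient.nontrivial_iff.2 h1
    obtain ⟨y, hy⟩ := exists_ne (0 : I)
    obtain ⟨t, ht⟩ := exists_ne (0 : A ⧸ I)
    obtain ⟨φ, hφ⟩ := Module.Projective.exists_dual_eq_one K hy
    obtain ⟨g, hg⟩ := h.exists_ne_zero (φ.smulRight t) fun e => ht (by
      simpa [hφ] using LinearMap.congr_fun e y)
    refine hg (LinearMap.ext fun v => ?_)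
    obtain ⟨s, hs⟩ := Submodule.Quotient.mk_surjective I (g (r 1))
    have e : v = (v : A) • r 1 := by
      rw [← map_smul, smul_eq_mul, mul_one]
      exact (hr v).symm
    rw [e, map_smul, ← hs, ← Submodule.Quotient.mk_smul, LinearMap.zero_apply,
      Submodule.Quotient.mk_eq_zero]
    exact I.mul_mem_right s v.2
  obtain ⟨n, -, e⟩ := IsSimpleRing.exists_algEquiv_matrix_of_isAlgClosed K A
  exact ⟨n, e⟩

namespace WedP

open Matrix

theorem det_algHom {S ι : Type*} [CommRing S] [Fintype ι] [DecidableEq ι]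
    (θ : Matrix ι ι S →ₐ[S] Matrix ι ι S) (y : Matrix ι ι S) : (θ y).det = y.det := by
  rcases isEmpty_or_nonempty ι with hι | ⟨⟨o⟩⟩
  · rw [det_isEmpty, det_isEmpty]
  let J : Ideal S := LinearMap.ker (LinearMap.toSpanSingleton S S ((θ y).det - y.det))
  have hJ : ∀ s, s ∈ J ↔ s * ((θ y).det - y.det) = 0 := fun s => Iff.rfl
  have hE : ∀ a b, θ (single o o 1) a b ∈ J.radical := by
    intro a b
    let P : Matrix ι ι S := Matrix.of fun r i => θ (single i o 1) r b
    let Q : Matrix ι ι S := Matrix.of fun j r => θ (single o j 1) a r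
    have h1 : Q * P = θ (single o o 1) a b • (1 : Matrix ι ι S) := by
      ext j i
      have e : (Q * P) j i = θ (single o j 1 * single i o 1) a b := by
        rw [map_mul]
        rfl
      rw [e]
      by_cases hji : j = i
      · subst hji
        simp
      · simp [single_mul_single_of_ne _ _ _ _ hji, hji]
    have h2 : θ y * P = P * y := by
      ext r i
      have e : (θ y * P) r i = θ (y * single i o 1) r b := by
        rw [map_mul]
        rfl
      have e2 : y * single i o 1 = ∑ k, y k i • single k o (1 : S) := by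
        ext s t
        by_cases ht : t = o
        · subst ht
          simp [Matrix.sum_apply, single_apply]
        · simp [Matrix.sum_apply, ht, Ne.symm ht]
      rw [e, e2, map_sum, Matrix.sum_apply, mul_apply]
      refine Finset.sum_congr rfl fun k _ => ?_
      rw [map_smul, Matrix.smul_apply, smul_eq_mul, mul_comm]
      rfl
    refine ⟨Fintype.card ι, (hJ _).2 ?_⟩
    have h3 := congrArg det h1
    have h4 := congrArg det h2
    rw [det_mul, det_smul, det_one, mul_one] at h3
    rw [det_mul, det_mul] at h4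
    rw [← h3]
    linear_combination Q.det * h4
  have h1 : (1 : S) ∈ J.radical := by
    have e : (1 : Matrix ι ι S) =
        ∑ i, θ (single i o 1) * θ (single o o 1) * θ (single o i 1) := by
      simp only [← map_mul, single_mul_single_same, mul_one]
      rw [← map_sum, sum_single_one, map_one]
    have e' := congrFun (congrFun e o) o
    rw [one_apply_eq, Matrix.sum_apply] at e'
    rw [e']
    refine Ideal.sum_mem _ fun i _ => ?_
    simp only [mul_apply]
    exact Ideal.sum_mem _ fun b _ => Ideal.mul_mem_right _ _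
      (Ideal.sum_mem _ fun a _ => Ideal.mul_mem_left _ _ (hE a b))
  obtain ⟨k, hk⟩ := h1
  rw [one_pow, hJ, one_mul] at hk
  exact sub_eq_zero.1 hk

end WedP

theorem ud : S_UD.{u} := by
  intro S B _ _ _ n m Φ Φ' x
  rcases subsingleton_or_nontrivial S with hS | hS
  · exact Subsingleton.elim _ _
  have e := (Φ.symm.trans Φ').toLinearEquiv.finrank_eq
  simp only [Module.finrank_matrix, Fintype.card_fin, Module.finrank_self, mul_one] at e
  obtain rfl : n = m := Nat.mul_self_inj.1 e
  simpa using (WedP.det_algHom (Φ.symm.trans Φ').toAlgHom (Φ x)).symm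

end Pool.Agent.P.MP_46a8f8_ag
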