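import Pool.Agent.P.MP_46a8f8_ag.Asm3
import Pool.Agent.P.MP_46a8f8_ag.AzOf
import Pool.Agent.P.MP_46a8f8_ag.BC
import Pool.Agent.P.MP_46a8f8_ag.Chain
import Pool.Agent.P.MP_46a8f8_ag.Chi1
import Pool.Agent.P.MP_46a8f8_ag.Closed
import Pool.Agent.P.MP_46a8f8_ag.Cmp
import Pool.Agent.P.MP_46a8f8_ag.CoreA
import Pool.Agent.P.MP_46a8f8_ag.CoreB
import Pool.Agent.P.MP_46a8f8_ag.Curve
import Pool.Agent.P.MP_46a8f8_ag.CurveB
import Pool.Agent.P.MP_46a8f8_ag.DetP
import Pool.Agent.P.MP_46a8f8_ag.Dom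
import Pool.Agent.P.MP_46a8f8_ag.Fac
import Pool.Agent.P.MP_46a8f8_ag.H90
import Pool.Agent.P.MP_46a8f8_ag.Lat
import Pool.Agent.P.MP_46a8f8_ag.Model
import Pool.Agent.P.MP_46a8f8_ag.Nrd
import Pool.Agent.P.MP_46a8f8_ag.Pd
import Pool.Agent.P.MP_46a8f8_ag.QGeo
import Pool.Agent.P.MP_46a8f8_ag.QLift
import Pool.Agent.P.MP_46a8f8_ag.QV
import Pool.Agent.P.MP_46a8f8_ag.Reg2
import Pool.Agent.P.MP_46a8f8_ag.RegB
import Pool.Agent.P.MP_46a8f8_ag.Res
import Pool.Agent.P.MP_46a8f8_ag.Split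
import Pool.Agent.P.MP_46a8f8_ag.Struct
import Pool.Agent.P.MP_46a8f8_ag.ThS2
import Pool.Agent.P.MP_46a8f8_ag.ThS3
import Pool.Agent.P.MP_46a8f8_ag.Wed

/-!
Collecting the packages.
-/

namespace Pool.Agent.P.MP_46a8f8_ag

open TensorProduct Function IsLocalRing

universe u

theorem pk_of (hF : S_LemF.{u}) (hN : S_N2.{u}) (h1 : S_RegAt.{u}) (h2 : S_Cut.{u})
    (h3 : S_RegFlat.{u}) : Pk.{u} :=
  have hQ := regQuot h1 h2
  have hD := regDom hQ
  { azOf := azOf
    bc := bc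
    sp := sp bc
    dom := hD
    detR := detR
    n2 := hN
    lemF := hF
    chi1 := chi1
    res := res
    pdA := pdA
    pdReg := pdReg hQ hD
    len := len detP
    cmp := cmp
    regAt := h1
    closed := closed hD (regDVR hQ hD) hF
    curve := curve ka lat chain (curveB (model h2) coreA coreB fac (dom h1 h3 hD)
      (thS2 h1 (hq hQ hD) (pd2 hQ hD)) (thS3 detP))
    struct := struct
    regB := regB h1 h3 hD
    qv := qv (qgeo nagata) zmt qlift coreA coreB fac }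

theorem main_of (H : Pk.{u}) (hSS : S_SS.{u}) (B R : Type u) [CommRing B] [IsRegularLocalRing B]
    (hB : ringKrullDim B ≤ 3) [CommRing R] [IsLocalRing R] [Algebra B R]
    [IsLocalHom (algebraMap B R)] [Algebra.FormallySmooth B R] [Algebra.EssFiniteType B R]
    (A : Type u) [Ring A] [Algebra R A] [IsAzumaya R A]
    (K : Type u) [Field K] [Algebra R K] [IsFractionRing R K]
    (O : Type u) [CommRing O] [Algebra R O] (T : Torsor R A O) (hK : Nonempty (O →ₐ[R] K)) :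
    Nonempty (O →ₐ[R] R) := by
  have := Algebra.EssFiniteType.isNoetherianRing B R
  have : IsDomain R := (IsFractionRing.injective R K).isDomain _
  have : Module.Free R A := Module.free_of_flat_of_isLocalRing
  exact torsor_of_gsn azBC (wed hSS) (split azBC (wed hSS)) (nrd ud) (h90 H.lemF)
    (azOf R A) (fun Ω _ _ n Φ hS => H.smooth B hB hS) K O T hK

end Pool.Agent.P.MP_46a8f8_ag
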