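import Pool.Agent.P.MP_46a8f8_ag.St2

/-!
Faithfully flat splitting of an Azumaya algebra over a local ring.
-/

namespace Pool.Agent.P.MP_46a8f8_ag

open TensorProduct IsLocalRing Function

universe u

namespace SplitP

variable {R A : Type u} [CommRing R] [Ring A] [Algebra R A]

/-- algebra maps lift along square zero extensions -/
theorem lift_alg [Module.Projective R A] (h : Az R A) {B B' : Type u} [Ring B] [Algebra R B]
    [Ring B'] [Algebra R B'] (π : B →ₐ[R] B') (hπ : Surjective π)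
    (h2 : ∀ x y, π x = 0 → π y = 0 → x * y = 0) (f : A →ₐ[R] B') :
    ∃ ψ : A →ₐ[R] B, ∀ a, π (ψ a) = f a := by
  obtain ⟨k, a, b, h1, hc, -⟩ := h
  obtain ⟨φ, hφ⟩ := Module.projective_lifting_property π.toLinearMap f.toLinearMap hπ
  replace hφ : ∀ x, π (φ x) = f x := LinearMap.congr_fun hφ
  let c : A → A → B := fun x y => φ (x * y) - φ x * φ y
  have c0 : ∀ x y, π (c x y) = 0 := fun x y => by simp [c, hφ]
  have cr : ∀ x y z z', π z = π z' → c x y * z = c x y * z' := fun x y z z' e =>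
    sub_eq_zero.1 ((mul_sub _ _ _).symm.trans (h2 _ _ (c0 x y) (by rw [map_sub, e, sub_self])))
  let H : A → B := fun x => ∑ i, c x (a i) * φ (b i)
  have H0 : ∀ x, π (H x) = 0 := fun x => by simp [H, c0]
  let ψ : A →ₗ[R] B := φ + ∑ i, LinearMap.mulRight R (φ (b i)) ∘ₗ
    (φ ∘ₗ LinearMap.mulRight R (a i) - LinearMap.mulRight R (φ (a i)) ∘ₗ φ)
  have hψ : ∀ x, ψ x = φ x + H x := fun x => by simp [ψ, H, c]
  have e1 : ∀ x y, ∑ i, c x (y * a i) * φ (b i) = H x * φ y := fun x y => by
    have := congrArg (LinearMap.mul' R B ∘ₗ TensorProduct.map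
      (φ ∘ₗ LinearMap.mulLeft R x - LinearMap.mulLeft R (φ x) ∘ₗ φ) φ) (hc y)
    simp only [map_sum] at this
    refine this.trans ?_
    rw [Finset.sum_mul]
    refine Finset.sum_congr rfl fun i _ => ?_
    rw [mul_assoc]
    exact cr x (a i) _ _ (by simp [hφ])
  have e2 : ∀ x y, ∑ i, c x y * (φ (a i) * φ (b i)) = c x y := fun x y => by
    rw [← Finset.mul_sum, cr x y _ 1, mul_one]
    simp only [map_sum, map_mul, hφ, map_one]
    simp only [← map_mul, ← map_sum, h1, map_one]
  have hm : ∀ x y, ψ (x * y) = ψ x * ψ y := fun x y => by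
    have e3 : H (x * y) = φ x * H y + H x * φ y - c x y := by
      rw [← e1, ← e2 x y, Finset.mul_sum, ← Finset.sum_add_distrib, ← Finset.sum_sub_distrib]
      refine Finset.sum_congr rfl fun i _ => ?_
      simp only [c, mul_assoc x y]
      noncomm_ring
    rw [hψ, hψ, hψ, e3, add_mul, mul_add, mul_add, h2 _ _ (H0 x) (H0 y)]
    simp only [c]
    abel
  have hp : ∀ x, π (ψ x) = f x := fun x => by rw [hψ, map_add, H0, hφ, add_zero]
  have ho : ψ 1 = 1 := by
    have e : π (ψ 1 - 1) = 0 := by rw [map_sub, hp, map_one, map_one, sub_self]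
    have e' := h2 _ _ e e
    rw [sub_mul, mul_sub, ← hm, one_mul, mul_one, one_mul, sub_self, zero_sub, neg_eq_zero] at e'
    exact sub_eq_zero.1 e'
  exact ⟨AlgHom.ofLinearMap ψ ho hm, hp⟩

/-- the scheme of algebra maps to matrices -/
theorem exists_univ [Module.Free R A] [Module.Finite R A] (n : ℕ) :
    ∃ (U : Type u) (_ : CommRing U) (_ : Algebra R U) (φ : A →ₐ[R] Matrix (Fin n) (Fin n) U),
      Algebra.FiniteType R U ∧
      (∀ (S : Type u) [CommRing S] [Algebra R S] (ψ : A →ₐ[R] Matrix (Fin n) (Fin n) S),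
        ∃ g : U →ₐ[R] S, ∀ a i j, g (φ a i j) = ψ a i j) ∧
      ∀ (S : Type u) [CommRing S] [Algebra R S] (g g' : U →ₐ[R] S),
        (∀ a i j, g (φ a i j) = g' (φ a i j)) → g = g' := by
  let e := Module.Free.chooseBasis R A
  let P := MvPolynomial (Module.Free.ChooseBasisIndex R A × Fin n × Fin n) R
  let φ₀ : A →ₗ[R] Matrix (Fin n) (Fin n) P :=
    e.constr R fun s => Matrix.of fun i j => MvPolynomial.X (s, i, j)
  have h0 : ∀ s i j, φ₀ (e s) i j = MvPolynomial.X (s, i, j) := fun s i j => by simp [φ₀]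
  let I : Ideal P := Ideal.span {z | ∃ i j, z = (φ₀ 1 - 1) i j ∨
    ∃ a b, z = (φ₀ (a * b) - φ₀ a * φ₀ b) i j}
  let π := (Ideal.Quotient.mkₐ R I).mapMatrix (m := Fin n)
  have hπ : ∀ x y, (∀ i j, (x - y) i j ∈ I) → π x = π y := fun x y h =>
    Matrix.ext fun i j => Ideal.Quotient.eq.2 (h i j)
  refine ⟨P ⧸ I, inferInstance, inferInstance, AlgHom.ofLinearMap (π.toLinearMap ∘ₗ φ₀)
    ((hπ _ _ fun i j => Ideal.subset_span ⟨i, j, Or.inl rfl⟩).trans (map_one π))
    fun a b => (hπ _ _ fun i j => Ideal.subset_span ⟨i, j, Or.inr ⟨a, b, rfl⟩⟩).trans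
      (map_mul π _ _), inferInstance, fun S _ _ ψ => ?_, fun S _ _ g g' h => ?_⟩
  · let g₀ : P →ₐ[R] S := MvPolynomial.aeval fun t => ψ (e t.1) t.2.1 t.2.2
    have h1 : ∀ a, g₀.mapMatrix (φ₀ a) = ψ a := LinearMap.congr_fun
      (e.ext (f₁ := g₀.mapMatrix.toLinearMap ∘ₗ φ₀) (f₂ := ψ.toLinearMap) fun s =>
        Matrix.ext fun i j => (congrArg g₀ (h0 s i j)).trans (MvPolynomial.aeval_X _ _))
    refine ⟨Ideal.Quotient.liftₐ I g₀ fun z hz => ?_, fun a i j => congrFun (congrFun (h1 a) i) j⟩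
    refine (Ideal.span_le (I := RingHom.ker g₀)).2 ?_ hz
    rintro _ ⟨i, j, rfl | ⟨a, b, rfl⟩⟩
    · have : g₀.mapMatrix (φ₀ 1 - 1) = 0 := by rw [map_sub, h1, map_one, map_one, sub_self]
      exact congrFun (congrFun this i) j
    · have : g₀.mapMatrix (φ₀ (a * b) - φ₀ a * φ₀ b) = 0 := by
        rw [map_sub, h1, map_mul, map_mul, h1, h1, sub_self]
      exact congrFun (congrFun this i) j
  · refine Ideal.Quotient.algHom_ext R (MvPolynomial.algHom_ext fun t => ?_)
    rw [← h0 t.1 t.2.1 t.2.2]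
    exact h (e t.1) t.2.1 t.2.2

/-- the standard basis of matrices, reindexed -/
noncomputable def mb (S : Type u) [CommRing S] {n : ℕ} {ι : Type u} [Finite ι]
    (σ : Fin n × Fin n ≃ ι) : Module.Basis ι S (Matrix (Fin n) (Fin n) S) :=
  Module.Basis.ofEquivFun
    { toFun := fun x s => x (σ.symm s).1 (σ.symm s).2
      map_add' := fun _ _ => rfl
      map_smul' := fun _ _ => rfl
      invFun := fun y => Matrix.of fun i j => y (σ (i, j))
      left_inv := fun x => by
        ext i j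
        simp
      right_inv := fun y => by
        ext s
        simp }

theorem toMatrix_mb {S : Type u} [CommRing S] [Algebra R S] {n : ℕ} {ι : Type u} [Fintype ι]
    [DecidableEq ι] (σ : Fin n × Fin n ≃ ι) (e : Module.Basis ι R A)
    (F : S ⊗[R] A →ₗ[S] Matrix (Fin n) (Fin n) S) (s t : ι) :
    LinearMap.toMatrix (Algebra.TensorProduct.basis S e) (mb S σ) F s t =
      F (1 ⊗ₜ e t) (σ.symm s).1 (σ.symm s).2 := by
  rw [LinearMap.toMatrix_apply, Algebra.TensorProduct.basis_apply]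
  rfl

end SplitP

open SplitP

theorem split (h1 : S_AzBC.{u}) (h2 : S_Wed.{u}) : S_Split.{u} := by
  intro R A _ _ _ _ _ _ _ hA
  classical
  let k := AlgebraicClosure (ResidueField R)
  obtain ⟨n, ⟨Ψ⟩⟩ := h2 k (k ⊗[R] A) (h1 R A k hA)
  obtain ⟨U, _, _, φ, hft, hex, hun⟩ := exists_univ (R := R) (A := A) n
  have hfs : Algebra.FormallySmooth R U := by
    refine Algebra.FormallySmooth.of_comp_surjective fun S _ _ J hJ f => ?_
    obtain ⟨ψ, hψ⟩ := lift_alg hA ((Ideal.Quotient.mkₐ R J).mapMatrix (m := Fin n))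
      (fun y => by
        choose x hx using fun i j => Ideal.Quotient.mk_surjective (y i j)
        exact ⟨Matrix.of x, Matrix.ext hx⟩)
      (fun x y hx hy => Matrix.ext fun i j => by
        rw [Matrix.mul_apply]
        refine Finset.sum_eq_zero fun l _ => ?_
        rw [← Ideal.mem_bot, ← hJ, pow_two]
        exact Ideal.mul_mem_mul (Ideal.Quotient.eq_zero_iff_mem.1 (congrFun (congrFun hx i) l))
          (Ideal.Quotient.eq_zero_iff_mem.1 (congrFun (congrFun hy l) j)))
      (f.mapMatrix.comp φ)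
    obtain ⟨g, hg⟩ := hex S ψ
    exact ⟨g, hun _ _ _ fun a i j =>
      (congrArg (Ideal.Quotient.mkₐ R J) (hg a i j)).trans (congrFun (congrFun (hψ a) i) j)⟩
  have : Algebra.Smooth R U := ⟨hfs, Algebra.FinitePresentation.of_finiteType.1 hft⟩
  obtain ⟨g, hg⟩ := hex k ((Ψ.toAlgHom.restrictScalars R).comp Algebra.TensorProduct.includeRight)
  have hp : (RingHom.ker g).IsPrime := RingHom.ker_isPrime g
  let O := Localization.AtPrime (RingHom.ker g)
  let g' : O →ₐ[R] k := IsLocalization.liftAlgHom (M := (RingHom.ker g).primeCompl) (f := g)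
    fun y => IsUnit.mk0 _ y.2
  have hg' : ∀ x, g' (algebraMap U O x) = g x := fun x => IsLocalization.lift_eq _ x
  have hu : ∀ z : O, g' z ≠ 0 → IsUnit z := fun z hz => by
    obtain ⟨⟨x, s⟩, hx⟩ := IsLocalization.surj (RingHom.ker g).primeCompl z
    refine isUnit_of_mul_isUnit_left (y := algebraMap U O s) (hx ▸ ?_)
    refine (IsLocalization.AtPrime.isUnit_to_map_iff O (RingHom.ker g) x).2 fun h => ?_
    have := congrArg g' hx
    rw [map_mul, hg', hg', (RingHom.mem_ker.1 h : g x = 0)] at this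
    exact mul_ne_zero hz s.2 this
  have : IsLocalHom (algebraMap R O) := ⟨fun r hr => by
    by_contra h
    have := (hr.map g').ne_zero
    rw [AlgHom.commutes, IsScalarTower.algebraMap_apply R (ResidueField R) k,
      ResidueField.algebraMap_eq, (residue_eq_zero_iff r).2 h, map_zero] at this
    exact this rfl⟩
  let F : O ⊗[R] A →ₐ[O] Matrix (Fin n) (Fin n) O := Algebra.TensorProduct.lift
    (Algebra.ofId O _) ((IsScalarTower.toAlgHom R U O).mapMatrix.comp φ)
    fun x y => Algebra.commutes x _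
  let e := Module.Free.chooseBasis R A
  let σ := (Matrix.stdBasis k (Fin n) (Fin n)).indexEquiv
    ((Algebra.TensorProduct.basis k e).map Ψ.toLinearEquiv)
  have hd : IsUnit (LinearMap.toMatrix (Algebra.TensorProduct.basis O e) (mb O σ)
      F.toLinearMap).det := by
    refine hu _ ?_
    have := (Ψ.toLinearEquiv.isUnit_det (Algebra.TensorProduct.basis k e) (mb k σ)).ne_zero
    rw [AlgHom.map_det]
    convert this using 2
    ext s t
    rw [AlgHom.mapMatrix_apply, Matrix.map_apply, toMatrix_mb, toMatrix_mb]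
    have e1 : F (1 ⊗ₜ e t) = (φ (e t)).map (algebraMap U O) := by simp [F]
    exact (congrArg g' (congrFun (congrFun e1 _) _)).trans ((hg' _).trans (hg _ _ _))
  exact ⟨O, inferInstance, inferInstance, n, Module.FaithfullyFlat.of_flat_of_isLocalHom,
    ⟨AlgEquiv.ofBijective F (LinearEquiv.ofIsUnitDet hd).bijective⟩⟩

end Pool.Agent.P.MP_46a8f8_ag
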