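import Pool.Agent.P.MP_46a8f8_ag.Defs

/-!
Statements of the packages.
-/

namespace Pool.Agent.P.MP_46a8f8_ag

open TensorProduct Polynomial IsLocalRing Function

universe u

/-! ### Azumaya algebras -/

def S_AzOf : Prop :=
  ∀ (R A : Type u) [CommRing R] [IsLocalRing R] [Ring A] [Algebra R A] [IsAzumaya R A], Az R A

def S_BC : Prop :=
  ∀ (R A Ω R' Ω' : Type u) [CommRing R] [Ring A] [Algebra R A] [Field Ω] [Algebra R Ω]
    [CommRing R'] [Algebra R R'] [Field Ω'] [Algebra R' Ω'] [Algebra Ω Ω'] (n : ℕ)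
    (Φ : A →ₐ[R] Matrix (Fin n) (Fin n) Ω), Setup R A Ω n Φ →
    (∀ r : R, algebraMap R' Ω' (algebraMap R R' r) = algebraMap Ω Ω' (algebraMap R Ω r)) →
    Injective (algebraMap R' Ω') →
    ∃ Φ' : R' ⊗[R] A →ₐ[R'] Matrix (Fin n) (Fin n) Ω', Setup R' (R' ⊗[R] A) Ω' n Φ' ∧
      ∀ a : A, Φ' ((1 : R') ⊗ₜ[R] a) = (Φ a).map (algebraMap Ω Ω')

def S_SS : Prop :=
  ∀ (R A V W : Type u) [CommRing R] [IsLocalRing R] [Ring A] [Algebra R A]
    [AddCommGroup V] [Module A V] [Module R V] [IsScalarTower R A V] [Module.Finite R V]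
    [AddCommGroup W] [Module A W] [Module R W] [IsScalarTower R A W] [Module.Finite R W],
    Az R A → (∀ r ∈ maximalIdeal R, ∀ v : V, r • v = 0) →
    (∀ r ∈ maximalIdeal R, ∀ w : W, r • w = 0) → Module.length R V ≤ Module.length R W →
    ∃ f : V →ₗ[A] W, Injective f

def S_LemF : Prop :=
  ∀ (R A P Q : Type u) [CommRing R] [IsLocalRing R] [IsNoetherianRing R] [Ring A] [Algebra R A]
    [AddCommGroup P] [Module A P] [Module R P] [IsScalarTower R A P]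
    [AddCommGroup Q] [Module A Q] [Module R Q] [IsScalarTower R A Q] (J : Ideal R) (r : ℕ),
    Az R A → Nonempty (P ≃ₗ[R] (Fin r → R ⧸ J)) → Nonempty (Q ≃ₗ[R] (Fin r → R ⧸ J)) →
    Nonempty (P ≃ₗ[A] Q)

def S_Bass : Prop :=
  ∀ (R A : Type u) [CommRing R] [IsLocalRing R] [IsNoetherianRing R] [Ring A] [Algebra R A]
    [Module.Finite R A], Az R A → ∀ (c : A) (L : Submodule A A),
    Submodule.span A {c} ⊔ L = ⊤ → ∃ l ∈ L, IsUnit (c + l)

def S_N2 : Prop :=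
  ∀ (R A Ω : Type u) [CommRing R] [IsLocalRing R] [IsNoetherianRing R] [Ring A] [Algebra R A]
    [Field Ω] [Algebra R Ω] (n : ℕ) (Φ : A →ₐ[R] Matrix (Fin n) (Fin n) Ω), Setup R A Ω n Φ →
    ∀ (F : Type u) [AddCommGroup F] [Module A F] [Module.Free A F] [Module.Finite A F]
      (φ : F →ₗ[A] F), Bijective φ → ∃ y : Aˣ, nu Φ φ = (Φ y).det

def S_DetR : Prop :=
  ∀ (R A Ω : Type u) [CommRing R] [Ring A] [Algebra R A] [Field Ω] [Algebra R Ω] (n : ℕ)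
    (Φ : A →ₐ[R] Matrix (Fin n) (Fin n) Ω), Setup R A Ω n Φ → ∀ a : A,
    algebraMap R Ω (LinearMap.det (LinearMap.mulRight R a)) = (Φ a).det ^ n

/-! ### the invariant -/

def S_Chi1 : Prop :=
  ∀ (R A Γ : Type u) [CommRing R] [IsDomain R] [IsNoetherianRing R] [Ring A] [Algebra R A]
    [Module.Finite R A] [CommGroup Γ]
    (θ : ∀ (F : Type u) [AddCommGroup F] [Module A F], (F →ₗ[A] F) → Γ), IsTheta R θ →
    (∀ (F : Type u) [AddCommGroup F] [Module A F] [Module.Free A F] [Module.Finite A F]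
      (K : Submodule A F), Module.Projective A K → Tors R A (F ⧸ K) → Nonempty (K ≃ₗ[A] F)) →
    ∃ χ : Inv A Γ, IsAddPD R χ 1 ∧
      ∀ (F : Type u) [AddCommGroup F] [Module A F] [Module.Free A F] [Module.Finite A F]
        (φ : F →ₗ[A] F), Good R φ → χ (F ⧸ LinearMap.range φ) = θ F φ

def S_Res : Prop :=
  ∀ (R A Γ : Type u) [CommRing R] [IsDomain R] [IsNoetherianRing R] [Ring A] [Algebra R A]
    [Module.Finite R A] [CommGroup Γ],
    (∀ (r : R) (a : A), r ≠ 0 → algebraMap R A r * a = 0 → a = 0) →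
    ∀ (χ : Inv A Γ) (r : ℕ), 1 ≤ r → IsAddPD R χ r →
    ∃ χ' : Inv A Γ, IsAddPD R χ' (r + 1) ∧
      ∀ (M : Type u) [AddCommGroup M] [Module A M], Tors R A M → PD A M r → χ' M = χ M

def S_PdA : Prop :=
  ∀ (R A : Type u) [CommRing R] [IsNoetherianRing R] [Ring A] [Algebra R A] [Module.Free R A]
    [Module.Finite R A], Az R A → ∀ (r : ℕ) (M : Type u) [AddCommGroup M] [Module A M]
    [Module R M] [IsScalarTower R A M] [Module.Finite A M], PD R M r → PD A M r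

def S_DetP : Prop :=
  ∀ (R A S P Γ : Type u) [CommRing R] [IsDomain R] [IsNoetherianRing R] [Ring A] [Algebra R A]
    [Module.Finite R A] [CommRing S] [IsDomain S] [AddCommGroup P] [Module A P] [Module S P]
    [SMulCommClass A S P] [CommGroup Γ] (ψ : Inv A Γ), IsAdd R ψ →
    (∀ (s : S) (p : P), s ≠ 0 → s • p = 0 → p = 0) →
    (∀ s : S, s ≠ 0 → Tors R A (P ⧸ LinearMap.range (sA A P s))) →
    ∀ (r : ℕ) (φ : Matrix (Fin r) (Fin r) S), φ.det ≠ 0 →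
      ψ ((Fin r → P) ⧸ LinearMap.range (mA A P φ)) = ψ (P ⧸ LinearMap.range (sA A P φ.det))

def S_Len : Prop :=
  ∀ (R A : Type u) [CommRing R] [IsDomain R] [IsNoetherianRing R] [Ring A] [Algebra R A]
    [Module.Free R A] [Module.Finite R A] (𝔭 : Ideal R) [𝔭.IsPrime], 𝔭.height = 1 →
    ∃ ℓ : ∀ (M : Type u) [AddCommGroup M] [Module A M], ℕ,
      (∀ (M₁ M₂ M₃ : Type u) [AddCommGroup M₁] [Module A M₁] [AddCommGroup M₂] [Module A M₂]
        [AddCommGroup M₃] [Module A M₃] (f : M₁ →ₗ[A] M₂) (g : M₂ →ₗ[A] M₃),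
        Injective f → Exact f g → Surjective g → Tors R A M₂ → ℓ M₂ = ℓ M₁ + ℓ M₃) ∧
      (∀ (M : Type u) [AddCommGroup M] [Module A M], Tors R A M →
        (ℓ M = 0 ↔ ∀ m : M, ∃ s, s ∉ 𝔭 ∧ algebraMap R A s • m = 0)) ∧
      ∀ (a : A) (c : R), c ≠ 0 →
        Associated (LinearMap.det (LinearMap.mulRight R a)) (c ^ Module.finrank R A) →
        ℓ (A ⧸ Submodule.span A {a}) = ℓ (A ⧸ Submodule.span A {algebraMap R A c})

def S_Cmp : Prop :=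
  ∀ (R A Γ : Type u) [CommRing R] [IsDomain R] [IsNoetherianRing R] [Ring A] [Algebra R A]
    [Module.Finite R A] [CommGroup Γ] (ψ : Inv A Γ) (f : R), Az R A → IsAdd R ψ → f ≠ 0 →
    (∀ 𝔭 : Ideal R, 𝔭.IsPrime → f ∈ 𝔭 → 2 ≤ 𝔭.height → Van ψ 𝔭) →
    ∀ (ℓ : Ideal R → ∀ (M : Type u) [AddCommGroup M] [Module A M], ℕ),
      (∀ 𝔭 : Ideal R, 𝔭.IsPrime → 𝔭.height = 1 →
        (∀ (M₁ M₂ M₃ : Type u) [AddCommGroup M₁] [Module A M₁] [AddCommGroup M₂] [Module A M₂]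
          [AddCommGroup M₃] [Module A M₃] (f : M₁ →ₗ[A] M₂) (g : M₂ →ₗ[A] M₃),
          Injective f → Exact f g → Surjective g → Tors R A M₂ →
            ℓ 𝔭 M₂ = ℓ 𝔭 M₁ + ℓ 𝔭 M₃) ∧
        ∀ (M : Type u) [AddCommGroup M] [Module A M], Tors R A M →
          (ℓ 𝔭 M = 0 ↔ ∀ m : M, ∃ s, s ∉ 𝔭 ∧ algebraMap R A s • m = 0)) →
    ∀ (N : ℕ) (M M' : Type u) [AddCommGroup M] [Module A M] [AddCommGroup M'] [Module A M'],
      Module.Finite A M → Module.Finite A M' → (∀ m : M, algebraMap R A (f ^ N) • m = 0) →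
      (∀ m : M', algebraMap R A (f ^ N) • m = 0) →
      (∀ 𝔭 : Ideal R, 𝔭.IsPrime → 𝔭.height = 1 → ℓ 𝔭 M = ℓ 𝔭 M') → ψ M = ψ M'

/-! ### regular local rings -/

def S_RegAt : Prop :=
  ∀ (P O : Type u) [CommRing P] [IsNoetherianRing P] (𝔫 : Ideal P) [𝔫.IsPrime] [CommRing O]
    [Algebra P O] [IsLocalization.AtPrime O 𝔫] (d : ℕ),
    RegAt P 𝔫 d ↔ IsRegularLocalRing O ∧ ringKrullDim O = d

def S_Cut : Prop :=
  ∀ (P : Type u) [CommRing P] [IsNoetherianRing P] (𝔫 : Ideal P) [𝔫.IsPrime] (d : ℕ) (f : P),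
    RegAt P 𝔫 (d + 1) → f ∈ 𝔫 → (∀ s, s ∉ 𝔫 → s * f ∉ 𝔫 ^ 2) →
    RegAt (P ⧸ Ideal.span {f}) (𝔫.map (Ideal.Quotient.mk (Ideal.span {f}))) d

def S_RegFlat : Prop :=
  ∀ (P P' : Type u) [CommRing P] [IsNoetherianRing P] [CommRing P'] [IsNoetherianRing P']
    [Algebra P P'] (𝔫' : Ideal P') [𝔫'.IsPrime] (d : ℕ),
    Module.Flat P (Localization.AtPrime 𝔫') →
    (∀ x ∈ 𝔫', ∃ s, s ∉ 𝔫' ∧ s * x ∈ (𝔫'.comap (algebraMap P P')).map (algebraMap P P')) →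
    RegAt P (𝔫'.comap (algebraMap P P')) d → RegAt P' 𝔫' d

def S_RegQuot : Prop :=
  ∀ (O : Type u) [CommRing O] [IsRegularLocalRing O] (x : O), x ∈ maximalIdeal O →
    x ∉ maximalIdeal O ^ 2 → IsRegularLocalRing (O ⧸ Ideal.span {x}) ∧
      ringKrullDim (O ⧸ Ideal.span {x}) + 1 = ringKrullDim O

def S_RegDom : Prop :=
  ∀ (O : Type u) [CommRing O] [IsRegularLocalRing O], IsDomain O

def S_RegDVR : Prop :=
  ∀ (O : Type u) [CommRing O] [IsRegularLocalRing O], 2 ≤ ringKrullDim O →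
    ∃ J : Ideal O, J.IsPrime ∧ J ≠ ⊥ ∧ J ≠ maximalIdeal O ∧ IsPrincipalIdealRing (O ⧸ J)

def S_PdReg : Prop :=
  ∀ (d : ℕ) (O : Type u) [CommRing O] [IsRegularLocalRing O], ringKrullDim O = d →
    ∀ (M : Type u) [AddCommGroup M] [Module O M] [Module.Finite O M], PD O M d

def S_Closed : Prop :=
  ∀ (R A Γ : Type u) [CommRing R] [IsRegularLocalRing R] [Ring A] [Algebra R A]
    [Module.Free R A] [Module.Finite R A] [CommGroup Γ] (ψ : Inv A Γ),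
    2 ≤ ringKrullDim R → Az R A → IsAdd R ψ → Van ψ (maximalIdeal R)

def S_HQ : Prop :=
  ∀ (O : Type u) [CommRing O] [IsRegularLocalRing O] (𝔮 : Ideal O), ringKrullDim O = 3 →
    𝔮.IsPrime → 𝔮 ≠ maximalIdeal O →
    (∀ 𝔮' : Ideal O, 𝔮'.IsPrime → 𝔮 < 𝔮' → 𝔮' = maximalIdeal O) →
    ∀ a b : O, a ≠ 0 → (∀ e ∈ 𝔮, a ∣ b * e) → a ∣ b

def S_PD2 : Prop :=
  ∀ (O : Type u) [CommRing O] [IsRegularLocalRing O] (𝔮 : Ideal O), ringKrullDim O = 3 →
    𝔮.IsPrime → 𝔮 ≠ maximalIdeal O → ∀ (r : ℕ) (c : Fin r → O),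
    Ideal.span (Set.range c) = 𝔮 → Module.Free O (LinearMap.ker (Fintype.linearCombination O c))

/-! ### lifting modules -/

def S_CoreA : Prop :=
  ∀ (R A T D M E : Type u) [CommRing R] [Ring A] [Algebra R A] [Module.Free R A]
    [Module.Finite R A] [CommRing T] [Algebra R T] [CommRing D] [Algebra T D]
    [AddCommGroup M] [Module A M] [Module D M] [SMulCommClass A D M]
    [AddCommGroup E] [Module T E] (π : E →ₛₗ[algebraMap T D] M), Az R A →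
    (∀ (r : R) (m : M), algebraMap R A r • m = algebraMap T D (algebraMap R T r) • m) →
    Surjective π →
    (∀ e, π e = 0 ↔ e ∈ RingHom.ker (algebraMap T D) • (⊤ : Submodule T E)) →
    (∀ β₀ : M →ₗ[D] M, ∃ β : E →ₗ[T] E, ∀ e, π (β e) = β₀ (π e)) →
    ∃ (k : ℕ) (ρ : A →+* Module.End T (Fin k → E)) (ε : Module.End T (Fin k → E))
      (μ : (Fin k → E) →ₛₗ[algebraMap T D] M),
      (∀ r y, ρ (algebraMap R A r) y = algebraMap R T r • y) ∧ (∀ a, Commute (ρ a) ε) ∧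
      Surjective μ ∧ (∀ a y, μ (ρ a y) = a • μ y) ∧ (∀ y, μ (ε y) = μ y) ∧
      ∀ y, μ y = 0 → ε y ∈ RingHom.ker (algebraMap T D) • (⊤ : Submodule T (Fin k → E))

def S_CoreB : Prop :=
  ∀ (R A T D M Y : Type u) [CommRing R] [IsNoetherianRing R] [Ring A] [Algebra R A]
    [CommRing T] [Algebra R T] [CommRing D] [Algebra T D]
    [AddCommGroup M] [Module A M] [Module D M] [SMulCommClass A D M]
    [AddCommGroup Y] [Module T Y] [Module.Finite T Y] (ρ : A →+* Module.End T Y)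
    (ε : Module.End T Y) (μ : Y →ₛₗ[algebraMap T D] M), Surjective (algebraMap T D) →
    (∀ r y, ρ (algebraMap R A r) y = algebraMap R T r • y) → (∀ a, Commute (ρ a) ε) →
    Surjective μ → (∀ a y, μ (ρ a y) = a • μ y) → (∀ y, μ (ε y) = μ y) →
    (∀ y, μ y = 0 → ε y ∈ RingHom.ker (algebraMap T D) • (⊤ : Submodule T Y)) →
    ∃ (N₀ : ℕ) (H : T[X]), H.Monic ∧ H.map (algebraMap T D) = X ^ N₀ * (X - 1) ^ N₀ ∧
      ∀ (T₂ : Type u) [CommRing T₂] [Algebra T T₂] [Algebra R T₂] [IsScalarTower R T T₂]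
        [Module.Finite R T₂] (σ : T₂ →ₐ[T] D) (f g v w : T₂[X]) (δ : T₂),
        f * g = H.map (algebraMap T T₂) → v * f + w * g = C δ → IsUnit (σ δ) →
        f.map (σ : T₂ →+* D) = X ^ N₀ →
        ∃ (N : Type u) (_ : AddCommGroup N) (_ : Module A N) (_ : Module T₂ N)
          (_ : SMulCommClass A T₂ N), Module.Finite A N ∧
          (∀ (r : R) (y : N), algebraMap R A r • y = algebraMap R T₂ r • y) ∧
          ∃ (i : N →ₗ[T₂] T₂ ⊗[T] Y) (j : T₂ ⊗[T] Y →ₗ[T₂] N) (π : N →ₗ[A] M),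
            Injective i ∧ (∀ y, j (i y) = δ • y) ∧ Surjective π ∧
            ∀ y, π y = 0 ↔ y ∈ RingHom.ker (σ : T₂ →+* D) • (⊤ : Submodule T₂ N)

def S_Fac : Prop :=
  ∀ (T D : Type u) [CommRing T] [IsNoetherianRing T] [CommRing D] [Nontrivial D] [Algebra T D]
    (H : T[X]) (p q : D[X]), Surjective (algebraMap T D) → H.Monic → p.Monic → q.Monic → IsCoprime p q →
    H.map (algebraMap T D) = p * q →
    ∃ (T₂ : Type u) (_ : CommRing T₂) (_ : Algebra T T₂) (_ : Module.Finite T T₂)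
      (σ : T₂ →ₐ[T] D) (f g v w : T₂[X]) (δ δ' : T₂),
      f * g = H.map (algebraMap T T₂) ∧ v * f + w * g = C δ ∧ IsUnit (σ δ) ∧
      f.map (σ : T₂ →+* D) = p ∧ σ δ' = 1 ∧
      (∀ z, σ z = 0 → δ' * z ∈ (RingHom.ker (algebraMap T D)).map (algebraMap T T₂)) ∧
      (∀ (𝔫 : Ideal T₂) [𝔫.IsPrime], δ ∉ 𝔫 → Module.Flat T (Localization.AtPrime 𝔫)) ∧
      ∀ (Y : Type u) [AddCommGroup Y] [Module T Y] (c : T), IsSMulRegular Y c →
        ∀ z : T₂ ⊗[T] Y, algebraMap T T₂ c • z = 0 → ∃ k : ℕ, δ ^ k • z = 0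

/-! ### dimension three -/

def S_ThS2 : Prop :=
  ∀ (S : Type u) [CommRing S] [IsDomain S] [IsNoetherianRing S] [Finite (MaximalSpectrum S)]
    (q : Ideal S), q.IsPrime → q ≠ ⊥ → ¬ q.IsMaximal →
    (∀ 𝔮 : Ideal S, 𝔮.IsPrime → q < 𝔮 → 𝔮.IsMaximal) →
    (∀ 𝔫 : Ideal S, 𝔫.IsMaximal → q ≤ 𝔫 → RegAt S 𝔫 3) →
    ∃ (r : ℕ) (c : Fin r → S) (f : S) (φ : Matrix (Fin r) (Fin r) S),
      Ideal.span (Set.range c) = q ∧ f ∈ q ∧ f ≠ 0 ∧
      (∀ 𝔫 : Ideal S, 𝔫.IsMaximal → f ∈ 𝔫 → q ≤ 𝔫) ∧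
      (∀ v : Fin r → S, f ∣ ∑ i, c i * v i ↔ ∃ w, φ.mulVec w = v) ∧ Associated φ.det f

def S_ThS3 : Prop :=
  ∀ (R A S P Y M Γ : Type u) [CommRing R] [IsDomain R] [IsNoetherianRing R] [Ring A]
    [Algebra R A] [Module.Finite R A] [CommRing S] [IsDomain S] [Algebra R S] [Module.Finite R S]
    [AddCommGroup P] [Module A P] [Module S P] [SMulCommClass A S P] [Module.Finite A P]
    [AddCommGroup Y] [Module S Y] [Module.Free S Y] [Module.Finite S Y]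
    [AddCommGroup M] [Module A M] [CommGroup Γ] (ψ : Inv A Γ) (i : P →ₗ[S] Y) (j : Y →ₗ[S] P)
    (δ : S) (π : P →ₗ[A] M) (r : ℕ) (c : Fin r → S) (f : S) (φ : Matrix (Fin r) (Fin r) S),
    IsAdd R ψ → (∀ (r : R) (y : P), algebraMap R A r • y = algebraMap R S r • y) →
    Injective i → (∀ y, j (i y) = δ • y) → Surjective π →
    (∀ y, π y = 0 ↔ y ∈ Ideal.span (Set.range c) • (⊤ : Submodule S P)) →
    f ∈ Ideal.span (Set.range c) → f ≠ 0 → IsCoprime δ f →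
    (∀ v : Fin r → S, f ∣ ∑ i, c i * v i ↔ ∃ w, φ.mulVec w = v) → Associated φ.det f → ψ M = 1

def S_Dom : Prop :=
  ∀ (T T₂ D : Type u) [CommRing T] [IsNoetherianRing T] [CommRing T₂] [IsNoetherianRing T₂]
    [Algebra T T₂] [CommRing D] [IsDomain D] [Algebra T D] (σ : T₂ →ₐ[T] D) (δ δ' : T₂) (d : ℕ),
    Surjective (algebraMap T D) → IsUnit (σ δ) → σ δ' = 1 →
    (∀ z, σ z = 0 → δ' * z ∈ (RingHom.ker (algebraMap T D)).map (algebraMap T T₂)) →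
    (∀ (𝔫 : Ideal T₂) [𝔫.IsPrime], δ ∉ 𝔫 → Module.Flat T (Localization.AtPrime 𝔫)) →
    (∀ 𝔫 : Ideal D, 𝔫.IsMaximal → RegAt T (𝔫.comap (algebraMap T D)) d) →
    ∃ 𝔰 : Ideal T₂, 𝔰.IsPrime ∧ 𝔰 ≤ RingHom.ker (σ : T₂ →+* D) ∧
      ∀ 𝔫 : Ideal D, 𝔫.IsMaximal →
        RegAt (T₂ ⧸ 𝔰) ((𝔫.comap (σ : T₂ →+* D)).map (Ideal.Quotient.mk 𝔰)) d

def S_KA : Prop :=
  ∀ (D : Type u) [CommRing D] [IsDomain D] [IsNoetherianRing D] [IsLocalRing D]
    [Ring.KrullDimLE 1 D],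
    ∃ (Dt : Type u) (_ : CommRing Dt) (_ : IsDomain Dt) (_ : IsPrincipalIdealRing Dt)
      (_ : Algebra D Dt), Injective (algebraMap D Dt) ∧ Algebra.IsIntegral D Dt ∧
      Finite (MaximalSpectrum Dt) ∧
      ∀ w : Dt, ∃ a b : D, b ≠ 0 ∧ algebraMap D Dt b * w = algebraMap D Dt a

def S_Lat : Prop :=
  ∀ (D Dt M : Type u) [CommRing D] [IsDomain D] [CommRing Dt] [IsDomain Dt]
    [IsPrincipalIdealRing Dt] [Algebra D Dt] [AddCommGroup M] [Module D M] [Module.Finite D M],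
    Injective (algebraMap D Dt) →
    (∀ w : Dt, ∃ a b : D, b ≠ 0 ∧ algebraMap D Dt b * w = algebraMap D Dt a) →
    (∀ (c : D) (m : M), c ≠ 0 → c • m = 0 → m = 0) →
    ∃ (ρ : ℕ) (ι : M →ₗ[D] (Fin ρ → Dt))
      (Θ : Module.End D M →ₐ[D] Matrix (Fin ρ) (Fin ρ) Dt), Injective ι ∧
      (∀ v : Fin ρ → Dt, ∃ c : D, c ≠ 0 ∧ c • v ∈ LinearMap.range ι) ∧
      ∀ β m, ι (β m) = (Θ β).mulVec (ι m)

def S_Chain : Prop :=
  ∀ (D Dt : Type u) [CommRing D] [IsNoetherianRing D] [CommRing Dt] [IsDomain Dt]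
    [IsPrincipalIdealRing Dt] [Algebra D Dt] [Algebra.IsIntegral D Dt]
    [Finite (MaximalSpectrum Dt)] (W : Finset Dt), Injective (algebraMap D Dt) →
    (∀ w : Dt, ∃ a b : D, b ≠ 0 ∧ algebraMap D Dt b * w = algebraMap D Dt a) →
    (∀ 𝔫 : Ideal D, 𝔫.IsMaximal → Infinite (D ⧸ 𝔫)) → Emb D 3 →
    ∃ D' : Subalgebra D Dt, Module.Finite D D' ∧ (∀ w ∈ W, w ∈ D') ∧ Emb D' 3

def S_Model : Prop :=
  ∀ (R D : Type u) [CommRing R] [IsNoetherianRing R] [IsLocalRing R] [CommRing D] [Algebra R D]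
    [Module.Finite R D] (d : ℕ), RegAt R (maximalIdeal R) d → Emb D d →
    ∃ (S : Type u) (_ : CommRing S) (_ : Algebra R S) (_ : Module.Finite R S) (σ : S →ₐ[R] D),
      Surjective σ ∧ ∀ 𝔫 : Ideal D, 𝔫.IsMaximal → RegAt S (𝔫.comap (σ : S →+* D)) d

def S_CurveB : Prop :=
  ∀ (R A D M Γ : Type u) [CommRing R] [IsDomain R] [IsNoetherianRing R] [IsLocalRing R] [Ring A]
    [Algebra R A] [Module.Free R A] [Module.Finite R A] [CommRing D] [IsDomain D] [Algebra R D]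
    [Module.Finite R D] [Ring.KrullDimLE 1 D] [AddCommGroup M] [Module A M] [Module D M]
    [SMulCommClass A D M] [Module.Free D M] [Module.Finite D M] [CommGroup Γ] (ψ : Inv A Γ),
    RegAt R (maximalIdeal R) 3 → Az R A → IsAdd R ψ → ¬ IsField D → Emb D 3 →
    (∀ (r : R) (m : M), algebraMap R A r • m = algebraMap R D r • m) → ψ M = 1

def S_Curve : Prop :=
  ∀ (R A Γ : Type u) [CommRing R] [IsDomain R] [IsNoetherianRing R] [IsLocalRing R] [Ring A]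
    [Algebra R A] [Module.Free R A] [Module.Finite R A] [Infinite (ResidueField R)]
    [CommGroup Γ] (ψ : Inv A Γ) (𝔭 : Ideal R),
    RegAt R (maximalIdeal R) 3 → Az R A → IsAdd R ψ → Van ψ (maximalIdeal R) →
    𝔭.IsPrime → 𝔭 ≠ ⊥ → 𝔭 ≠ maximalIdeal R →
    (∀ 𝔮 : Ideal R, 𝔮.IsPrime → 𝔭 < 𝔮 → 𝔮 = maximalIdeal R) → Van ψ 𝔭

/-! ### smooth algebras -/

def S_Struct : Prop :=
  ∀ (B R : Type u) [CommRing B] [IsNoetherianRing B] [CommRing R] [IsLocalRing R] [Algebra B R]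
    [Algebra.FormallySmooth B R] [Algebra.EssFiniteType B R],
    ∃ (m : ℕ) (φ : MvPolynomial (Fin m) B →ₐ[B] R), EE (φ : MvPolynomial (Fin m) B →+* R)

def S_RegB : Prop :=
  ∀ (B R : Type u) [CommRing B] [IsNoetherianRing B] [IsLocalRing B] [CommRing R]
    [IsNoetherianRing R] [IsLocalRing R] [Algebra B R] [IsLocalHom (algebraMap B R)] (m e : ℕ)
    (φ : MvPolynomial (Fin m) B →ₐ[B] R), EE (φ : MvPolynomial (Fin m) B →+* R) →
    RegAt B (maximalIdeal B) e →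
    IsRegularLocalRing R ∧ ((maximalIdeal B).map (algebraMap B R)).IsPrime ∧
      RegAt R ((maximalIdeal B).map (algebraMap B R)) e

def S_Nagata : Prop :=
  ∀ (B : Type u) [CommRing B] [IsLocalRing B] (m : ℕ) (P : MvPolynomial (Fin (m + 1)) B),
    P ∉ (maximalIdeal B).map (algebraMap B (MvPolynomial (Fin (m + 1)) B)) →
    ∃ (e : MvPolynomial (Fin (m + 1)) B ≃ₐ[B] (MvPolynomial (Fin m) B)[X])
      (Q : (MvPolynomial (Fin m) B)[X]) (c : Bˣ), Q.Monic ∧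
      e P - (c : B) • Q ∈ (maximalIdeal B).map (algebraMap B (MvPolynomial (Fin m) B)[X])

def S_QGeo : Prop :=
  ∀ (B R : Type u) [CommRing B] [IsNoetherianRing B] [IsLocalRing B] [CommRing R] [IsDomain R]
    [IsNoetherianRing R] [IsLocalRing R] [Algebra B R] [IsLocalHom (algebraMap B R)] (m : ℕ)
    (φ : MvPolynomial (Fin m) B →ₐ[B] R) (𝔭 : Ideal R), EE (φ : MvPolynomial (Fin m) B →+* R) →
    ((maximalIdeal B).map (algebraMap B R)).IsPrime → 𝔭.IsPrime → 2 ≤ 𝔭.height →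
    ¬ 𝔭 ≤ (maximalIdeal B).map (algebraMap B R) →
    ∃ (R' : Type u) (_ : CommRing R') (_ : IsNoetherianRing R') (φ' : R'[X] →+* R), EE φ' ∧
      (∃ (Q : R'[X]) (N : ℕ), Q.Monic ∧
        φ' Q ^ N ∈ 𝔭 ⊔ ((maximalIdeal R).comap (φ'.comp C)).map (φ'.comp C)) ∧
      ∃ r : R', φ' (C r) ∈ 𝔭 ∧ φ' (C r) ≠ 0

def S_ZMT : Prop :=
  ∀ (R' D : Type u) [CommRing R'] [IsNoetherianRing R'] [CommRing D] [IsLocalRing D]
    [Algebra R' D] [Algebra R'[X] D] [IsScalarTower R' R'[X] D]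
    [Algebra.FormallyUnramified R'[X] D] [Algebra.EssFiniteType R'[X] D] (Q : R'[X]) (N : ℕ),
    Q.Monic → algebraMap R'[X] D Q ^ N ∈
      ((maximalIdeal D).comap (algebraMap R' D)).map (algebraMap R' D) →
    ∃ Db : Subalgebra R' D, Module.Finite R' Db ∧
      ∀ d : D, ∃ a s : D, a ∈ Db ∧ s ∈ Db ∧ IsUnit s ∧ s * d = a

def S_QLift : Prop :=
  ∀ (R' R D M : Type u) [CommRing R'] [CommRing R] [IsNoetherianRing R] [Algebra R' R]
    [Algebra R'[X] R] [IsScalarTower R' R'[X] R] [Module.Flat R'[X] R]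
    [Algebra.FormallyUnramified R'[X] R] [CommRing D] [Algebra R D] [Algebra R' D]
    [IsScalarTower R' R D] [AddCommGroup M] [Module D M] [Module.Finite D M]
    (Db : Subalgebra R' D), Surjective (algebraMap R D) → Module.Finite R' Db →
    (∀ d : D, ∃ a s : D, a ∈ Db ∧ s ∈ Db ∧ IsUnit s ∧ s * d = a) →
    ∃ (T : Type u) (_ : CommRing T) (_ : Algebra R T) (_ : Module.Finite R T) (_ : Algebra T D)
      (_ : IsScalarTower R T D) (E : Type u) (_ : AddCommGroup E) (_ : Module T E)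
      (_ : Module.Finite T E) (π : E →ₛₗ[algebraMap T D] M) (g : T), Surjective π ∧
      (∀ e, π e = 0 ↔ e ∈ RingHom.ker (algebraMap T D) • (⊤ : Submodule T E)) ∧
      (∀ β₀ : M →ₗ[D] M, ∃ β : E →ₗ[T] E, ∀ e, π (β e) = β₀ (π e)) ∧
      g ∈ RingHom.ker (algebraMap T D) ∧
      RingHom.ker (algebraMap T D) ≤ Ideal.span {g} ⊔ RingHom.ker (algebraMap T D) ^ 2 ∧
      IsSMulRegular E g ∧
      ∀ r : R', algebraMap R' D r = 0 → ∀ e : E, algebraMap R T (algebraMap R' R r) • e = 0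

def S_QV : Prop :=
  ∀ (B R A Γ : Type u) [CommRing B] [IsNoetherianRing B] [IsLocalRing B] [CommRing R]
    [IsDomain R] [IsNoetherianRing R] [IsLocalRing R] [Algebra B R] [IsLocalHom (algebraMap B R)]
    [Ring A] [Algebra R A] [Module.Free R A] [Module.Finite R A] [CommGroup Γ] (ψ : Inv A Γ)
    (m : ℕ) (φ : MvPolynomial (Fin m) B →ₐ[B] R) (𝔭 : Ideal R),
    EE (φ : MvPolynomial (Fin m) B →+* R) → ((maximalIdeal B).map (algebraMap B R)).IsPrime →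
    Az R A → IsAdd R ψ → 𝔭.IsPrime → 2 ≤ 𝔭.height →
    ¬ 𝔭 ≤ (maximalIdeal B).map (algebraMap B R) → Van ψ 𝔭

def S_Sp : Prop :=
  ∀ (R Rq A Ω : Type u) [CommRing R] [IsLocalRing R] [CommRing Rq] [Algebra R Rq]
    [Algebra R[X] Rq] [IsScalarTower R R[X] Rq]
    [IsLocalization.AtPrime Rq ((maximalIdeal R).comap (evalRingHom (0 : R)))]
    [Ring A] [Algebra R A] [Field Ω] [Algebra R Ω]
    (n : ℕ) (Φ : A →ₐ[R] Matrix (Fin n) (Fin n) Ω), Setup R A Ω n Φ →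
    ∃ (Ω' : Type u) (_ : Field Ω') (_ : Algebra Rq Ω')
      (Φ' : Rq ⊗[R] A →ₐ[Rq] Matrix (Fin n) (Fin n) Ω'),
      Setup Rq (Rq ⊗[R] A) Ω' n Φ' ∧ (GSN Φ' → GSN Φ)

end Pool.Agent.P.MP_46a8f8_ag
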